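import Mathlib

/-! Cayley graphs and almost convexity: general tools. -/

namespace Pool.Agent.Lib_helper29.AC

section Cayley
variable {G : Type*} [Group G]

/-- The Cayley graph of `G` with respect to `S` (vertices `G`, edges `{g, g s}` with `s ∈ S`). -/
def cayleyGraph (S : Set G) : SimpleGraph G := SimpleGraph.fromRel (fun g h => g⁻¹ * h ∈ S)

/-- almost convexity -/
def AlmostConvex (S : Set G) : Prop :=
  ∃ C : ℕ, ∀ (r : ℕ) (x y : G), (cayleyGraph S).dist 1 x = r → (cayleyGraph S).dist 1 y = r →
    (cayleyGraph S).dist x y = 2 →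
    ∃ p : (cayleyGraph S).Walk x y, p.length ≤ C ∧ ∀ z ∈ p.support, (cayleyGraph S).dist 1 z ≤ r

theorem adj_iff {S : Set G} {g h : G} :
    (cayleyGraph S).Adj g h ↔ g ≠ h ∧ (g⁻¹ * h ∈ S ∨ h⁻¹ * g ∈ S) := SimpleGraph.fromRel_adj _ _ _

theorem adj_or_eq {S : Set G} {g s : G} (hs : s ∈ S ∨ s⁻¹ ∈ S) :
    (cayleyGraph S).Adj g (g * s) ∨ g = g * s := by
  by_cases h : g = g * s
  · exact Or.inr h
  · refine Or.inl (adj_iff.2 ⟨h, ?_⟩)
    rcases hs with hs | hs
    · left; simpa using hs
    · right; simpa using hs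

theorem exists_walk {S : Set G} (w : List G) (hw : ∀ s ∈ w, s ∈ S ∨ s⁻¹ ∈ S) :
    ∀ (g h : G), h = g * w.prod → ∃ p : (cayleyGraph S).Walk g h, p.length ≤ w.length := by
  induction w with
  | nil =>
    rintro g h rfl
    exact ⟨SimpleGraph.Walk.nil.copy rfl (by simp), by rw [SimpleGraph.Walk.length_copy]; simp⟩
  | cons s w ih =>
    rintro g h rfl
    obtain ⟨p, hp⟩ := ih (fun t ht => hw t (List.mem_cons_of_mem _ ht)) (g * s)
      (g * (s :: w).prod) (by rw [List.prod_cons, mul_assoc])
    rcases adj_or_eq (g := g) (hw s (List.mem_cons_self ..)) with hadj | heq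
    · exact ⟨SimpleGraph.Walk.cons hadj p, by
        rw [SimpleGraph.Walk.length_cons, List.length_cons]; omega⟩
    · exact ⟨p.copy heq.symm rfl, by
        rw [SimpleGraph.Walk.length_copy, List.length_cons]; omega⟩

theorem reachable {S : Set G} (hS : Subgroup.closure S = ⊤) (g h : G) :
    (cayleyGraph S).Reachable g h := by
  have h1 : g⁻¹ * h ∈ Subgroup.closure S := by rw [hS]; trivial
  rw [← Subgroup.mem_toSubmonoid, Subgroup.closure_toSubmonoid] at h1
  obtain ⟨w, hw, hprod⟩ := Submonoid.exists_list_of_mem_closure h1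
  obtain ⟨p, -⟩ := exists_walk w (fun s hs => by simpa using hw s hs) g h
    (by rw [hprod, mul_inv_cancel_left])
  exact ⟨p⟩

theorem dist_le_word {S : Set G} (w : List G) (hw : ∀ s ∈ w, s ∈ S ∨ s⁻¹ ∈ S) {g h : G}
    (hgh : h = g * w.prod) : (cayleyGraph S).dist g h ≤ w.length := by
  obtain ⟨p, hp⟩ := exists_walk w hw g h hgh
  exact (SimpleGraph.dist_le p).trans hp

/-- a Lipschitz function bounds walk lengths -/
theorem walk_lip {S : Set G} {F : G → ℤ}
    (hF : ∀ g, ∀ s ∈ S, |F (g * s) - F g| ≤ 1) {g h : G} (p : (cayleyGraph S).Walk g h) :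
    |F h - F g| ≤ p.length := by
  induction p with
  | nil => simp
  | @cons u v w hadj p ih =>
    have h1 : |F v - F u| ≤ 1 := by
      rw [adj_iff] at hadj
      rcases hadj.2 with h | h
      · have := hF u _ h
        rwa [mul_inv_cancel_left] at this
      · have := hF v _ h
        rw [mul_inv_cancel_left, abs_sub_comm] at this
        exact this
    have h2 : F w - F u = (F w - F v) + (F v - F u) := by ring
    rw [h2, SimpleGraph.Walk.length_cons]
    push_cast
    exact (abs_add_le _ _).trans (add_le_add ih h1)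

theorem dist_lip {S : Set G} (hS : Subgroup.closure S = ⊤) {F : G → ℤ}
    (hF : ∀ g, ∀ s ∈ S, |F (g * s) - F g| ≤ 1) (g h : G) :
    |F h - F g| ≤ (cayleyGraph S).dist g h := by
  obtain ⟨p, hp⟩ := (reachable hS g h).exists_walk_length_eq_dist
  rw [← hp]
  exact walk_lip hF p

end Cayley

section Free
open FreeGroup
variable {α : Type*} [DecidableEq α]

theorem reduce_snoc {L : List (α × Bool)} (hL : FreeGroup.IsReduced L) (x : α × Bool) :
    (FreeGroup.IsReduced (L ++ [x]) ∧ reduce (L ++ [x]) = L ++ [x]) ∨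
      ∃ L', L = L' ++ [(x.1, !x.2)] ∧ reduce (L ++ [x]) = L' := by
  rcases List.eq_nil_or_concat L with rfl | ⟨L', z, rfl⟩
  · left; simp
  · by_cases h : z.1 = x.1 ∧ z.2 = !x.2
    · right
      obtain ⟨h1, h2⟩ := h
      obtain ⟨z1, z2⟩ := z
      obtain ⟨x1, x2⟩ := x
      simp only at h1 h2
      subst h1 h2
      refine ⟨L', by simp, ?_⟩
      have hstep : Red.Step (L' ++ (z1, !x2) :: (z1, !(!x2)) :: []) (L' ++ []) :=
        Red.Step.not
      have h3 := reduce.Step.eq hstep
      rw [Bool.not_not] at h3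
      have h4 : L'.concat (z1, !x2) ++ [(z1, x2)] = L' ++ [(z1, !x2), (z1, x2)] := by simp
      rw [h4, h3, List.append_nil]
      have hL' : FreeGroup.IsReduced L' := by
        unfold FreeGroup.IsReduced at hL ⊢
        rw [List.concat_eq_append, List.isChain_append] at hL
        exact hL.1
      exact hL'.reduce_eq
    · left
      have h1 : FreeGroup.IsReduced (L'.concat z ++ [x]) := by
        unfold FreeGroup.IsReduced at hL ⊢
        rw [List.isChain_append]
        refine ⟨hL, by simp, ?_⟩
        intro y hy y' hy'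
        simp only [List.concat_eq_append, List.getLast?_append, List.getLast?_singleton,
          List.head?_cons, Option.mem_def, Option.some.injEq, Option.some_or] at hy hy'
        subst hy hy'
        intro h1
        by_contra h2
        exact h ⟨h1, by cases h3 : z.2 <;> cases h4 : x.2 <;> simp_all⟩
      exact ⟨h1, h1.reduce_eq⟩

theorem toWord_mul_mk (u : FreeGroup α) (x : α × Bool) :
    (u * mk [x]).toWord = reduce (u.toWord ++ [x]) := by
  rw [toWord_mul, toWord_mk, reduce_singleton]

/-- crossing lemma: to change the first letter one has to pass through `1` -/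
theorem head_step {u : FreeGroup α} {x y : α × Bool} (hu : u ≠ 1)
    (h : (u * mk [x]).toWord.head? = some y) : u.toWord.head? = some y := by
  rw [toWord_mul_mk] at h
  rcases reduce_snoc (isReduced_toWord (x := u)) x with ⟨-, h1⟩ | ⟨L', h1, h2⟩
  · rw [h1] at h
    rw [List.head?_append] at h
    have hne : u.toWord ≠ [] := fun h0 => hu (toWord_eq_nil_iff.1 h0)
    cases hw : u.toWord with
    | nil => exact absurd hw hne
    | cons a l => rw [hw] at h; simpa using h
  · rw [h2] at h
    rw [h1, List.head?_append, h]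
    rfl

/-- `norm (v u) = norm v + norm u` if there is no cancellation -/
theorem norm_mul_of_isReduced {v u : FreeGroup α} (h : FreeGroup.IsReduced (v.toWord ++ u.toWord)) :
    (v * u).norm = v.norm + u.norm := by
  unfold FreeGroup.norm
  rw [toWord_mul, h.reduce_eq, List.length_append]

end Free

end Pool.Agent.Lib_helper29.AC
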