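import Pool.Agent.Lib_helper29.AC1

/-! A product of two groups which both map onto the free group of rank two has a finite
generating set which is not almost convex. -/

namespace Pool.Agent.Lib_helper29.AC

open FreeGroup

/-- exponent sum of the generator `i` -/
def expo (i : Fin 2) : FreeGroup (Fin 2) →* Multiplicative ℤ :=
  FreeGroup.lift (fun j => if j = i then Multiplicative.ofAdd 1 else 1)

/-- exponent sum of the generator `i`, as an integer -/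
def ee (i : Fin 2) (u : FreeGroup (Fin 2)) : ℤ := Multiplicative.toAdd (expo i u)

theorem ee_mul (i : Fin 2) (u v : FreeGroup (Fin 2)) : ee i (u * v) = ee i u + ee i v := by
  simp [ee]

theorem ee_inv (i : Fin 2) (u : FreeGroup (Fin 2)) : ee i u⁻¹ = - ee i u := by
  simp [ee]

theorem ee_one (i : Fin 2) : ee i 1 = 0 := by simp [ee]

theorem ee_pow (i : Fin 2) (u : FreeGroup (Fin 2)) (n : ℕ) : ee i (u ^ n) = n * ee i u := by
  simp [ee]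

theorem ee_of (i j : Fin 2) : ee i (of j) = if j = i then 1 else 0 := by
  unfold ee expo
  rw [FreeGroup.lift_apply_of]
  split_ifs <;> simp

theorem ee_mk_cons (i : Fin 2) (x : Fin 2 × Bool) (L : List (Fin 2 × Bool)) :
    ee i (mk (x :: L)) = ee i (mk [x]) + ee i (mk L) := by
  rw [← ee_mul, mul_mk]; rfl

theorem abs_ee_le (L : List (Fin 2 × Bool)) : |ee 0 (mk L)| + |ee 1 (mk L)| ≤ L.length := by
  induction L with
  | nil =>
    have : (mk [] : FreeGroup (Fin 2)) = 1 := rfl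
    rw [this, ee_one, ee_one]; simp
  | cons x L ih =>
    rw [ee_mk_cons 0 x L, ee_mk_cons 1 x L, List.length_cons]
    have hx : |ee 0 (mk [x])| + |ee 1 (mk [x])| = 1 := by
      obtain ⟨j, b⟩ := x
      have hb : (mk [(j, b)] : FreeGroup (Fin 2)) = if b then of j else (of j)⁻¹ := by
        cases b
        · simp [of, inv_mk, invRev]
        · rfl
      rw [hb]
      cases b <;> fin_cases j <;> simp [ee_inv, ee_of]
    have h0 := abs_add_le (ee 0 (mk [x])) (ee 0 (mk L))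
    have h1 := abs_add_le (ee 1 (mk [x])) (ee 1 (mk L))
    push_cast
    linarith

theorem abs_ee_le_norm (u : FreeGroup (Fin 2)) : |ee 0 u| + |ee 1 u| ≤ u.norm := by
  have := abs_ee_le u.toWord
  rwa [mk_toWord] at this

theorem norm_lip (u x : FreeGroup (Fin 2)) (hx : x.norm ≤ 1) :
    |((u * x).norm : ℤ) - u.norm| ≤ 1 := by
  have h1 := norm_mul_le u x
  have h2 := norm_mul_le (u * x) x⁻¹
  rw [mul_inv_cancel_right, norm_inv_eq] at h2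
  rw [abs_le]
  constructor <;> omega

section Main
variable {H₁ H₂ : Type*} [Group H₁] [Group H₂]
  (φ₁ : H₁ →* FreeGroup (Fin 2)) (φ₂ : H₂ →* FreeGroup (Fin 2))
  (a₁ b₁ : H₁) (a₂ b₂ : H₂) (K₁ : Set H₁) (K₂ : Set H₂)

/-- the generating set -/
def genS : Set (H₁ × H₂) :=
  {(a₁, a₂), (b₁, b₂), (a₁, 1), (b₁, 1)} ∪ (fun t => (t, (1 : H₂))) '' K₁ ∪
    (fun t => ((1 : H₁), t)) '' K₂

variable {φ₁ φ₂ a₁ b₁ a₂ b₂ K₁ K₂}

/-- what a generator does in the two free groups -/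
theorem genS_cases (ha₁ : φ₁ a₁ = of 0) (hb₁ : φ₁ b₁ = of 1) (ha₂ : φ₂ a₂ = of 0)
    (hb₂ : φ₂ b₂ = of 1) (hK₁ : ∀ t ∈ K₁, φ₁ t = 1) (hK₂ : ∀ t ∈ K₂, φ₂ t = 1)
    {s : H₁ × H₂} (hs : s ∈ genS a₁ b₁ a₂ b₂ K₁ K₂) :
    (φ₁ s.1 = of 0 ∧ φ₂ s.2 = of 0) ∨ (φ₁ s.1 = of 1 ∧ φ₂ s.2 = of 1) ∨
    (φ₁ s.1 = of 0 ∧ φ₂ s.2 = 1) ∨ (φ₁ s.1 = of 1 ∧ φ₂ s.2 = 1) ∨
    (φ₁ s.1 = 1 ∧ φ₂ s.2 = 1) := by
  rcases hs with (hs | ⟨t, ht, rfl⟩) | ⟨t, ht, rfl⟩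
  · simp only [Set.mem_insert_iff, Set.mem_singleton_iff] at hs
    rcases hs with rfl | rfl | rfl | rfl
    · simp [ha₁, ha₂]
    · simp [hb₁, hb₂]
    · simp [ha₁]
    · simp [hb₁]
  · simp [hK₁ t ht]
  · simp [hK₂ t ht]

theorem closure_genS (h₁ : Subgroup.closure ({a₁, b₁} ∪ K₁) = ⊤)
    (h₂ : Subgroup.closure ({a₂, b₂} ∪ K₂) = ⊤) :
    Subgroup.closure (genS a₁ b₁ a₂ b₂ K₁ K₂) = ⊤ := by
  have hmem : ∀ s, s ∈ genS a₁ b₁ a₂ b₂ K₁ K₂ →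
      s ∈ Subgroup.closure (genS a₁ b₁ a₂ b₂ K₁ K₂) := fun s hs => Subgroup.subset_closure hs
  have e1 : ∀ x : H₁, (x, (1 : H₂)) ∈ Subgroup.closure (genS a₁ b₁ a₂ b₂ K₁ K₂) := by
    have hle : Subgroup.closure ({a₁, b₁} ∪ K₁) ≤
        (Subgroup.closure (genS a₁ b₁ a₂ b₂ K₁ K₂)).comap (MonoidHom.inl H₁ H₂) := by
      rw [Subgroup.closure_le]
      rintro x ((rfl | rfl) | hx)
      · exact hmem _ (Or.inl (Or.inl (by simp)))
      · exact hmem _ (Or.inl (Or.inl (by simp)))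
      · exact hmem _ (Or.inl (Or.inr ⟨x, hx, rfl⟩))
    intro x
    have : x ∈ Subgroup.closure ({a₁, b₁} ∪ K₁) := by rw [h₁]; trivial
    exact hle this
  have e2 : ∀ y : H₂, ((1 : H₁), y) ∈ Subgroup.closure (genS a₁ b₁ a₂ b₂ K₁ K₂) := by
    have hle : Subgroup.closure ({a₂, b₂} ∪ K₂) ≤
        (Subgroup.closure (genS a₁ b₁ a₂ b₂ K₁ K₂)).comap (MonoidHom.inr H₁ H₂) := by
      rw [Subgroup.closure_le]
      rintro y ((rfl | rfl) | hy)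
      · have h3 := hmem (a₁, y) (Or.inl (Or.inl (by simp)))
        have h4 := Subgroup.mul_mem _ (Subgroup.inv_mem _ (e1 a₁)) h3
        simpa using h4
      · have h3 := hmem (b₁, y) (Or.inl (Or.inl (by simp)))
        have h4 := Subgroup.mul_mem _ (Subgroup.inv_mem _ (e1 b₁)) h3
        simpa using h4
      · exact hmem _ (Or.inr ⟨y, hy, rfl⟩)
    intro y
    have : y ∈ Subgroup.closure ({a₂, b₂} ∪ K₂) := by rw [h₂]; trivial
    exact hle this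
  rw [eq_top_iff]
  rintro ⟨x, y⟩ -
  have := Subgroup.mul_mem _ (e1 x) (e2 y)
  simpa using this

/-- the lower bound for the word length -/
def FF (φ₁ : H₁ →* FreeGroup (Fin 2)) (φ₂ : H₂ →* FreeGroup (Fin 2)) (g : H₁ × H₂) : ℤ :=
  (φ₂ g.2).norm + |ee 0 (φ₁ g.1) - ee 0 (φ₂ g.2)| + |ee 1 (φ₁ g.1) - ee 1 (φ₂ g.2)|

theorem abs_abs_add_sub (x : ℤ) {e : ℤ} (he : |e| ≤ 1) : |(|x + e| - |x|)| ≤ 1 := by
  have := abs_abs_sub_abs_le_abs_sub (x + e) x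
  rw [add_sub_cancel_left] at this
  exact this.trans he

theorem FF_lip (ha₁ : φ₁ a₁ = of 0) (hb₁ : φ₁ b₁ = of 1) (ha₂ : φ₂ a₂ = of 0)
    (hb₂ : φ₂ b₂ = of 1) (hK₁ : ∀ t ∈ K₁, φ₁ t = 1) (hK₂ : ∀ t ∈ K₂, φ₂ t = 1)
    (g s : H₁ × H₂) (hs : s ∈ genS a₁ b₁ a₂ b₂ K₁ K₂) :
    |FF φ₁ φ₂ (g * s) - FF φ₁ φ₂ g| ≤ 1 := by
  unfold FF
  rw [Prod.fst_mul, Prod.snd_mul, _root_.map_mul, _root_.map_mul, ee_mul, ee_mul, ee_mul, ee_mul]
  rcases genS_cases ha₁ hb₁ ha₂ hb₂ hK₁ hK₂ hs with ⟨h1, h2⟩ | ⟨h1, h2⟩ | ⟨h1, h2⟩ | ⟨h1, h2⟩ |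
    ⟨h1, h2⟩
  · rw [h1, h2, ee_of, ee_of]
    have := norm_lip (φ₂ g.2) (of 0) (by rw [norm_of])
    simpa using this
  · rw [h1, h2, ee_of, ee_of]
    have := norm_lip (φ₂ g.2) (of 1) (by rw [norm_of])
    simpa using this
  · rw [h1, h2, ee_of, ee_of, ee_one, ee_one, mul_one]
    have := abs_abs_add_sub (ee 0 (φ₁ g.1) - ee 0 (φ₂ g.2)) (e := 1) (by simp)
    have h3 : ee 0 (φ₁ g.1) + 1 - (ee 0 (φ₂ g.2) + 0) = ee 0 (φ₁ g.1) - ee 0 (φ₂ g.2) + 1 := by ring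
    simp only [if_true, h3]
    simpa using this
  · rw [h1, h2, ee_of, ee_of, ee_one, ee_one, mul_one]
    have := abs_abs_add_sub (ee 1 (φ₁ g.1) - ee 1 (φ₂ g.2)) (e := 1) (by simp)
    have h3 : ee 1 (φ₁ g.1) + 1 - (ee 1 (φ₂ g.2) + 0) = ee 1 (φ₁ g.1) - ee 1 (φ₂ g.2) + 1 := by ring
    simp only [if_true, h3]
    simpa using this
  · rw [h1, h2, ee_one, ee_one, mul_one]
    simp

end Main

end Pool.Agent.Lib_helper29.AC
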