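import Pool.Agent.Lib_helper29.AC2

/-! The main argument: `(H₁ × H₂, genS)` is not almost convex. -/

namespace Pool.Agent.Lib_helper29.AC

open FreeGroup

section Main
variable {H₁ H₂ : Type*} [Group H₁] [Group H₂]
  {φ₁ : H₁ →* FreeGroup (Fin 2)} {φ₂ : H₂ →* FreeGroup (Fin 2)}
  {a₁ b₁ : H₁} {a₂ b₂ : H₂} {K₁ : Set H₁} {K₂ : Set H₂}

theorem of_inv_mk (j : Fin 2) : (of j)⁻¹ = mk [(j, false)] := by
  simp [of, inv_mk, invRev]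

/-- moving along an edge of the Cayley graph -/
theorem edge_cases (ha₁ : φ₁ a₁ = of 0) (hb₁ : φ₁ b₁ = of 1) (ha₂ : φ₂ a₂ = of 0)
    (hb₂ : φ₂ b₂ = of 1) (hK₁ : ∀ t ∈ K₁, φ₁ t = 1) (hK₂ : ∀ t ∈ K₂, φ₂ t = 1)
    {g h : H₁ × H₂} (hgh : (cayleyGraph (genS a₁ b₁ a₂ b₂ K₁ K₂)).Adj g h) :
    (φ₁ h.1 = φ₁ g.1 ∨ ∃ x, φ₁ h.1 = φ₁ g.1 * mk [x]) ∧
    (φ₂ h.2 = φ₂ g.2 ∨ ∃ x, φ₂ h.2 = φ₂ g.2 * mk [x]) := by
  have key : ∀ g s : H₁ × H₂, s ∈ genS a₁ b₁ a₂ b₂ K₁ K₂ →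
      (φ₁ (g * s).1 = φ₁ g.1 ∨ ∃ j, φ₁ (g * s).1 = φ₁ g.1 * of j) ∧
      (φ₂ (g * s).2 = φ₂ g.2 ∨ ∃ j, φ₂ (g * s).2 = φ₂ g.2 * of j) := by
    intro g s hs
    rw [Prod.fst_mul, Prod.snd_mul, _root_.map_mul, _root_.map_mul]
    rcases genS_cases ha₁ hb₁ ha₂ hb₂ hK₁ hK₂ hs with ⟨h1, h2⟩ | ⟨h1, h2⟩ | ⟨h1, h2⟩ | ⟨h1, h2⟩ |
      ⟨h1, h2⟩
    · rw [h1, h2]; exact ⟨Or.inr ⟨0, rfl⟩, Or.inr ⟨0, rfl⟩⟩
    · rw [h1, h2]; exact ⟨Or.inr ⟨1, rfl⟩, Or.inr ⟨1, rfl⟩⟩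
    · rw [h1, h2, mul_one]; exact ⟨Or.inr ⟨0, rfl⟩, Or.inl rfl⟩
    · rw [h1, h2, mul_one]; exact ⟨Or.inr ⟨1, rfl⟩, Or.inl rfl⟩
    · rw [h1, h2, mul_one, mul_one]; exact ⟨Or.inl rfl, Or.inl rfl⟩
  rw [adj_iff] at hgh
  rcases hgh.2 with hm | hm
  · obtain ⟨h1, h2⟩ := key g _ hm
    rw [mul_inv_cancel_left] at h1 h2
    refine ⟨?_, ?_⟩
    · rcases h1 with h1 | ⟨j, h1⟩
      · exact Or.inl h1
      · exact Or.inr ⟨(j, true), h1⟩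
    · rcases h2 with h2 | ⟨j, h2⟩
      · exact Or.inl h2
      · exact Or.inr ⟨(j, true), h2⟩
  · obtain ⟨h1, h2⟩ := key h _ hm
    rw [mul_inv_cancel_left] at h1 h2
    refine ⟨?_, ?_⟩
    · rcases h1 with h1 | ⟨j, h1⟩
      · exact Or.inl h1.symm
      · exact Or.inr ⟨(j, false), by rw [h1, ← of_inv_mk, mul_inv_cancel_right]⟩
    · rcases h2 with h2 | ⟨j, h2⟩
      · exact Or.inl h2.symm
      · exact Or.inr ⟨(j, false), by rw [h2, ← of_inv_mk, mul_inv_cancel_right]⟩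

theorem toWord_pow_inv (j : Fin 2) (n : ℕ) :
    ((of j : FreeGroup (Fin 2)) ^ n)⁻¹.toWord = List.replicate n (j, false) := by
  rw [toWord_inv, toWord_of_pow]
  simp [invRev]

theorem isReduced_replicate (n : ℕ) (x : Fin 2 × Bool) :
    FreeGroup.IsReduced (List.replicate n x) := by
  rw [isReduced_iff_reduce_eq]
  exact reduce_replicate n x

theorem toWord_v (n : ℕ) : ((of 0 : FreeGroup (Fin 2)) ^ n * of 1).toWord =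
    List.replicate n (0, true) ++ [(1, true)] := by
  rw [toWord_mul, toWord_of_pow, toWord_of]
  apply FreeGroup.IsReduced.reduce_eq
  unfold FreeGroup.IsReduced
  rw [List.isChain_append]
  refine ⟨isReduced_replicate _ _, by simp, ?_⟩
  intro x hx y hy
  have h1 := List.mem_of_mem_getLast? hx
  rw [List.mem_replicate] at h1
  simp only [List.head?_cons, Option.mem_def, Option.some.injEq] at hy
  rw [h1.2, ← hy]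
  simp

theorem norm_v_mul (n : ℕ) (u : FreeGroup (Fin 2)) (hu : u.toWord.head? = some (0, false)) :
    (((of 0 : FreeGroup (Fin 2)) ^ n * of 1) * u).norm = n + 1 + u.norm := by
  rw [norm_mul_of_isReduced]
  · congr 1
    unfold FreeGroup.norm
    rw [toWord_v]; simp
  · rw [toWord_v]
    have h1 := isReduced_toWord (x := (of 0 : FreeGroup (Fin 2)) ^ n * of 1)
    rw [toWord_v] at h1
    unfold FreeGroup.IsReduced at h1 ⊢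
    rw [List.isChain_append]
    refine ⟨h1, isReduced_toWord, ?_⟩
    intro x hx y hy
    rw [hu] at hy
    rw [List.getLast?_append] at hx
    simp at hx hy
    rw [← hx, ← hy]
    simp

theorem replicate_append_cases {S : Set (H₁ × H₂)} {w : List (H₁ × H₂)} {s : H₁ × H₂}
    (n : ℕ) (hs : s ∈ S ∨ s⁻¹ ∈ S) (hw : ∀ t ∈ w, t ∈ S ∨ t⁻¹ ∈ S) :
    ∀ t ∈ List.replicate n s ++ w, t ∈ S ∨ t⁻¹ ∈ S := by
  intro t ht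
  rcases List.mem_append.1 ht with h | h
  · rw [(List.mem_replicate.1 h).2]; exact hs
  · exact hw t h

theorem exists_pre {V : Type*} {Γ : SimpleGraph V} {x y z : V} (p : Γ.Walk x y)
    (hz : z ∈ p.support) : ∃ q : Γ.Walk x z, q.length ≤ p.length := by
  classical
  exact ⟨p.takeUntil z hz, p.length_takeUntil_le_length hz⟩

/-- the norm of the second coordinate relative to `v` -/
def NN (H₁ : Type*) {H₂ : Type*} [Group H₂] (φ₂ : H₂ →* FreeGroup (Fin 2))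
    (v : FreeGroup (Fin 2)) (g : H₁ × H₂) : ℤ := ((v⁻¹ * φ₂ g.2).norm : ℤ)

theorem NN_lip (ha₁ : φ₁ a₁ = of 0) (hb₁ : φ₁ b₁ = of 1) (ha₂ : φ₂ a₂ = of 0)
    (hb₂ : φ₂ b₂ = of 1) (hK₁ : ∀ t ∈ K₁, φ₁ t = 1) (hK₂ : ∀ t ∈ K₂, φ₂ t = 1)
    (v : FreeGroup (Fin 2)) (g s : H₁ × H₂) (hs : s ∈ genS a₁ b₁ a₂ b₂ K₁ K₂) :
    |NN H₁ φ₂ v (g * s) - NN H₁ φ₂ v g| ≤ 1 := by
  unfold NN
  rw [Prod.snd_mul, _root_.map_mul, ← mul_assoc]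
  apply norm_lip
  rcases genS_cases ha₁ hb₁ ha₂ hb₂ hK₁ hK₂ hs with ⟨-, h1⟩ | ⟨-, h1⟩ | ⟨-, h1⟩ | ⟨-, h1⟩ |
    ⟨-, h1⟩ <;> rw [h1]
  · exact (FreeGroup.norm_of _).le
  · exact (FreeGroup.norm_of _).le
  · rw [FreeGroup.norm_one]; exact Nat.zero_le _
  · rw [FreeGroup.norm_one]; exact Nat.zero_le _
  · rw [FreeGroup.norm_one]; exact Nat.zero_le _

/-- the second factor: near `P` the second coordinate stays behind `a^(n+1) b` -/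
theorem second_factor (ha₁ : φ₁ a₁ = of 0) (hb₁ : φ₁ b₁ = of 1) (ha₂ : φ₂ a₂ = of 0)
    (hb₂ : φ₂ b₂ = of 1) (hK₁ : ∀ t ∈ K₁, φ₁ t = 1) (hK₂ : ∀ t ∈ K₂, φ₂ t = 1)
    (n : ℕ) (v : FreeGroup (Fin 2)) {P z : H₁ × H₂}
    (q : (cayleyGraph (genS a₁ b₁ a₂ b₂ K₁ K₂)).Walk P z) (hq : q.length ≤ n)
    (hP : φ₂ P.2 = v * (of 0 ^ (n + 1))⁻¹) :
    (v⁻¹ * φ₂ z.2).toWord.head? = some (0, false) := by
  by_contra hne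
  obtain ⟨e, he, hen, hem⟩ := q.exists_boundary_dart
    {g : H₁ × H₂ | (v⁻¹ * φ₂ g.2).toWord.head? = some (0, false)}
    (by
      rw [Set.mem_ofPred_eq, hP, inv_mul_cancel_left, toWord_pow_inv]
      simp [List.replicate_succ])
    (by rw [Set.mem_ofPred_eq]; exact hne)
  rw [Set.mem_ofPred_eq] at hen hem
  have hone : v⁻¹ * φ₂ e.snd.2 = 1 := by
    by_contra hne'
    rcases (edge_cases ha₁ hb₁ ha₂ hb₂ hK₁ hK₂ e.adj.symm).2 with h | ⟨x, h⟩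
    · rw [h] at hen; exact hem hen
    · rw [h, ← mul_assoc] at hen
      exact hem (head_step hne' hen)
  have hes : e.snd ∈ q.support := q.dart_snd_mem_support_of_mem_darts he
  obtain ⟨q', hq'⟩ := exists_pre q hes
  have hw := walk_lip (NN_lip ha₁ hb₁ ha₂ hb₂ hK₁ hK₂ v) q'
  have hn1 : NN H₁ φ₂ v e.snd = 0 := by
    unfold NN; rw [hone, FreeGroup.norm_one]; rfl
  have hn2 : NN H₁ φ₂ v P = n + 1 := by
    unfold NN; rw [hP, inv_mul_cancel_left, FreeGroup.norm_inv_eq, FreeGroup.norm_of_pow]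
    push_cast; rfl
  rw [hn1, hn2] at hw
  have hw2 := (abs_le.1 hw).1
  omega

/-- the first factor: a walk from `b^{-n}` to `b^{-(n+1)} a` passes over `b^{-(n+1)}` -/
theorem first_factor (ha₁ : φ₁ a₁ = of 0) (hb₁ : φ₁ b₁ = of 1) (ha₂ : φ₂ a₂ = of 0)
    (hb₂ : φ₂ b₂ = of 1) (hK₁ : ∀ t ∈ K₁, φ₁ t = 1) (hK₂ : ∀ t ∈ K₂, φ₂ t = 1)
    (n : ℕ) {P Q : H₁ × H₂}
    (p : (cayleyGraph (genS a₁ b₁ a₂ b₂ K₁ K₂)).Walk P Q)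
    (hP : φ₁ P.1 = ((of 1 : FreeGroup (Fin 2)) ^ n)⁻¹)
    (hQ : φ₁ Q.1 = ((of 1 : FreeGroup (Fin 2)) ^ (n + 1))⁻¹ * of 0) :
    ∃ z ∈ p.support, φ₁ z.1 = ((of 1 : FreeGroup (Fin 2)) ^ (n + 1))⁻¹ := by
  obtain ⟨d, hd, hdn, hdm⟩ := p.exists_boundary_dart
    {g : H₁ × H₂ | ((of 1 : FreeGroup (Fin 2)) ^ (n + 1) * φ₁ g.1).toWord.head? ≠ some (0, true)}
    (by
      rw [Set.mem_ofPred_eq, hP, pow_succ', mul_assoc, mul_inv_cancel, mul_one, toWord_of]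
      simp)
    (by
      rw [Set.mem_ofPred_eq, hQ, mul_inv_cancel_left, toWord_of]
      simp)
  rw [Set.mem_ofPred_eq] at hdn hdm
  rw [not_not] at hdm
  refine ⟨d.fst, p.dart_fst_mem_support_of_mem_darts hd, ?_⟩
  by_contra hne
  have hne' : (of 1 : FreeGroup (Fin 2)) ^ (n + 1) * φ₁ d.fst.1 ≠ 1 := by
    intro h0
    exact hne (eq_inv_of_mul_eq_one_right h0)
  rcases (edge_cases ha₁ hb₁ ha₂ hb₂ hK₁ hK₂ d.adj).1 with h | ⟨x, h⟩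
  · rw [h] at hdm; exact hdn hdm
  · rw [h, ← mul_assoc] at hdm
    exact hdn (head_step hne' hdm)

/-- the value of the lower bound at the crossing point -/
theorem FF_cross (n : ℕ) {z : H₁ × H₂}
    (h1 : φ₁ z.1 = ((of 1 : FreeGroup (Fin 2)) ^ (n + 1))⁻¹)
    (h2 : ((of 0 ^ (n + 1) * of 1 : FreeGroup (Fin 2))⁻¹ * φ₂ z.2).toWord.head? =
      some (0, false)) : (3 * n + 5 : ℤ) ≤ FF φ₁ φ₂ z := by
  obtain ⟨v, hv⟩ : ∃ v : FreeGroup (Fin 2), v = of 0 ^ (n + 1) * of 1 := ⟨_, rfl⟩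
  rw [← hv] at h2
  have hφz2 : φ₂ z.2 = v * (v⁻¹ * φ₂ z.2) := by rw [mul_inv_cancel_left]
  obtain ⟨u, hu⟩ : ∃ u, u = v⁻¹ * φ₂ z.2 := ⟨_, rfl⟩
  rw [← hu] at hφz2 h2
  unfold FF
  have h3 := norm_v_mul (n + 1) u h2
  rw [← hv] at h3
  rw [h1, hφz2, h3]
  have e0 : ee 0 (((of 1 : FreeGroup (Fin 2)) ^ (n + 1))⁻¹) = 0 := by
    rw [ee_inv, ee_pow, ee_of]; simp
  have e1 : ee 1 (((of 1 : FreeGroup (Fin 2)) ^ (n + 1))⁻¹) = -(n + 1) := by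
    rw [ee_inv, ee_pow, ee_of]; simp
  have e2 : ee 0 (v * u) = (n + 1) + ee 0 u := by
    rw [hv, ee_mul, ee_mul, ee_pow, ee_of, ee_of]; simp
  have e3 : ee 1 (v * u) = 1 + ee 1 u := by
    rw [hv, ee_mul, ee_mul, ee_pow, ee_of, ee_of]; simp
  rw [e0, e1, e2, e3]
  have h4 := abs_ee_le_norm u
  have h5 := neg_abs_le (ee 0 u)
  have h6 := neg_abs_le (ee 1 u)
  have h7 := neg_le_abs (0 - (((n : ℤ) + 1) + ee 0 u))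
  have h8 := neg_le_abs (-((n : ℤ) + 1) - (1 + ee 1 u))
  push_cast
  linarith

theorem FF_P (n : ℕ) {P : H₁ × H₂} (h1 : φ₁ P.1 = ((of 1 : FreeGroup (Fin 2)) ^ n)⁻¹)
    (h2 : φ₂ P.2 = (of 0 : FreeGroup (Fin 2)) ^ (n + 1) * of 1 * ((of 0) ^ (n + 1))⁻¹) :
    FF φ₁ φ₂ P = 3 * n + 4 := by
  unfold FF
  rw [h1, h2, norm_v_mul (n + 1) _ (by rw [toWord_pow_inv]; simp [List.replicate_succ])]
  simp only [ee_mul, ee_inv, ee_pow, ee_of, norm_inv_eq, norm_of_pow]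
  simp
  rw [abs_of_nonpos (by omega)]
  ring

theorem FF_Q (n : ℕ) {Q : H₁ × H₂}
    (h1 : φ₁ Q.1 = ((of 1 : FreeGroup (Fin 2)) ^ (n + 1))⁻¹ * of 0)
    (h2 : φ₂ Q.2 = (of 0 : FreeGroup (Fin 2)) ^ (n + 1) * of 1 * ((of 0) ^ n)⁻¹) :
    FF φ₁ φ₂ Q = 3 * n + 4 := by
  rcases Nat.eq_zero_or_pos n with rfl | hnpos
  · unfold FF
    rw [h1, h2]
    have h1 : ((of 0 : FreeGroup (Fin 2)) ^ (0 + 1) * of 1 * ((of 0) ^ 0)⁻¹) =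
        (of 0 : FreeGroup (Fin 2)) ^ (0 + 1) * of 1 := by simp
    have h2 : ((of 0 : FreeGroup (Fin 2)) ^ (0 + 1) * of 1).norm = 2 := by
      unfold FreeGroup.norm
      rw [toWord_v]; simp
    rw [h1, h2]
    simp only [ee_mul, ee_inv, ee_pow, ee_of]
    simp
  · unfold FF
    rw [h1, h2, norm_v_mul (n + 1) _ (by
      rw [toWord_pow_inv]
      obtain ⟨m, rfl⟩ : ∃ m, n = m + 1 := ⟨n - 1, by omega⟩
      simp [List.replicate_succ])]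
    simp only [ee_mul, ee_inv, ee_pow, ee_of, norm_inv_eq, norm_of_pow]
    simp
    rw [abs_of_nonpos (by omega)]
    ring

theorem dist_P_le (n : ℕ) :
    (cayleyGraph (genS a₁ b₁ a₂ b₂ K₁ K₂)).dist 1
      ((b₁ ^ n)⁻¹, a₂ ^ (n + 1) * b₂ * (a₂ ^ (n + 1))⁻¹) ≤ 3 * n + 4 := by
  have gaa : ((a₁, a₂) : H₁ × H₂) ∈ genS a₁ b₁ a₂ b₂ K₁ K₂ := Or.inl (Or.inl (by simp))
  have gbb : ((b₁, b₂) : H₁ × H₂) ∈ genS a₁ b₁ a₂ b₂ K₁ K₂ := Or.inl (Or.inl (by simp))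
  have gb1 : ((b₁, 1) : H₁ × H₂) ∈ genS a₁ b₁ a₂ b₂ K₁ K₂ := Or.inl (Or.inl (by simp))
  have := dist_le_word (S := genS a₁ b₁ a₂ b₂ K₁ K₂) (g := 1)
    (h := ((b₁ ^ n)⁻¹, a₂ ^ (n + 1) * b₂ * (a₂ ^ (n + 1))⁻¹))
    (List.replicate (n + 1) (a₁, a₂) ++ (List.replicate 1 (b₁, b₂) ++
      (List.replicate 1 (b₁, 1)⁻¹ ++ (List.replicate (n + 1) (a₁, a₂)⁻¹ ++
        (List.replicate n (b₁, 1)⁻¹ ++ []))))) ?_ ?_
  · simp only [List.length_append, List.length_replicate, List.length_nil] at this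
    omega
  · refine replicate_append_cases _ (Or.inl gaa) (replicate_append_cases _ (Or.inl gbb)
      (replicate_append_cases _ (Or.inr (by rw [inv_inv]; exact gb1)) (replicate_append_cases _
        (Or.inr (by rw [inv_inv]; exact gaa)) (replicate_append_cases _
          (Or.inr (by rw [inv_inv]; exact gb1)) (by simp)))))
  · simp only [List.prod_append, List.prod_replicate, List.prod_nil]
    ext
    · simp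
    · simp [mul_assoc]

theorem dist_Q_le (n : ℕ) :
    (cayleyGraph (genS a₁ b₁ a₂ b₂ K₁ K₂)).dist 1
      ((b₁ ^ (n + 1))⁻¹ * a₁, a₂ ^ (n + 1) * b₂ * (a₂ ^ n)⁻¹) ≤ 3 * n + 4 := by
  have gaa : ((a₁, a₂) : H₁ × H₂) ∈ genS a₁ b₁ a₂ b₂ K₁ K₂ := Or.inl (Or.inl (by simp))
  have gbb : ((b₁, b₂) : H₁ × H₂) ∈ genS a₁ b₁ a₂ b₂ K₁ K₂ := Or.inl (Or.inl (by simp))
  have gb1 : ((b₁, 1) : H₁ × H₂) ∈ genS a₁ b₁ a₂ b₂ K₁ K₂ := Or.inl (Or.inl (by simp))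
  have := dist_le_word (S := genS a₁ b₁ a₂ b₂ K₁ K₂) (g := 1)
    (h := ((b₁ ^ (n + 1))⁻¹ * a₁, a₂ ^ (n + 1) * b₂ * (a₂ ^ n)⁻¹))
    (List.replicate (n + 1) (b₁, 1)⁻¹ ++ (List.replicate (n + 1) (a₁, a₂) ++
      (List.replicate 1 (b₁, b₂) ++ (List.replicate 1 (b₁, 1)⁻¹ ++
        (List.replicate n (a₁, a₂)⁻¹ ++ []))))) ?_ ?_
  · simp only [List.length_append, List.length_replicate, List.length_nil] at this
    omega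
  · refine replicate_append_cases _ (Or.inr (by rw [inv_inv]; exact gb1))
      (replicate_append_cases _ (Or.inl gaa) (replicate_append_cases _ (Or.inl gbb)
        (replicate_append_cases _ (Or.inr (by rw [inv_inv]; exact gb1))
          (replicate_append_cases _ (Or.inr (by rw [inv_inv]; exact gaa)) (by simp)))))
  · simp only [List.prod_append, List.prod_replicate, List.prod_nil]
    ext
    · have ha : a₁ ^ (n + 1) * (a₁ ^ n)⁻¹ = a₁ := by rw [pow_succ', mul_inv_cancel_right]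
      simp [ha]
    · simp [mul_assoc]

theorem dist_PQ_le (n : ℕ) :
    (cayleyGraph (genS a₁ b₁ a₂ b₂ K₁ K₂)).dist
      ((b₁ ^ n)⁻¹, a₂ ^ (n + 1) * b₂ * (a₂ ^ (n + 1))⁻¹)
      ((b₁ ^ (n + 1))⁻¹ * a₁, a₂ ^ (n + 1) * b₂ * (a₂ ^ n)⁻¹) ≤ 2 := by
  have gaa : ((a₁, a₂) : H₁ × H₂) ∈ genS a₁ b₁ a₂ b₂ K₁ K₂ := Or.inl (Or.inl (by simp))
  have gb1 : ((b₁, 1) : H₁ × H₂) ∈ genS a₁ b₁ a₂ b₂ K₁ K₂ := Or.inl (Or.inl (by simp))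
  have := dist_le_word (S := genS a₁ b₁ a₂ b₂ K₁ K₂)
    (g := ((b₁ ^ n)⁻¹, a₂ ^ (n + 1) * b₂ * (a₂ ^ (n + 1))⁻¹))
    (h := ((b₁ ^ (n + 1))⁻¹ * a₁, a₂ ^ (n + 1) * b₂ * (a₂ ^ n)⁻¹)) [(b₁, 1)⁻¹, (a₁, a₂)] ?_ ?_
  · simpa using this
  · intro s hs
    simp only [List.mem_cons, List.not_mem_nil, or_false] at hs
    rcases hs with rfl | rfl
    · right; rw [inv_inv]; exact gb1
    · left; exact gaa
  · ext
    · simp [pow_succ', mul_assoc]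
    · have ha : (a₂ ^ n)⁻¹ = (a₂ ^ (n + 1))⁻¹ * a₂ := by
        rw [pow_succ', mul_inv_rev, mul_assoc, inv_mul_cancel, mul_one]
      simp [ha, mul_assoc]

/-- difference of the exponent sums of the first coordinate -/
def DD {H₁ : Type*} (H₂ : Type*) [Group H₁] (φ₁ : H₁ →* FreeGroup (Fin 2)) (g : H₁ × H₂) : ℤ :=
  ee 0 (φ₁ g.1) - ee 1 (φ₁ g.1)

theorem DD_lip (ha₁ : φ₁ a₁ = of 0) (hb₁ : φ₁ b₁ = of 1) (ha₂ : φ₂ a₂ = of 0)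
    (hb₂ : φ₂ b₂ = of 1) (hK₁ : ∀ t ∈ K₁, φ₁ t = 1) (hK₂ : ∀ t ∈ K₂, φ₂ t = 1)
    (g s : H₁ × H₂) (hs : s ∈ genS a₁ b₁ a₂ b₂ K₁ K₂) :
    |DD H₂ φ₁ (g * s) - DD H₂ φ₁ g| ≤ 1 := by
  unfold DD
  rw [Prod.fst_mul, _root_.map_mul, ee_mul, ee_mul]
  rcases genS_cases ha₁ hb₁ ha₂ hb₂ hK₁ hK₂ hs with ⟨h1, -⟩ | ⟨h1, -⟩ | ⟨h1, -⟩ | ⟨h1, -⟩ |
    ⟨h1, -⟩ <;> rw [h1] <;> simp [ee_of, ee_one]

theorem dist_PQ_ge (ha₁ : φ₁ a₁ = of 0) (hb₁ : φ₁ b₁ = of 1) (ha₂ : φ₂ a₂ = of 0)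
    (hb₂ : φ₂ b₂ = of 1) (hK₁ : ∀ t ∈ K₁, φ₁ t = 1) (hK₂ : ∀ t ∈ K₂, φ₂ t = 1)
    (hS : Subgroup.closure (genS a₁ b₁ a₂ b₂ K₁ K₂) = ⊤) (n : ℕ) {P Q : H₁ × H₂}
    (hP : φ₁ P.1 = ((of 1 : FreeGroup (Fin 2)) ^ n)⁻¹)
    (hQ : φ₁ Q.1 = ((of 1 : FreeGroup (Fin 2)) ^ (n + 1))⁻¹ * of 0) :
    2 ≤ (cayleyGraph (genS a₁ b₁ a₂ b₂ K₁ K₂)).dist P Q := by
  have h2 := dist_lip hS (DD_lip ha₁ hb₁ ha₂ hb₂ hK₁ hK₂) P Q
  unfold DD at h2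
  rw [hP, hQ] at h2
  simp only [ee_mul, ee_inv, ee_pow, ee_of] at h2
  simp at h2
  have h3 : (2 : ℤ) ≤ (cayleyGraph (genS a₁ b₁ a₂ b₂ K₁ K₂)).dist P Q := by
    refine le_trans ?_ h2
    refine le_trans ?_ (le_abs_self _)
    omega
  exact_mod_cast h3

theorem not_ac (ha₁ : φ₁ a₁ = of 0) (hb₁ : φ₁ b₁ = of 1) (ha₂ : φ₂ a₂ = of 0)
    (hb₂ : φ₂ b₂ = of 1) (hK₁ : ∀ t ∈ K₁, φ₁ t = 1) (hK₂ : ∀ t ∈ K₂, φ₂ t = 1)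
    (h₁ : Subgroup.closure ({a₁, b₁} ∪ K₁) = ⊤)
    (h₂ : Subgroup.closure ({a₂, b₂} ∪ K₂) = ⊤) :
    ¬ AlmostConvex (genS a₁ b₁ a₂ b₂ K₁ K₂) := by
  rintro ⟨n, hn⟩
  have hS : Subgroup.closure (genS a₁ b₁ a₂ b₂ K₁ K₂) = ⊤ := closure_genS h₁ h₂
  have hFlip := FF_lip (φ₁ := φ₁) (φ₂ := φ₂) ha₁ hb₁ ha₂ hb₂ hK₁ hK₂
  have hF1 : FF φ₁ φ₂ (1 : H₁ × H₂) = 0 := by
    unfold FF
    simp [ee_one]
  have hFle : ∀ g : H₁ × H₂, FF φ₁ φ₂ g ≤ (cayleyGraph (genS a₁ b₁ a₂ b₂ K₁ K₂)).dist 1 g := by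
    intro g
    have := dist_lip hS hFlip 1 g
    rw [hF1, sub_zero] at this
    exact (le_abs_self _).trans this
  obtain ⟨P, hP⟩ : ∃ P : H₁ × H₂, P = ((b₁ ^ n)⁻¹, a₂ ^ (n + 1) * b₂ * (a₂ ^ (n + 1))⁻¹) := ⟨_, rfl⟩
  obtain ⟨Q, hQ⟩ : ∃ Q : H₁ × H₂, Q = ((b₁ ^ (n + 1))⁻¹ * a₁, a₂ ^ (n + 1) * b₂ * (a₂ ^ n)⁻¹) :=
    ⟨_, rfl⟩
  have hφP1 : φ₁ P.1 = ((of 1 : FreeGroup (Fin 2)) ^ n)⁻¹ := by rw [hP]; simp [hb₁]
  have hφP2 : φ₂ P.2 = (of 0 : FreeGroup (Fin 2)) ^ (n + 1) * of 1 * ((of 0) ^ (n + 1))⁻¹ := by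
    rw [hP]; simp [ha₂, hb₂]
  have hφQ1 : φ₁ Q.1 = ((of 1 : FreeGroup (Fin 2)) ^ (n + 1))⁻¹ * of 0 := by
    rw [hQ]; simp [ha₁, hb₁]
  have hφQ2 : φ₂ Q.2 = (of 0 : FreeGroup (Fin 2)) ^ (n + 1) * of 1 * ((of 0) ^ n)⁻¹ := by
    rw [hQ]; simp [ha₂, hb₂]
  have dP : (cayleyGraph (genS a₁ b₁ a₂ b₂ K₁ K₂)).dist 1 P = 3 * n + 4 := by
    have h3 := hFle P
    rw [FF_P n hφP1 hφP2] at h3
    have h4 := dist_P_le (a₁ := a₁) (b₁ := b₁) (a₂ := a₂) (b₂ := b₂) (K₁ := K₁) (K₂ := K₂) n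
    rw [← hP] at h4
    omega
  have dQ : (cayleyGraph (genS a₁ b₁ a₂ b₂ K₁ K₂)).dist 1 Q = 3 * n + 4 := by
    have h3 := hFle Q
    rw [FF_Q n hφQ1 hφQ2] at h3
    have h4 := dist_Q_le (a₁ := a₁) (b₁ := b₁) (a₂ := a₂) (b₂ := b₂) (K₁ := K₁) (K₂ := K₂) n
    rw [← hQ] at h4
    omega
  have dPQ : (cayleyGraph (genS a₁ b₁ a₂ b₂ K₁ K₂)).dist P Q = 2 := by
    have h3 := dist_PQ_ge ha₁ hb₁ ha₂ hb₂ hK₁ hK₂ hS n hφP1 hφQ1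
    have h4 := dist_PQ_le (a₁ := a₁) (b₁ := b₁) (a₂ := a₂) (b₂ := b₂) (K₁ := K₁) (K₂ := K₂) n
    rw [← hP, ← hQ] at h4
    omega
  obtain ⟨p, hp, hsupp⟩ := hn (3 * n + 4) P Q dP dQ dPQ
  obtain ⟨z, hz, hz1⟩ := first_factor ha₁ hb₁ ha₂ hb₂ hK₁ hK₂ n p hφP1 hφQ1
  obtain ⟨q, hq⟩ := exists_pre p hz
  have hz2 := second_factor ha₁ hb₁ ha₂ hb₂ hK₁ hK₂ n _ q (hq.trans hp) hφP2
  have h5 := FF_cross n hz1 hz2
  have h7 := hFle z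
  have h8 := hsupp z hz
  omega

end Main

end Pool.Agent.Lib_helper29.AC
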