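import Pool.Agent.Lib_helper29.AC3

/-! Products of groups that map onto a free group of rank two; surface groups. -/

namespace Pool.Agent.Lib_helper29.AC

open FreeGroup

theorem exists_gen {H : Type*} [Group H] [hH : Group.FG H] (φ : H →* FreeGroup (Fin 2))
    (hφ : Function.Surjective φ) : ∃ (a b : H) (K : Set H), K.Finite ∧ φ a = of 0 ∧ φ b = of 1 ∧
      (∀ t ∈ K, φ t = 1) ∧ Subgroup.closure ({a, b} ∪ K) = ⊤ := by
  obtain ⟨a, ha⟩ := hφ (of 0)
  obtain ⟨b, hb⟩ := hφ (of 1)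
  obtain ⟨T, hT, hTfin⟩ := Group.fg_iff.1 hH
  let ψ : FreeGroup (Fin 2) →* H := FreeGroup.lift ![a, b]
  have hψ0 : ψ (of 0) = a := by simp [ψ]
  have hψ1 : ψ (of 1) = b := by simp [ψ]
  have hcomp : φ.comp ψ = MonoidHom.id _ := by
    apply FreeGroup.ext_hom
    intro i
    fin_cases i
    · show φ (ψ (of 0)) = of 0
      rw [hψ0, ha]
    · show φ (ψ (of 1)) = of 1
      rw [hψ1, hb]
  have hψφ : ∀ u, φ (ψ u) = u := fun u => DFunLike.congr_fun hcomp u
  refine ⟨a, b, (fun t => t * (ψ (φ t))⁻¹) '' T, hTfin.image _, ha, hb, ?_, ?_⟩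
  · rintro _ ⟨t, -, rfl⟩
    show φ (t * (ψ (φ t))⁻¹) = 1
    rw [_root_.map_mul, _root_.map_inv, hψφ, mul_inv_cancel]
  · rw [eq_top_iff, ← hT, Subgroup.closure_le]
    intro t ht
    have hmem : ∀ s ∈ ({a, b} ∪ (fun t => t * (ψ (φ t))⁻¹) '' T : Set H),
        s ∈ Subgroup.closure ({a, b} ∪ (fun t => t * (ψ (φ t))⁻¹) '' T : Set H) :=
      fun s hs => Subgroup.subset_closure hs
    have h1 : ∀ u, ψ u ∈ Subgroup.closure ({a, b} ∪ (fun t => t * (ψ (φ t))⁻¹) '' T : Set H) := by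
      intro u
      have hle : (⊤ : Subgroup (FreeGroup (Fin 2))) ≤
          (Subgroup.closure ({a, b} ∪ (fun t => t * (ψ (φ t))⁻¹) '' T : Set H)).comap ψ := by
        rw [← FreeGroup.closure_range_of, Subgroup.closure_le]
        rintro _ ⟨i, rfl⟩
        rw [SetLike.mem_coe, Subgroup.mem_comap]
        fin_cases i
        · have : ψ (of 0) ∈ Subgroup.closure
              ({a, b} ∪ (fun t => t * (ψ (φ t))⁻¹) '' T : Set H) := by
            rw [hψ0]; exact hmem _ (Or.inl (by simp))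
          exact this
        · have : ψ (of 1) ∈ Subgroup.closure
              ({a, b} ∪ (fun t => t * (ψ (φ t))⁻¹) '' T : Set H) := by
            rw [hψ1]; exact hmem _ (Or.inl (by simp))
          exact this
      exact hle trivial
    have h2 := Subgroup.mul_mem _ (hmem _ (Or.inr ⟨t, ht, rfl⟩)) (h1 (φ t))
    simpa using h2

/-- A product of two finitely generated groups that both map onto a free group of rank two
has a finite generating set with respect to which it is not almost convex. -/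
theorem not_ac_prod {H₁ H₂ : Type*} [Group H₁] [Group H₂] [Group.FG H₁] [Group.FG H₂]
    (φ₁ : H₁ →* FreeGroup (Fin 2)) (hφ₁ : Function.Surjective φ₁)
    (φ₂ : H₂ →* FreeGroup (Fin 2)) (hφ₂ : Function.Surjective φ₂) :
    ∃ S : Set (H₁ × H₂), S.Finite ∧ Subgroup.closure S = ⊤ ∧ ¬ AlmostConvex S := by
  obtain ⟨a₁, b₁, K₁, hfin₁, ha₁, hb₁, hK₁, hc₁⟩ := exists_gen φ₁ hφ₁
  obtain ⟨a₂, b₂, K₂, hfin₂, ha₂, hb₂, hK₂, hc₂⟩ := exists_gen φ₂ hφ₂
  refine ⟨genS a₁ b₁ a₂ b₂ K₁ K₂, ?_, closure_genS hc₁ hc₂,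
    not_ac ha₁ hb₁ ha₂ hb₂ hK₁ hK₂ hc₁ hc₂⟩
  unfold genS
  exact ((Set.toFinite _).union (hfin₁.image _)).union (hfin₂.image _)

/-- the relator of the standard presentation of the surface group of genus `g` -/
def surfaceRel (g : ℕ) : FreeGroup (Fin g × Bool) :=
  (List.ofFn (fun i : Fin g => of (i, false) * of (i, true) * (of (i, false))⁻¹ *
    (of (i, true))⁻¹)).prod

/-- the surface group of genus `g` -/
abbrev SurfGroup (g : ℕ) : Type := PresentedGroup ({surfaceRel g} : Set (FreeGroup (Fin g × Bool)))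

/-- images of the generators -/
def surfMap (g : ℕ) (x : Fin g × Bool) : FreeGroup (Fin 2) :=
  if x.2 = false ∧ x.1.1 = 0 then of 0 else if x.2 = false ∧ x.1.1 = 1 then of 1 else 1

theorem surfMap_rel (g : ℕ) : ∀ r ∈ ({surfaceRel g} : Set (FreeGroup (Fin g × Bool))),
    FreeGroup.lift (surfMap g) r = 1 := by
  rintro r rfl
  unfold surfaceRel
  rw [map_list_prod, List.map_ofFn]
  apply List.prod_eq_one
  intro x hx
  rw [List.mem_ofFn] at hx
  obtain ⟨i, rfl⟩ := hx
  simp [surfMap]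

theorem surf_surj {g : ℕ} (hg : 2 ≤ g) : ∃ φ : SurfGroup g →* FreeGroup (Fin 2),
    Function.Surjective φ := by
  refine ⟨PresentedGroup.toGroup (surfMap_rel g), ?_⟩
  rw [← MonoidHom.range_eq_top, eq_top_iff, ← FreeGroup.closure_range_of, Subgroup.closure_le]
  rintro _ ⟨i, rfl⟩
  have h0 : 0 < g := by omega
  have h1 : 1 < g := by omega
  fin_cases i
  · exact ⟨PresentedGroup.of (⟨0, h0⟩, false), by
      rw [PresentedGroup.toGroup.of]; simp [surfMap]⟩
  · exact ⟨PresentedGroup.of (⟨1, h1⟩, false), by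
      rw [PresentedGroup.toGroup.of]; simp [surfMap]⟩

instance (g : ℕ) : Group.FG (SurfGroup g) := by
  rw [Group.fg_iff]
  exact ⟨Set.range (PresentedGroup.of), PresentedGroup.closure_range_of _, Set.finite_range _⟩

theorem surface_products {g h : ℕ} (hg : 2 ≤ g) (hh : 2 ≤ h) :
    ∃ S : Set (SurfGroup g × SurfGroup h), S.Finite ∧ Subgroup.closure S = ⊤ ∧
      ¬ AlmostConvex S := by
  obtain ⟨φ₁, hφ₁⟩ := surf_surj hg
  obtain ⟨φ₂, hφ₂⟩ := surf_surj hh
  exact not_ac_prod φ₁ hφ₁ φ₂ hφ₂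

end Pool.Agent.Lib_helper29.AC
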