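import Mathlib

set_option autoImplicit false

namespace Pool.Agent.AFH29

open Subgroup

/-- A class of groups which is a Fitting class of finite soluble groups (possibly empty) closed
under products of two abnormal subgroups. -/
structure IsAF (F : (G : Type) → [Group G] → Prop) : Prop where
  fin : ∀ (G : Type) [Group G], F G → Finite G ∧ Group.IsSolvable G
  iso : ∀ (G H : Type) [Group G] [Group H], Nonempty (G ≃* H) → F G → F H
  normal : ∀ (G : Type) [Group G] (N : Subgroup G), N.Normal → F G → F ↥N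
  sup : ∀ (G : Type) [Group G] [Finite G] (N M : Subgroup G), N.Normal → M.Normal →
          F ↥N → F ↥M → F ↥(N ⊔ M)
  af : ∀ (G : Type) [Group G] [Finite G], Group.IsSolvable G →
          ∀ A B : Subgroup G,
            (∀ g : G, g ∈ A ⊔ A.map (MulAut.conj g).toMonoidHom) →
            (∀ g : G, g ∈ B ⊔ B.map (MulAut.conj g).toMonoidHom) →
            F ↥A → F ↥B →
            (∀ g : G, ∃ a ∈ A, ∃ b ∈ B, a * b = g) → F G

/-- abnormal subgroup -/
def Abn {G : Type} [Group G] (A : Subgroup G) : Prop :=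
  ∀ g : G, g ∈ A ⊔ A.map (MulAut.conj g).toMonoidHom

section basic

variable {F : (G : Type) → [Group G] → Prop} (hF : IsAF F)

include hF

theorem IsAF.of_equiv {G H : Type} [Group G] [Group H] (e : G ≃* H) (h : F G) : F H :=
  hF.iso G H ⟨e⟩ h

theorem IsAF.top {G : Type} [Group G] (h : F G) : F (⊤ : Subgroup G) :=
  hF.of_equiv Subgroup.topEquiv.symm h

theorem IsAF.of_top {G : Type} [Group G] (h : F (⊤ : Subgroup G)) : F G :=
  hF.of_equiv Subgroup.topEquiv h

theorem IsAF.of_eq_top {G : Type} [Group G] {N : Subgroup G} (hN : N = ⊤) (h : F N) : F G := by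
  subst hN; exact hF.of_top h

theorem IsAF.of_normal {G : Type} [Group G] (N : Subgroup G) [hN : N.Normal] (h : F G) : F N :=
  hF.normal G N hN h

theorem IsAF.of_sup_eq_top {G : Type} [Group G] [Finite G] {N M : Subgroup G} [hN : N.Normal]
    [hM : M.Normal] (h : N ⊔ M = ⊤) (h1 : F N) (h2 : F M) : F G :=
  hF.of_eq_top h (hF.sup G N M hN hM h1 h2)

theorem IsAF.of_injective {G H : Type} [Group G] [Group H] (f : H →* G)
    (hf : Function.Injective f) (hn : f.range.Normal) (h : F G) : F H :=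
  hF.of_equiv (MonoidHom.ofInjective hf).symm (hF.normal G _ hn h)

theorem IsAF.bot {G : Type} [Group G] (h : F G) : F (⊥ : Subgroup G) :=
  hF.of_normal ⊥ h

theorem IsAF.map_injective {G H : Type} [Group G] [Group H] (f : H →* G)
    (hf : Function.Injective f) {K : Subgroup H} (h : F K) : F (K.map f) :=
  hF.of_equiv (K.equivMapOfInjective f hf) h

theorem IsAF.prod {G H : Type} [Group G] [Group H] (h1 : F G) (h2 : F H) : F (G × H) := by
  have := (hF.fin G h1).1
  have := (hF.fin H h2).1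
  have e1 : F (Subgroup.prod (⊤ : Subgroup G) (⊥ : Subgroup H)) := by
    refine hF.of_equiv ?_ h1
    refine MulEquiv.ofBijective
      ((MonoidHom.inl G H).codRestrict _ (fun x => ?_)) ⟨?_, ?_⟩
    · simp [Subgroup.mem_prod]
    · intro a b hab
      exact congrArg Prod.fst (congrArg Subtype.val hab)
    · rintro ⟨⟨a, b⟩, hab⟩
      simp only [Subgroup.mem_prod, Subgroup.mem_top, Subgroup.mem_bot, true_and] at hab
      subst hab
      exact ⟨a, rfl⟩
  have e2 : F (Subgroup.prod (⊥ : Subgroup G) (⊤ : Subgroup H)) := by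
    refine hF.of_equiv ?_ h2
    refine MulEquiv.ofBijective
      ((MonoidHom.inr G H).codRestrict _ (fun x => ?_)) ⟨?_, ?_⟩
    · simp [Subgroup.mem_prod]
    · intro a b hab
      exact congrArg Prod.snd (congrArg Subtype.val hab)
    · rintro ⟨⟨a, b⟩, hab⟩
      simp only [Subgroup.mem_prod, Subgroup.mem_top, Subgroup.mem_bot, and_true] at hab
      subst hab
      exact ⟨b, rfl⟩
  refine hF.of_sup_eq_top (N := Subgroup.prod (⊤ : Subgroup G) (⊥ : Subgroup H))
    (M := Subgroup.prod (⊥ : Subgroup G) (⊤ : Subgroup H)) ?_ e1 e2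
  rw [eq_top_iff]
  rintro ⟨a, b⟩ -
  have : ((a, b) : G × H) = (a, 1) * (1, b) := by simp
  rw [this]
  exact Subgroup.mul_mem_sup (by simp [Subgroup.mem_prod]) (by simp [Subgroup.mem_prod])

theorem IsAF.snd_of_prod {G H : Type} [Group G] [Group H] (h : F (G × H)) : F H := by
  refine hF.of_injective (MonoidHom.inr G H) (fun a b hab => ?_) ?_ h
  · simpa using congrArg Prod.snd hab
  · refine ⟨?_⟩
    rintro _ ⟨b, rfl⟩ ⟨c, d⟩
    exact ⟨d * b * d⁻¹, by simp⟩

/-- If `A = N M` where `N`, `M` are normal in `A`. -/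
theorem IsAF.of_eq_sup {G : Type} [Group G] [Finite G] {A N M : Subgroup G} (h : A = N ⊔ M)
    (hN : A ≤ normalizer (N : Set G)) (hM : A ≤ normalizer (M : Set G)) (h1 : F N) (h2 : F M) : F A := by
  have hNA : N ≤ A := h ▸ le_sup_left
  have hMA : M ≤ A := h ▸ le_sup_right
  have : (N.subgroupOf A).Normal := (normal_subgroupOf_iff_le_normalizer hNA).2 hN
  have : (M.subgroupOf A).Normal := (normal_subgroupOf_iff_le_normalizer hMA).2 hM
  refine hF.of_sup_eq_top (N := N.subgroupOf A) (M := M.subgroupOf A) ?_ ?_ ?_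
  · rw [← Subgroup.subgroupOf_sup hNA hMA, ← h, Subgroup.subgroupOf_self]
  · exact hF.of_equiv (Subgroup.subgroupOfEquivOfLe hNA).symm h1
  · exact hF.of_equiv (Subgroup.subgroupOfEquivOfLe hMA).symm h2

theorem IsAF.of_le_normal {G : Type} [Group G] {A N : Subgroup G} (hNA : N ≤ A)
    (hN : A ≤ normalizer (N : Set G)) (h1 : F A) : F N := by
  have : (N.subgroupOf A).Normal := (normal_subgroupOf_iff_le_normalizer hNA).2 hN
  exact hF.of_equiv (Subgroup.subgroupOfEquivOfLe hNA) (hF.of_normal (N.subgroupOf A) h1)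

end basic

section fiber

variable {F : (G : Type) → [Group G] → Prop} (hF : IsAF F)

/-- the range of a pair of maps over an abelian group is normal -/
theorem range_prod_normal {D X₁ X₂ U : Type} [Group D] [Group X₁] [Group X₂] [Group U]
    (hU : ∀ a b : U, a * b = b * a) (f : D →* X₁) (g : D →* X₂)
    (p₁ : X₁ →* U) (p₂ : X₂ →* U) (h : ∀ x y, p₁ x = p₂ y ↔ ∃ d, f d = x ∧ g d = y) :
    (f.prod g).range.Normal := by
  refine ⟨?_⟩
  rintro _ ⟨d, rfl⟩ ⟨a, b⟩
  have h1 : p₁ (f d) = p₂ (g d) := (h _ _).2 ⟨d, rfl, rfl⟩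
  have h2 : p₁ (a * f d * a⁻¹) = p₂ (b * g d * b⁻¹) := by
    simp only [map_mul, map_inv, h1]
    rw [hU (p₁ a), hU (p₂ b), mul_inv_cancel_right, mul_inv_cancel_right]
  obtain ⟨e, he1, he2⟩ := (h _ _).1 h2
  exact ⟨e, by simp [MonoidHom.prod_apply, he1, he2]⟩

theorem injective_prod {D X₁ X₂ : Type} [Group D] [Group X₁] [Group X₂]
    (f : D →* X₁) (g : D →* X₂) (hinj : ∀ d, f d = 1 → g d = 1 → d = 1) :
    Function.Injective (f.prod g) := by
  rw [injective_iff_map_eq_one]
  intro d hd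
  rw [MonoidHom.prod_apply, Prod.mk_eq_one] at hd
  exact hinj d hd.1 hd.2

include hF

/-- Quasi R0 lemma, first part -/
theorem IsAF.qr1 {D X₁ X₂ U : Type} [Group D] [Group X₁] [Group X₂] [Group U]
    (hU : ∀ a b : U, a * b = b * a) (f : D →* X₁) (g : D →* X₂)
    (hinj : ∀ d, f d = 1 → g d = 1 → d = 1)
    (p₁ : X₁ →* U) (p₂ : X₂ →* U) (h : ∀ x y, p₁ x = p₂ y ↔ ∃ d, f d = x ∧ g d = y)
    (h1 : F X₁) (h2 : F X₂) : F D :=
  hF.of_injective (f.prod g) (injective_prod f g hinj) (range_prod_normal hU f g p₁ p₂ h)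
    (hF.prod h1 h2)

/-- Quasi R0 lemma, second part -/
theorem IsAF.qr2 {D X₁ X₂ U : Type} [Group D] [Group X₁] [Group X₂] [Group U]
    (hU : ∀ a b : U, a * b = b * a) (f : D →* X₁) (g : D →* X₂)
    (hinj : ∀ d, f d = 1 → g d = 1 → d = 1)
    (p₁ : X₁ →* U) (p₂ : X₂ →* U) (h : ∀ x y, p₁ x = p₂ y ↔ ∃ d, f d = x ∧ g d = y)
    (hg : Function.Surjective g) [Finite X₂]
    (h1 : F X₁) (hD : F D) : F X₂ := by
  have := (hF.fin X₁ h1).1
  have hn := range_prod_normal hU f g p₁ p₂ h
  have hinj' := injective_prod f g hinj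
  have e1 : F (MonoidHom.inl X₁ X₂).range := by
    refine hF.of_equiv (MonoidHom.ofInjective (f := MonoidHom.inl X₁ X₂) ?_) h1
    intro a b hab
    simpa using congrArg Prod.fst hab
  have n1 : (MonoidHom.inl X₁ X₂).range.Normal := by
    refine ⟨?_⟩
    rintro _ ⟨b, rfl⟩ ⟨c, d⟩
    exact ⟨c * b * c⁻¹, by simp⟩
  have e2 : F (f.prod g).range := hF.of_equiv (MonoidHom.ofInjective hinj') hD
  refine hF.snd_of_prod (G := X₁) ?_
  refine hF.of_sup_eq_top (N := (MonoidHom.inl X₁ X₂).range) (M := (f.prod g).range) ?_ e1 e2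
  rw [eq_top_iff]
  rintro ⟨a, b⟩ -
  obtain ⟨d, rfl⟩ := hg b
  have : ((a, g d) : X₁ × X₂) = (a * (f d)⁻¹, 1) * (f d, g d) := by simp
  rw [this]
  exact Subgroup.mul_mem_sup ⟨a * (f d)⁻¹, rfl⟩ ⟨d, rfl⟩

/-- abelian quotients -/
theorem IsAF.abelian_quotient {G U : Type} [Group G] [Group U] (hU : ∀ a b : U, a * b = b * a)
    (p : G →* U) (hp : Function.Surjective p) (h : F G) : F U := by
  have := (hF.fin G h).1
  have : Finite U := Finite.of_surjective p hp
  refine hF.qr2 hU (MonoidHom.id G) p (fun d hd _ => hd) p (MonoidHom.id U) ?_ hp h h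
  intro x y
  constructor
  · intro hxy; exact ⟨x, rfl, hxy⟩
  · rintro ⟨d, rfl, rfl⟩; rfl

end fiber

section abnormal

variable {G H : Type} [Group G] [Group H]

theorem Abn.mono {A B : Subgroup G} (h : A ≤ B) (hA : Abn A) : Abn B :=
  fun g => sup_le_sup h (Subgroup.map_mono h) (hA g)

theorem abn_top : Abn (⊤ : Subgroup G) := fun _ => Subgroup.mem_sup_left trivial

theorem abn_of_sylow {p : ℕ} [Fact p.Prime] [Finite G] (P : Sylow p G) {A : Subgroup G}
    (h : normalizer ((P : Subgroup G) : Set G) ≤ A) : Abn A := by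
  intro g
  set J := A ⊔ A.map (MulAut.conj g).toMonoidHom with hJ
  have hPA : (P : Subgroup G) ≤ A := le_trans Subgroup.le_normalizer h
  have hPJ : (P : Subgroup G) ≤ J := le_trans hPA le_sup_left
  have hgPJ : ((g • P : Sylow p G) : Subgroup G) ≤ J := by
    refine le_trans ?_ le_sup_right
    rw [Sylow.coe_subgroup_smul]
    intro x hx
    rw [Subgroup.mem_pointwise_smul_iff_inv_smul_mem] at hx
    refine ⟨(MulAut.conj g)⁻¹ • x, hPA hx, ?_⟩
    simp [mul_assoc]
  obtain ⟨j, hj⟩ := MulAction.exists_smul_eq J (P.subtype hPJ) ((g • P).subtype hgPJ)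
  rw [Sylow.smul_subtype] at hj
  have hj' : (j : G) • P = g • P := Sylow.subtype_injective hj
  have h1 : ((j : G)⁻¹ * g) • P = P := by
    rw [mul_smul, ← hj', inv_smul_smul]
  have h2 : (j : G)⁻¹ * g ∈ J := by
    have := Sylow.smul_eq_iff_mem_normalizer.1 h1
    exact (le_sup_left : A ≤ J) (h this)
  have h3 := J.mul_mem j.2 h2
  simpa using h3

theorem Abn.comap {A : Subgroup H} (hA : Abn A) (f : G →* H) (hf : Function.Surjective f) :
    Abn (A.comap f) := by
  intro g
  set J := A.comap f ⊔ (A.comap f).map (MulAut.conj g).toMonoidHom with hJ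
  have hk : f.ker ≤ J := by
    refine le_trans ?_ le_sup_left
    intro x hx
    rw [Subgroup.mem_comap, (MonoidHom.mem_ker.1 hx)]
    exact A.one_mem
  have h1 : A ⊔ A.map (MulAut.conj (f g)).toMonoidHom ≤ J.map f := by
    refine sup_le ?_ ?_
    · intro a ha
      obtain ⟨x, rfl⟩ := hf a
      exact ⟨x, (le_sup_left : _ ≤ J) ha, rfl⟩
    · rintro _ ⟨a, ha, rfl⟩
      obtain ⟨x, rfl⟩ := hf a
      refine ⟨g * x * g⁻¹, (le_sup_right : _ ≤ J) ⟨x, ha, by simp⟩, by simp⟩
  obtain ⟨j, hj, hjg⟩ := h1 (hA (f g))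
  have h2 : j⁻¹ * g ∈ f.ker := by
    rw [MonoidHom.mem_ker, map_mul, map_inv, hjg, inv_mul_cancel]
  have h3 := J.mul_mem hj (hk h2)
  simpa using h3

/-- an abnormal subgroup covers every abelian quotient -/
theorem Abn.map_eq_top {A : Subgroup G} (hA : Abn A) (f : G →* H) (hf : Function.Surjective f)
    (hH : ∀ a b : H, a * b = b * a) : A.map f = ⊤ := by
  rw [eq_top_iff]
  intro h _
  obtain ⟨g, rfl⟩ := hf h
  have h1 := Subgroup.mem_map_of_mem f (hA g)
  rw [Subgroup.map_sup] at h1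
  have h2 : (A.map (MulAut.conj g).toMonoidHom).map f ≤ A.map f := by
    rintro _ ⟨_, ⟨a, ha, rfl⟩, rfl⟩
    refine ⟨a, ha, ?_⟩
    simp [hH (f g) (f a)]
  rwa [sup_eq_left.2 h2] at h1

theorem abn_of_coatom [Finite G] {A : Subgroup G} (hA : IsCoatom A) (hn : ¬ A.Normal) : Abn A := by
  intro g
  by_cases hg : g ∈ A
  · exact Subgroup.mem_sup_left hg
  · rcases hA.le_iff.1 (le_sup_left : A ≤ A ⊔ A.map (MulAut.conj g).toMonoidHom) with h | h
    · rw [h]; trivial
    · exfalso
      have h1 : A.map (MulAut.conj g).toMonoidHom ≤ A := by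
        exact le_trans le_sup_right h.le
      have h2 : g ∈ normalizer (A : Set G) := by
        rw [Subgroup.mem_normalizer_iff]
        have hfin : A.map (MulAut.conj g).toMonoidHom = A := by
          apply Subgroup.eq_of_le_of_card_ge h1
          rw [Subgroup.card_map_of_injective (MulAut.conj g).injective]
        intro x
        constructor
        · intro hx
          exact h1 ⟨x, hx, by simp⟩
        · intro hx
          rw [← hfin] at hx
          obtain ⟨y, hy, hyx⟩ := hx
          have : y = x := by simpa using hyx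
          rwa [← this]
      rcases hA.le_iff.1 (Subgroup.le_normalizer : A ≤ normalizer (A : Set G)) with h3 | h3
      · exact hn (Subgroup.normalizer_eq_top_iff.1 h3)
      · rw [h3] at h2; exact hg h2

end abnormal

end Pool.Agent.AFH29
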