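import Pool.Agent.Lib_helper29.AF9

set_option autoImplicit false

namespace Pool.Agent.AFH29

open Subgroup

/-- `x` is an element of `p`-power order -/
def PEl {G : Type} [Group G] (p : ℕ) (x : G) : Prop := ∃ k : ℕ, x ^ p ^ k = 1

theorem PEl.map {G H : Type} [Group G] [Group H] {p : ℕ} {x : G} (h : PEl p x) (f : G →* H) :
    PEl p (f x) := by
  obtain ⟨k, hk⟩ := h
  exact ⟨k, by rw [← map_pow, hk, map_one]⟩

theorem PEl.eq_one_of_not_dvd {G : Type} [Group G] [Finite G] {p : ℕ} [hp : Fact p.Prime] {x : G}
    (h : PEl p x) (hG : ¬ p ∣ Nat.card G) : x = 1 := by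
  obtain ⟨k, hk⟩ := h
  refine eq_one_of_pow_coprime hk (n := Nat.card G) pow_card_eq_one' ?_
  exact Nat.Coprime.pow_left _ ((Nat.Prime.coprime_iff_not_dvd hp.out).2 hG)

/-- the class of sigma-nilpotent groups attached to the class -/
def Sig (F : (G : Type) → [Group G] → Prop) (G : Type) [Group G] : Prop :=
  Finite G ∧ Group.IsSolvable G ∧ (∀ p : ℕ, p.Prime → p ∣ Nat.card G → Chr F p) ∧
    ∀ p q : ℕ, p.Prime → q.Prime → p ≠ q → ¬ Star F p q →
      ∀ x y : G, PEl p x → PEl q y → x * y = y * x

theorem Sig.of_injective {F : (G : Type) → [Group G] → Prop} {G H : Type} [Group G] [Group H]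
    (f : H →* G) (hf : Function.Injective f) (h : Sig F G) : Sig F H := by
  obtain ⟨h1, h2, h3, h4⟩ := h
  refine ⟨Finite.of_injective f hf, Group.isSolvable_of_isSolvable_injective hf, ?_, ?_⟩
  · intro p hp hpH
    refine h3 p hp (hpH.trans ?_)
    exact Subgroup.card_dvd_of_injective f hf
  · intro p q hp hq hpq hs x y hx hy
    apply hf
    rw [map_mul, map_mul]
    exact h4 p q hp hq hpq hs _ _ (hx.map f) (hy.map f)

theorem Sig.subgroup {F : (G : Type) → [Group G] → Prop} {G : Type} [Group G]
    (h : Sig F G) (H : Subgroup G) : Sig F H := h.of_injective H.subtype H.subtype_injective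

/-- finite groups with at most one maximal subgroup, which is normal -/
theorem unique_coatom {H : Type} [Group H] [Finite H] [Nontrivial H]
    (h2 : ∀ M M' : Subgroup H, IsCoatom M → IsCoatom M' → M = M') :
    ∃ q : ℕ, q.Prime ∧ q ∣ Nat.card H ∧ IsPGroup q H ∧ IsCyclic H := by
  obtain ⟨M, hM, -⟩ := (eq_top_or_exists_le_coatom (⊥ : Subgroup H)).resolve_left bot_ne_top
  have hne : M.index ≠ 1 := by
    rw [Ne, Subgroup.index_eq_one]; exact hM.1
  obtain ⟨q, hq, hqM⟩ := Nat.exists_prime_and_dvd hne
  have : Fact q.Prime := ⟨hq⟩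
  have hqH : q ∣ Nat.card H := hqM.trans M.index_dvd_card
  have hle : ∀ K : Subgroup H, ¬ K ≤ M → K = ⊤ := by
    intro K hK
    rcases eq_top_or_exists_le_coatom K with h | ⟨N, hN, hKN⟩
    · exact h
    · exact absurd (h2 N M hN hM ▸ hKN) hK
  refine ⟨q, hq, hqH, ?_, ?_⟩
  · obtain ⟨Q⟩ : Nonempty (Sylow q H) := inferInstance
    have hQ : (Q : Subgroup H) = ⊤ := by
      apply hle
      intro h
      exact Q.not_dvd_index (hqM.trans (Subgroup.index_dvd_of_le h))
    exact (Q.2).of_surjective (Q : Subgroup H).subtype (by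
      intro x
      exact ⟨⟨x, by rw [hQ]; trivial⟩, rfl⟩)
  · have : ∃ g : H, g ∉ M := by
      by_contra hcon
      push Not at hcon
      exact hM.1 (eq_top_iff.2 (fun x _ => hcon x))
    obtain ⟨g, hg⟩ := this
    have h3 : zpowers g = ⊤ := by
      apply hle
      intro h
      exact hg (h (mem_zpowers g))
    exact ⟨g, fun x => by
      have : x ∈ (⊤ : Subgroup H) := trivial
      rw [← h3] at this
      exact this⟩

variable {F : (G : Type) → [Group G] → Prop} (hF : IsAF F)

include hF

theorem IsAF.sig_mem (htriv : ∀ (G : Type) [Group G] [Subsingleton G], F G) :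
    ∀ (n : ℕ) {G : Type} [Group G] (_ : Sig F G) (_ : Nat.card G = n), F G := by
  intro n
  induction n using Nat.strong_induction_on with
  | _ n ih =>
    intro G _ hG hn
    obtain ⟨hfin, hsol, hchr, hcomm⟩ := id hG
    by_contra hnot
    have hnt : Nontrivial G := by
      rw [← not_subsingleton_iff_nontrivial]
      intro h
      exact hnot (htriv G)
    -- proper subgroups
    have hprop : ∀ A : Subgroup G, A ≠ ⊤ → F A := by
      intro A hA
      refine ih (Nat.card A) ?_ (hG.subgroup A) rfl
      rw [← hn]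
      apply lt_of_le_of_ne (Subgroup.card_le_card_group _)
      intro h
      exact hA (Subgroup.eq_top_of_card_eq _ h)
    have H1 : ∀ N M : Subgroup G, N.Normal → M.Normal → N ≠ ⊤ → M ≠ ⊤ → N ⊔ M ≠ ⊤ := by
      intro N M hN hM hN' hM' h
      exact hnot (hF.of_sup_eq_top h (hprop N hN') (hprop M hM'))
    have H2 : ∀ A B : Subgroup G, Abn A → Abn B → A ≠ ⊤ → B ≠ ⊤ →
        ¬ ∀ g : G, ∃ a ∈ A, ∃ b ∈ B, a * b = g := by
      intro A B hA hB hA' hB' h
      exact hnot (hF.af G hsol A B hA hB (hprop A hA') (hprop B hB') h)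
    by_cases hco : ∀ M : Subgroup G, IsCoatom M → M.Normal
    · -- nilpotent case
      obtain ⟨q, hq, hqG, hpg, -⟩ := unique_coatom (H := G) (by
        intro M M' hM hM'
        by_contra hne
        exact H1 M M' (hco M hM) (hco M' hM') hM.1 hM'.1 (hM.sup_eq_top_of_ne hM' hne))
      exact hnot (hchr q hq hqG G hpg)
    · push Not at hco
      obtain ⟨A, hA, hAn⟩ := hco
      have hAabn : Abn A := abn_of_coatom hA hAn
      -- the core
      set K := A.normalCore with hK
      have hKA : K ≤ A := A.normalCore_le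
      have hmk : Function.Surjective (QuotientGroup.mk' K) := QuotientGroup.mk'_surjective K
      have hntQ : Nontrivial (G ⧸ K) := by
        rw [← not_subsingleton_iff_nontrivial]
        intro h
        have hKt : K = ⊤ := QuotientGroup.subgroup_eq_top_of_subsingleton K h
        exact hA.1 (top_le_iff.1 (hKt ▸ hKA))
      -- minimal normal subgroup of the quotient
      obtain ⟨W, hW⟩ : ∃ W : Subgroup (G ⧸ K), Minimal (fun N => N.Normal ∧ N ≠ ⊥) W := by
        have hfin' : {N : Subgroup (G ⧸ K) | N.Normal ∧ N ≠ ⊥}.Finite := Set.toFinite _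
        obtain ⟨N, hN⟩ := hfin'.exists_minimal ⟨⊤, inferInstance, top_ne_bot⟩
        exact ⟨N, hN⟩
      have hWn : W.Normal := hW.prop.1
      have hWne : W ≠ ⊥ := hW.prop.2
      obtain ⟨-, l, hl, hlW, hWl⟩ := min_normal W hWne (by
        intro N hN hNW
        by_cases h : N = ⊥
        · exact Or.inl h
        · right
          exact le_antisymm hNW (hW.le_of_le ⟨hN, h⟩ hNW))
      have hl' : Fact l.Prime := ⟨hl⟩
      have hWpg : IsPGroup l W := by
        rw [isPGroup_iff_pow_pow_eq_one]
        intro w
        refine ⟨1, ?_⟩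
        rw [pow_one]
        apply Subtype.ext
        simpa using hWl w w.2
      have hlG : l ∣ Nat.card G :=
        (hlW.trans (Subgroup.card_subgroup_dvd_card W)).trans (Subgroup.card_quotient_dvd_card K)
      have hlc : Chr F l := hchr l hl hlG
      obtain ⟨P⟩ : Nonempty (Sylow l G) := inferInstance
      -- G = A P
      have hNA : ¬ W.comap (QuotientGroup.mk' K) ≤ A := by
        intro h
        have h1 : W.comap (QuotientGroup.mk' K) ≤ K := by
          have : (W.comap (QuotientGroup.mk' K)).Normal := hWn.comap _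
          exact Subgroup.normal_le_normalCore.2 h
        apply hWne
        rw [eq_bot_iff]
        intro x hx
        obtain ⟨g, rfl⟩ := hmk x
        exact (QuotientGroup.eq_one_iff g).2 (h1 hx)
      have hAN : A ⊔ W.comap (QuotientGroup.mk' K) = ⊤ := by
        rcases hA.le_iff.1 (le_sup_left : A ≤ A ⊔ W.comap (QuotientGroup.mk' K)) with h | h
        · exact h
        · exact absurd (le_trans le_sup_right h.le) hNA
      have hAP : ∀ g : G, ∃ a ∈ A, ∃ b ∈ (P : Subgroup G), a * b = g := by
        intro g
        have hWn' : (W.comap (QuotientGroup.mk' K)).Normal := hWn.comap _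
        have h1 : g ∈ A ⊔ W.comap (QuotientGroup.mk' K) := by rw [hAN]; trivial
        obtain ⟨a, ha, x, hx, rfl⟩ := Subgroup.mem_sup_of_normal_right.1 h1
        have h2 : W ≤ (P : Subgroup G).map (QuotientGroup.mk' K) :=
          hWpg.le_sylow_of_normal (P.mapSurjective hmk)
        obtain ⟨y, hy, hyx⟩ := h2 hx
        have h3 : x * y⁻¹ ∈ K := by
          rw [← QuotientGroup.eq_one_iff]
          show (QuotientGroup.mk' K) (x * y⁻¹) = 1
          rw [map_mul, map_inv, hyx, mul_inv_cancel]
        exact ⟨a * (x * y⁻¹), A.mul_mem ha (hKA h3), y, hy, by group⟩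
      -- P is normal
      have hPn : (P : Subgroup G).Normal := by
        by_contra hPn
        refine H2 A (normalizer ((P : Subgroup G) : Set G)) hAabn (abn_of_sylow P le_rfl) hA.1 ?_ ?_
        · intro h
          exact hPn (Subgroup.normalizer_eq_top_iff.1 h)
        · intro g
          obtain ⟨a, ha, b, hb, hab⟩ := hAP g
          exact ⟨a, ha, b, Subgroup.le_normalizer hb, hab⟩
      have hmkP : Function.Surjective (QuotientGroup.mk' (P : Subgroup G)) :=
        QuotientGroup.mk'_surjective _
      have hPt : (P : Subgroup G) ≠ ⊤ := by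
        intro h
        have hG' : IsPGroup l G := (P.2).of_surjective (P : Subgroup G).subtype (by
          intro x
          exact ⟨⟨x, by rw [h]; trivial⟩, rfl⟩)
        exact hnot (hlc G hG')
      have hcomap_ne : ∀ B : Subgroup (G ⧸ (P : Subgroup G)), B ≠ ⊤ →
          B.comap (QuotientGroup.mk' (P : Subgroup G)) ≠ ⊤ := by
        intro B hB h
        apply hB
        have := congrArg (Subgroup.map (QuotientGroup.mk' (P : Subgroup G))) h
        rwa [Subgroup.map_comap_eq_self_of_surjective hmkP,
          Subgroup.map_top_of_surjective _ hmkP] at this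
      have hPle : ∀ B : Subgroup (G ⧸ (P : Subgroup G)),
          (P : Subgroup G) ≤ B.comap (QuotientGroup.mk' (P : Subgroup G)) := by
        intro B
        conv_lhs => rw [← QuotientGroup.ker_mk' (P : Subgroup G)]
        exact Subgroup.ker_le_comap _ _
      have hfinQ : Finite (G ⧸ (P : Subgroup G)) := inferInstance
      -- the quotient is nilpotent
      have hnil : ∀ B : Subgroup (G ⧸ (P : Subgroup G)), IsCoatom B → B.Normal := by
        intro B hB
        by_contra hBn
        refine H2 A (B.comap (QuotientGroup.mk' (P : Subgroup G))) hAabn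
          ((abn_of_coatom hB hBn).comap _ hmkP) hA.1 (hcomap_ne B hB.1) ?_
        intro g
        obtain ⟨a, ha, b, hb, hab⟩ := hAP g
        exact ⟨a, ha, b, hPle B hb, hab⟩
      have hntP : Nontrivial (G ⧸ (P : Subgroup G)) := by
        rw [← not_subsingleton_iff_nontrivial]
        intro h
        exact hPt (QuotientGroup.subgroup_eq_top_of_subsingleton _ h)
      obtain ⟨q, hq, hqd, hqpg, hcyc⟩ := unique_coatom (H := G ⧸ (P : Subgroup G)) (by
        intro M M' hM hM'
        by_contra hne
        refine H1 (M.comap (QuotientGroup.mk' (P : Subgroup G)))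
          (M'.comap (QuotientGroup.mk' (P : Subgroup G))) ((hnil M hM).comap _)
          ((hnil M' hM').comap _) (hcomap_ne M hM.1) (hcomap_ne M' hM'.1) ?_
        rw [Subgroup.comap_sup_eq _ _ _ hmkP, hM.sup_eq_top_of_ne hM' hne, Subgroup.comap_top])
      have hq' : Fact q.Prime := ⟨hq⟩
      have hqG : q ∣ Nat.card G := hqd.trans (Subgroup.card_quotient_dvd_card _)
      have hqc : Chr F q := hchr q hq hqG
      have hlq : l ≠ q := by
        rintro rfl
        exact P.not_dvd_index hqd
      by_cases hst : Star F l q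
      · let _ : CommGroup (G ⧸ (P : Subgroup G)) := IsCyclic.commGroup
        refine hnot (hF.star_rel hlq hlc hqc hst G (G ⧸ (P : Subgroup G))
          (QuotientGroup.mk' (P : Subgroup G)) hmkP ?_ hqpg)
        have : (QuotientGroup.mk' (P : Subgroup G)).ker = (P : Subgroup G) :=
          QuotientGroup.ker_mk' _
        rw [this]; exact P.2
      · obtain ⟨Q⟩ : Nonempty (Sylow q G) := inferInstance
        have hc := hcomm l q hl hq hlq hst
        have hPQ : ∀ g : G, ∃ a ∈ (P : Subgroup G), ∃ b ∈ (Q : Subgroup G), a * b = g := by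
          intro g
          obtain ⟨b, hb, hbg⟩ := sylow_surj (QuotientGroup.mk' (P : Subgroup G)) hmkP hqpg Q
            (QuotientGroup.mk' (P : Subgroup G) g)
          refine ⟨g * b⁻¹, ?_, b, hb, by group⟩
          rw [← QuotientGroup.eq_one_iff]
          show (QuotientGroup.mk' (P : Subgroup G)) (g * b⁻¹) = 1
          rw [map_mul, map_inv, hbg, mul_inv_cancel]
        have hQn : (Q : Subgroup G).Normal := by
          refine ⟨?_⟩
          intro y hy g
          obtain ⟨a, ha, b, hb, rfl⟩ := hPQ g
          have h1 : b * y * b⁻¹ ∈ (Q : Subgroup G) :=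
            (Q : Subgroup G).mul_mem ((Q : Subgroup G).mul_mem hb hy) ((Q : Subgroup G).inv_mem hb)
          have h2 := hc a (b * y * b⁻¹) (IsPGroup.pow_of_mem P.2 ha) (IsPGroup.pow_of_mem Q.2 h1)
          have h3 : a * b * y * (a * b)⁻¹ = a * (b * y * b⁻¹) * a⁻¹ := by group
          rw [h3, h2, mul_inv_cancel_right]
          exact h1
        refine hnot (hF.of_sup_eq_top (N := (P : Subgroup G)) (M := (Q : Subgroup G)) ?_
          (hlc _ P.2) (hqc _ Q.2))
        rw [eq_top_iff]
        intro g _
        obtain ⟨a, ha, b, hb, rfl⟩ := hPQ g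
        exact Subgroup.mul_mem_sup ha hb

end Pool.Agent.AFH29
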