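import Pool.Agent.Lib_helper29.AF10

set_option autoImplicit false

namespace Pool.Agent.AFH29

open Subgroup

theorem closure_normal_of_conj {G : Type} [Group G] {s : Set G}
    (h : ∀ x ∈ s, ∀ g : G, g * x * g⁻¹ ∈ s) : (closure s).Normal := by
  refine ⟨?_⟩
  intro n hn g
  induction hn using Subgroup.closure_induction with
  | mem x hx => exact subset_closure (h x hx g)
  | one => simp
  | mul x y _ _ hx hy =>
    have : g * (x * y) * g⁻¹ = (g * x * g⁻¹) * (g * y * g⁻¹) := by group
    rw [this]; exact mul_mem hx hy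
  | inv x _ hx =>
    have : g * x⁻¹ * g⁻¹ = (g * x * g⁻¹)⁻¹ := by group
    rw [this]; exact inv_mem hx

/-- a finite group generated by elements of prime power order for primes in `E` which commute with
all `t`-elements has order prime to `t` -/
theorem not_dvd_of_gen {M : Type} [Group M] [Finite M] (E : ℕ → Prop) {t : ℕ} [ht' : Fact t.Prime]
    (hgen : closure {x : M | ∃ s, s.Prime ∧ E s ∧ PEl s x} = ⊤) (ht : ¬ E t)
    (hcomm : ∀ x y : M, (∃ s, s.Prime ∧ E s ∧ PEl s x) → PEl t y → x * y = y * x) :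
    ¬ t ∣ Nat.card M := by
  intro hd
  obtain ⟨Q⟩ : Nonempty (Sylow t M) := inferInstance
  have hcent : ∀ y ∈ (Q : Subgroup M), ∀ g : M, g * y = y * g := by
    intro y hy g
    have hg : g ∈ closure {x : M | ∃ s, s.Prime ∧ E s ∧ PEl s x} := by rw [hgen]; trivial
    have hle : closure {x : M | ∃ s, s.Prime ∧ E s ∧ PEl s x} ≤ centralizer {y} := by
      rw [Subgroup.closure_le]
      intro x hx
      rw [SetLike.mem_coe, Subgroup.mem_centralizer_iff]
      intro z hz
      rw [Set.mem_singleton_iff] at hz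
      subst hz
      exact (hcomm x z hx (IsPGroup.pow_of_mem Q.2 hy)).symm
    have := Subgroup.mem_centralizer_iff.1 (hle hg) y rfl
    exact this.symm
  have hQn : (Q : Subgroup M).Normal := by
    refine ⟨?_⟩
    intro y hy g
    rw [hcent y hy g, mul_inv_cancel_right]
    exact hy
  obtain ⟨N, hN⟩ := Subgroup.exists_right_complement'_of_coprime (N := (Q : Subgroup M))
    Q.card_coprime_index
  have hdec : ∀ g : M, ∃ q ∈ (Q : Subgroup M), ∃ n ∈ N, q * n = g := by
    intro g
    have h1 : g ∈ (Q : Subgroup M) ⊔ N := by rw [hN.sup_eq_top]; trivial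
    obtain ⟨q, hq, n, hn, h⟩ := Subgroup.mem_sup_of_normal_left.1 h1
    exact ⟨q, hq, n, hn, h⟩
  have hNn : N.Normal := by
    refine ⟨?_⟩
    intro n hn g
    obtain ⟨q, hq, m, hm, rfl⟩ := hdec g
    have h1 : m * n * m⁻¹ ∈ N := N.mul_mem (N.mul_mem hm hn) (N.inv_mem hm)
    have h2 : q * m * n * (q * m)⁻¹ = q * (m * n * m⁻¹) * q⁻¹ := by group
    rw [h2, ← hcent q hq, mul_inv_cancel_right]
    exact h1
  have hNi : N.index = Nat.card Q := hN.index_eq_card
  obtain ⟨a, ha⟩ := IsPGroup.iff_card.1 Q.2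
  have hNt : N = ⊤ := by
    rw [eq_top_iff, ← hgen, Subgroup.closure_le]
    rintro x ⟨s, hs, hEs, k, hk⟩
    have hst : s ≠ t := by rintro rfl; exact ht hEs
    have : Fact s.Prime := ⟨hs⟩
    rw [SetLike.mem_coe, ← QuotientGroup.eq_one_iff]
    refine eq_one_of_pow_pow hst (m := k) (n := a) ?_ ?_
    · rw [← QuotientGroup.mk_pow, hk, QuotientGroup.mk_one]
    · rw [← ha, ← hNi]
      exact pow_card_eq_one'
  have h1 : Nat.card Q = 1 := by
    rw [← hNi, hNt, Subgroup.index_top]
  have h2 := Q.dvd_card_of_dvd_card hd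
  rw [h1] at h2
  exact ht'.out.one_lt.ne' (Nat.dvd_one.1 h2)

/-- `M` is generated by subgroups containing all elements of prime power order -/
theorem eq_of_primary {G : Type} [Group G] [Finite G] {M H : Subgroup G} (hHM : H ≤ M)
    (h : ∀ p : ℕ, p.Prime → ∀ L : Subgroup G, L ≤ M → IsPGroup p L → L ≤ H) : H = M := by
  apply Subgroup.eq_of_le_of_card_ge hHM
  apply Nat.le_of_dvd Nat.card_pos
  rw [Nat.dvd_iff_prime_pow_dvd_dvd]
  intro p k hp hk
  have : Fact p.Prime := ⟨hp⟩
  obtain ⟨L, hL⟩ := Sylow.exists_subgroup_card_pow_prime p hk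
  have h1 : Nat.card (L.map M.subtype) = p ^ k := by
    rw [Subgroup.card_map_of_injective M.subtype_injective, hL]
  have h2 : L.map M.subtype ≤ H :=
    h p hp _ (Subgroup.map_subtype_le L) (IsPGroup.of_card h1)
  rw [← h1]
  exact Subgroup.card_dvd_of_le h2

end Pool.Agent.AFH29
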