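import Pool.Agent.Lib_helper29.AF11

set_option autoImplicit false

namespace Pool.Agent.AFH29

open Subgroup

theorem exists_prime_index {G : Type} [Group G] [Finite G] [Nontrivial G]
    [Group.IsSolvable G] : ∃ (M : Subgroup G) (r : ℕ), M.Normal ∧ r.Prime ∧ M.index = r := by
  have hne : (commutator G) ≠ ⊤ := (Group.IsSolvable.commutator_lt_top_of_nontrivial G).ne
  obtain ⟨M, hM, hcM⟩ := (eq_top_or_exists_le_coatom (commutator G)).resolve_left hne
  have hMn : M.Normal := by
    refine ⟨?_⟩
    intro n hn g
    have h1 : g * n * g⁻¹ * n⁻¹ ∈ M := hcM (Subgroup.commutator_mem_commutator trivial trivial)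
    have h2 := M.mul_mem h1 hn
    simpa using h2
  have hidx : M.index ≠ 1 := by rw [Ne, Subgroup.index_eq_one]; exact hM.1
  obtain ⟨q, hq, hqM⟩ := Nat.exists_prime_and_dvd hidx
  have : Fact q.Prime := ⟨hq⟩
  refine ⟨M, q, hMn, hq, ?_⟩
  have hqM' : q ∣ Nat.card (G ⧸ M) := hqM
  obtain ⟨x, hx⟩ := exists_prime_orderOf_dvd_card' q hqM'
  have hmk : Function.Surjective (QuotientGroup.mk' M) := QuotientGroup.mk'_surjective M
  have h1 : (zpowers x) = ⊤ := by
    have h2 : M ≤ (zpowers x).comap (QuotientGroup.mk' M) := by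
      conv_lhs => rw [← QuotientGroup.ker_mk' M]
      exact Subgroup.ker_le_comap _ _
    rcases hM.le_iff.1 h2 with h3 | h3
    · have := congrArg (Subgroup.map (QuotientGroup.mk' M)) h3
      rwa [Subgroup.map_comap_eq_self_of_surjective hmk,
        Subgroup.map_top_of_surjective _ hmk] at this
    · exfalso
      have h4 := congrArg (Subgroup.map (QuotientGroup.mk' M)) h3
      rw [Subgroup.map_comap_eq_self_of_surjective hmk] at h4
      have h5 : M.map (QuotientGroup.mk' M) = ⊥ := by
        rw [Subgroup.map_eq_bot_iff, QuotientGroup.ker_mk']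
      rw [h5, Subgroup.zpowers_eq_bot] at h4
      rw [h4, orderOf_one] at hx
      exact hq.one_lt.ne hx
  have h2 : Nat.card (zpowers x) = q := by rw [Nat.card_zpowers, hx]
  rw [h1, Subgroup.card_top] at h2
  exact h2

variable {F : (G : Type) → [Group G] → Prop} (hF : IsAF F)

include hF

theorem IsAF.mem_sig (htriv : ∀ (G : Type) [Group G] [Subsingleton G], F G) :
    ∀ (n : ℕ) {G : Type} [Group G] (_ : F G) (_ : Nat.card G = n), Sig F G := by
  classical
  intro n
  induction n using Nat.strong_induction_on with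
  | _ n ih =>
    intro G _ hG hn
    have hfin := (hF.fin G hG).1
    have hsol := (hF.fin G hG).2
    have hchr : ∀ p : ℕ, p.Prime → p ∣ Nat.card G → Chr F p := by
      intro p hp hpG
      have : Fact p.Prime := ⟨hp⟩
      exact hF.chr_of_dvd hG hpG
    refine ⟨hfin, hsol, hchr, ?_⟩
    rcases subsingleton_or_nontrivial G with hss | hnt
    · intro p q _ _ _ _ x y _ _
      exact Subsingleton.elim _ _
    obtain ⟨M, r, hMn, hr, hMr⟩ := exists_prime_index (G := G)
    have hr' : Fact r.Prime := ⟨hr⟩
    have hMne : M ≠ ⊤ := by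
      rintro rfl
      rw [Subgroup.index_top] at hMr
      exact hr.one_lt.ne hMr
    have hlt : Nat.card M < n := by
      rw [← hn]
      apply lt_of_le_of_ne (Subgroup.card_le_card_group _)
      intro h
      exact hMne (Subgroup.eq_top_of_card_eq _ h)
    have hFM : F M := hF.of_normal M hG
    have hSM : Sig F M := ih _ hlt hFM rfl
    have hrG : r ∣ Nat.card G := by rw [← hMr]; exact M.index_dvd_card
    have hrc : Chr F r := hchr r hr hrG
    -- commutation in M
    have hMcomm : ∀ p q : ℕ, p.Prime → q.Prime → p ≠ q → ¬ Star F p q →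
        ∀ x ∈ M, ∀ y ∈ M, PEl p x → PEl q y → x * y = y * x := by
      intro p q hp hq hpq hs x hx y hy hpx hqy
      have h1 : PEl p (⟨x, hx⟩ : M) := by
        obtain ⟨k, hk⟩ := hpx
        exact ⟨k, Subtype.ext (by simpa using hk)⟩
      have h2 : PEl q (⟨y, hy⟩ : M) := by
        obtain ⟨k, hk⟩ := hqy
        exact ⟨k, Subtype.ext (by simpa using hk)⟩
      exact congrArg Subtype.val (hSM.2.2.2 p q hp hq hpq hs ⟨x, hx⟩ ⟨y, hy⟩ h1 h2)
    -- a nontrivial p-element gives Chr
    have hchrx : ∀ p : ℕ, p.Prime → ∀ x : G, PEl p x → x ≠ 1 → Chr F p := by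
      intro p hp x hx hx1
      by_contra hnc
      have : Fact p.Prime := ⟨hp⟩
      exact hx1 (hx.eq_one_of_not_dvd (fun h => hnc (hchr p hp h)))
    -- the class of r
    let E : ℕ → Prop := fun s => s = r ∨ (Chr F s ∧ Star F s r)
    have hE2 : ∀ s t : ℕ, s.Prime → t.Prime → s ≠ t → E s → E t → Star F s t := by
      intro s t hs ht hst h1 h2
      have : Fact s.Prime := ⟨hs⟩
      have : Fact t.Prime := ⟨ht⟩
      rcases h1 with rfl | ⟨h1c, h1⟩
      · rcases h2 with rfl | ⟨h2c, h2⟩
        · exact absurd rfl hst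
        · exact hF.star_symm hst.symm h2c hrc h2
      · rcases h2 with rfl | ⟨h2c, h2⟩
        · exact h1
        · by_cases htr : t = r
          · subst htr; exact h1
          · by_cases hsr : s = r
            · subst hsr; exact hF.star_symm htr h2c hrc h2
            · exact hF.star_trans hst (Ne.symm htr) h1c h2c h2 h1
    have hE3 : ∀ s t : ℕ, s.Prime → t.Prime → s ≠ t → Chr F s → Chr F t → E s → ¬ E t →
        ¬ Star F s t := by
      intro s t hs ht hst hsc htc h1 h2 h3
      have : Fact s.Prime := ⟨hs⟩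
      have : Fact t.Prime := ⟨ht⟩
      apply h2
      right
      refine ⟨htc, ?_⟩
      have htr : t ≠ r := fun h => h2 (Or.inl h)
      rcases h1 with rfl | ⟨h1c, h1⟩
      · exact hF.star_symm hst hsc htc h3
      · by_cases hsr : s = r
        · subst hsr; exact hF.star_symm hst hsc htc h3
        · exact hF.star_trans htr hsr htc hrc (hF.star_symm hsr h1c hrc h1)
            (hF.star_symm hst hsc htc h3)
    -- generating sets
    let gS : Set G := {x | x ∈ M ∧ ∃ s, s.Prime ∧ E s ∧ PEl s x}
    let gT : Set G := {x | x ∈ M ∧ ∃ s, s.Prime ∧ ¬ E s ∧ PEl s x}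
    let S : Subgroup G := closure gS
    let T : Subgroup G := closure gT
    have hSn : S.Normal := closure_normal_of_conj (by
      rintro x ⟨hx, s, hs, hEs, k, hk⟩ g
      refine ⟨hMn.conj_mem x hx g, s, hs, hEs, k, ?_⟩
      rw [conj_pow, hk, mul_one, mul_inv_cancel])
    have hTn : T.Normal := closure_normal_of_conj (by
      rintro x ⟨hx, s, hs, hEs, k, hk⟩ g
      refine ⟨hMn.conj_mem x hx g, s, hs, hEs, k, ?_⟩
      rw [conj_pow, hk, mul_one, mul_inv_cancel])
    have hSleM : S ≤ M := (Subgroup.closure_le M).2 (fun x hx => hx.1)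
    have hTleM : T ≤ M := (Subgroup.closure_le M).2 (fun x hx => hx.1)
    have hgcomm : ∀ x ∈ gS, ∀ y ∈ gT, x * y = y * x := by
      rintro x ⟨hx, s, hs, hEs, hsx⟩ y ⟨hy, t, ht, hEt, hty⟩
      by_cases hx1 : x = 1
      · subst hx1; simp
      by_cases hy1 : y = 1
      · subst hy1; simp
      have hst : s ≠ t := by rintro rfl; exact hEt hEs
      exact hMcomm s t hs ht hst
        (hE3 s t hs ht hst (hchrx s hs x hsx hx1) (hchrx t ht y hty hy1) hEs hEt) x hx y hy hsx hty
    have hSTcomm : ∀ x ∈ S, ∀ y ∈ T, x * y = y * x := by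
      have h1 : T ≤ centralizer gS := by
        rw [Subgroup.closure_le]
        intro y hy
        rw [SetLike.mem_coe, Subgroup.mem_centralizer_iff]
        intro x hx
        exact hgcomm x hx y hy
      have h2 : S ≤ centralizer (T : Set G) := by
        rw [Subgroup.closure_le]
        intro x hx
        rw [SetLike.mem_coe, Subgroup.mem_centralizer_iff]
        intro y hy
        exact (Subgroup.mem_centralizer_iff.1 (h1 hy) x hx).symm
      intro x hx y hy
      exact ((Subgroup.mem_centralizer_iff.1 (h2 hx)) y hy).symm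
    have hPEl_coe : ∀ (H : Subgroup G) (s : ℕ) (x : H), PEl s x ↔ PEl s (x : G) := by
      intro H s x
      constructor
      · rintro ⟨k, hk⟩; exact ⟨k, by simpa using congrArg Subtype.val hk⟩
      · rintro ⟨k, hk⟩; exact ⟨k, Subtype.ext (by simpa using hk)⟩
    have hScard : ∀ t : ℕ, t.Prime → t ∣ Nat.card S → E t := by
      intro t ht htS
      by_contra hEt
      have : Fact t.Prime := ⟨ht⟩
      refine not_dvd_of_gen (M := S) E (t := t) ?_ hEt ?_ htS
      · rw [eq_top_iff, ← Subgroup.closure_closure_coe_preimage (k := gS)]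
        apply Subgroup.closure_mono
        rintro x ⟨_, s, hs, hEs, hx⟩
        exact ⟨s, hs, hEs, (hPEl_coe S s x).2 hx⟩
      · rintro x y ⟨s, hs, hEs, hx⟩ hy
        apply Subtype.ext
        have h1 : (x : G) ∈ gS := ⟨hSleM x.2, s, hs, hEs, (hPEl_coe S s x).1 hx⟩
        have h2 : (y : G) ∈ gT := ⟨hSleM y.2, t, ht, hEt, (hPEl_coe S t y).1 hy⟩
        exact hgcomm _ h1 _ h2
    have hTcard : ∀ t : ℕ, t.Prime → t ∣ Nat.card T → ¬ E t := by
      intro t ht htT hEt
      have : Fact t.Prime := ⟨ht⟩
      refine not_dvd_of_gen (M := T) (fun s => ¬ E s) (t := t) ?_ (not_not.2 hEt) ?_ htT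
      · rw [eq_top_iff, ← Subgroup.closure_closure_coe_preimage (k := gT)]
        apply Subgroup.closure_mono
        rintro x ⟨_, s, hs, hEs, hx⟩
        exact ⟨s, hs, hEs, (hPEl_coe T s x).2 hx⟩
      · rintro x y ⟨s, hs, hEs, hx⟩ hy
        apply Subtype.ext
        have h1 : (x : G) ∈ gT := ⟨hTleM x.2, s, hs, hEs, (hPEl_coe T s x).1 hx⟩
        have h2 : (y : G) ∈ gS := ⟨hTleM y.2, t, ht, hEt, (hPEl_coe T t y).1 hy⟩
        exact (hgcomm _ h2 _ h1).symm
    have hSTinf : ∀ x, x ∈ S → x ∈ T → x = 1 := by
      intro x hxS hxT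
      have h1 : orderOf x ∣ Nat.card S := Subgroup.orderOf_dvd_natCard S hxS
      have h2 : orderOf x ∣ Nat.card T := Subgroup.orderOf_dvd_natCard T hxT
      by_contra hx1
      have h3 : orderOf x ≠ 1 := by rwa [Ne, orderOf_eq_one_iff]
      obtain ⟨t, ht, htx⟩ := Nat.exists_prime_and_dvd h3
      exact hTcard t ht (htx.trans h2) (hScard t ht (htx.trans h1))
    have hSTM : S ⊔ T = M := by
      apply eq_of_primary (sup_le hSleM hTleM)
      intro p hp L hLM hLp
      by_cases hEp : E p
      · refine le_trans ?_ le_sup_left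
        intro x hx
        exact subset_closure ⟨hLM hx, p, hp, hEp, IsPGroup.pow_of_mem hLp hx⟩
      · refine le_trans ?_ le_sup_right
        intro x hx
        exact subset_closure ⟨hLM hx, p, hp, hEp, IsPGroup.pow_of_mem hLp hx⟩
    -- G / T
    have hmkT : Function.Surjective (QuotientGroup.mk' T) := QuotientGroup.mk'_surjective T
    have hmkS : Function.Surjective (QuotientGroup.mk' S) := QuotientGroup.mk'_surjective S
    have hGTcard : ∀ s : ℕ, s.Prime → s ∣ Nat.card (G ⧸ T) → E s := by
      intro s hs hsd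
      have h1 : T.relIndex M * M.index = T.index := Subgroup.relIndex_mul_index hTleM
      have h2 : T.relIndex M ∣ Nat.card S := by
        rw [← hSTM, Subgroup.relIndex_sup_right S T]
        exact Subgroup.relIndex_dvd_card T S
      have h3 : s ∣ T.index := hsd
      rw [← h1, hMr] at h3
      rcases hs.dvd_mul.1 h3 with h4 | h4
      · exact hScard s hs (h4.trans h2)
      · exact Or.inl ((Nat.prime_dvd_prime_iff_eq hs hr).1 h4)
    have hGT : Sig F (G ⧸ T) := by
      refine ⟨inferInstance, inferInstance, ?_, ?_⟩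
      · intro p hp hpd
        exact hchr p hp (hpd.trans (Subgroup.card_quotient_dvd_card T))
      · intro p q hp hq hpq hs x y hx hy
        have : Fact p.Prime := ⟨hp⟩
        have : Fact q.Prime := ⟨hq⟩
        by_cases h1 : p ∣ Nat.card (G ⧸ T)
        · by_cases h2 : q ∣ Nat.card (G ⧸ T)
          · exact absurd (hE2 p q hp hq hpq (hGTcard p hp h1) (hGTcard q hq h2)) hs
          · rw [hy.eq_one_of_not_dvd h2]; simp
        · rw [hx.eq_one_of_not_dvd h1]; simp
    have hFGT : F (G ⧸ T) := hF.sig_mem htriv _ hGT rfl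
    -- G / S is in the class
    have hGMc : ∀ a b : G ⧸ M, a * b = b * a := by
      have h1 : Nat.card (G ⧸ M) = r := hMr
      have h2 : IsCyclic (G ⧸ M) := isCyclic_of_prime_card h1
      exact isMulCommutative_iff.1 (IsCyclic.isMulCommutative (α := G ⧸ M))
    have hFGS : F (G ⧸ S) := by
      let p₁ : G ⧸ T →* G ⧸ M := QuotientGroup.map T M (MonoidHom.id G) hTleM
      let p₂ : G ⧸ S →* G ⧸ M := QuotientGroup.map S M (MonoidHom.id G) hSleM
      refine hF.qr2 hGMc (QuotientGroup.mk' T) (QuotientGroup.mk' S) ?_ p₁ p₂ ?_ hmkS hFGT hG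
      · intro d h1 h2
        exact hSTinf d ((QuotientGroup.eq_one_iff d).1 h2) ((QuotientGroup.eq_one_iff d).1 h1)
      · intro x y
        obtain ⟨x, rfl⟩ := hmkT x
        obtain ⟨y, rfl⟩ := hmkS y
        constructor
        · intro h
          have h1 : (QuotientGroup.mk x : G ⧸ M) = QuotientGroup.mk y := h
          rw [eq_comm, QuotientGroup.eq] at h1
          -- y⁻¹ * x ∈ M = S T
          rw [← hSTM] at h1
          obtain ⟨s, hs, t, ht, hst⟩ := Subgroup.mem_sup_of_normal_left.1 h1
          refine ⟨y * s, ?_, ?_⟩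
          · apply QuotientGroup.eq.2
            have : (y * s)⁻¹ * x = t := by
              have : x = y * (s * t) := by rw [hst]; group
              rw [this]; group
            rw [this]; exact ht
          · apply QuotientGroup.eq.2
            have : (y * s)⁻¹ * y = s⁻¹ := by group
            rw [this]; exact S.inv_mem hs
        · rintro ⟨d, h1, h2⟩
          rw [← h1, ← h2]
          rfl
    -- apply lemma A
    obtain ⟨R⟩ : Nonempty (Sylow r (G ⧸ S)) := inferInstance
    have hK'n : (M.map (QuotientGroup.mk' S)).Normal := hMn.map _ hmkS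
    have hK'i : (M.map (QuotientGroup.mk' S)).index = r := by
      rw [Subgroup.index_map_eq M hmkS (by rw [QuotientGroup.ker_mk']; exact hSleM), hMr]
    have hMT : M.map (QuotientGroup.mk' S) = T.map (QuotientGroup.mk' S) := by
      rw [← hSTM, Subgroup.map_sup]
      have : S.map (QuotientGroup.mk' S) = ⊥ := by
        rw [Subgroup.map_eq_bot_iff, QuotientGroup.ker_mk']
      rw [this, bot_sup_eq]
    have hK'c : Nat.card (M.map (QuotientGroup.mk' S)) ∣ Nat.card T := by
      rw [hMT]; exact Subgroup.card_map_dvd _ _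
    have hK'r : ¬ r ∣ Nat.card (M.map (QuotientGroup.mk' S)) := by
      intro h
      exact hTcard r hr (h.trans hK'c) (Or.inl rfl)
    have hRn : (R : Subgroup (G ⧸ S)).Normal := by
      by_contra hRn
      obtain ⟨p, hp, hpd, hst⟩ := hF.lemmaA _ hFGS rfl (M.map (QuotientGroup.mk' S)) hK'i hK'r R hRn
        (by
          intro L hL
          have h1 : F (L.comap (QuotientGroup.mk' S) ⊓ T : Subgroup G) := by
            have h2 : Sig F (L.comap (QuotientGroup.mk' S) ⊓ T : Subgroup G) :=
              hSM.of_injective (Subgroup.inclusion (le_trans inf_le_right hTleM))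
                (Subgroup.inclusion_injective _)
            exact hF.sig_mem htriv _ h2 rfl
          refine hF.of_equiv ?_ h1
          refine MulEquiv.ofBijective
            (((QuotientGroup.mk' S).comp (L.comap (QuotientGroup.mk' S) ⊓ T).subtype).codRestrict L
              (fun x => x.2.1)) ⟨?_, ?_⟩
          · rw [injective_iff_map_eq_one]
            intro x hx
            have h3 : (x : G) ∈ S := (QuotientGroup.eq_one_iff _).1 (congrArg Subtype.val hx)
            exact Subtype.ext (hSTinf _ h3 x.2.2)
          · rintro ⟨y, hy⟩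
            have h3 := hL hy
            rw [hMT] at h3
            obtain ⟨t, ht, rfl⟩ := h3
            exact ⟨⟨t, hy, ht⟩, rfl⟩)
      have h1 : p ∣ Nat.card T := hpd.trans hK'c
      have h2 : Chr F p := hchr p hp (h1.trans (Subgroup.card_subgroup_dvd_card T))
      exact hTcard p hp h1 (Or.inr ⟨h2, hst⟩)
    -- elements
    have hTmem : ∀ p : ℕ, p.Prime → ¬ E p → ∀ x : G, PEl p x → x ∈ T := by
      intro p hp hEp x hx
      have : Fact p.Prime := ⟨hp⟩
      have hpr : p ≠ r := fun h => hEp (Or.inl h)
      have h1 : (QuotientGroup.mk' M) x = 1 := by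
        apply (hx.map (QuotientGroup.mk' M)).eq_one_of_not_dvd
        intro h
        have h2 : p ∣ M.index := h
        rw [hMr] at h2
        exact hpr ((Nat.prime_dvd_prime_iff_eq hp hr).1 h2)
      have h2 : x ∈ M := (QuotientGroup.eq_one_iff x).1 h1
      exact subset_closure ⟨h2, p, hp, hEp, hx⟩
    -- key: p-elements with p ∉ E commute with q-elements, when not related
    have key : ∀ p q : ℕ, p.Prime → q.Prime → p ≠ q → ¬ Star F p q → ¬ E p →
        ∀ x y : G, PEl p x → PEl q y → x * y = y * x := by
      intro p q hp hq hpq hs hEp x y hx hy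
      have hxT := hTmem p hp hEp x hx
      by_cases hEq : E q
      · by_cases hyM : y ∈ M
        · have hyS : y ∈ S := subset_closure ⟨hyM, q, hq, hEq, hy⟩
          exact (hSTcomm y hyS x hxT).symm
        · have hqr : q = r := by
            by_contra hqr
            have : Fact q.Prime := ⟨hq⟩
            apply hyM
            have h1 : (QuotientGroup.mk' M) y = 1 := by
              apply (hy.map (QuotientGroup.mk' M)).eq_one_of_not_dvd
              intro h
              have h2 : q ∣ M.index := h
              rw [hMr] at h2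
              exact hqr ((Nat.prime_dvd_prime_iff_eq hq hr).1 h2)
            exact (QuotientGroup.eq_one_iff y).1 h1
          subst hqr
          -- image of y in R
          have hyR : (QuotientGroup.mk' S) y ∈ (R : Subgroup (G ⧸ S)) := by
            have h1 : IsPGroup q (zpowers ((QuotientGroup.mk' S) y)) := by
              obtain ⟨k, hk⟩ := hy.map (QuotientGroup.mk' S)
              rw [isPGroup_iff_pow_pow_eq_one]
              rintro ⟨_, ⟨m, rfl⟩⟩
              refine ⟨k, Subtype.ext ?_⟩
              show (((QuotientGroup.mk' S) y) ^ m) ^ q ^ k = 1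
              rw [← zpow_natCast, ← zpow_mul, mul_comm, zpow_mul, zpow_natCast, hk, one_zpow]
            obtain ⟨R', hR'⟩ := h1.exists_le_sylow
            have h2 : R' = R := by
              have := R.unique_of_normal hRn
              exact Subsingleton.elim _ _
            rw [← h2]
            exact hR' (mem_zpowers _)
          have hxK : (QuotientGroup.mk' S) x ∈ M.map (QuotientGroup.mk' S) := ⟨x, hTleM hxT, rfl⟩
          have hcomm0 : (QuotientGroup.mk' S) (x * y * x⁻¹ * y⁻¹) = 1 := by
            simp only [map_mul, map_inv]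
            set u := (QuotientGroup.mk' S) x
            set v := (QuotientGroup.mk' S) y
            have h1 : u * v * u⁻¹ * v⁻¹ ∈ (R : Subgroup (G ⧸ S)) :=
              (R : Subgroup (G ⧸ S)).mul_mem (hRn.conj_mem v hyR u)
                ((R : Subgroup (G ⧸ S)).inv_mem hyR)
            have h2 : u * v * u⁻¹ * v⁻¹ ∈ M.map (QuotientGroup.mk' S) := by
              have h3 : u * v * u⁻¹ * v⁻¹ = u * (v * u⁻¹ * v⁻¹) := by group
              rw [h3]
              exact (M.map (QuotientGroup.mk' S)).mul_mem hxK
                (hK'n.conj_mem _ ((M.map (QuotientGroup.mk' S)).inv_mem hxK) v)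
            obtain ⟨k, hk⟩ := IsPGroup.pow_of_mem R.2 h1
            have h4 : PEl q (⟨u * v * u⁻¹ * v⁻¹, h2⟩ : M.map (QuotientGroup.mk' S)) :=
              ⟨k, Subtype.ext (by simpa using hk)⟩
            exact congrArg Subtype.val (h4.eq_one_of_not_dvd hK'r)
          have h5 : x * y * x⁻¹ * y⁻¹ ∈ S := (QuotientGroup.eq_one_iff _).1 hcomm0
          have h6 : x * y * x⁻¹ * y⁻¹ ∈ T := by
            have h3 : x * y * x⁻¹ * y⁻¹ = x * (y * x⁻¹ * y⁻¹) := by group
            rw [h3]
            exact T.mul_mem hxT (hTn.conj_mem _ (T.inv_mem hxT) y)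
          have h7 := hSTinf _ h5 h6
          exact mul_inv_eq_iff_eq_mul.1 (mul_inv_eq_one.1 h7)
      · have hyT := hTmem q hq hEq y hy
        exact hMcomm p q hp hq hpq hs x (hTleM hxT) y (hTleM hyT) hx hy
    intro p q hp hq hpq hs x y hx hy
    have : Fact p.Prime := ⟨hp⟩
    have : Fact q.Prime := ⟨hq⟩
    by_cases hx1 : x = 1
    · subst hx1; simp
    by_cases hy1 : y = 1
    · subst hy1; simp
    have hpc := hchrx p hp x hx hx1
    have hqc := hchrx q hq y hy hy1
    by_cases hEp : E p
    · by_cases hEq : E q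
      · exact absurd (hE2 p q hp hq hpq hEp hEq) hs
      · have hs' : ¬ Star F q p := fun h => hs (hF.star_symm hpq.symm hqc hpc h)
        exact (key q p hq hp hpq.symm hs' hEq y x hy hx).symm
    · exact key p q hp hq hpq hs hEp x y hx hy

end Pool.Agent.AFH29
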