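import Pool.Agent.Lib_helper29.AF12

set_option autoImplicit false

namespace Pool.Agent.AFH29

open Subgroup

/-- elements of `p`-power order lift -/
theorem PEl.lift {G H : Type} [Group G] [Group H] [Finite G] {p : ℕ} [hp : Fact p.Prime]
    (f : G →* H) (hf : Function.Surjective f) {y : H} (hy : PEl p y) : ∃ x : G, PEl p x ∧ f x = y := by
  obtain ⟨g, rfl⟩ := hf y
  obtain ⟨k, hk⟩ := hy
  obtain ⟨a, m, hm, hn⟩ := Nat.exists_eq_pow_mul_and_not_dvd (orderOf_pos g).ne' p hp.out.ne_one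
  have hco : Nat.Coprime (p ^ k) m := Nat.Coprime.pow_left _ ((Nat.Prime.coprime_iff_not_dvd hp.out).2 hm)
  obtain ⟨c, hc1, hc2⟩ := Nat.chineseRemainder hco 1 0
  refine ⟨g ^ c, ⟨a, ?_⟩, ?_⟩
  · rw [← pow_mul]
    apply orderOf_dvd_iff_pow_eq_one.1
    rw [hn, mul_comm]
    exact Nat.mul_dvd_mul (Nat.modEq_zero_iff_dvd.1 hc2) (dvd_refl _)
  · rw [map_pow]
    have h1 : c ≡ 1 [MOD orderOf (f g)] := hc1.of_dvd (orderOf_dvd_of_pow_eq_one hk)
    have h2 := (pow_eq_pow_iff_modEq (x := f g)).2 h1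
    rw [h2, pow_one]

theorem Sig.of_surjective {F : (G : Type) → [Group G] → Prop} {G H : Type} [Group G] [Group H]
    (f : G →* H) (hf : Function.Surjective f) (h : Sig F G) : Sig F H := by
  obtain ⟨h1, h2, h3, h4⟩ := h
  refine ⟨Finite.of_surjective f hf, Group.isSolvable_of_surjective hf, ?_, ?_⟩
  · intro p hp hpH
    exact h3 p hp (hpH.trans (Subgroup.card_dvd_of_surjective f hf))
  · intro p q hp hq hpq hs x y hx hy
    have : Fact p.Prime := ⟨hp⟩
    have : Fact q.Prime := ⟨hq⟩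
    obtain ⟨x', hx', rfl⟩ := hx.lift f hf
    obtain ⟨y', hy', rfl⟩ := hy.lift f hf
    rw [← map_mul, ← map_mul, h4 p q hp hq hpq hs x' y' hx' hy']

theorem Sig.subdirect {F : (G : Type) → [Group G] → Prop} {G H K : Type} [Group G] [Group H]
    [Group K] (f : G →* H) (g : G →* K) (hinj : ∀ x, f x = 1 → g x = 1 → x = 1)
    (hH : Sig F H) (hK : Sig F K) : Sig F G := by
  have hi : Function.Injective (f.prod g) := injective_prod f g hinj
  obtain ⟨h1, h2, h3, h4⟩ := hH
  obtain ⟨k1, k2, k3, k4⟩ := hK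
  refine ⟨Finite.of_injective _ hi, Group.isSolvable_of_isSolvable_injective hi, ?_, ?_⟩
  · intro p hp hpG
    have h5 := hpG.trans (Subgroup.card_dvd_of_injective _ hi)
    rw [Nat.card_prod] at h5
    rcases hp.dvd_mul.1 h5 with h | h
    · exact h3 p hp h
    · exact k3 p hp h
  · intro p q hp hq hpq hs x y hx hy
    apply hi
    rw [map_mul, map_mul]
    exact Prod.ext (h4 p q hp hq hpq hs _ _ (hx.map f) (hy.map f))
      (k4 p q hp hq hpq hs _ _ (hx.map g) (hy.map g))

theorem IsAF.triv {F : (G : Type) → [Group G] → Prop} (hF : IsAF F) {G : Type} [Group G]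
    (hG : F G) (H : Type) [Group H] [Subsingleton H] : F H := by
  refine hF.of_equiv ?_ (hF.of_normal (⊥ : Subgroup G) hG)
  have : Unique H := { default := 1, uniq := fun a => Subsingleton.elim _ _ }
  exact MulEquiv.ofUnique

theorem IsAF.formation {F : (G : Type) → [Group G] → Prop} (hF : IsAF F) :
    ((∀ (G : Type) [Group G] (N : Subgroup G) [N.Normal], F G → F (G ⧸ N)) ∧
       (∀ (G : Type) [Group G] [Finite G] (N M : Subgroup G) [N.Normal] [M.Normal],
          N ⊓ M = ⊥ → F (G ⧸ N) → F (G ⧸ M) → F G)) := by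
  constructor
  · intro G _ N _ hG
    have htriv := fun (H : Type) [Group H] [Subsingleton H] => hF.triv hG H
    have h1 := hF.mem_sig htriv _ hG rfl
    exact hF.sig_mem htriv _ (h1.of_surjective (QuotientGroup.mk' N)
      (QuotientGroup.mk'_surjective N)) rfl
  · intro G _ _ N M _ _ hNM h1 h2
    have htriv := fun (H : Type) [Group H] [Subsingleton H] => hF.triv h1 H
    have h3 := hF.mem_sig htriv _ h1 rfl
    have h4 := hF.mem_sig htriv _ h2 rfl
    refine hF.sig_mem htriv _ (Sig.subdirect (QuotientGroup.mk' N) (QuotientGroup.mk' M) ?_ h3 h4) rfl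
    intro x hx hy
    have h5 : x ∈ N ⊓ M := ⟨(QuotientGroup.eq_one_iff x).1 hx, (QuotientGroup.eq_one_iff x).1 hy⟩
    rw [hNM, Subgroup.mem_bot] at h5
    exact h5

end Pool.Agent.AFH29
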