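import Pool.Agent.Lib_helper29.AF1

set_option autoImplicit false

namespace Pool.Agent.AFH29

open Subgroup

variable {F : (G : Type) → [Group G] → Prop} (hF : IsAF F)

include hF

/-- if `p` divides the order of a group of the class then the group of order `p` is in the class -/
theorem IsAF.prime_order : ∀ (n : ℕ) {G : Type} [Group G] (_ : F G) (_ : Nat.card G = n) (p : ℕ)
    [Fact p.Prime] (_ : p ∣ Nat.card G), ∃ (C : Type) (_ : CommGroup C), Nat.card C = p ∧ F C := by
  intro n
  induction n using Nat.strong_induction_on with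
  | _ n ih =>
    intro G _ hG hn p hp hpG
    have hfin := (hF.fin G hG).1
    have hsol := (hF.fin G hG).2
    have hcard : Nat.card G = Nat.card (G ⧸ commutator G) * Nat.card (commutator G) :=
      Subgroup.card_eq_card_quotient_mul_card_subgroup _
    by_cases h1 : p ∣ Nat.card (G ⧸ commutator G)
    · have hq : F (Abelianization G) :=
        hF.abelian_quotient (U := Abelianization G) (fun a b => mul_comm a b)
          (Abelianization.of) (QuotientGroup.mk_surjective) hG
      have h1' : p ∣ Nat.card (Abelianization G) := h1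
      have : Finite (Abelianization G) := (hF.fin _ hq).1
      obtain ⟨x, hx⟩ := exists_prime_orderOf_dvd_card' p h1'
      refine ⟨zpowers x, inferInstance, ?_, ?_⟩
      · rw [Nat.card_zpowers, hx]
      · exact hF.of_normal (zpowers x) hq
    · have h2 : p ∣ Nat.card (commutator G) := by
        rw [hcard] at hpG
        exact (hp.out.dvd_mul.1 hpG).resolve_left h1
      have hne : (commutator G) ≠ ⊤ := by
        have : Nontrivial G := by
          rw [← Finite.one_lt_card_iff_nontrivial]
          exact lt_of_lt_of_le hp.out.one_lt (Nat.le_of_dvd Nat.card_pos hpG)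
        exact (Group.IsSolvable.commutator_lt_top_of_nontrivial G).ne
      have hlt : Nat.card (commutator G) < n := by
        rw [← hn]
        apply lt_of_le_of_ne (Subgroup.card_le_card_group _)
        intro h
        exact hne (Subgroup.eq_top_of_card_eq _ h)
      exact ih _ hlt (hF.of_normal (commutator G) hG) rfl p h2

omit hF in
theorem exists_equiv_of_prime_card {G H : Type} [Group G] [Group H] {p : ℕ} [Fact p.Prime]
    (h1 : Nat.card G = p) (h2 : Nat.card H = p) : Nonempty (G ≃* H) :=
  ⟨mulEquivOfPrimeCardEq h1 h2⟩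

/-- largest normal subgroup in the class -/
theorem IsAF.exists_radical {G : Type} [Group G] [Finite G] (hb : F (⊥ : Subgroup G)) :
    ∃ R : Subgroup G, R.Characteristic ∧ F R ∧ ∀ N : Subgroup G, N.Normal → F N → N ≤ R := by
  classical
  have hfin : {N : Subgroup G | N.Normal ∧ F N}.Finite := Set.toFinite _
  obtain ⟨R, hR⟩ := hfin.exists_maximal ⟨⊥, inferInstance, hb⟩
  have hRn : R.Normal := hR.prop.1
  have hle : ∀ N : Subgroup G, N.Normal → F N → N ≤ R := by
    intro N hN hFN
    have : (R ⊔ N) ∈ {N : Subgroup G | N.Normal ∧ F N} :=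
      ⟨inferInstance, hF.sup G R N hRn hN hR.prop.2 hFN⟩
    exact le_trans le_sup_right (hR.le_of_ge this le_sup_left)
  refine ⟨R, ?_, hR.prop.2, hle⟩
  rw [Subgroup.characteristic_iff_map_le]
  intro e
  apply hle
  · exact Subgroup.Normal.map hRn _ e.surjective
  · exact hF.map_injective e.toMonoidHom e.injective hR.prop.2

omit hF in
theorem coatom_normal_of_pgroup {G : Type} [Group G] [Finite G] {p : ℕ} [Fact p.Prime]
    (hG : IsPGroup p G) {M : Subgroup G} (hM : IsCoatom M) : M.Normal := by
  have h := hG.isNilpotent
  have h2 := (Group.isNilpotent_of_finite_tfae (G := G)).out 0 2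
  exact h2.1 h M hM

/-- In a `p`-group all subgroups in the class lie in a normal subgroup in the class -/
theorem IsAF.exists_normal_of_pgroup {p : ℕ} [Fact p.Prime] : ∀ (n : ℕ) {G : Type} [Group G]
    [Finite G] (_ : IsPGroup p G) (_ : Nat.card G = n) (H : Subgroup G) (_ : F H),
    ∃ N : Subgroup G, N.Normal ∧ H ≤ N ∧ F N := by
  intro n
  induction n using Nat.strong_induction_on with
  | _ n ih =>
    intro G _ _ hG hn H hH
    by_cases hHt : H = ⊤
    · subst hHt; exact ⟨⊤, inferInstance, le_rfl, hH⟩
    · obtain ⟨M, hM, hHM⟩ := (eq_top_or_exists_le_coatom H).resolve_left hHt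
      have hMn : M.Normal := coatom_normal_of_pgroup hG hM
      have hlt : Nat.card M < n := by
        rw [← hn]
        apply lt_of_le_of_ne (Subgroup.card_le_card_group _)
        intro h
        exact hM.1 (Subgroup.eq_top_of_card_eq _ h)
      have hHM' : F (H.subgroupOf M) := hF.of_equiv (Subgroup.subgroupOfEquivOfLe hHM).symm hH
      obtain ⟨N, hN, hHN, hFN⟩ := ih _ hlt (hG.to_subgroup M) rfl (H.subgroupOf M) hHM'
      have hb : F (⊥ : Subgroup M) := by
        refine hF.of_equiv ?_ (hF.of_normal (⊥ : Subgroup H) hH)
        exact (MulEquiv.ofUnique)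
      obtain ⟨R, hRc, hFR, hRN⟩ := hF.exists_radical (G := M) hb
      refine ⟨R.map M.subtype, inferInstance, ?_, hF.map_injective _ M.subtype_injective hFR⟩
      intro x hx
      exact ⟨⟨x, hHM hx⟩, hRN N hN hFN (hHN (by simpa [Subgroup.mem_subgroupOf] using hx)), rfl⟩

/-- the class is closed under subgroups of `p`-groups -/
theorem IsAF.subgroup_of_pgroup {p : ℕ} [Fact p.Prime] : ∀ (n : ℕ) {G : Type} [Group G]
    [Finite G] (_ : IsPGroup p G) (_ : Nat.card G = n) (_ : F G) (H : Subgroup G), F H := by
  intro n
  induction n using Nat.strong_induction_on with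
  | _ n ih =>
    intro G _ _ hG hn hFG H
    by_cases hHt : H = ⊤
    · subst hHt; exact hF.top hFG
    · obtain ⟨M, hM, hHM⟩ := (eq_top_or_exists_le_coatom H).resolve_left hHt
      have hMn : M.Normal := coatom_normal_of_pgroup hG hM
      have hlt : Nat.card M < n := by
        rw [← hn]
        apply lt_of_le_of_ne (Subgroup.card_le_card_group _)
        intro h
        exact hM.1 (Subgroup.eq_top_of_card_eq _ h)
      exact hF.of_equiv (Subgroup.subgroupOfEquivOfLe hHM)
        (ih _ hlt (hG.to_subgroup M) rfl (hF.of_normal M hFG) (H.subgroupOf M))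

/-- abelian p-groups embed in a `p`-group generated by elements of order `p` -/
theorem IsAF.abelian_pgroup {p : ℕ} [hp : Fact p.Prime] {C : Type} [Group C]
    (hC : Nat.card C = p) (hFC : F C) {P : Type} [CommGroup P] [Finite P] (hP : IsPGroup p P) :
    F P := by
  classical
  have hfinC : Finite C := (hF.fin C hFC).1
  have hcomm : ∀ a b : C, a * b = b * a := by
    have : IsCyclic C := isCyclic_of_prime_card hC
    exact isMulCommutative_iff.1 (IsCyclic.isMulCommutative (α := C))
  obtain ⟨c, hc⟩ : ∃ c : C, c ≠ 1 := by
    have : Nontrivial C := by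
      rw [← Finite.one_lt_card_iff_nontrivial, hC]; exact hp.out.one_lt
    exact exists_ne 1
  have hcp : c ^ p = 1 := by rw [← hC]; exact pow_card_eq_one'
  -- the wreath product
  have hG : IsPGroup p (RegularWreathProduct P C) := by
    obtain ⟨a, ha⟩ := IsPGroup.iff_card.1 hP
    apply IsPGroup.of_card (n := a * p + 1)
    rw [RegularWreathProduct.card, ha, hC, ← pow_mul, pow_succ]
  have key : ∀ g : RegularWreathProduct P C, orderOf g = p → F (zpowers g) := by
    intro g hg
    have h1 : Nat.card (zpowers g) = p := by rw [Nat.card_zpowers, hg]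
    exact hF.of_equiv (mulEquivOfPrimeCardEq hC h1) hFC
  have hb : F (⊥ : Subgroup (RegularWreathProduct P C)) :=
    hF.of_equiv (MulEquiv.ofUnique) (hF.of_normal (⊥ : Subgroup C) hFC)
  obtain ⟨R, hRc, hFR, hRN⟩ := hF.exists_radical hb
  have hmem : ∀ g : RegularWreathProduct P C, orderOf g = p → g ∈ R := by
    intro g hg
    obtain ⟨N, hN, hgN, hFN⟩ := hF.exists_normal_of_pgroup _ hG rfl (zpowers g) (key g hg)
    exact hRN N hN hFN (hgN (mem_zpowers g))
  let σ : RegularWreathProduct P C := RegularWreathProduct.inl c
  have hσp : orderOf σ = p := by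
    apply orderOf_eq_prime
    · simp only [σ]; rw [← map_pow, hcp, map_one]
    · intro h
      apply hc
      have := congrArg RegularWreathProduct.right h
      simpa [σ] using this
  let ι : P → RegularWreathProduct P C := fun x => ⟨Pi.mulSingle 1 x, 1⟩
  let φ : P →* RegularWreathProduct P C :=
    { toFun := fun x => ⟨Pi.mulSingle 1 x * (Pi.mulSingle c x)⁻¹, 1⟩
      map_one' := by ext <;> simp
      map_mul' := by
        intro x y
        ext w
        · simp only [RegularWreathProduct.mul_left, Pi.mul_apply, Pi.inv_apply, inv_one, one_mul,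
            Pi.mulSingle_mul, mul_inv]
          simp only [mul_comm, mul_left_comm, mul_assoc]
        · simp }
  have hφinj : Function.Injective φ := by
    intro x y hxy
    have := congrFun (congrArg RegularWreathProduct.left hxy) 1
    simpa [φ, Pi.mulSingle_eq_of_ne (Ne.symm hc)] using this
  have hφR : φ.range ≤ R := by
    rintro _ ⟨x, rfl⟩
    have h1 : φ x = (ι x * σ * (ι x)⁻¹) * σ⁻¹ := by
      ext w
      · by_cases hw : w = 1
        · subst hw
          have h3 : c⁻¹ ≠ 1 := by simpa using hc
          simp [φ, ι, σ, Pi.mulSingle_eq_of_ne (Ne.symm hc), Pi.mulSingle_eq_of_ne h3]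
        · by_cases hw2 : w = c
          · subst hw2
            simp [φ, ι, σ]
          · have h3 : c⁻¹ * w ≠ 1 := by
              intro h; apply hw2; rw [inv_mul_eq_one] at h; exact h.symm
            simp [φ, ι, σ, Pi.mulSingle_eq_of_ne hw, Pi.mulSingle_eq_of_ne hw2,
              Pi.mulSingle_eq_of_ne h3]
      · simp [φ, ι, σ]
    rw [h1]
    apply R.mul_mem
    · apply hmem
      rw [← hσp]
      exact (MulAut.conj (ι x)).orderOf_eq σ
    · exact R.inv_mem (hmem _ hσp)
  have h2 : F φ.range := by
    have h3 := hF.subgroup_of_pgroup _ (hG.to_subgroup R) rfl hFR (φ.range.subgroupOf R)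
    exact hF.of_equiv (Subgroup.subgroupOfEquivOfLe hφR) h3
  exact hF.of_equiv (MonoidHom.ofInjective hφinj).symm h2

/-- all `p`-groups are in the class -/
theorem IsAF.pgroup {p : ℕ} [hp : Fact p.Prime] {C : Type} [Group C]
    (hC : Nat.card C = p) (hFC : F C) : ∀ (n : ℕ) {P : Type} [Group P] [Finite P]
    (_ : IsPGroup p P) (_ : Nat.card P = n), F P := by
  intro n
  induction n using Nat.strong_induction_on with
  | _ n ih =>
    intro P _ _ hP hn
    by_cases hcyc : IsCyclic P
    · let _ : CommGroup P := IsCyclic.commGroup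
      exact hF.abelian_pgroup hC hFC hP
    · have hlt : ∀ M : Subgroup P, M ≠ ⊤ → F M := by
        intro M hM
        have hlt : Nat.card M < n := by
          rw [← hn]
          apply lt_of_le_of_ne (Subgroup.card_le_card_group _)
          intro h
          exact hM (Subgroup.eq_top_of_card_eq _ h)
        exact ih _ hlt (hP.to_subgroup M) rfl
      have hz : ∀ g : P, zpowers g ≠ ⊤ := by
        intro g hg
        apply hcyc
        exact ⟨g, fun x => by
          have : x ∈ (⊤ : Subgroup P) := trivial
          rw [← hg] at this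
          exact this⟩
      obtain ⟨M, hM, hHM⟩ := (eq_top_or_exists_le_coatom (zpowers (1 : P))).resolve_left (hz 1)
      have : ∃ g : P, g ∉ M := by
        by_contra hcon
        push Not at hcon
        exact hM.1 (eq_top_iff.2 (fun x _ => hcon x))
      obtain ⟨g, hg⟩ := this
      obtain ⟨M', hM', hHM'⟩ := (eq_top_or_exists_le_coatom (zpowers g)).resolve_left (hz g)
      have hne : M ≠ M' := by
        rintro rfl
        exact hg (hHM' (mem_zpowers g))
      have h1 : M.Normal := coatom_normal_of_pgroup hP hM
      have h2 : M'.Normal := coatom_normal_of_pgroup hP hM'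
      refine hF.of_sup_eq_top (N := M) (M := M') ?_ (hlt M hM.1) (hlt M' hM'.1)
      exact hM.sup_eq_top_of_ne hM' hne

end Pool.Agent.AFH29
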