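import Pool.Agent.Lib_helper29.AF2

set_option autoImplicit false

namespace Pool.Agent.AFH29

open Subgroup

/-- fibre product -/
def fib {X T U : Type} [Group X] [Group T] [Group U] (π : X →* U) (τ : T →* U) :
    Subgroup (X × T) where
  carrier := {g | π g.1 = τ g.2}
  mul_mem' := by intro a b ha hb; simp_all
  one_mem' := by simp
  inv_mem' := by intro a ha; simp_all

/-- double fibre product -/
def fib2 {X T U : Type} [Group X] [Group T] [Group U] (π : X →* U) (τ : T →* U) :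
    Subgroup (X × X × T) where
  carrier := {g | π g.1 = τ g.2.2 ∧ π g.2.1 = τ g.2.2}
  mul_mem' := by intro a b ha hb; simp_all
  one_mem' := by simp
  inv_mem' := by intro a ha; simp_all

theorem mem_fib {X T U : Type} [Group X] [Group T] [Group U] {π : X →* U} {τ : T →* U}
    {g : X × T} : g ∈ fib π τ ↔ π g.1 = τ g.2 := Iff.rfl

theorem mem_fib2 {X T U : Type} [Group X] [Group T] [Group U] {π : X →* U} {τ : T →* U}
    {g : X × X × T} : g ∈ fib2 π τ ↔ π g.1 = τ g.2.2 ∧ π g.2.1 = τ g.2.2 := Iff.rfl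

variable {F : (G : Type) → [Group G] → Prop} (hF : IsAF F)

include hF

theorem IsAF.lemmaL0 {X T U : Type} [Group X] [Group T] [Group U] [Finite X] [Finite T]
    [Group.IsSolvable X] [Group.IsSolvable T]
    (hU : ∀ a b : U, a * b = b * a) (π : X →* U) (τ : T →* U)
    (hπ : Function.Surjective π) (hτ : Function.Surjective τ)
    (hFY : F (fib π τ))
    (A : Subgroup X) (hA : Abn A) (hFA : F A) : F X := by
  -- projections
  let f1 : fib2 π τ →* fib π τ :=
    { toFun := fun g => ⟨(g.1.1, g.1.2.2), g.2.1⟩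
      map_one' := rfl
      map_mul' := fun _ _ => rfl }
  let f2 : fib2 π τ →* fib π τ :=
    { toFun := fun g => ⟨(g.1.2.1, g.1.2.2), g.2.2⟩
      map_one' := rfl
      map_mul' := fun _ _ => rfl }
  let g1 : fib2 π τ →* X :=
    { toFun := fun g => g.1.1
      map_one' := rfl
      map_mul' := fun _ _ => rfl }
  let g2 : fib2 π τ →* X :=
    { toFun := fun g => g.1.2.1
      map_one' := rfl
      map_mul' := fun _ _ => rfl }
  have hg1 : Function.Surjective g1 := by
    intro x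
    obtain ⟨t, ht⟩ := hτ (π x)
    exact ⟨⟨(x, x, t), ht.symm, ht.symm⟩, rfl⟩
  have hg2 : Function.Surjective g2 := by
    intro x
    obtain ⟨t, ht⟩ := hτ (π x)
    exact ⟨⟨(x, x, t), ht.symm, ht.symm⟩, rfl⟩
  let q : fib π τ →* U :=
    { toFun := fun g => π g.1.1
      map_one' := by simp
      map_mul' := by simp }
  have hAU : ∀ x : X, ∃ a ∈ A, π a = π x := by
    intro x
    have h := hA.map_eq_top π hπ hU
    have : π x ∈ A.map π := by rw [h]; trivial
    obtain ⟨a, ha, hax⟩ := this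
    exact ⟨a, ha, hax⟩
  -- A1
  have hA1 : F (A.comap g2) := by
    refine hF.qr1 hU (f1.comp (A.comap g2).subtype)
      ((g2.comp (A.comap g2).subtype).codRestrict A (fun d => d.2)) ?_ q (π.comp A.subtype) ?_
      hFY hFA
    · rintro ⟨⟨⟨x1, x2, t⟩, h1⟩, h2⟩ hd1 hd2
      have e1 := congrArg Subtype.val hd1
      have e2 : x2 = 1 := congrArg Subtype.val hd2
      simp [f1] at e1
      obtain ⟨rfl, rfl⟩ := e1
      subst e2
      rfl
    · rintro ⟨⟨x1, t⟩, h1⟩ ⟨a, ha⟩
      constructor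
      · intro h
        have h' : π x1 = π a := h
        refine ⟨⟨⟨(x1, a, t), h1, h'.symm.trans h1⟩, ha⟩, rfl, rfl⟩
      · rintro ⟨⟨⟨⟨y1, y2, s⟩, h3, h4⟩, h2⟩, hd1, hd2⟩
        have e1 := congrArg Subtype.val hd1
        have e2 := congrArg Subtype.val hd2
        simp [f1, g2] at e1 e2 h3 h4
        obtain ⟨rfl, rfl⟩ := e1
        subst e2
        exact h3.trans h4.symm
  have hA2 : F (A.comap g1) := by
    refine hF.qr1 hU (f2.comp (A.comap g1).subtype)
      ((g1.comp (A.comap g1).subtype).codRestrict A (fun d => d.2)) ?_ q (π.comp A.subtype) ?_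
      hFY hFA
    · rintro ⟨⟨⟨x1, x2, t⟩, h1⟩, h2⟩ hd1 hd2
      have e1 := congrArg Subtype.val hd1
      have e2 : x1 = 1 := congrArg Subtype.val hd2
      simp [f2] at e1
      obtain ⟨rfl, rfl⟩ := e1
      subst e2
      rfl
    · rintro ⟨⟨x1, t⟩, h1⟩ ⟨a, ha⟩
      constructor
      · intro h
        have h' : π x1 = π a := h
        refine ⟨⟨⟨(a, x1, t), h'.symm.trans h1, h1⟩, ha⟩, rfl, rfl⟩
      · rintro ⟨⟨⟨⟨y1, y2, s⟩, h3, h4⟩, h2⟩, hd1, hd2⟩
        have e1 := congrArg Subtype.val hd1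
        have e2 := congrArg Subtype.val hd2
        simp [f2, g1] at e1 e2 h3 h4
        obtain ⟨rfl, rfl⟩ := e1
        subst e2
        exact h4.trans h3.symm
  have hG : F (fib2 π τ) := by
    refine hF.af _ inferInstance (A.comap g2) (A.comap g1) (hA.comap g2 hg2) (hA.comap g1 hg1)
      hA1 hA2 ?_
    rintro ⟨⟨x1, x2, t⟩, h1, h2⟩
    obtain ⟨a, ha, hax⟩ := hAU x2
    refine ⟨⟨(x1, a, t), h1, hax.trans h2⟩, ha, ⟨(1, a⁻¹ * x2, 1), by simp, by simp [hax]⟩,
      A.one_mem, ?_⟩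
    apply Subtype.ext
    simp
  refine hF.qr2 hU f1 g2 ?_ q π ?_ hg2 hFY hG
  · rintro ⟨⟨x1, x2, t⟩, h1⟩ hd1 hd2
    have e1 := congrArg Subtype.val hd1
    simp [f1, g2] at e1 hd2
    obtain ⟨rfl, rfl⟩ := e1
    subst hd2
    rfl
  · rintro ⟨⟨x1, t⟩, h1⟩ a
    constructor
    · intro h
      have h' : π x1 = π a := h
      exact ⟨⟨(x1, a, t), h1, h'.symm.trans h1⟩, rfl, rfl⟩
    · rintro ⟨⟨⟨y1, y2, s⟩, h3, h4⟩, hd1, hd2⟩
      have e1 := congrArg Subtype.val hd1
      simp [f1, g2] at e1 hd2 h3 h4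
      obtain ⟨rfl, rfl⟩ := e1
      subst hd2
      exact h3.trans h4.symm

/-- Lemma L -/
theorem IsAF.lemmaL {X T U Y : Type} [Group X] [Group T] [Group U] [Group Y]
    (hU : ∀ a b : U, a * b = b * a) (π : X →* U) (τ : T →* U)
    (hπ : Function.Surjective π) (hτ : Function.Surjective τ)
    (α : Y →* X) (β : Y →* T) (hinj : ∀ y, α y = 1 → β y = 1 → y = 1)
    (hY : ∀ x t, π x = τ t ↔ ∃ y, α y = x ∧ β y = t)
    (hFY : F Y) (A : Subgroup X) (hA : Abn A) (hFA : F A) : F X := by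
  have hα : Function.Surjective α := by
    intro x
    obtain ⟨t, ht⟩ := hτ (π x)
    obtain ⟨y, hy, -⟩ := (hY x t).1 ht.symm
    exact ⟨y, hy⟩
  have hβ : Function.Surjective β := by
    intro t
    obtain ⟨x, hx⟩ := hπ (τ t)
    obtain ⟨y, -, hy⟩ := (hY x t).1 hx
    exact ⟨y, hy⟩
  have hfin := (hF.fin Y hFY).1
  have hsol := (hF.fin Y hFY).2
  have : Finite X := Finite.of_surjective α hα
  have : Finite T := Finite.of_surjective β hβ
  have : Group.IsSolvable X := Group.isSolvable_of_surjective hα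
  have : Group.IsSolvable T := Group.isSolvable_of_surjective hβ
  refine hF.lemmaL0 hU π τ hπ hτ ?_ A hA hFA
  refine hF.of_equiv ?_ hFY
  refine MulEquiv.ofBijective ((α.prod β).codRestrict (fib π τ) ?_) ⟨?_, ?_⟩
  · intro y
    exact (hY _ _).2 ⟨y, rfl, rfl⟩
  · rw [injective_iff_map_eq_one]
    intro y hy
    have := congrArg Subtype.val hy
    exact hinj y (congrArg Prod.fst this) (congrArg Prod.snd this)
  · rintro ⟨⟨x, t⟩, h⟩
    obtain ⟨y, rfl, rfl⟩ := (hY x t).1 h
    exact ⟨y, rfl⟩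

end Pool.Agent.AFH29
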