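import Pool.Agent.Lib_helper29.AF3

set_option autoImplicit false

namespace Pool.Agent.AFH29

open Subgroup

theorem eq_one_of_pow_coprime {G : Type} [Group G] {x : G} {m n : ℕ} (h1 : x ^ m = 1)
    (h2 : x ^ n = 1) (hc : Nat.Coprime m n) : x = 1 := by
  have h3 : orderOf x ∣ Nat.gcd m n := Nat.dvd_gcd (orderOf_dvd_of_pow_eq_one h1)
    (orderOf_dvd_of_pow_eq_one h2)
  rw [hc] at h3
  exact orderOf_eq_one_iff.1 (Nat.dvd_one.1 h3)

theorem eq_one_of_pow_pow {G : Type} [Group G] {x : G} {p r : ℕ} [hp : Fact p.Prime]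
    [hr : Fact r.Prime] (hpr : p ≠ r) {m n : ℕ} (h1 : x ^ p ^ m = 1)
    (h2 : x ^ r ^ n = 1) : x = 1 := by
  refine eq_one_of_pow_coprime h1 h2 ?_
  exact Nat.Coprime.pow _ _ ((Nat.coprime_primes hp.out hr.out).2 hpr)

theorem IsPGroup.pow_of_mem {G : Type} [Group G] {p : ℕ} {P : Subgroup G} (hP : IsPGroup p P)
    {x : G} (hx : x ∈ P) : ∃ k : ℕ, x ^ p ^ k = 1 := by
  obtain ⟨k, hk⟩ := isPGroup_iff_pow_pow_eq_one.1 hP ⟨x, hx⟩
  exact ⟨k, by simpa using congrArg Subtype.val hk⟩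

theorem sylow_surj {G H : Type} [Group G] [Group H] [Finite G] {p : ℕ} [hp : Fact p.Prime]
    (f : G →* H) (hf : Function.Surjective f) (hH : IsPGroup p H) (P : Sylow p G) (h : H) :
    ∃ x ∈ P, f x = h := by
  have h1 : (⊤ : Subgroup H) = (P.mapSurjective hf : Subgroup H) :=
    (P.mapSurjective hf).is_maximal' (hH.to_subgroup ⊤) le_top
  have h2 : h ∈ (P.mapSurjective hf : Subgroup H) := by rw [← h1]; trivial
  obtain ⟨x, hx, hxh⟩ := h2
  exact ⟨x, hx, hxh⟩

variable {F : (G : Type) → [Group G] → Prop} (hF : IsAF F)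

include hF

theorem IsAF.lemmaC1 {G H W : Type} [Group G] [Group H] [Group W] [Finite G]
    {p r : ℕ} [hp' : Fact p.Prime] [hr' : Fact r.Prime] (hpr : p ≠ r)
    (hp : ∀ (P : Type) [Group P] [Finite P], IsPGroup p P → F P)
    (θ : G →* H) (hθ : Function.Surjective θ) (hθk : IsPGroup p θ.ker)
    (ρ : H →* W) (hρ : Function.Surjective ρ) (hρk : IsPGroup r ρ.ker) (hW : IsPGroup p W)
    (hWc : ∀ a b : W, a * b = b * a)
    (hfix : ∀ (Q : Sylow p H) (s : H), s ∈ ρ.ker → (∀ q ∈ Q, s * q = q * s) → s = 1)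
    (hH : F H) : F G := by
  have hsolH := (hF.fin H hH).2
  have hfinH := (hF.fin H hH).1
  have hsolG : Group.IsSolvable G := by
    have h1 : Group.IsNilpotent θ.ker := hθk.isNilpotent
    have h2 : Group.IsSolvable θ.ker := inferInstance
    exact Group.isSolvable_of_ker_le_range θ.ker.subtype θ (by simp)
  obtain ⟨S⟩ : Nonempty (Sylow r G) := inferInstance
  obtain ⟨Q⟩ : Nonempty (Sylow p G) := inferInstance
  have hS : (S : Subgroup G).map θ = ρ.ker := by
    apply le_antisymm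
    · rintro _ ⟨x, hx, rfl⟩
      obtain ⟨k, hk⟩ := IsPGroup.pow_of_mem S.2 hx
      obtain ⟨m, hm⟩ := isPGroup_iff_pow_pow_eq_one.1 hW (ρ (θ x))
      rw [MonoidHom.mem_ker]
      refine eq_one_of_pow_pow hpr (m := m) (n := k) hm ?_
      rw [← map_pow, ← map_pow, hk, map_one, map_one]
    · exact hρk.le_sylow_of_normal (S.mapSurjective hθ)
  have hQker : θ.ker ≤ Q := hθk.le_sylow_of_normal Q
  have hQsurj : ∀ w : W, ∃ q ∈ Q, ρ (θ q) = w := by
    intro w
    exact sylow_surj (ρ.comp θ) (hρ.comp hθ) hW Q w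
  set A := normalizer ((S : Subgroup G) : Set G) with hA
  have hSA : (S : Subgroup G) ≤ A := Subgroup.le_normalizer
  have hAabn : Abn A := abn_of_sylow S le_rfl
  have hQabn : Abn (Q : Subgroup G) := by
    apply abn_of_sylow Q
    intro g hg
    obtain ⟨q, hq, hqg⟩ := hQsurj (ρ (θ g))
    have hn : g * q⁻¹ ∈ normalizer ((Q : Subgroup G) : Set G) :=
      mul_mem hg (inv_mem (Subgroup.le_normalizer hq))
    have hs : θ (g * q⁻¹) ∈ ρ.ker := by
      rw [MonoidHom.mem_ker, map_mul, map_mul, map_inv, map_inv, hqg, mul_inv_cancel]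
    have h1 : θ (g * q⁻¹) = 1 := by
      refine hfix (Q.mapSurjective hθ) _ hs ?_
      rintro _ ⟨x, hx, rfl⟩
      -- commutator trivial
      have h2 : θ (g * q⁻¹) * θ x * (θ (g * q⁻¹))⁻¹ * (θ x)⁻¹ = 1 := by
        have h3 : (g * q⁻¹) * x * (g * q⁻¹)⁻¹ * x⁻¹ ∈ (Q : Subgroup G) :=
          mul_mem ((Subgroup.mem_normalizer_iff.1 hn x).1 hx) (inv_mem hx)
        obtain ⟨k, hk⟩ := IsPGroup.pow_of_mem Q.2 h3
        have h4 : θ (g * q⁻¹) * θ x * (θ (g * q⁻¹))⁻¹ * (θ x)⁻¹ ∈ ρ.ker := by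
          rw [MonoidHom.mem_ker]
          simp only [map_mul, map_inv] at hs ⊢
          rw [MonoidHom.mem_ker, map_mul, map_inv] at hs
          rw [hs]; simp
        obtain ⟨m, hm⟩ := IsPGroup.pow_of_mem hρk h4
        refine eq_one_of_pow_pow hpr (m := k) (n := m) ?_ hm
        have := congrArg θ hk
        rw [map_pow, map_one] at this
        simpa only [map_mul, map_inv] using this
      exact mul_inv_eq_iff_eq_mul.1 (mul_inv_eq_one.1 h2)
    have h2 : g * q⁻¹ ∈ (Q : Subgroup G) := hQker h1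
    have h3 := mul_mem h2 hq
    simpa using h3
  have hprod : ∀ g : G, ∃ a ∈ A, ∃ b ∈ (Q : Subgroup G), a * b = g := by
    intro g
    obtain ⟨q, hq, hqg⟩ := hQsurj (ρ (θ g))
    have hs : θ (g * q⁻¹) ∈ ρ.ker := by
      rw [MonoidHom.mem_ker, map_mul, map_mul, map_inv, map_inv, hqg, mul_inv_cancel]
    rw [← hS] at hs
    obtain ⟨s, hs, hsg⟩ := hs
    have hk : s⁻¹ * (g * q⁻¹) ∈ θ.ker := by
      rw [MonoidHom.mem_ker, map_mul, map_inv, hsg, inv_mul_cancel]
    exact ⟨s, hSA hs, s⁻¹ * (g * q⁻¹) * q, mul_mem (hQker hk) hq, by group⟩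
  have hFQ : F Q := hp Q Q.2
  -- A is in the class
  have hAtop : A.map θ = ⊤ := by
    have hSL : (S : Subgroup G) ≤ ρ.ker.comap θ := by
      rw [← Subgroup.map_le_iff_le_comap, hS]
    have h1 := Sylow.normalizer_sup_eq_top' (N := ρ.ker.comap θ) S hSL
    have h2 := congrArg (Subgroup.map θ) h1
    rw [Subgroup.map_sup, Subgroup.map_top_of_surjective θ hθ,
      Subgroup.map_comap_eq_self_of_surjective hθ, ← hS] at h2
    rw [eq_top_iff, ← h2]
    exact sup_le le_rfl (Subgroup.map_mono hSA)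
  have hSn : ((S : Subgroup G).subgroupOf A).Normal := Subgroup.normal_in_normalizer
  have hFA : F A := by
    let p₂ : (A ⧸ (S : Subgroup G).subgroupOf A) →* W :=
      QuotientGroup.lift _ ((ρ.comp θ).comp A.subtype) (by
        intro x hx
        have h1 : θ (x : G) ∈ (S : Subgroup G).map θ := ⟨x, hx, rfl⟩
        rw [hS] at h1
        exact h1)
    refine hF.qr1 hWc (θ.comp A.subtype) (QuotientGroup.mk' ((S : Subgroup G).subgroupOf A)) ?_
      ρ p₂ ?_ hH ?_
    · intro d hd1 hd2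
      have h1 : (d : G) ∈ (S : Subgroup G) := (QuotientGroup.eq_one_iff d).1 hd2
      have h2 : (d : G) ∈ θ.ker := hd1
      obtain ⟨k, hk⟩ := IsPGroup.pow_of_mem S.2 h1
      obtain ⟨m, hm⟩ := IsPGroup.pow_of_mem hθk h2
      apply Subtype.ext
      exact eq_one_of_pow_pow hpr hm hk
    · intro x y
      obtain ⟨a, rfl⟩ := QuotientGroup.mk'_surjective _ y
      constructor
      · intro h
        have h1 : ρ x = ρ (θ (a : G)) := h
        have h2 : x * (θ (a : G))⁻¹ ∈ ρ.ker := by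
          rw [MonoidHom.mem_ker, map_mul, map_inv, h1, mul_inv_cancel]
        rw [← hS] at h2
        obtain ⟨s, hs, hsx⟩ := h2
        refine ⟨⟨s, hSA hs⟩ * a, ?_, ?_⟩
        · simp [hsx]
        · rw [map_mul]
          have : (QuotientGroup.mk' ((S : Subgroup G).subgroupOf A)) ⟨s, hSA hs⟩ = 1 :=
            (QuotientGroup.eq_one_iff _).2 hs
          rw [this, one_mul]
      · rintro ⟨d, hd1, hd2⟩
        rw [← hd2, ← hd1]
        rfl
    · apply hp
      rw [isPGroup_iff_pow_pow_eq_one]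
      intro y
      obtain ⟨a, rfl⟩ := QuotientGroup.mk'_surjective _ y
      obtain ⟨k, hk⟩ := isPGroup_iff_pow_pow_eq_one.1 hW (ρ (θ (a : G)))
      have h1 : θ ((a : G) ^ p ^ k) ∈ ρ.ker := by
        rw [MonoidHom.mem_ker, map_pow, map_pow, hk]
      rw [← hS] at h1
      obtain ⟨s, hs, hsx⟩ := h1
      have h2 : s⁻¹ * (a : G) ^ p ^ k ∈ θ.ker := by
        rw [MonoidHom.mem_ker, map_mul, map_inv, hsx, inv_mul_cancel]
      obtain ⟨m, hm⟩ := IsPGroup.pow_of_mem hθk h2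
      refine ⟨k + m, ?_⟩
      have h3 : (QuotientGroup.mk' ((S : Subgroup G).subgroupOf A)) a ^ p ^ k
          = (QuotientGroup.mk' ((S : Subgroup G).subgroupOf A)) (⟨s, hSA hs⟩⁻¹ * a ^ p ^ k) := by
        rw [map_mul, map_inv, map_pow]
        have : (QuotientGroup.mk' ((S : Subgroup G).subgroupOf A)) ⟨s, hSA hs⟩ = 1 :=
          (QuotientGroup.eq_one_iff _).2 hs
        rw [this, inv_one, one_mul]
      rw [pow_add, pow_mul, h3, ← map_pow]
      have h4 : (⟨s, hSA hs⟩⁻¹ * a ^ p ^ k) ^ p ^ m = (1 : A) := by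
        apply Subtype.ext
        simpa using hm
      rw [h4, map_one]
  exact hF.af G hsolG A Q hAabn hQabn hFA hFQ hprod

end Pool.Agent.AFH29
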