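import Pool.Agent.Lib_helper29.AF4

set_option autoImplicit false

namespace Pool.Agent.AFH29

open Subgroup

/-- the homomorphism from the wreath product to the abelian group `U` -/
def wrHom {D U : Type} (W : Type) [Group D] [CommGroup U] [Group W] [Fintype W] (π : D →* U) :
    RegularWreathProduct D W →* U where
  toFun g := ∏ w, π (g.left w)
  map_one' := by simp
  map_mul' a b := by
    simp only [RegularWreathProduct.mul_left, Pi.mul_apply, map_mul, Finset.prod_mul_distrib]
    congr 1
    exact Fintype.prod_equiv (Equiv.mulLeft a.right⁻¹) _ _ (fun w => by simp)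

theorem wrHom_apply {D U W : Type} [Group D] [CommGroup U] [Group W] [Fintype W] (π : D →* U)
    (g : RegularWreathProduct D W) : wrHom W π g = ∏ w, π (g.left w) := rfl

/-- inclusion of the base group -/
def baseHom (D W : Type) [Group D] [Group W] : (W → D) →* RegularWreathProduct D W where
  toFun f := ⟨f, 1⟩
  map_one' := rfl
  map_mul' a b := by
    ext w
    · simp
    · simp

theorem eq_baseHom {D W : Type} [Group D] [Group W] {g : RegularWreathProduct D W}
    (h : g.right = 1) : g = baseHom D W g.left := by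
  ext w
  · rfl
  · simpa [baseHom] using h

/-- functoriality -/
def wrMap {D U : Type} (W : Type) [Group D] [Group U] [Group W] (π : D →* U) :
    RegularWreathProduct D W →* RegularWreathProduct U W where
  toFun g := ⟨fun w => π (g.left w), g.right⟩
  map_one' := by ext <;> simp
  map_mul' a b := by ext <;> simp

/-- the group `G_0(π, W)` -/
def wrKer {D U : Type} (W : Type) [Group D] [CommGroup U] [Group W] [Fintype W] (π : D →* U) :
    Subgroup (RegularWreathProduct D W) := (wrHom W π).ker

theorem mem_wrKer {D U W : Type} [Group D] [CommGroup U] [Group W] [Fintype W] {π : D →* U}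
    {g : RegularWreathProduct D W} : g ∈ wrKer W π ↔ ∏ w, π (g.left w) = 1 := Iff.rfl

/-- the map `G_0(π, W) → G_0(id, W)` -/
def wrTheta {D U : Type} (W : Type) [Group D] [CommGroup U] [Group W] [Fintype W] (π : D →* U) :
    wrKer W π →* wrKer W (MonoidHom.id U) :=
  ((wrMap W π).comp (wrKer W π).subtype).codRestrict _ (fun g => by
    rw [mem_wrKer]
    exact g.2)

/-- the map `G_0(π, W) → W` -/
def wrRho {D U : Type} (W : Type) [Group D] [CommGroup U] [Group W] [Fintype W] (π : D →* U) :
    wrKer W π →* W := RegularWreathProduct.rightHom.comp (wrKer W π).subtype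

theorem wrRho_surjective {D U : Type} (W : Type) [Group D] [CommGroup U] [Group W] [Fintype W]
    (π : D →* U) : Function.Surjective (wrRho W π) := by
  intro w
  exact ⟨⟨RegularWreathProduct.inl w, by simp [mem_wrKer]⟩, rfl⟩

theorem wrTheta_surjective {D U : Type} (W : Type) [Group D] [CommGroup U] [Group W] [Fintype W]
    (π : D →* U) (hπ : Function.Surjective π) : Function.Surjective (wrTheta W π) := by
  rintro ⟨g, hg⟩
  choose s hs using hπ
  refine ⟨⟨⟨fun w => s (g.left w), g.right⟩, ?_⟩, ?_⟩
  · rw [mem_wrKer] at hg ⊢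
    simpa [hs] using hg
  · apply Subtype.ext
    show (wrMap W π) _ = g
    ext w
    · simp [wrMap, hs]
    · simp [wrMap]

theorem pow_of_right_one {D W : Type} [Group D] [Group W] {g : RegularWreathProduct D W}
    (h : g.right = 1) {n : ℕ} (hn : ∀ w, (g.left w) ^ n = 1) : g ^ n = 1 := by
  rw [eq_baseHom h, ← map_pow]
  have : g.left ^ n = 1 := by
    funext w
    simpa using hn w
  rw [this, map_one]

variable {F : (G : Type) → [Group G] → Prop} (hF : IsAF F)

include hF

theorem IsAF.lemmaC2 {D U W : Type} [Group D] [CommGroup U] [CommGroup W] [Finite D]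
    [Fintype W] [Nontrivial W]
    {p r : ℕ} [hp' : Fact p.Prime] [hr' : Fact r.Prime] (hpr : p ≠ r)
    (hp : ∀ (P : Type) [Group P] [Finite P], IsPGroup p P → F P)
    (hr : ∀ (P : Type) [Group P] [Finite P], IsPGroup r P → F P)
    (π : D →* U) (hπ : Function.Surjective π) (hπk : IsPGroup p π.ker) (hU : IsPGroup r U)
    (hW : IsPGroup p W) (hX : F (wrKer W (MonoidHom.id U))) : F D := by
  classical
  have hfinU : Finite U := Finite.of_surjective π hπ
  obtain ⟨a, ha⟩ := IsPGroup.iff_card.1 hπk
  obtain ⟨b, hb⟩ := IsPGroup.iff_card.1 hU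
  obtain ⟨c, hc⟩ := IsPGroup.iff_card.1 hW
  have hbU : ∀ u : U, u ^ r ^ b = 1 := by
    intro u; rw [← hb]; exact pow_card_eq_one'
  have haD : ∀ d : D, π d = 1 → d ^ p ^ a = 1 := by
    intro d hd
    have h1 : (⟨d, hd⟩ : π.ker) ^ p ^ a = 1 := by rw [← ha]; exact pow_card_eq_one'
    simpa using congrArg Subtype.val h1
  -- the group G_0
  have hG0 : F (wrKer W π) := by
    refine hF.lemmaC1 hpr hp (wrTheta W π) (wrTheta_surjective W π hπ) ?_
      (wrRho W (MonoidHom.id U)) (wrRho_surjective W _) ?_ hW (fun a b => mul_comm a b) ?_ hX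
    · rw [isPGroup_iff_pow_pow_eq_one]
      rintro ⟨⟨g, hg⟩, hk⟩
      refine ⟨a, ?_⟩
      have h0 : (wrMap W π) g = 1 := congrArg Subtype.val hk
      have h1 : g.right = 1 := congrArg RegularWreathProduct.right h0
      have h2 : ∀ w, π (g.left w) = 1 := fun w => congrFun (congrArg RegularWreathProduct.left h0) w
      apply Subtype.ext
      apply Subtype.ext
      exact pow_of_right_one h1 (fun w => haD _ (h2 w))
    · rw [isPGroup_iff_pow_pow_eq_one]
      rintro ⟨⟨g, hg⟩, hk⟩
      refine ⟨b, ?_⟩
      have h1 : g.right = 1 := hk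
      apply Subtype.ext
      apply Subtype.ext
      exact pow_of_right_one h1 (fun w => hbU _)
    · intro Q s hs hcomm
      obtain ⟨g, hg⟩ := s
      have h1 : g.right = 1 := hs
      have h2 : ∀ w x : W, g.left x = g.left (w⁻¹ * x) := by
        intro w x
        obtain ⟨q, hq, hqw⟩ := sylow_surj (wrRho W (MonoidHom.id U)) (wrRho_surjective W _) hW Q w
        have h3 := congrArg Subtype.val (hcomm q hq)
        have h4 := congrFun (congrArg RegularWreathProduct.left h3) x
        have h5 : (q : RegularWreathProduct U W).right = w := hqw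
        simp only [Subgroup.coe_mul, RegularWreathProduct.mul_left, Pi.mul_apply, h1, inv_one,
          one_mul, h5] at h4
        rw [mul_comm] at h4
        exact mul_left_cancel h4
      have h3 : ∀ x : W, g.left x = g.left 1 := by
        intro x
        have := h2 x x
        simpa using this
      have h4 : g.left 1 ^ p ^ c = 1 := by
        rw [mem_wrKer] at hg
        simp only [MonoidHom.id_apply] at hg
        rw [Finset.prod_congr rfl (fun x _ => h3 x), Finset.prod_const, Finset.card_univ,
          ← Nat.card_eq_fintype_card, hc] at hg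
        exact hg
      have h5 : g.left 1 = 1 := eq_one_of_pow_pow hpr h4 (hbU _)
      apply Subtype.ext
      ext x
      · rw [h3 x, h5]; rfl
      · exact h1
  -- the base part
  have hL : F (wrRho W π).ker := hF.of_normal _ hG0
  let α : (wrRho W π).ker →* D :=
    { toFun := fun g => g.1.1.left 1
      map_one' := rfl
      map_mul' := by
        rintro ⟨⟨g, hg⟩, hk⟩ ⟨⟨g', hg'⟩, hk'⟩
        have h1 : g.right = 1 := hk
        simp [h1] }
  let β : (wrRho W π).ker →* ({w : W // w ≠ 1} → D) :=
    { toFun := fun g w => g.1.1.left w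
      map_one' := rfl
      map_mul' := by
        rintro ⟨⟨g, hg⟩, hk⟩ ⟨⟨g', hg'⟩, hk'⟩
        have h1 : g.right = 1 := hk
        funext w
        simp [h1] }
  let τ : ({w : W // w ≠ 1} → D) →* U :=
    { toFun := fun t => (∏ w, π (t w))⁻¹
      map_one' := by simp
      map_mul' := by intro x y; simp [Finset.prod_mul_distrib, mul_comm] }
  have hτ : Function.Surjective τ := by
    intro u
    obtain ⟨w0, hw0⟩ := exists_ne (1 : W)
    obtain ⟨d, hd⟩ := hπ u⁻¹
    refine ⟨Pi.mulSingle ⟨w0, hw0⟩ d, ?_⟩
    show (∏ w, π ((Pi.mulSingle ⟨w0, hw0⟩ d : {w : W // w ≠ 1} → D) w))⁻¹ = u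
    rw [Finset.prod_eq_single (⟨w0, hw0⟩ : {w : W // w ≠ 1})]
    · simp [hd]
    · intro b _ hb
      rw [Pi.mulSingle_eq_of_ne hb, map_one]
    · intro h; exact absurd (Finset.mem_univ _) h
  obtain ⟨S⟩ : Nonempty (Sylow r D) := inferInstance
  set A := normalizer ((S : Subgroup D) : Set D) with hA
  have hSA : (S : Subgroup D) ≤ A := Subgroup.le_normalizer
  refine hF.lemmaL (fun a b => mul_comm a b) π τ hπ hτ α β ?_ ?_ hL A (abn_of_sylow S le_rfl) ?_
  · rintro ⟨⟨g, hg⟩, hk⟩ h1 h2
    have h0 : g.right = 1 := hk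
    apply Subtype.ext
    apply Subtype.ext
    ext w
    · by_cases hw : w = 1
      · subst hw; exact h1
      · exact congrFun h2 ⟨w, hw⟩
    · exact h0
  · intro x t
    constructor
    · intro h
      have hh : π x = (∏ w, π (t w))⁻¹ := h
      refine ⟨⟨⟨⟨fun w => if hw : w = 1 then x else t ⟨w, hw⟩, 1⟩, ?_⟩, ?_⟩, ?_, ?_⟩
      · rw [mem_wrKer, Fintype.prod_eq_mul_prod_subtype_ne _ (1 : W)]
        have : ∀ w : {w : W // w ≠ 1}, π (if hw : (w : W) = 1 then x else t ⟨w, hw⟩) = π (t w) := by
          intro w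
          rw [dif_neg w.2]
        simp only [this]
        simp [hh]
      · rfl
      · show (if hw : (1 : W) = 1 then x else t ⟨1, hw⟩) = x
        simp
      · funext w
        show (if hw : (w : W) = 1 then x else t ⟨w, hw⟩) = t w
        rw [dif_neg w.2]
    · rintro ⟨⟨⟨g, hg⟩, hk⟩, rfl, rfl⟩
      rw [mem_wrKer, Fintype.prod_eq_mul_prod_subtype_ne _ (1 : W)] at hg
      exact eq_inv_of_mul_eq_one_left hg
  · refine hF.of_eq_sup (N := π.ker ⊓ A) (M := S) ?_ ?_ le_rfl ?_ ?_
    · apply le_antisymm
      · intro x hx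
        obtain ⟨s, hs, hsx⟩ := sylow_surj π hπ hU S (π x)
        have h1 : x * s⁻¹ ∈ π.ker ⊓ A := by
          refine ⟨?_, A.mul_mem hx (A.inv_mem (hSA hs))⟩
          show π (x * s⁻¹) = 1
          rw [map_mul, map_inv, hsx, mul_inv_cancel]
        have h2 := Subgroup.mul_mem_sup h1 hs
        simpa using h2
      · exact sup_le inf_le_right hSA
    · intro x hx
      rw [Subgroup.mem_normalizer_iff]
      intro y
      have hk : π (x * y * x⁻¹) = 1 ↔ π y = 1 := by
        rw [map_mul, map_mul, map_inv, mul_comm (π x), mul_inv_cancel_right]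
      constructor
      · rintro ⟨h1, h2⟩
        exact ⟨hk.2 h1, A.mul_mem (A.mul_mem hx h2) (A.inv_mem hx)⟩
      · rintro ⟨h1, h2⟩
        refine ⟨hk.1 h1, ?_⟩
        have := A.mul_mem (A.mul_mem (A.inv_mem hx) h2) hx
        simpa [mul_assoc] using this
    · exact hp _ (hπk.to_le inf_le_left)
    · exact hr _ S.2

end Pool.Agent.AFH29
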