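import Pool.Agent.Lib_helper29.AF5

set_option autoImplicit false

namespace Pool.Agent.AFH29

open Subgroup

section semidirect

variable {V X Y : Type} [Group V] [Group X] [Group Y]

theorem sd_finite (φ : X →* MulAut V) [Finite V] [Finite X] : Finite (V ⋊[φ] X) :=
  Finite.of_equiv _ SemidirectProduct.equivProd.symm

/-- the preimage of a subgroup -/
noncomputable def sdComap (φ : X →* MulAut V) (Z : Subgroup X) :
    (Z.comap (SemidirectProduct.rightHom : V ⋊[φ] X →* X)) ≃* V ⋊[φ.comp Z.subtype] Z where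
  toFun g := ⟨g.1.left, ⟨g.1.right, g.2⟩⟩
  invFun g := ⟨⟨g.left, g.right.1⟩, g.right.2⟩
  left_inv _ := rfl
  right_inv _ := rfl
  map_mul' _ _ := rfl

theorem abn_range_inr (φ : X →* MulAut V) [Finite V] [Finite X] {p : ℕ} [hp : Fact p.Prime]
    (S : Sylow p X) (hV : ¬ p ∣ Nat.card V)
    (hfix : ∀ v : V, (∀ s ∈ S, φ s v = v) → v = 1) :
    Abn (SemidirectProduct.inr : X →* V ⋊[φ] X).range := by
  have := sd_finite φ
  have hp1 : IsPGroup p ((S : Subgroup X).map (SemidirectProduct.inr : X →* V ⋊[φ] X)) := S.2.map _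
  have hind : ¬ p ∣ ((S : Subgroup X).map (SemidirectProduct.inr : X →* V ⋊[φ] X)).index := by
    intro h
    have h1 := Subgroup.card_mul_index ((S : Subgroup X).map (SemidirectProduct.inr : X →* V ⋊[φ] X))
    rw [SemidirectProduct.card,
      Subgroup.card_map_of_injective SemidirectProduct.inr_injective,
      ← Subgroup.card_mul_index (S : Subgroup X)] at h1
    have h2 : ((S : Subgroup X).map (SemidirectProduct.inr : X →* V ⋊[φ] X)).index
        = Nat.card V * (S : Subgroup X).index := by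
      have h3 : 0 < Nat.card S := Nat.card_pos
      apply Nat.eq_of_mul_eq_mul_left h3
      rw [h1]; ring
    rw [h2] at h
    rcases hp.out.dvd_mul.1 h with h | h
    · exact hV h
    · exact S.not_dvd_index h
  refine abn_of_sylow (hp1.toSylow hind) ?_
  intro g hg
  have h1 : g.left = 1 := by
    apply hfix
    intro s hs
    have h2 : SemidirectProduct.inr s ∈
        ((S : Subgroup X).map (SemidirectProduct.inr : X →* V ⋊[φ] X)) := ⟨s, hs, rfl⟩
    have hg' := inv_mem hg
    have h3 := (Subgroup.mem_normalizer_iff.1 hg' (SemidirectProduct.inr s)).1 h2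
    obtain ⟨t, ht, hts⟩ := h3
    have h4 := congrArg SemidirectProduct.left hts
    simp only [SemidirectProduct.left_inr, SemidirectProduct.mul_left, SemidirectProduct.inv_left,
      SemidirectProduct.inv_right, SemidirectProduct.right_inr, inv_inv, mul_one, map_one,
      SemidirectProduct.mul_right, map_mul] at h4
    -- 1 = φ g.right⁻¹ g.left⁻¹ * φ g.right⁻¹ (φ s g.left)
    rw [MulAut.mul_apply, ← map_mul] at h4
    have h5 := (map_eq_one_iff _ (φ g.right⁻¹).injective).1 h4.symm
    exact (inv_mul_eq_one.1 h5).symm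
  exact ⟨g.right, by ext <;> simp [h1]⟩

end semidirect

variable {F : (G : Type) → [Group G] → Prop} (hF : IsAF F)

include hF

theorem IsAF.sd_extend {V X : Type} [Group V] [Group X] (φ : X →* MulAut V) [Finite V]
    {p : ℕ} [hp : Fact p.Prime] [Group.IsSolvable V]
    (S : Sylow p X) (hV : ¬ p ∣ Nat.card V)
    (hfix : ∀ v : V, (∀ s ∈ S, φ s v = v) → v = 1)
    (hX : F X) (Y : Subgroup X) (hY : Abn Y) (hFY : F (V ⋊[φ.comp Y.subtype] Y)) :
    F (V ⋊[φ] X) := by
  have := (hF.fin X hX).1
  have := (hF.fin X hX).2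
  have := sd_finite φ
  have hsol : Group.IsSolvable (V ⋊[φ] X) := by
    refine Group.isSolvable_of_ker_le_range (SemidirectProduct.inl : V →* V ⋊[φ] X)
      SemidirectProduct.rightHom ?_
    rw [SemidirectProduct.range_inl_eq_ker_rightHom]
  refine hF.af _ hsol (SemidirectProduct.inr : X →* V ⋊[φ] X).range
    (Y.comap (SemidirectProduct.rightHom : V ⋊[φ] X →* X)) (abn_range_inr φ S hV hfix)
    (hY.comap _ SemidirectProduct.rightHom_surjective) ?_ ?_ ?_
  · exact hF.of_equiv (MonoidHom.ofInjective SemidirectProduct.inr_injective) hX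
  · exact hF.of_equiv (sdComap φ Y).symm hFY
  · intro g
    refine ⟨SemidirectProduct.inr g.right, ⟨_, rfl⟩,
      SemidirectProduct.inl (φ g.right⁻¹ g.left), ?_, ?_⟩
    · simp
    · ext
      · simp
      · simp

/-- inflation, first part -/
theorem IsAF.sd_qr1 {V Y Z : Type} [Group V] [Group Y] [Group Z] (φ : Z →* MulAut V)
    (hZ : ∀ a b : Z, a * b = b * a) (j : Y →* Z)
    (h1 : F (V ⋊[φ] Z)) (h2 : F Y) : F (V ⋊[φ.comp j] Y) := by
  refine hF.qr1 hZ (SemidirectProduct.map (MonoidHom.id V) j (fun g => by ext; rfl) :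
      V ⋊[φ.comp j] Y →* V ⋊[φ] Z)
    SemidirectProduct.rightHom ?_ SemidirectProduct.rightHom j ?_ h1 h2
  · intro d hd1 hd2
    ext
    · exact congrArg (fun z : V ⋊[φ] Z => z.left) hd1
    · exact hd2
  · intro x y
    constructor
    · intro h
      have h' : x.right = j y := h
      exact ⟨⟨x.left, y⟩, by ext <;> simp [SemidirectProduct.map, h'], rfl⟩
    · rintro ⟨d, rfl, rfl⟩
      rfl

/-- inflation, second part -/
theorem IsAF.sd_qr2 {V Y Z : Type} [Group V] [Group Y] [Group Z] (φ : Z →* MulAut V)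
    (hZ : ∀ a b : Z, a * b = b * a) (j : Y →* Z) (hj : Function.Surjective j)
    (h1 : F (V ⋊[φ.comp j] Y)) (h2 : F Y) : F (V ⋊[φ] Z) := by
  have hfin := (hF.fin _ h1).1
  have hs : Function.Surjective (SemidirectProduct.map (MonoidHom.id V) j (fun g => by ext; rfl) :
      V ⋊[φ.comp j] Y →* V ⋊[φ] Z) := by
    intro x
    obtain ⟨y, hy⟩ := hj x.right
    exact ⟨⟨x.left, y⟩, by ext <;> simp [SemidirectProduct.map, hy]⟩
  have : Finite (V ⋊[φ] Z) := Finite.of_surjective _ hs
  refine hF.qr2 hZ SemidirectProduct.rightHom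
    (SemidirectProduct.map (MonoidHom.id V) j (fun g => by ext; rfl) :
      V ⋊[φ.comp j] Y →* V ⋊[φ] Z) ?_ j SemidirectProduct.rightHom ?_ hs h2 h1
  · intro d hd1 hd2
    ext
    · exact congrArg (fun z : V ⋊[φ] Z => z.left) hd2
    · exact hd1
  · intro y x
    constructor
    · intro h
      have h' : j y = x.right := h
      exact ⟨⟨x.left, y⟩, rfl, by ext <;> simp [SemidirectProduct.map, h']⟩
    · rintro ⟨d, rfl, rfl⟩
      rfl

/-- normal subgroups of the complement -/
theorem IsAF.sd_normal {V X : Type} [Group V] [Group X] (φ : X →* MulAut V) (K : Subgroup X)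
    [K.Normal] (h : F (V ⋊[φ] X)) : F (V ⋊[φ.comp K.subtype] K) :=
  hF.of_equiv (sdComap φ K)
    (hF.of_normal (K.comap (SemidirectProduct.rightHom : V ⋊[φ] X →* X)) h)

end Pool.Agent.AFH29
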