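import Pool.Agent.Lib_helper29.AF6

set_option autoImplicit false

namespace Pool.Agent.AFH29

open Subgroup

/-- the product homomorphism -/
def sumHom (C Ω : Type) [CommGroup C] [Fintype Ω] : (Ω → C) →* C where
  toFun f := ∏ ω, f ω
  map_one' := by simp
  map_mul' f g := by simp [Finset.prod_mul_distrib]

/-- functions with product one -/
def VV (C Ω : Type) [CommGroup C] [Fintype Ω] : Subgroup (Ω → C) := (sumHom C Ω).ker

theorem mem_VV {C Ω : Type} [CommGroup C] [Fintype Ω] {f : Ω → C} :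
    f ∈ VV C Ω ↔ ∏ ω, f ω = 1 := Iff.rfl

/-- permutations act on `VV` -/
def permV (C Ω : Type) [CommGroup C] [Fintype Ω] : Equiv.Perm Ω →* MulAut (VV C Ω) where
  toFun π :=
    { toFun := fun f => ⟨fun ω => f.1 (π⁻¹ ω), by
        have h := f.2
        rw [mem_VV] at h ⊢
        rw [← h]
        exact Fintype.prod_equiv π⁻¹ _ _ (fun ω => rfl)⟩
      invFun := fun f => ⟨fun ω => f.1 (π ω), by
        have h := f.2
        rw [mem_VV] at h ⊢
        rw [← h]
        exact Fintype.prod_equiv π _ _ (fun ω => rfl)⟩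
      left_inv := fun f => by
        apply Subtype.ext; funext ω; simp
      right_inv := fun f => by
        apply Subtype.ext; funext ω; simp
      map_mul' := fun f g => rfl }
  map_one' := by ext f ω; rfl
  map_mul' π π' := by ext f ω; simp

theorem permV_apply {C Ω : Type} [CommGroup C] [Fintype Ω] (π : Equiv.Perm Ω) (f : VV C Ω)
    (ω : Ω) : (permV C Ω π f).1 ω = f.1 (π⁻¹ ω) := rfl

theorem VV_pgroup {C Ω : Type} [CommGroup C] [Finite C] [Fintype Ω] {r : ℕ} [Fact r.Prime]
    (hC : IsPGroup r C) : IsPGroup r (VV C Ω) := by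
  obtain ⟨b, hb⟩ := IsPGroup.iff_card.1 hC
  rw [isPGroup_iff_pow_pow_eq_one]
  intro f
  refine ⟨b, ?_⟩
  apply Subtype.ext
  funext ω
  have : (f.1 ω) ^ r ^ b = 1 := by rw [← hb]; exact pow_card_eq_one'
  simpa using this

/-- fixed points of a transitive group on `VV` -/
theorem VV_fix {C Ω : Type} [CommGroup C] [Finite C] [Fintype Ω] {p r : ℕ} [Fact p.Prime]
    [Fact r.Prime] (hpr : p ≠ r) (hC : IsPGroup r C) {a : ℕ} (hΩ : Nat.card Ω = p ^ a)
    (f : VV C Ω) (h : ∀ ω ω' : Ω, ∃ π : Equiv.Perm Ω, π ω = ω' ∧ permV C Ω π f = f) : f = 1 := by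
  obtain ⟨b, hb⟩ := IsPGroup.iff_card.1 hC
  have hconst : ∀ ω ω' : Ω, f.1 ω = f.1 ω' := by
    intro ω ω'
    obtain ⟨π, h1, h2⟩ := h ω ω'
    have h3 := permV_apply π f ω'
    rw [h2, ← h1] at h3
    rw [← h1]
    simpa using h3.symm
  apply Subtype.ext
  funext ω
  have h1 : (f.1 ω) ^ r ^ b = 1 := by rw [← hb]; exact pow_card_eq_one'
  have h2 : (f.1 ω) ^ p ^ a = 1 := by
    have h := f.2
    rw [mem_VV, Finset.prod_congr rfl (fun x _ => hconst x ω), Finset.prod_const,
      Finset.card_univ, ← Nat.card_eq_fintype_card, hΩ] at h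
    exact h
  exact eq_one_of_pow_pow hpr h2 h1

/-- comparison with the regular wreath product -/
theorem VV_regular {C Ω W : Type} [CommGroup C] [Fintype Ω] [Group W] [Fintype W]
    (σ : W →* Equiv.Perm Ω) (e : W ≃ Ω) (he : ∀ w x, σ w (e x) = e (w * x)) :
    Nonempty ((VV C Ω ⋊[(permV C Ω).comp σ] W) ≃* wrKer W (MonoidHom.id C)) := by
  have he' : ∀ w x, (σ w)⁻¹ (e x) = e (w⁻¹ * x) := by
    intro w x
    rw [← map_inv, he]
  let Φ : (VV C Ω ⋊[(permV C Ω).comp σ] W) →* wrKer W (MonoidHom.id C) :=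
    { toFun := fun g => ⟨⟨fun x => g.left.1 (e x), g.right⟩, by
        have h := g.left.2
        rw [mem_VV] at h
        rw [mem_wrKer, ← h]
        exact Fintype.prod_equiv e _ _ (fun ω => rfl)⟩
      map_one' := rfl
      map_mul' := by
        intro a b
        apply Subtype.ext
        ext x
        · show a.left.1 (e x) * b.left.1 ((σ a.right)⁻¹ (e x))
            = a.left.1 (e x) * b.left.1 (e (a.right⁻¹ * x))
          rw [he']
        · rfl }
  refine ⟨MulEquiv.ofBijective Φ ⟨?_, ?_⟩⟩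
  · intro a b hab
    have h1 := congrArg Subtype.val hab
    have h2 := congrArg RegularWreathProduct.left h1
    have h3 := congrArg RegularWreathProduct.right h1
    ext ω
    · have : a.left.1 (e (e.symm ω)) = b.left.1 (e (e.symm ω)) := congrFun h2 (e.symm ω)
      simpa using this
    · exact h3
  · rintro ⟨g, hg⟩
    refine ⟨⟨⟨fun ω => g.left (e.symm ω), ?_⟩, g.right⟩, ?_⟩
    · rw [mem_wrKer] at hg
      rw [mem_VV, ← hg]
      exact Fintype.prod_equiv e.symm _ _ (fun ω => rfl)
    · apply Subtype.ext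
      ext x
      · show g.left (e.symm (e x)) = g.left x
        simp
      · rfl

/-- the permutation representation on the cosets -/
noncomputable def cosetPerm {X : Type} [Group X] (R : Subgroup X) : X →* Equiv.Perm (X ⧸ R) :=
  MulAction.toPermHom X (X ⧸ R)

theorem cosetPerm_apply {X : Type} [Group X] (R : Subgroup X) (x y : X) :
    cosetPerm R x (QuotientGroup.mk y) = QuotientGroup.mk (x * y) := rfl

/-- a normal complement acts regularly -/
noncomputable def complEquiv {X : Type} [Group X] (W R : Subgroup X) (h1 : W ⊓ R = ⊥)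
    (h2 : ∀ x : X, ∃ w ∈ W, ∃ r ∈ R, w * r = x) : W ≃ X ⧸ R :=
  Equiv.ofBijective (fun w => QuotientGroup.mk (w : X)) (by
    constructor
    · intro a b hab
      have h3 : (a : X)⁻¹ * b ∈ W ⊓ R :=
        ⟨W.mul_mem (W.inv_mem a.2) b.2, QuotientGroup.eq.1 hab⟩
      rw [h1, Subgroup.mem_bot, inv_mul_eq_one] at h3
      exact Subtype.ext h3
    · intro x
      obtain ⟨x, rfl⟩ := QuotientGroup.mk_surjective x
      obtain ⟨w, hw, r, hr, rfl⟩ := h2 x
      refine ⟨⟨w, hw⟩, ?_⟩
      apply QuotientGroup.eq.2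
      simpa using hr)

theorem complEquiv_apply {X : Type} [Group X] (W R : Subgroup X) (h1 : W ⊓ R = ⊥)
    (h2 : ∀ x : X, ∃ w ∈ W, ∃ r ∈ R, w * r = x) (w x : W) :
    (cosetPerm R) w (complEquiv W R h1 h2 x) = complEquiv W R h1 h2 (w * x) := rfl

/-- `Star p r`: all groups with a normal `p`-subgroup of index `r` are in the class. -/
def Star (F : (G : Type) → [Group G] → Prop) (p r : ℕ) : Prop :=
  ∀ (D U : Type) [Group D] [CommGroup U] [Finite D] (π : D →* U), Function.Surjective π →
    IsPGroup p π.ker → Nat.card U = r → F D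

/-- `Rel p r`: all groups with a normal `p`-subgroup and abelian quotient an `r`-group. -/
def Rel (F : (G : Type) → [Group G] → Prop) (p r : ℕ) : Prop :=
  ∀ (D U : Type) [Group D] [CommGroup U] [Finite D] (π : D →* U), Function.Surjective π →
    IsPGroup p π.ker → IsPGroup r U → F D

/-- all p-groups are in the class -/
def Chr (F : (G : Type) → [Group G] → Prop) (p : ℕ) : Prop :=
  ∀ (P : Type) [Group P] [Finite P], IsPGroup p P → F P

theorem Rel.star {F : (G : Type) → [Group G] → Prop} {p r : ℕ} [Fact r.Prime]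
    (h : Rel F p r) : Star F p r := by
  intro D U _ _ _ π hπ hk hU
  exact h D U π hπ hk (IsPGroup.of_card (n := 1) (by rw [hU, pow_one]))

variable {F : (G : Type) → [Group G] → Prop} (hF : IsAF F)

include hF

theorem IsAF.chr_of_dvd {G : Type} [Group G] (hG : F G) {p : ℕ} [Fact p.Prime]
    (h : p ∣ Nat.card G) : Chr F p := by
  obtain ⟨C, _, hC, hFC⟩ := hF.prime_order _ hG rfl p h
  intro P _ _ hP
  exact hF.pgroup hC hFC _ hP rfl

theorem IsAF.star_of_wr {C W : Type} [CommGroup C] [CommGroup W] [Fintype W] [Nontrivial W]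
    {p r : ℕ} [Fact p.Prime] [Fact r.Prime] (hpr : p ≠ r) (hp : Chr F p) (hr : Chr F r)
    (hC : Nat.card C = r) (hW : IsPGroup p W) (h : F (wrKer W (MonoidHom.id C))) :
    Star F p r := by
  intro D U _ _ _ π hπ hk hU
  let e : U ≃* C := mulEquivOfPrimeCardEq hU hC
  refine hF.lemmaC2 hpr hp hr (e.toMonoidHom.comp π) (e.surjective.comp hπ) ?_ ?_ hW h
  · have : (e.toMonoidHom.comp π).ker = π.ker := by
      ext x
      simp [MonoidHom.mem_ker]
    rw [this]; exact hk
  · exact IsPGroup.of_card (n := 1) (by rw [hC, pow_one])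

theorem IsAF.rel_of_star {p r : ℕ} [hp' : Fact p.Prime] [hr' : Fact r.Prime] (hpr : p ≠ r)
    (hp : Chr F p) (hr : Chr F r) (h : Star F p r) : Rel F r p := by
  intro D U _ _ _ π hπ hk hU
  have hfinU : Finite U := Finite.of_surjective π hπ
  have hcard : Nat.card (Multiplicative (ZMod r)) = r := by simp
  have : Fact (1 < r) := ⟨hr'.out.one_lt⟩
  have : Nontrivial (Multiplicative (ZMod r)) := inferInstance
  have hW : IsPGroup r (Multiplicative (ZMod r)) := IsPGroup.of_card (n := 1) (by rw [hcard, pow_one])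
  refine hF.lemmaC2 (W := Multiplicative (ZMod r)) hpr.symm hr hp π hπ hk hU hW ?_
  refine h _ (Multiplicative (ZMod r)) (wrRho _ _) (wrRho_surjective _ _) ?_ hcard
  obtain ⟨b, hb⟩ := IsPGroup.iff_card.1 hU
  rw [isPGroup_iff_pow_pow_eq_one]
  rintro ⟨⟨g, hg⟩, hk⟩
  refine ⟨b, ?_⟩
  have h1 : g.right = 1 := hk
  apply Subtype.ext
  apply Subtype.ext
  refine pow_of_right_one h1 (fun w => ?_)
  rw [← hb]; exact pow_card_eq_one'

end Pool.Agent.AFH29
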