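import Pool.Agent.Lib_helper29.AF7

set_option autoImplicit false

namespace Pool.Agent.AFH29

open Subgroup

/-- minimal normal subgroups of a finite soluble group are elementary abelian -/
theorem min_normal {X : Type} [Group X] [Finite X] [Group.IsSolvable X] (W : Subgroup X)
    [hWn : W.Normal] (hW : W ≠ ⊥) (hmin : ∀ N : Subgroup X, N.Normal → N ≤ W → N = ⊥ ∨ N = W) :
    (∀ a ∈ W, ∀ b ∈ W, a * b = b * a) ∧ ∃ p : ℕ, p.Prime ∧ p ∣ Nat.card W ∧ ∀ w ∈ W, w ^ p = 1 := by
  have h1 : ⁅W, W⁆ < W := Group.IsSolvable.commutator_lt_of_ne_bot hW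
  have h2 : ⁅W, W⁆ = ⊥ := (hmin ⁅W, W⁆ inferInstance h1.le).resolve_right h1.ne
  have hcomm : ∀ a ∈ W, ∀ b ∈ W, a * b = b * a := by
    intro a ha b hb
    have := Subgroup.commutator_mem_commutator ha hb
    rw [h2, Subgroup.mem_bot, commutatorElement_eq_one_iff_mul_comm] at this
    exact this
  refine ⟨hcomm, ?_⟩
  have h3 : Nat.card W ≠ 1 := by
    intro h
    exact hW ((Subgroup.card_eq_one).1 h)
  obtain ⟨p, hp, hpW⟩ := Nat.exists_prime_and_dvd h3
  refine ⟨p, hp, hpW, ?_⟩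
  let N : Subgroup X :=
    { carrier := {w | w ∈ W ∧ w ^ p = 1}
      mul_mem' := by
        rintro a b ⟨ha, ha'⟩ ⟨hb, hb'⟩
        refine ⟨W.mul_mem ha hb, ?_⟩
        rw [(show Commute a b from hcomm a ha b hb).mul_pow, ha', hb', one_mul]
      one_mem' := ⟨W.one_mem, one_pow _⟩
      inv_mem' := by
        rintro a ⟨ha, ha'⟩
        refine ⟨W.inv_mem ha, ?_⟩
        rw [inv_pow, ha', inv_one] }
  have hN : N.Normal := by
    refine ⟨?_⟩
    rintro n ⟨hn, hn'⟩ g
    refine ⟨hWn.conj_mem n hn g, ?_⟩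
    rw [conj_pow, hn', mul_one, mul_inv_cancel]
  have hNW : N ≤ W := fun x hx => hx.1
  have hNne : N ≠ ⊥ := by
    have : Fact p.Prime := ⟨hp⟩
    obtain ⟨x, hx⟩ := exists_prime_orderOf_dvd_card' p hpW
    intro h
    have h4 : (x : X) ∈ N := by
      refine ⟨x.2, ?_⟩
      have := pow_orderOf_eq_one x
      rw [hx] at this
      simpa using congrArg Subtype.val this
    rw [h, Subgroup.mem_bot] at h4
    have h5 : x = 1 := Subtype.ext h4
    rw [h5, orderOf_one] at hx
    exact hp.one_lt.ne hx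
  have h4 := (hmin N hN hNW).resolve_left hNne
  intro w hw
  rw [← h4] at hw
  exact hw.2

variable {F : (G : Type) → [Group G] → Prop} (hF : IsAF F)

include hF

theorem IsAF.lemmaA_main {X : Type} [Group X] (hX : F X) {r : ℕ} [hr' : Fact r.Prime]
    (K : Subgroup X) [hKn : K.Normal] (hKi : K.index = r) (hKr : ¬ r ∣ Nat.card K)
    (R : Sylow r X) (hR : ¬ (R : Subgroup X).Normal) (hK : ∀ L : Subgroup X, L ≤ K → F L)
    (hmin : ∀ N : Subgroup X, N.Normal → (R : Subgroup X) ≤ N → N = ⊤) :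
    ∃ p, p.Prime ∧ p ∣ Nat.card K ∧ Star F p r := by
  classical
  have hfin := (hF.fin X hX).1
  have hsol := (hF.fin X hX).2
  have hrX : r ∣ Nat.card X := by
    rw [← K.card_mul_index, hKi]; exact dvd_mul_left _ _
  have hr : Chr F r := hF.chr_of_dvd hX hrX
  -- X = K R
  have hXK : IsPGroup r (X ⧸ K) := by
    apply IsPGroup.of_card (n := 1)
    rw [pow_one, ← hKi]; rfl
  have hKR : ∀ x : X, ∃ k ∈ K, ∃ ρ ∈ (R : Subgroup X), k * ρ = x := by
    intro x
    obtain ⟨ρ, hρ, hρx⟩ := sylow_surj (QuotientGroup.mk' K) (QuotientGroup.mk'_surjective K) hXK R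
      (QuotientGroup.mk' K x)
    refine ⟨x * ρ⁻¹, ?_, ρ, hρ, by group⟩
    rw [← QuotientGroup.eq_one_iff]
    show (QuotientGroup.mk' K) (x * ρ⁻¹) = 1
    rw [map_mul, map_inv, hρx, mul_inv_cancel]
  have hKne : K ≠ ⊥ := by
    rintro rfl
    apply hR
    have : (R : Subgroup X) = ⊤ := by
      rw [eq_top_iff]
      intro x _
      obtain ⟨k, hk, ρ, hρ, rfl⟩ := hKR x
      rw [Subgroup.mem_bot] at hk
      subst hk
      simpa using hρ
    rw [this]; infer_instance
  -- choose K₁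
  obtain ⟨K₁, hK₁⟩ : ∃ K₁ : Subgroup X, Maximal (fun N => N.Normal ∧ N < K) K₁ := by
    have hfin' : {N : Subgroup X | N.Normal ∧ N < K}.Finite := Set.toFinite _
    obtain ⟨N, hN⟩ := hfin'.exists_maximal ⟨⊥, inferInstance, bot_lt_iff_ne_bot.2 hKne⟩
    exact ⟨N, hN⟩
  have hK₁n : K₁.Normal := hK₁.prop.1
  have hK₁K : K₁ < K := hK₁.prop.2
  have hmk : Function.Surjective (QuotientGroup.mk' K₁) := QuotientGroup.mk'_surjective K₁
  set W : Subgroup (X ⧸ K₁) := K.map (QuotientGroup.mk' K₁) with hWdef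
  have hWn : W.Normal := Subgroup.Normal.map hKn _ hmk
  have hWcomap : W.comap (QuotientGroup.mk' K₁) = K := by
    rw [hWdef, Subgroup.comap_map_eq, QuotientGroup.ker_mk', sup_eq_left]
    exact hK₁K.le
  have hWne : W ≠ ⊥ := by
    intro h
    rw [h, MonoidHom.comap_bot, QuotientGroup.ker_mk'] at hWcomap
    exact hK₁K.ne hWcomap
  have hWmin : ∀ N : Subgroup (X ⧸ K₁), N.Normal → N ≤ W → N = ⊥ ∨ N = W := by
    intro N hN hNW
    have h1 : N.comap (QuotientGroup.mk' K₁) ≤ K := by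
      rw [← hWcomap]; exact Subgroup.comap_mono hNW
    rcases h1.lt_or_eq with h2 | h2
    · left
      have h3 : K₁ ≤ N.comap (QuotientGroup.mk' K₁) := by
        conv_lhs => rw [← QuotientGroup.ker_mk' K₁]
        exact Subgroup.ker_le_comap _ _
      have h4 := hK₁.le_of_ge (⟨hN.comap _, h2⟩ : (N.comap (QuotientGroup.mk' K₁)).Normal ∧ _) h3
      have h5 := congrArg (Subgroup.map (QuotientGroup.mk' K₁)) (le_antisymm h4 h3)
      rw [Subgroup.map_comap_eq_self_of_surjective hmk] at h5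
      rw [h5, Subgroup.map_eq_bot_iff, QuotientGroup.ker_mk']
    · right
      have h5 := congrArg (Subgroup.map (QuotientGroup.mk' K₁)) h2
      rw [Subgroup.map_comap_eq_self_of_surjective hmk] at h5
      exact h5
  obtain ⟨hWc, p, hp, hpW, hWp⟩ := min_normal W hWne hWmin
  have hp' : Fact p.Prime := ⟨hp⟩
  have hWcard : Nat.card W ∣ Nat.card K := Subgroup.card_map_dvd _ _
  have hpK : p ∣ Nat.card K := hpW.trans hWcard
  have hpr : p ≠ r := by
    rintro rfl; exact hKr hpK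
  have hpX : p ∣ Nat.card X := hpK.trans (Subgroup.card_subgroup_dvd_card K)
  have hpc : Chr F p := hF.chr_of_dvd hX hpX
  refine ⟨p, hp, hpK, ?_⟩
  have hWpg : IsPGroup p W := by
    rw [isPGroup_iff_pow_pow_eq_one]
    intro w
    refine ⟨1, ?_⟩
    rw [pow_one]
    apply Subtype.ext
    simpa using hWp w w.2
  -- the image of R
  set R' : Subgroup (X ⧸ K₁) := (R : Subgroup X).map (QuotientGroup.mk' K₁) with hR'def
  have hR'pg : IsPGroup r R' := R.2.map _
  have hinf : W ⊓ R' = ⊥ := by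
    rw [eq_bot_iff]
    rintro x ⟨hx1, hx2⟩
    obtain ⟨k, hk⟩ := IsPGroup.pow_of_mem hWpg hx1
    obtain ⟨m, hm⟩ := IsPGroup.pow_of_mem hR'pg hx2
    exact eq_one_of_pow_pow hpr hk hm
  have hWR : ∀ x : X ⧸ K₁, ∃ w ∈ W, ∃ ρ ∈ R', w * ρ = x := by
    intro x
    obtain ⟨x, rfl⟩ := hmk x
    obtain ⟨k, hk, ρ, hρ, rfl⟩ := hKR x
    exact ⟨_, ⟨k, hk, rfl⟩, _, ⟨ρ, hρ, rfl⟩, by rw [map_mul]⟩
  -- N(R') ∩ W = 1
  have hNW : W ⊓ normalizer (R' : Set (X ⧸ K₁)) = ⊥ := by
    have hnorm : (W ⊓ normalizer (R' : Set (X ⧸ K₁))).Normal := by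
      refine ⟨?_⟩
      rintro n ⟨hn1, hn2⟩ g
      refine ⟨hWn.conj_mem n hn1 g, ?_⟩
      obtain ⟨w, hw, ρ, hρ, rfl⟩ := hWR g
      have h1 : ρ * n * ρ⁻¹ ∈ W := hWn.conj_mem n hn1 ρ
      have h2 : w * ρ * n * (w * ρ)⁻¹ = ρ * n * ρ⁻¹ := by
        have h3 := hWc w hw _ h1
        calc w * ρ * n * (w * ρ)⁻¹ = w * (ρ * n * ρ⁻¹) * w⁻¹ := by group
          _ = (ρ * n * ρ⁻¹) * w * w⁻¹ := by rw [h3]
          _ = ρ * n * ρ⁻¹ := by group
      rw [h2]
      have hρ' : ρ ∈ normalizer (R' : Set (X ⧸ K₁)) := Subgroup.le_normalizer hρ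
      exact (normalizer (R' : Set (X ⧸ K₁))).mul_mem
        ((normalizer (R' : Set (X ⧸ K₁))).mul_mem hρ' hn2)
        ((normalizer (R' : Set (X ⧸ K₁))).inv_mem hρ')
    rcases hWmin _ hnorm inf_le_left with h | h
    · exact h
    · exfalso
      have h1 : W ≤ normalizer (R' : Set (X ⧸ K₁)) := by
        rw [← h]; exact inf_le_right
      have h2 : normalizer (R' : Set (X ⧸ K₁)) = ⊤ := by
        rw [eq_top_iff]
        intro x _
        obtain ⟨w, hw, ρ, hρ, rfl⟩ := hWR x
        exact mul_mem (h1 hw) (Subgroup.le_normalizer hρ)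
      have h3 : R'.Normal := Subgroup.normalizer_eq_top_iff.1 h2
      have h4 := hmin (R'.comap (QuotientGroup.mk' K₁)) (h3.comap _) (Subgroup.le_comap_map _ _)
      have h5 : W ≤ R' := by
        rintro _ ⟨k, hk, rfl⟩
        have : k ∈ R'.comap (QuotientGroup.mk' K₁) := by rw [h4]; trivial
        exact this
      exact hWne (by rw [← hinf, inf_eq_left.2 h5])
  have hNR : ∀ x ∈ normalizer ((R : Subgroup X) : Set X), QuotientGroup.mk' K₁ x ∈ R' := by
    intro x hx
    have hx' : QuotientGroup.mk' K₁ x ∈ normalizer (R' : Set (X ⧸ K₁)) :=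
      Subgroup.le_normalizer_map (QuotientGroup.mk' K₁) (Subgroup.mem_map_of_mem _ hx)
    obtain ⟨w, hw, ρ, hρ, hwρ⟩ := hWR (QuotientGroup.mk' K₁ x)
    have h1 : w ∈ W ⊓ normalizer (R' : Set (X ⧸ K₁)) := by
      refine ⟨hw, ?_⟩
      have : w = QuotientGroup.mk' K₁ x * ρ⁻¹ := by rw [← hwρ]; group
      rw [this]
      exact (normalizer (R' : Set (X ⧸ K₁))).mul_mem hx'
        ((normalizer (R' : Set (X ⧸ K₁))).inv_mem (Subgroup.le_normalizer hρ))
    rw [hNW, Subgroup.mem_bot] at h1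
    rw [← hwρ, h1, one_mul]
    exact hρ
  -- the module
  let C := Multiplicative (ZMod r)
  have hCcard : Nat.card C = r := by simp [C]
  have hCpg : IsPGroup r C := IsPGroup.of_card (n := 1) (by rw [hCcard, pow_one])
  have hfinΩ : Finite ((X ⧸ K₁) ⧸ R') := inferInstance
  let _ : Fintype ((X ⧸ K₁) ⧸ R') := Fintype.ofFinite _
  let Ω := (X ⧸ K₁) ⧸ R'
  let φ : (X ⧸ K₁) →* MulAut (VV C Ω) := (permV C Ω).comp (cosetPerm R')
  have hVpg : IsPGroup r (VV C Ω) := VV_pgroup hCpg
  have hVsol : Group.IsSolvable (VV C Ω) := inferInstance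
  have hpV : ¬ p ∣ Nat.card (VV C Ω) := by
    intro h
    obtain ⟨b, hb⟩ := IsPGroup.iff_card.1 hVpg
    rw [hb] at h
    exact hpr ((Nat.prime_dvd_prime_iff_eq hp hr'.out).1 (hp.dvd_of_dvd_pow h))
  let e := complEquiv W R' hinf hWR
  obtain ⟨a, ha⟩ := IsPGroup.iff_card.1 hWpg
  have hΩ : Nat.card Ω = p ^ a := by rw [← ha]; exact (Nat.card_congr e).symm
  obtain ⟨S⟩ : Nonempty (Sylow p X) := inferInstance
  obtain ⟨Y, hYdef⟩ : ∃ Y : Subgroup X, Y = normalizer ((R : Subgroup X) : Set X) := ⟨_, rfl⟩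
  have hRY : (R : Subgroup X) ≤ Y := by rw [hYdef]; exact Subgroup.le_normalizer
  have hFR : F R := hr _ R.2
  have hFY : F Y := by
    refine hF.of_eq_sup (N := (R : Subgroup X)) (M := K ⊓ Y) ?_ (le_of_eq hYdef) ?_ hFR
      (hK _ inf_le_left)
    · apply le_antisymm
      · intro x hx
        obtain ⟨k, hk, ρ, hρ, rfl⟩ := hKR x
        have hk' : k ∈ K ⊓ Y := by
          refine ⟨hk, ?_⟩
          have : k = (k * ρ) * ρ⁻¹ := by group
          rw [this]
          exact Y.mul_mem hx (Y.inv_mem (hRY hρ))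
        rw [sup_comm]
        exact Subgroup.mul_mem_sup hk' hρ
      · exact sup_le hRY inf_le_right
    · intro x hx
      rw [Subgroup.mem_normalizer_iff]
      intro y
      constructor
      · rintro ⟨h1, h2⟩
        exact ⟨hKn.conj_mem y h1 x, Y.mul_mem (Y.mul_mem hx h2) (Y.inv_mem hx)⟩
      · rintro ⟨h1, h2⟩
        have h3 := hKn.conj_mem _ h1 x⁻¹
        have h4 := Y.mul_mem (Y.mul_mem (Y.inv_mem hx) h2) hx
        refine ⟨by simpa [mul_assoc] using h3, by simpa [mul_assoc] using h4⟩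
  -- V ⋊ X is in the class
  have hVX : F ((VV C Ω) ⋊[φ.comp (QuotientGroup.mk' K₁)] X) := by
    refine hF.sd_extend (φ.comp (QuotientGroup.mk' K₁)) S hpV ?_ hX Y
      (abn_of_sylow R (le_of_eq hYdef.symm)) ?_
    · intro v hv
      refine VV_fix hpr hCpg hΩ v ?_
      intro ω ω'
      obtain ⟨x, rfl⟩ := e.surjective ω
      obtain ⟨y, rfl⟩ := e.surjective ω'
      have h1 : W ≤ (S : Subgroup X).map (QuotientGroup.mk' K₁) :=
        hWpg.le_sylow_of_normal (S.mapSurjective hmk)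
      obtain ⟨s, hs, hsw⟩ := h1 (y * x⁻¹).2
      refine ⟨cosetPerm R' ((y * x⁻¹ : W) : X ⧸ K₁), ?_, ?_⟩
      · rw [complEquiv_apply]; simp [e]
      · have := hv s hs
        rw [← hsw]
        exact this
    · -- V ⋊ Y
      let j : Y →* R' := ((QuotientGroup.mk' K₁).comp Y.subtype).codRestrict R' (fun y =>
        hNR _ ((le_of_eq hYdef) y.2))
      have hR'c : ∀ a b : R', a * b = b * a := by
        have h1 : Nat.card (R : Subgroup X) = r := by
          have h2 := Subgroup.card_mul_index K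
          rw [hKi] at h2
          have h3 := (R : Subgroup X).card_mul_index
          obtain ⟨n, hn⟩ := IsPGroup.iff_card.1 R.2
          have h4 : ¬ r ∣ (R : Subgroup X).index := R.not_dvd_index
          -- r ^ n * index = card K * r
          rw [hn, ← h2] at h3
          rcases n with _ | n
          · exfalso
            rw [pow_zero, one_mul] at h3
            rw [h3] at h4
            exact h4 (dvd_mul_left _ _)
          · rcases n with _ | n
            · rw [hn, zero_add, pow_one]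
            · exfalso
              apply hKr
              have h5 : r * (r ^ (n+1) * (R : Subgroup X).index) = r * Nat.card K := by
                rw [mul_comm r (Nat.card K), ← h3]; ring
              have h6 := Nat.eq_of_mul_eq_mul_left hr'.out.pos h5
              rw [← h6, pow_succ]
              exact Dvd.intro_left (r ^ n * (R : Subgroup X).index) (by ring)
        have h2 : IsCyclic R := isCyclic_of_prime_card h1
        have h3 := isMulCommutative_iff.1 (IsCyclic.isMulCommutative (α := R))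
        rintro ⟨_, ⟨a, ha, rfl⟩⟩ ⟨_, ⟨b, hb, rfl⟩⟩
        apply Subtype.ext
        have h4 := congrArg Subtype.val (h3 ⟨a, ha⟩ ⟨b, hb⟩)
        have h5 := congrArg (QuotientGroup.mk' K₁) h4
        simpa using h5
      have hVR : F ((VV C Ω) ⋊[φ.comp R'.subtype] R') := by
        have := sd_finite (φ.comp R'.subtype)
        apply hr
        obtain ⟨b, hb⟩ := IsPGroup.iff_card.1 hVpg
        obtain ⟨c, hc⟩ := IsPGroup.iff_card.1 hR'pg
        apply IsPGroup.of_card (n := b + c)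
        rw [SemidirectProduct.card, hb, hc, pow_add]
      exact hF.sd_qr1 (φ.comp R'.subtype) hR'c j hVR hFY
  -- V ⋊ K
  have hVK := hF.sd_normal _ K hVX
  -- V ⋊ W
  have hWc' : ∀ a b : W, a * b = b * a := fun a b => Subtype.ext (hWc a a.2 b b.2)
  have hVW : F ((VV C Ω) ⋊[φ.comp W.subtype] W) := by
    let j : K →* W := ((QuotientGroup.mk' K₁).comp K.subtype).codRestrict W (fun k => ⟨k, k.2, rfl⟩)
    have hj : Function.Surjective j := by
      rintro ⟨_, ⟨k, hk, rfl⟩⟩
      exact ⟨⟨k, hk⟩, rfl⟩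
    exact hF.sd_qr2 (φ.comp W.subtype) hWc' j hj hVK (hF.of_normal K hX)
  let _ : Fintype W := Fintype.ofFinite _
  let _ : CommGroup W := { (inferInstance : Group W) with mul_comm := hWc' }
  have hntr : Nontrivial W := (Subgroup.nontrivial_iff_ne_bot W).2 hWne
  obtain ⟨E⟩ := VV_regular (C := C) ((cosetPerm R').comp W.subtype) e
    (fun w x => complEquiv_apply W R' hinf hWR w x)
  exact hF.star_of_wr hpr hpc hr hCcard hWpg (hF.of_equiv E hVW)

end Pool.Agent.AFH29
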