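import Pool.Agent.Lib_helper29.AF8

set_option autoImplicit false

namespace Pool.Agent.AFH29

open Subgroup

theorem cover_of_sylow {X : Type} [Group X] [Finite X] {r : ℕ} [hr' : Fact r.Prime]
    (K : Subgroup X) [hKn : K.Normal] (hKi : K.index = r) (R : Sylow r X) :
    ∀ x : X, ∃ k ∈ K, ∃ ρ ∈ (R : Subgroup X), k * ρ = x := by
  have hXK : IsPGroup r (X ⧸ K) := by
    apply IsPGroup.of_card (n := 1)
    rw [pow_one, ← hKi]; rfl
  intro x
  obtain ⟨ρ, hρ, hρx⟩ := sylow_surj (QuotientGroup.mk' K) (QuotientGroup.mk'_surjective K) hXK R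
    (QuotientGroup.mk' K x)
  refine ⟨x * ρ⁻¹, ?_, ρ, hρ, by group⟩
  rw [← QuotientGroup.eq_one_iff]
  show (QuotientGroup.mk' K) (x * ρ⁻¹) = 1
  rw [map_mul, map_inv, hρx, mul_inv_cancel]

variable {F : (G : Type) → [Group G] → Prop} (hF : IsAF F)

include hF

theorem IsAF.lemmaA {r : ℕ} [hr' : Fact r.Prime] : ∀ (n : ℕ) {X : Type} [Group X] (_ : F X)
    (_ : Nat.card X = n)
    (K : Subgroup X) [K.Normal] (_ : K.index = r) (_ : ¬ r ∣ Nat.card K)
    (R : Sylow r X) (_ : ¬ (R : Subgroup X).Normal) (_ : ∀ L : Subgroup X, L ≤ K → F L),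
    ∃ p, p.Prime ∧ p ∣ Nat.card K ∧ Star F p r := by
  intro n
  induction n using Nat.strong_induction_on with
  | _ n ih =>
    intro X _ hX hn K hKn hKi hKr R hR hK
    have hfin := (hF.fin X hX).1
    by_cases h : ∀ N : Subgroup X, N.Normal → (R : Subgroup X) ≤ N → N = ⊤
    · exact hF.lemmaA_main hX K hKi hKr R hR hK h
    · push Not at h
      obtain ⟨N, hN, hRN, hNt⟩ := h
      have hcov := cover_of_sylow K hKi R
      have hsup : N ⊔ K = ⊤ := by
        rw [eq_top_iff]
        intro x _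
        obtain ⟨k, hk, ρ, hρ, rfl⟩ := hcov x
        rw [sup_comm]
        exact Subgroup.mul_mem_sup hk (hRN hρ)
      have hidx : (K.subgroupOf N).index = r := by
        have h1 : K.relIndex (N ⊔ K) = K.relIndex N := Subgroup.relIndex_sup_right N K
        rw [hsup, Subgroup.relIndex_top_right, hKi] at h1
        exact h1.symm
      have hcd : Nat.card (K.subgroupOf N) ∣ Nat.card K :=
        Subgroup.card_comap_dvd_of_injective K N.subtype Subtype.coe_injective
      have hlt : Nat.card N < n := by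
        rw [← hn]
        apply lt_of_le_of_ne (Subgroup.card_le_card_group _)
        intro h
        exact hNt (Subgroup.eq_top_of_card_eq _ h)
      have hR' : ¬ ((R.subtype hRN : Sylow r N) : Subgroup N).Normal := by
        intro hnorm
        have hch := Sylow.characteristic_of_normal (R.subtype hRN) hnorm
        have h2 : (((R.subtype hRN : Sylow r N) : Subgroup N).map N.subtype).Normal := inferInstance
        rw [Sylow.coe_subtype, Subgroup.subgroupOf_map_subtype, inf_eq_left.2 hRN] at h2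
        exact hR h2
      obtain ⟨p, hp, hpK, hs⟩ := ih _ hlt (hF.of_normal N hX) rfl (K.subgroupOf N) hidx
        (fun h => hKr (h.trans hcd)) (R.subtype hRN) hR' (by
          intro L hL
          have h3 : L.map N.subtype ≤ K := by
            rintro _ ⟨x, hx, rfl⟩
            exact hL hx
          exact hF.of_equiv (L.equivMapOfInjective N.subtype N.subtype_injective).symm (hK _ h3))
      exact ⟨p, hp, hpK.trans hcd, hs⟩

omit hF in
/-- elements of the base group fixed by the top group are trivial -/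
theorem wr_fix {C W : Type} [CommGroup C] [Group W] [Fintype W] [Finite C] {q r : ℕ}
    [Fact q.Prime] [Fact r.Prime] (hqr : q ≠ r) (hC : IsPGroup r C) {a : ℕ}
    (hW : Nat.card W = q ^ a) (g : RegularWreathProduct C W) (hg : g ∈ wrKer W (MonoidHom.id C))
    (h1 : g.right = 1)
    (hcomm : ∀ w : W, g * RegularWreathProduct.inl w = RegularWreathProduct.inl w * g) : g = 1 := by
  obtain ⟨b, hb⟩ := IsPGroup.iff_card.1 hC
  have h2 : ∀ x : W, g.left x = g.left 1 := by
    intro x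
    have h3 := congrFun (congrArg RegularWreathProduct.left (hcomm x)) x
    simpa using h3
  have h3 : g.left 1 ^ q ^ a = 1 := by
    rw [mem_wrKer] at hg
    simp only [MonoidHom.id_apply] at hg
    rw [Finset.prod_congr rfl (fun x _ => h2 x), Finset.prod_const, Finset.card_univ,
      ← Nat.card_eq_fintype_card, hW] at hg
    exact hg
  have h4 : g.left 1 ^ r ^ b = 1 := by rw [← hb]; exact pow_card_eq_one'
  have h5 : g.left 1 = 1 := eq_one_of_pow_pow hqr h3 h4
  ext x
  · rw [h2 x, h5]; rfl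
  · exact h1

theorem IsAF.star_trans {p q r : ℕ} [hp' : Fact p.Prime] [hq' : Fact q.Prime] [hr' : Fact r.Prime]
    (hpr : p ≠ r) (hqr : q ≠ r) (hp : Chr F p) (hr : Chr F r)
    (h1 : Star F r q) (h2 : Star F p q) : Star F p r := by
  classical
  let Cr := Multiplicative (ZMod r)
  let Cq := Multiplicative (ZMod q)
  let Cp := Multiplicative (ZMod p)
  have hCr : Nat.card Cr = r := by simp [Cr]
  have hCq : Nat.card Cq = q := by simp [Cq]
  have hCp : Nat.card Cp = p := by simp [Cp]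
  have hCrpg : IsPGroup r Cr := IsPGroup.of_card (n := 1) (by rw [hCr, pow_one])
  have hCqpg : IsPGroup q Cq := IsPGroup.of_card (n := 1) (by rw [hCq, pow_one])
  have hCppg : IsPGroup p Cp := IsPGroup.of_card (n := 1) (by rw [hCp, pow_one])
  let X := wrKer Cq (MonoidHom.id Cr)
  let ρ : X →* Cq := wrRho Cq (MonoidHom.id Cr)
  have hρ : Function.Surjective ρ := wrRho_surjective Cq _
  let V₁ : Subgroup X := ρ.ker
  have hV₁pg : IsPGroup r V₁ := by
    obtain ⟨b, hb⟩ := IsPGroup.iff_card.1 hCrpg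
    rw [isPGroup_iff_pow_pow_eq_one]
    rintro ⟨⟨g, hg⟩, hk⟩
    refine ⟨b, ?_⟩
    have h1 : g.right = 1 := hk
    apply Subtype.ext
    apply Subtype.ext
    refine pow_of_right_one h1 (fun w => ?_)
    rw [← hb]; exact pow_card_eq_one'
  have hX : F X := h1 X Cq ρ hρ hV₁pg hCq
  have hXfin := (hF.fin X hX).1
  have hXsol := (hF.fin X hX).2
  -- the complement
  let ι : Cq →* X := RegularWreathProduct.inl.codRestrict (wrKer Cq (MonoidHom.id Cr))
    (fun w => by rw [mem_wrKer]; simp)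
  have hρι : ∀ w, ρ (ι w) = w := fun w => rfl
  let Q₁ : Subgroup X := ι.range
  have hVc : ∀ a b : V₁, a * b = b * a := by
    rintro ⟨⟨g, hg⟩, hk⟩ ⟨⟨g', hg'⟩, hk'⟩
    have e1 : g.right = 1 := hk
    have e2 : g'.right = 1 := hk'
    apply Subtype.ext
    apply Subtype.ext
    ext x
    · simp [e1, e2, mul_comm]
    · simp [e1, e2]
  have hinf : V₁ ⊓ Q₁ = ⊥ := by
    rw [eq_bot_iff]
    rintro _ ⟨hx, ⟨w, rfl⟩⟩
    have h3 : ρ (ι w) = 1 := hx
    rw [hρι] at h3
    rw [h3, map_one]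
    exact Subgroup.one_mem _
  have hVQ : ∀ x : X, ∃ v ∈ V₁, ∃ y ∈ Q₁, v * y = x := by
    intro x
    refine ⟨x * (ι (ρ x))⁻¹, ?_, ι (ρ x), ⟨_, rfl⟩, by group⟩
    show ρ (x * (ι (ρ x))⁻¹) = 1
    rw [map_mul, map_inv, hρι, mul_inv_cancel]
  have hQ₁card : Nat.card Q₁ = q := by
    have : Function.Injective ι := fun a b hab => by
      have := congrArg ρ hab
      rwa [hρι, hρι] at this
    exact ((Nat.card_congr (MonoidHom.ofInjective this).toEquiv).symm).trans hCq
  have hQ₁pg : IsPGroup q Q₁ := IsPGroup.of_card (n := 1) (by rw [hQ₁card, pow_one])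
  obtain ⟨a, ha⟩ := IsPGroup.iff_card.1 hV₁pg
  have hQ₁idx : ¬ q ∣ Q₁.index := by
    have e := complEquiv V₁ Q₁ hinf hVQ
    have h3 : Q₁.index = r ^ a := by
      rw [← ha]
      exact (Nat.card_congr e).symm
    rw [h3]
    intro h
    exact hqr ((Nat.prime_dvd_prime_iff_eq hq'.out hr'.out).1 (hq'.out.dvd_of_dvd_pow h))
  have hQ₁abn : Abn Q₁ := by
    refine abn_of_sylow (hQ₁pg.toSylow hQ₁idx) ?_
    intro x hx
    obtain ⟨v, hv, y, hy, rfl⟩ := hVQ x
    have hvn : v ∈ normalizer (Q₁ : Set X) := by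
      have h3 : v = (v * y) * y⁻¹ := by group
      rw [h3]
      exact (normalizer (Q₁ : Set X)).mul_mem hx
        ((normalizer (Q₁ : Set X)).inv_mem (Subgroup.le_normalizer hy))
    have hv1 : v = 1 := by
      obtain ⟨g, hg⟩ := v
      apply Subtype.ext
      refine wr_fix hqr hCrpg (a := 1) (by rw [hCq, pow_one]) g hg hv ?_
      intro w
      have h3 := (Subgroup.mem_normalizer_iff.1 hvn (ι w)).1 ⟨w, rfl⟩
      have h4 : (⟨g, hg⟩ : X) * ι w * (⟨g, hg⟩ : X)⁻¹ * (ι w)⁻¹ ∈ V₁ ⊓ Q₁ := by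
        refine ⟨?_, Q₁.mul_mem h3 (Q₁.inv_mem ⟨w, rfl⟩)⟩
        show ρ _ = 1
        have h5 : ρ ⟨g, hg⟩ = 1 := hv
        rw [map_mul, map_mul, map_mul, map_inv, map_inv, h5]
        simp
      rw [hinf, Subgroup.mem_bot] at h4
      have h5 := mul_inv_eq_iff_eq_mul.1 (mul_inv_eq_one.1 h4)
      exact congrArg Subtype.val h5
    rw [hv1, one_mul]
    exact hy
  -- the module
  let _ : Fintype (X ⧸ Q₁) := Fintype.ofFinite _
  let Ω := X ⧸ Q₁
  let φ : X →* MulAut (VV Cp Ω) := (permV Cp Ω).comp (cosetPerm Q₁)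
  have hVpg : IsPGroup p (VV Cp Ω) := VV_pgroup hCppg
  have hVsol : Group.IsSolvable (VV Cp Ω) := inferInstance
  have hrV : ¬ r ∣ Nat.card (VV Cp Ω) := by
    intro h
    obtain ⟨b, hb⟩ := IsPGroup.iff_card.1 hVpg
    rw [hb] at h
    exact hpr ((Nat.prime_dvd_prime_iff_eq hr'.out hp'.out).1 (hr'.out.dvd_of_dvd_pow h)).symm
  let e := complEquiv V₁ Q₁ hinf hVQ
  have hΩ : Nat.card Ω = r ^ a := by rw [← ha]; exact (Nat.card_congr e).symm
  obtain ⟨S⟩ : Nonempty (Sylow r X) := inferInstance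
  have hV₁S : V₁ ≤ S := hV₁pg.le_sylow_of_normal S
  have hVX : F ((VV Cp Ω) ⋊[φ] X) := by
    refine hF.sd_extend φ S hrV ?_ hX Q₁ hQ₁abn ?_
    · intro v hv
      refine VV_fix hpr.symm hCppg hΩ v ?_
      intro ω ω'
      obtain ⟨x, rfl⟩ := e.surjective ω
      obtain ⟨y, rfl⟩ := e.surjective ω'
      refine ⟨cosetPerm Q₁ ((y * x⁻¹ : V₁) : X), ?_, ?_⟩
      · rw [complEquiv_apply]; simp [e]
      · exact hv _ (hV₁S (y * x⁻¹).2)
    · -- V ⋊ Q₁
      have := sd_finite (φ.comp Q₁.subtype)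
      refine h2 _ Cq ((ρ.comp Q₁.subtype).comp SemidirectProduct.rightHom) ?_ ?_ hCq
      · intro w
        exact ⟨SemidirectProduct.inr ⟨ι w, w, rfl⟩, rfl⟩
      · obtain ⟨b, hb⟩ := IsPGroup.iff_card.1 hVpg
        rw [isPGroup_iff_pow_pow_eq_one]
        rintro ⟨g, hk⟩
        refine ⟨b, ?_⟩
        have h3 : g.right = 1 := by
          have h4 : ρ (g.right : X) = 1 := hk
          have h5 : (g.right : X) ∈ V₁ ⊓ Q₁ := ⟨h4, g.right.2⟩
          rw [hinf, Subgroup.mem_bot] at h5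
          exact Subtype.ext h5
        have h4 : g = SemidirectProduct.inl g.left := SemidirectProduct.ext rfl (by rw [h3]; rfl)
        apply Subtype.ext
        show g ^ p ^ b = 1
        rw [h4, ← map_pow, ← hb, pow_card_eq_one', map_one]
  have hVV₁ := hF.sd_normal _ V₁ hVX
  let _ : Fintype V₁ := Fintype.ofFinite _
  let _ : CommGroup V₁ := { (inferInstance : Group V₁) with mul_comm := hVc }
  have hntr : Nontrivial V₁ := by
    have n1 : Nontrivial Cq := by
      rw [← Finite.one_lt_card_iff_nontrivial, hCq]; exact hq'.out.one_lt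
    have n2 : Nontrivial Cr := by
      rw [← Finite.one_lt_card_iff_nontrivial, hCr]; exact hr'.out.one_lt
    obtain ⟨c, hc⟩ := exists_ne (1 : Cq)
    obtain ⟨x, hx⟩ := exists_ne (1 : Cr)
    have hmem : (baseHom Cr Cq (Pi.mulSingle 1 x * Pi.mulSingle c x⁻¹)) ∈
        wrKer Cq (MonoidHom.id Cr) := by
      rw [mem_wrKer]
      show ∏ w, (Pi.mulSingle 1 x * Pi.mulSingle c x⁻¹ : Cq → Cr) w = 1
      simp only [Pi.mul_apply, Finset.prod_mul_distrib]
      rw [Finset.prod_pi_mulSingle', Finset.prod_pi_mulSingle']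
      simp only [Finset.mem_univ, if_true]
      exact mul_inv_cancel x
    refine ⟨⟨⟨⟨_, hmem⟩, rfl⟩, 1, ?_⟩⟩
    intro h
    have h3 := congrArg Subtype.val (congrArg Subtype.val h)
    have h4 := congrFun (congrArg RegularWreathProduct.left h3) 1
    apply hx
    have h5 : (Pi.mulSingle 1 x * Pi.mulSingle c x⁻¹ : Cq → Cr) 1 = 1 := h4
    simpa [Pi.mulSingle_eq_of_ne hc.symm] using h5
  obtain ⟨E⟩ := VV_regular (C := Cp) ((cosetPerm Q₁).comp V₁.subtype) e
    (fun w x => complEquiv_apply V₁ Q₁ hinf hVQ w x)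
  have hst : Star F r p :=
    hF.star_of_wr hpr.symm hr hp hCp hV₁pg (hF.of_equiv E hVV₁)
  exact (hF.rel_of_star hpr.symm hr hp hst).star

theorem IsAF.star_symm {p r : ℕ} [hp' : Fact p.Prime] [hr' : Fact r.Prime] (hpr : p ≠ r)
    (hp : Chr F p) (hr : Chr F r) (h : Star F p r) : Star F r p :=
  (hF.rel_of_star hpr hp hr h).star

theorem IsAF.star_rel {p r : ℕ} [hp' : Fact p.Prime] [hr' : Fact r.Prime] (hpr : p ≠ r)
    (hp : Chr F p) (hr : Chr F r) (h : Star F p r) : Rel F p r :=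
  hF.rel_of_star hpr.symm hr hp (hF.star_symm hpr hp hr h)

end Pool.Agent.AFH29
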