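import Mathlib

set_option autoImplicit false

/-!
Definitions: serial rings, pure injective and superdecomposable modules, Krull dimension of
partially ordered sets.

Modules over `R` are left modules; right modules over `R` are modules over the opposite ring.
-/

namespace Pool.Agent.Lib_helper29.SD

universe u

/-- A module is uniserial if its submodules are totally ordered by inclusion. -/
def IsUniserial (R M : Type*) [Ring R] [AddCommGroup M] [Module R M] : Prop :=
  ∀ A B : Submodule R M, A ≤ B ∨ B ≤ A

/-- A finite direct sum of uniserial modules. -/
def IsSerialModule (R M : Type*) [Ring R] [AddCommGroup M] [Module R M] : Prop :=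
  ∃ (n : ℕ) (U : Fin n → Submodule R M), DirectSum.IsInternal U ∧ ∀ i, IsUniserial R (U i)

/-- A ring is serial if it is a finite direct sum of uniserial modules, both as a left module
over itself and as a right module over itself. -/
def IsSerialRing (R : Type*) [Ring R] : Prop :=
  IsSerialModule R R ∧ IsSerialModule Rᵐᵒᵖ R

/-- `i` is a pure embedding: finite systems of linear equations with constants in `A` which have
a solution in `B` have a solution in `A`. -/
def IsPureEmbedding {R A B : Type*} [Ring R] [AddCommGroup A] [AddCommGroup B] [Module R A]
    [Module R B] (i : A →ₗ[R] B) : Prop :=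
  Function.Injective i ∧ ∀ (m n : ℕ) (r : Fin m → Fin n → R) (a : Fin m → A),
    (∃ y : Fin n → B, ∀ k, ∑ l, r k l • y l = i (a k)) →
      ∃ y : Fin n → A, ∀ k, ∑ l, r k l • y l = a k

/-- `N` is pure injective: it is injective with respect to pure embeddings. -/
def PureInjective (R : Type u) [Ring R] (N : Type u) [AddCommGroup N] [Module R N] : Prop :=
  ∀ (A B : Type u) [AddCommGroup A] [AddCommGroup B] [Module R A] [Module R B] (i : A →ₗ[R] B),
    IsPureEmbedding i → ∀ f : A →ₗ[R] N, ∃ g : B →ₗ[R] N, ∀ a, g (i a) = f a

/-- A module is indecomposable if it is nonzero and is not the direct sum of two nonzero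
submodules. -/
def IsIndecomposable (R M : Type*) [Ring R] [AddCommGroup M] [Module R M] : Prop :=
  Nontrivial M ∧ ∀ C D : Submodule R M, IsCompl C D → C = ⊥ ∨ D = ⊥

/-- A module is superdecomposable if it is nonzero and has no indecomposable direct summand. -/
def IsSuperdecomposable (R N : Type*) [Ring R] [AddCommGroup N] [Module R N] : Prop :=
  Nontrivial N ∧ ∀ A B : Submodule R N, IsCompl A B → ¬ IsIndecomposable R A

/-- There is no superdecomposable pure injective (left) module over the ring `R`. -/
def NoSuperdecomposable (R : Type u) [Ring R] : Prop :=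
  ∀ (N : Type u) [AddCommGroup N] [Module R N], PureInjective R N → ¬ IsSuperdecomposable R N

/-- `KdimLE α a b`: the interval `[a, b]` has Krull dimension at most `α`: along every descending
chain in `[a, b]` all but finitely many steps are trivial or of Krull dimension smaller
than `α`. -/
def KdimLE {L : Type u} [PartialOrder L] (α : Ordinal.{u}) (a b : L) : Prop :=
  ∀ c : ℕ → L, Antitone c → (∀ n, a ≤ c n ∧ c n ≤ b) →
    ∃ N : ℕ, ∀ n, N ≤ n → c (n + 1) = c n ∨ ∃ β : Ordinal.{u}, ∃ _ : β < α,
      KdimLE β (c (n + 1)) (c n)
termination_by α

/-- A partially ordered set with least and greatest element has Krull dimension. -/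
def HasKrullDimension (L : Type u) [PartialOrder L] [BoundedOrder L] : Prop :=
  ∃ α : Ordinal.{u}, KdimLE α (⊥ : L) ⊤

end Pool.Agent.Lib_helper29.SD
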