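import Pool.Agent.Lib_helper29.SD0

set_option autoImplicit false

/-!
Krull dimension (deviation) of intervals of a partially ordered set, and the intervals without it.
-/

namespace Pool.Agent.Lib_helper29.SD

universe u

/-- The interval `[a, b]` does not have Krull dimension. -/
def Bad {L : Type u} [PartialOrder L] (a b : L) : Prop := ¬ ∃ α : Ordinal.{u}, KdimLE α a b

section
variable {L : Type u} [PartialOrder L] {K : Type u} [PartialOrder K]

lemma kdimLE_def (α : Ordinal.{u}) (a b : L) : KdimLE α a b ↔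
    ∀ c : ℕ → L, Antitone c → (∀ n, a ≤ c n ∧ c n ≤ b) →
      ∃ N : ℕ, ∀ n, N ≤ n → c (n + 1) = c n ∨ ∃ β : Ordinal.{u}, β < α ∧
        KdimLE β (c (n + 1)) (c n) := by
  conv_lhs => rw [KdimLE]
  simp only [exists_prop]

lemma kdimLE_sub {α : Ordinal.{u}} {a b a' b' : L} (h : KdimLE α a b) (ha : a ≤ a')
    (hb : b' ≤ b) : KdimLE α a' b' := by
  rw [kdimLE_def] at h ⊢
  intro c hc hcc
  exact h c hc (fun n => ⟨ha.trans (hcc n).1, (hcc n).2.trans hb⟩)

lemma kdimLE_mono {α α' : Ordinal.{u}} {a b : L} (h : KdimLE α a b) (hα : α ≤ α') :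
    KdimLE α' a b := by
  rw [kdimLE_def] at h ⊢
  intro c hc hcc
  obtain ⟨N, hN⟩ := h c hc hcc
  refine ⟨N, fun n hn => ?_⟩
  rcases hN n hn with h1 | ⟨β, hβ, h1⟩
  · exact Or.inl h1
  · exact Or.inr ⟨β, lt_of_lt_of_le hβ hα, h1⟩

lemma kdimLE_self (α : Ordinal.{u}) (a : L) : KdimLE α a a := by
  rw [kdimLE_def]
  intro c _ hcc
  refine ⟨0, fun n _ => Or.inl ?_⟩
  exact (le_antisymm (hcc (n + 1)).2 (hcc (n + 1)).1).trans
    (le_antisymm (hcc n).1 (hcc n).2)

lemma kdimLE_of_not_le (α : Ordinal.{u}) {a b : L} (h : ¬ a ≤ b) : KdimLE α a b := by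
  rw [kdimLE_def]
  intro c _ hcc
  exact absurd ((hcc 0).1.trans (hcc 0).2) h

lemma Bad.le {a b : L} (h : Bad a b) : a ≤ b := by
  by_contra hc
  exact h ⟨0, kdimLE_of_not_le 0 hc⟩

lemma Bad.ne {a b : L} (h : Bad a b) : a ≠ b := by
  rintro rfl
  exact h ⟨0, kdimLE_self 0 a⟩

lemma Bad.not_ge {a b : L} (h : Bad a b) : ¬ b ≤ a := fun hc => h.ne (le_antisymm h.le hc)

lemma Bad.mono {a b a' b' : L} (h : Bad a b) (ha : a' ≤ a) (hb : b ≤ b') : Bad a' b' :=
  fun ⟨α, hα⟩ => h ⟨α, kdimLE_sub hα ha hb⟩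

/-- An interval without Krull dimension has a descending chain with infinitely many steps
without Krull dimension. -/
lemma Bad.chain {a b : L} (h : Bad a b) : ∃ c : ℕ → L, Antitone c ∧ (∀ n, a ≤ c n ∧ c n ≤ b) ∧
    ∀ N : ℕ, ∃ n, N ≤ n ∧ Bad (c (n + 1)) (c n) := by
  classical
  by_contra hcon
  push Not at hcon
  apply h
  let F : L × L → Ordinal.{u} := fun q => if hq : ∃ α : Ordinal.{u}, KdimLE α q.1 q.2 then
    hq.choose else 0
  refine ⟨Order.succ (⨆ q, F q), ?_⟩
  rw [kdimLE_def]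
  intro c hc hcc
  obtain ⟨N, hN⟩ := hcon c hc hcc
  refine ⟨N, fun n hn => Or.inr ?_⟩
  have h1 : ∃ α : Ordinal.{u}, KdimLE α (c (n + 1)) (c n) := not_not.mp (hN n hn)
  refine ⟨F (c (n + 1), c n), ?_, ?_⟩
  · exact Order.lt_succ_of_le (Ordinal.le_iSup F _)
  · have : F (c (n + 1), c n) = h1.choose := dif_pos h1
    rw [this]
    exact h1.choose_spec

lemma Bad.split {a b : L} (h : Bad a b) : ∃ c, Bad a c ∧ Bad c b := by
  obtain ⟨c, hc, hcc, hN⟩ := h.chain
  obtain ⟨n, _, hn⟩ := hN 0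
  obtain ⟨m, hm, hm'⟩ := hN (n + 1)
  refine ⟨c (n + 1), ?_, ?_⟩
  · exact hm'.mono (hcc _).1 (hc hm)
  · exact hn.mono le_rfl (hcc _).2

/-- Krull dimension pulls back along maps which are strictly monotone on the interval. -/
lemma kdimLE_comap (f : L → K) (α : Ordinal.{u}) : ∀ (a b : L),
    (∀ x y, a ≤ x → x ≤ y → y ≤ b → f x ≤ f y) →
    (∀ x y, a ≤ x → x ≤ y → y ≤ b → f x = f y → x = y) →
    KdimLE α (f a) (f b) → KdimLE α a b := by
  induction α using WellFoundedLT.induction with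
  | ind α ih =>
    intro a b hm hs h
    rw [kdimLE_def] at h ⊢
    intro c hc hcc
    obtain ⟨N, hN⟩ := h (fun n => f (c n))
      (fun i j hij => hm _ _ (hcc j).1 (hc hij) (hcc i).2)
      (fun n => ⟨hm _ _ le_rfl (hcc n).1 (hcc n).2, hm _ _ (hcc n).1 (hcc n).2 le_rfl⟩)
    refine ⟨N, fun n hn => ?_⟩
    rcases hN n hn with h1 | ⟨β, hβ, h1⟩
    · exact Or.inl (hs _ _ (hcc _).1 (hc (Nat.le_succ n)) (hcc n).2 h1)
    · refine Or.inr ⟨β, hβ, ih β hβ _ _ ?_ ?_ h1⟩
      · intro x y hx hxy hy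
        exact hm x y ((hcc _).1.trans hx) hxy (hy.trans (hcc n).2)
      · intro x y hx hxy hy
        exact hs x y ((hcc _).1.trans hx) hxy (hy.trans (hcc n).2)

lemma Bad.map (f : L → K) {a b : L} (hm : ∀ x y, a ≤ x → x ≤ y → y ≤ b → f x ≤ f y)
    (hs : ∀ x y, a ≤ x → x ≤ y → y ≤ b → f x = f y → x = y) (h : Bad a b) :
    Bad (f a) (f b) :=
  fun ⟨α, hα⟩ => h ⟨α, kdimLE_comap f α a b hm hs hα⟩

end

section pi
variable {ι : Type} [Fintype ι] {L : ι → Type u} [∀ i, PartialOrder (L i)]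

lemma kdimLE_pi (α : Ordinal.{u}) : ∀ (a b : ∀ i, L i), (∀ i, KdimLE α (a i) (b i)) →
    KdimLE α a b := by
  classical
  induction α using WellFoundedLT.induction with
  | ind α ih =>
    intro a b h
    rw [kdimLE_def]
    intro c hc hcc
    have h1 : ∀ i, ∃ N : ℕ, ∀ n, N ≤ n → c (n + 1) i = c n i ∨ ∃ β : Ordinal.{u}, β < α ∧
        KdimLE β (c (n + 1) i) (c n i) := by
      intro i
      have := h i
      rw [kdimLE_def] at this
      exact this (fun n => c n i) (fun p q hpq => hc hpq i)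
        (fun n => ⟨(hcc n).1 i, (hcc n).2 i⟩)
    choose N hN using h1
    refine ⟨Finset.univ.sup N, fun n hn => ?_⟩
    by_cases he : c (n + 1) = c n
    · exact Or.inl he
    right
    have h2 : ∀ i, ∃ β : Ordinal.{u}, β < α ∧ KdimLE β (c (n + 1) i) (c n i) := by
      have hα : 0 < α := by
        by_contra h0
        apply he
        funext i
        rcases hN i n (le_trans (Finset.le_sup (Finset.mem_univ i)) hn) with h3 | ⟨β, hβ, _⟩
        · exact h3
        · exact absurd (lt_of_le_of_lt zero_le hβ) h0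
      intro i
      rcases hN i n (le_trans (Finset.le_sup (Finset.mem_univ i)) hn) with h3 | h3
      · refine ⟨0, hα, ?_⟩
        rw [h3]
        exact kdimLE_self 0 _
      · exact h3
    choose β hβ h3 using h2
    have hα : 0 < α := by
      by_contra h0
      apply he
      funext i
      exact absurd (lt_of_le_of_lt zero_le (hβ i)) h0
    refine ⟨Finset.univ.sup β, (Finset.sup_lt_iff hα).mpr fun i _ => hβ i, ?_⟩
    refine ih _ ((Finset.sup_lt_iff hα).mpr fun i _ => hβ i) _ _ fun i => ?_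
    exact kdimLE_mono (h3 i) (Finset.le_sup (Finset.mem_univ i))

lemma Bad.pi {a b : ∀ i, L i} (h : Bad a b) : ∃ i, Bad (a i) (b i) := by
  classical
  by_contra hcon
  push Not at hcon
  have h1 : ∀ i, ∃ α : Ordinal.{u}, KdimLE α (a i) (b i) := fun i => not_not.mp (hcon i)
  choose α hα using h1
  exact h ⟨Finset.univ.sup α, kdimLE_pi _ _ _ fun i =>
    kdimLE_mono (hα i) (Finset.le_sup (Finset.mem_univ i))⟩

end pi

end Pool.Agent.Lib_helper29.SD
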