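import Pool.Agent.Lib_helper29.SD9

set_option autoImplicit false

/-!
Superdecomposable pure injective modules over serial rings.
-/

namespace Pool.Agent.Lib_helper29.SD

universe u

section
variable {R : Type u} [Ring R]

/-- From splittings in the endomorphism ring to superdecomposability. -/
lemma superdecomposable_range {P : Type u} [AddCommGroup P] [Module R P] {x : P}
    (ε : P →ₗ[R] P) (hεε : ∀ z, ε (ε z) = ε z) (hεx : ε x = x) (hx : x ≠ 0)
    (h : ∀ e1 e2 : P →ₗ[R] P, (∀ z, e1 (e1 z) = e1 z) → (∀ z, e2 (e2 z) = e2 z) →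
        (∀ z, e1 (e2 z) = 0) → (∀ z, e2 (e1 z) = 0) → (∀ z, e1 z + e2 z = ε z) →
        (∃ z, e1 z ≠ 0) → ∃ g : P →ₗ[R] P, (∀ z, g (g z) = g z) ∧ (∀ z, e1 (g z) = g z) ∧
          (∀ z, g (e1 z) = g z) ∧ (∃ z, g z ≠ 0) ∧ ∃ z, g z ≠ e1 z) :
    IsSuperdecomposable R (LinearMap.range ε) := by
  classical
  refine ⟨⟨⟨⟨x, ⟨x, hεx⟩⟩, 0, fun h0 => hx (congrArg Subtype.val h0)⟩⟩, ?_⟩
  intro A B hAB hA
  let ρ := ε.rangeRestrict
  have hρ : ∀ n : LinearMap.range ε, ρ (n : P) = n := by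
    rintro ⟨_, z, rfl⟩
    exact Subtype.ext (hεε z)
  have hρc : ∀ z, ((ρ z : LinearMap.range ε) : P) = ε z := fun z => rfl
  let e1 : P →ₗ[R] P := (LinearMap.range ε).subtype ∘ₗ A.projection B hAB ∘ₗ ρ
  let e2 : P →ₗ[R] P := (LinearMap.range ε).subtype ∘ₗ B.projection A hAB.symm ∘ₗ ρ
  have he1 : ∀ z, e1 z = (A.projection B hAB (ρ z) : P) := fun z => rfl
  have he2 : ∀ z, e2 z = (B.projection A hAB.symm (ρ z) : P) := fun z => rfl
  have he1A : ∀ a : A, e1 ((a : LinearMap.range ε) : P) = ((a : LinearMap.range ε) : P) := by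
    intro a
    rw [he1, hρ, Submodule.projection_apply_left]
  obtain ⟨⟨a0, ha0⟩⟩ : Nonempty {a : A // a ≠ 0} := by
    have := hA.1
    obtain ⟨a, ha⟩ := exists_ne (0 : A)
    exact ⟨⟨a, ha⟩⟩
  obtain ⟨g, hg1, hg2, hg3, ⟨z1, hz1⟩, z2, hz2⟩ := h e1 e2
    (by
      intro z
      rw [he1 (e1 z), he1 z, hρ]
      congr 1
      exact Submodule.projection_apply_of_mem_left hAB (Submodule.projection_apply_mem hAB _))
    (by
      intro z
      rw [he2 (e2 z), he2 z, hρ]
      congr 1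
      exact Submodule.projection_apply_of_mem_left hAB.symm
        (Submodule.projection_apply_mem hAB.symm _))
    (by
      intro z
      rw [he1 (e2 z), he2 z, hρ, Submodule.projection_apply_of_mem_right hAB
        (Submodule.projection_apply_mem hAB.symm _)]
      rfl)
    (by
      intro z
      rw [he2 (e1 z), he1 z, hρ, Submodule.projection_apply_of_mem_right hAB.symm
        (Submodule.projection_apply_mem hAB _)]
      rfl)
    (by
      intro z
      have := Submodule.projection_add_projection_eq_self hAB (ρ z)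
      have h1 := congrArg (fun n : LinearMap.range ε => (n : P)) this
      exact h1)
    ⟨(a0 : LinearMap.range ε), by
      rw [he1A]
      intro h0
      exact ha0 (Subtype.ext (Subtype.ext h0))⟩
  let gA : A →ₗ[R] A := (A.projectionOnto B hAB) ∘ₗ ρ ∘ₗ g ∘ₗ (LinearMap.range ε).subtype ∘ₗ
    A.subtype
  have hgA : ∀ a : A, ((gA a : LinearMap.range ε) : P) = g ((a : LinearMap.range ε) : P) :=
    fun a => hg2 _
  have hgAA : ∀ a, gA (gA a) = gA a := by
    intro a
    apply Subtype.ext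
    apply Subtype.ext
    rw [hgA, hgA, hg1]
  have hcompl : IsCompl (LinearMap.range gA) (LinearMap.ker gA) := by
    constructor
    · rw [Submodule.disjoint_def]
      rintro _ ⟨a, rfl⟩ ha
      rw [LinearMap.mem_ker, hgAA] at ha
      exact ha
    · rw [codisjoint_iff, Submodule.eq_top_iff']
      intro a
      rw [Submodule.mem_sup]
      refine ⟨gA a, ⟨a, rfl⟩, a - gA a, ?_, by abel⟩
      rw [LinearMap.mem_ker, map_sub, hgAA, sub_self]
  have hmem : ∀ z, ∃ a : A, ((a : LinearMap.range ε) : P) = e1 z := by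
    intro z
    exact ⟨⟨A.projection B hAB (ρ z), Submodule.projection_apply_mem hAB _⟩, rfl⟩
  rcases hA.2 _ _ hcompl with h0 | h0
  · obtain ⟨a, ha⟩ := hmem z1
    have h1 : gA a ∈ LinearMap.range gA := ⟨a, rfl⟩
    rw [h0, Submodule.mem_bot] at h1
    apply hz1
    rw [← hg3, ← ha, ← hgA, h1]
    rfl
  · obtain ⟨a, ha⟩ := hmem z2
    have h1 : a - gA a ∈ LinearMap.ker gA := by
      rw [LinearMap.mem_ker, map_sub, hgAA, sub_self]
    rw [h0, Submodule.mem_bot, sub_eq_zero] at h1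
    apply hz2
    rw [← hg3, ← ha, ← hgA, ← h1]

/-- A serial ring whose lattice of two-sided ideals has no Krull dimension has a
superdecomposable pure injective module. -/
theorem exists_superdecomposable (S : SerialData R) (h : Bad (⊥ : TwoSidedIdeal R) ⊤) :
    ∃ (N : Type u) (_ : AddCommGroup N) (_ : Module R N),
      PureInjective R N ∧ IsSuperdecomposable R N := by
  classical
  obtain ⟨j, i, a, a', d, d', hbox⟩ := exists_box S h
  let B : BoxT S j i := ⟨a, a', d, d', hbox⟩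
  let p0 : Set (PP R) := {ψ | ∃ n : ℕ, ∀ (M : Type u) [AddCommGroup M] [Module R M] (x : M),
    S.e i • x = x → (∀ r : List Bool, r.length < n →
      ∃ y : M, ((B.desc r).d1 * (B.desc r).a1) • y = (B.desc r).d1 • x) → Holds ψ x}
  let Θ : Set (PP R) := Set.range fun σ : List Bool => TH (B.desc σ).a' (B.desc σ).d
  have h0 : IsPPFilter p0 := by
    refine ⟨⟨EX (S.e i), 0, fun M _ _ x hx _ => holds_EX.mpr hx⟩, ?_, ?_⟩
    · rintro φ ⟨n, hn⟩ ψ hψ
      exact ⟨n, fun M _ _ x hx hr => hψ M x (hn M x hx hr)⟩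
    · rintro φ ⟨n, hn⟩ ψ ⟨m, hm⟩
      refine ⟨max n m, fun M _ _ x hx hr => holds_conj.mpr ⟨hn M x hx fun r hrn => hr r ?_,
        hm M x hx fun r hrm => hr r ?_⟩⟩
      · exact lt_of_lt_of_le hrn (le_max_left _ _)
      · exact lt_of_lt_of_le hrm (le_max_right _ _)
  have hd : ∀ θ ∈ Θ, θ ∉ p0 := by
    rintro _ ⟨σ, rfl⟩ ⟨n, hn⟩
    obtain ⟨N, _, _, x, hx1, hx2, hx3⟩ := B.consistent σ n
    exact hx3 (holds_TH.mp (hn N x hx1 hx2))
  obtain ⟨p, hp0, hp, hpΘ, hmax⟩ := exists_maximal_filter p0 Θ h0 hd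
  obtain ⟨M, _, _, x, hx⟩ := realise p hp
  obtain ⟨ε, hεε, hεx, hx0, hsplit⟩ := main_split S B p
    (by
      intro ψ hψ
      obtain ⟨φ, hφ, θ, ⟨σ, rfl⟩, hle⟩ := hmax ψ hψ
      exact ⟨φ, hφ, σ, hle⟩)
    (fun σ => hpΘ _ ⟨σ, rfl⟩)
    (fun r => hp0 ⟨r.length + 1, fun M _ _ x _ hr => holds_TH.mpr (hr r (Nat.lt_succ_self _))⟩)
    (hp0 ⟨0, fun M _ _ x hx _ => holds_EX.mpr hx⟩) x hx
  exact ⟨LinearMap.range ε, inferInstance, inferInstance, pureInjective_range ε hεε,
    superdecomposable_range ε hεε hεx hx0 hsplit⟩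

/-- The left-hand version. -/
theorem hasKrullDimension_left (hR : IsSerialRing R) (hN : NoSuperdecomposable R) :
    HasKrullDimension (TwoSidedIdeal R) := by
  obtain ⟨S⟩ := exists_serialData hR
  by_contra hcon
  obtain ⟨N, _, _, h1, h2⟩ := exists_superdecomposable S hcon
  exact hN N h1 h2

/-- The right-hand version. -/
theorem hasKrullDimension_right (hR : IsSerialRing R) (hN : NoSuperdecomposable Rᵐᵒᵖ) :
    HasKrullDimension (TwoSidedIdeal R) := by
  obtain ⟨S⟩ := exists_serialData hR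
  by_contra hcon
  have hb : Bad (⊥ : TwoSidedIdeal Rᵐᵒᵖ) ⊤ := by
    have h1 := Bad.map (TwoSidedIdeal.opOrderIso (R := R)) (a := (⊥ : TwoSidedIdeal R)) (b := ⊤)
      (fun x y _ hxy _ => (TwoSidedIdeal.opOrderIso (R := R)).monotone hxy)
      (fun x y _ _ _ hxy => (TwoSidedIdeal.opOrderIso (R := R)).injective hxy) hcon
    rwa [map_bot, map_top] at h1
  obtain ⟨N, _, _, h1, h2⟩ := exists_superdecomposable S.op hb
  exact hN N h1 h2

end

end Pool.Agent.Lib_helper29.SD
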