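import Pool.Agent.Lib_helper29.SD1

set_option autoImplicit false

/-!
Serial rings and their idempotents.
-/

namespace Pool.Agent.Lib_helper29.SD

universe u

/-- A complete system of orthogonal idempotents `e i` such that all `R e i` and all `e i R` are
uniserial. -/
structure SerialData (R : Type u) [Ring R] where
  n : ℕ
  e : Fin n → R
  coi : CompleteOrthogonalIdempotents e
  left : ∀ i x y, x * e i = x → y * e i = y → (∃ r, x = r * y) ∨ (∃ r, y = r * x)
  right : ∀ i x y, e i * x = x → e i * y = y → (∃ r, x = y * r) ∨ (∃ r, y = x * r)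

/-- Passing to the opposite ring. -/
def SerialData.op {R : Type u} [Ring R] (S : SerialData R) : SerialData Rᵐᵒᵖ where
  n := S.n
  e := fun i => MulOpposite.op (S.e i)
  coi :=
    { idem := fun i => by
        have := S.coi.idem i
        unfold IsIdempotentElem at this ⊢
        rw [← MulOpposite.op_mul, this]
      ortho := fun i j hij => by
        have := S.coi.ortho hij.symm
        show MulOpposite.op (S.e i) * MulOpposite.op (S.e j) = 0
        rw [← MulOpposite.op_mul, this, MulOpposite.op_zero]
      complete := by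
        have := S.coi.complete
        have h2 := map_sum (MulOpposite.opAddEquiv (α := R)) S.e Finset.univ
        rw [this] at h2
        exact h2.symm.trans MulOpposite.op_one }
  left := fun i x y hx hy => by
    have h := S.right i x.unop y.unop (by
      have := congrArg MulOpposite.unop hx
      simpa using this) (by
      have := congrArg MulOpposite.unop hy
      simpa using this)
    rcases h with ⟨r, hr⟩ | ⟨r, hr⟩
    · left
      exact ⟨MulOpposite.op r, by
        apply MulOpposite.unop_injective
        simpa using hr⟩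
    · right
      exact ⟨MulOpposite.op r, by
        apply MulOpposite.unop_injective
        simpa using hr⟩
  right := fun i x y hx hy => by
    have h := S.left i x.unop y.unop (by
      have := congrArg MulOpposite.unop hx
      simpa using this) (by
      have := congrArg MulOpposite.unop hy
      simpa using this)
    rcases h with ⟨r, hr⟩ | ⟨r, hr⟩
    · left
      exact ⟨MulOpposite.op r, by
        apply MulOpposite.unop_injective
        simpa using hr⟩
    · right
      exact ⟨MulOpposite.op r, by
        apply MulOpposite.unop_injective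
        simpa using hr⟩

/-- Cyclic submodules of a uniserial submodule are comparable. -/
lemma uniserial_comp {R M : Type*} [Ring R] [AddCommGroup M] [Module R M] {U : Submodule R M}
    (hU : IsUniserial R U) {x y : M} (hx : x ∈ U) (hy : y ∈ U) :
    (∃ r : R, x = r • y) ∨ (∃ r : R, y = r • x) := by
  rcases hU (Submodule.span R {⟨x, hx⟩}) (Submodule.span R {⟨y, hy⟩}) with h | h
  · left
    have h1 : (⟨x, hx⟩ : U) ∈ Submodule.span R {(⟨y, hy⟩ : U)} :=
      h (Submodule.mem_span_singleton_self _)
    obtain ⟨r, hr⟩ := Submodule.mem_span_singleton.mp h1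
    exact ⟨r, by rw [← Submodule.coe_mk x hx, ← hr]; rfl⟩
  · right
    have h1 : (⟨y, hy⟩ : U) ∈ Submodule.span R {(⟨x, hx⟩ : U)} :=
      h (Submodule.mem_span_singleton_self _)
    obtain ⟨r, hr⟩ := Submodule.mem_span_singleton.mp h1
    exact ⟨r, by rw [← Submodule.coe_mk y hy, ← hr]; rfl⟩

/-- In a finite nonempty family with a total transitive relation there is a greatest element. -/
lemma exists_greatest {ι : Type*} (r : ι → ι → Prop) (hr : ∀ i, r i i)
    (ht : ∀ i j k, r i j → r j k → r i k)
    (s : Finset ι) (htot : ∀ i ∈ s, ∀ j ∈ s, r i j ∨ r j i) (hs : s.Nonempty) :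
    ∃ j ∈ s, ∀ i ∈ s, r i j := by
  classical
  induction hs using Finset.Nonempty.cons_induction with
  | singleton a =>
    refine ⟨a, Finset.mem_singleton_self a, fun i hi => ?_⟩
    rw [Finset.mem_singleton] at hi
    rw [hi]
    exact hr a
  | cons a s ha hs ih =>
    obtain ⟨j, hj, hj'⟩ := ih (fun i hi k hk => htot i (Finset.mem_cons_of_mem hi) k
      (Finset.mem_cons_of_mem hk))
    rcases htot a (Finset.mem_cons_self a s) j (Finset.mem_cons_of_mem hj) with h | h
    · refine ⟨j, Finset.mem_cons_of_mem hj, fun i hi => ?_⟩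
      rcases Finset.mem_cons.mp hi with rfl | hi
      · exact h
      · exact hj' i hi
    · refine ⟨a, Finset.mem_cons_self a s, fun i hi => ?_⟩
      rcases Finset.mem_cons.mp hi with rfl | hi
      · exact hr _
      · exact ht _ _ _ (hj' i hi) h

/-- The idempotents of a serial ring. -/
theorem exists_serialData {R : Type u} [Ring R] (hR : IsSerialRing R) :
    Nonempty (SerialData R) := by
  classical
  obtain ⟨⟨n, U, hU, hUu⟩, m, V, hV, hVu⟩ := hR
  let _ : DirectSum.Decomposition U := hU.chooseDecomposition
  have hcoi := DirectSum.completeOrthogonalIdempotents_idempotent U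
  set e := DirectSum.idempotent U with he
  have hmem : ∀ i, e i ∈ U i := fun i => (DirectSum.decompose U (1 : R) i).2
  have hleft : ∀ i x y, x * e i = x → y * e i = y → (∃ r, x = r * y) ∨ (∃ r, y = r * x) := by
    intro i x y hx hy
    refine uniserial_comp (hUu i) (x := x) (y := y) ?_ ?_
    · rw [← hx]; exact (U i).smul_mem x (hmem i)
    · rw [← hy]; exact (U i).smul_mem y (hmem i)
  refine ⟨⟨n, e, hcoi, hleft, ?_⟩⟩
  -- the right decomposition of `1`
  let _ : DirectSum.Decomposition V := hV.chooseDecomposition
  let f : Fin m → R := fun j => (DirectSum.decompose V (1 : R) j : R)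
  have hf : ∀ j, f j ∈ V j := fun j => (DirectSum.decompose V (1 : R) j).2
  have hsum : ∑ j, f j = 1 := by
    have h1 := DirectSum.sum_support_decompose V (1 : R)
    refine Eq.trans (Eq.symm ?_) h1
    refine Finset.sum_subset (Finset.subset_univ _) ?_
    intro j _ hj
    have : DirectSum.decompose V (1 : R) j = 0 := by
      simpa [DFinsupp.mem_support_iff] using hj
    rw [this]
    rfl
  have hcomp : ∀ j x y, (∃ z, x = f j * z) → (∃ z, y = f j * z) →
      (∃ r, x = y * r) ∨ (∃ r, y = x * r) := by
    rintro j x y ⟨z, rfl⟩ ⟨w, rfl⟩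
    have h1 : f j * z ∈ V j := (V j).smul_mem (MulOpposite.op z) (hf j)
    have h2 : f j * w ∈ V j := (V j).smul_mem (MulOpposite.op w) (hf j)
    rcases uniserial_comp (hVu j) h1 h2 with ⟨r, hr⟩ | ⟨r, hr⟩
    · exact Or.inl ⟨r.unop, hr⟩
    · exact Or.inr ⟨r.unop, hr⟩
  intro i x y hx hy
  by_cases hnt : Subsingleton R
  · exact Or.inl ⟨0, Subsingleton.elim _ _⟩
  have hei : e i * e i = e i := hcoi.idem i
  -- some `e i * f j * e i` is left invertible
  have hex : ∃ j b, e i = b * (e i * f j * e i) := by
    have h1 : e i = ∑ j, e i * f j * e i := by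
      rw [← Finset.sum_mul, ← Finset.mul_sum, hsum, mul_one, hei]
    by_cases hm : (Finset.univ : Finset (Fin m)).Nonempty
    · obtain ⟨j, _, hj⟩ := exists_greatest (fun a b : Fin m =>
        ∃ r, e i * f a * e i = r * (e i * f b * e i)) (fun a => ⟨1, by rw [one_mul]⟩)
        (by
          rintro a b c ⟨r, hr⟩ ⟨s, hs⟩
          exact ⟨r * s, by rw [hr, hs]; simp only [mul_assoc]⟩)
        Finset.univ (fun a _ b _ => hleft i _ _ (by rw [mul_assoc _ (e i) (e i), hei])
          (by rw [mul_assoc _ (e i) (e i), hei])) hm
      choose r hr using fun a => hj a (Finset.mem_univ a)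
      refine ⟨j, ∑ a, r a, ?_⟩
      rw [Finset.sum_mul]
      rw [← Finset.sum_congr rfl (fun a _ => hr a)]
      exact h1
    · exfalso
      rw [Finset.not_nonempty_iff_eq_empty] at hm
      rw [hm, Finset.sum_empty] at hsum
      exact hnt (subsingleton_of_zero_eq_one hsum)
  obtain ⟨j, b, hb⟩ := hex
  have hinj : ∀ z, e i * z = z → f j * z = 0 → z = 0 := by
    intro z hz h0
    rw [← hz, hb, mul_assoc, mul_assoc, mul_assoc, hz, h0, mul_zero, mul_zero]
  rcases hcomp j (f j * x) (f j * y) ⟨x, rfl⟩ ⟨y, rfl⟩ with ⟨r, hr⟩ | ⟨r, hr⟩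
  · left
    refine ⟨r, ?_⟩
    have := hinj (x - y * r) (by rw [mul_sub, hx, ← mul_assoc, hy])
      (by rw [mul_sub, hr, mul_assoc, sub_self])
    exact sub_eq_zero.mp this
  · right
    refine ⟨r, ?_⟩
    have := hinj (y - x * r) (by rw [mul_sub, hy, ← mul_assoc, hx])
      (by rw [mul_sub, hr, mul_assoc, sub_self])
    exact sub_eq_zero.mp this

end Pool.Agent.Lib_helper29.SD
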