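import Pool.Agent.Lib_helper29.SD2

set_option autoImplicit false

/-!
Sub-bimodules of `f R e`, one-sided submodules, and boxes.
-/

namespace Pool.Agent.Lib_helper29.SD

universe u

variable {R : Type u} [Ring R]

/-- sets closed downwards under a relation -/
def Lo {R : Type u} (r : R → R → Prop) : Type u := {X : Set R // ∀ x ∈ X, ∀ y, r y x → y ∈ X}

instance {R : Type u} (r : R → R → Prop) : PartialOrder (Lo r) := Subtype.partialOrder _

/-- `relL f y x`: `y = f t x` for some `t` -/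
def relL (f y x : R) : Prop := ∃ t, y = f * t * x

/-- `relB f e y x`: `y = f t x s e` for some `t`, `s` -/
def relB (f e y x : R) : Prop := ∃ t s, y = f * t * x * s * e

lemma relL_trans {f x y z : R} (h1 : relL f x y) (h2 : relL f y z) : relL f x z := by
  obtain ⟨t, rfl⟩ := h1
  obtain ⟨s, rfl⟩ := h2
  exact ⟨t * f * s, by simp only [mul_assoc]⟩

lemma relB_trans {f e x y z : R} (h1 : relB f e x y) (h2 : relB f e y z) : relB f e x z := by
  obtain ⟨t, s, rfl⟩ := h1
  obtain ⟨t', s', rfl⟩ := h2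
  exact ⟨t * f * t', s' * e * s, by simp only [mul_assoc]⟩

/-- principal lower set of `relL` -/
def pL (f w : R) : Lo (relL f) := ⟨{y | relL f y w}, fun _ hx _ hy => relL_trans hy hx⟩

/-- principal lower set of `relB` -/
def pB (f e w : R) : Lo (relB f e) := ⟨{y | relB f e y w}, fun _ hx _ hy => relB_trans hy hx⟩

/-- Abstract splitting lemma. -/
lemma lo_split {R : Type u} {r : R → R → Prop} {X Y : Lo r} {p : R → Lo r}
    (hp : ∀ w, (p w).1 = {y | r y w})
    (htot : ∀ w ∈ Y.1, ∀ z ∈ Y.1, r w z ∨ r z w) (h : Bad X Y) :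
    ∃ z ∈ Y.1, z ∉ X.1 ∧ Bad X (p z) ∧ Bad (p z) Y := by
  obtain ⟨Z0, h0, h1⟩ := h.split
  obtain ⟨Z1, h2, h3⟩ := h1.split
  obtain ⟨z, hz1, hz0⟩ : ∃ z, z ∈ Z1.1 ∧ z ∉ Z0.1 := by
    by_contra hc
    push Not at hc
    exact h2.not_ge hc
  have hzY : z ∈ Y.1 := h3.le hz1
  refine ⟨z, hzY, fun hx => hz0 (h0.le hx), h0.mono le_rfl ?_, h3.mono ?_ le_rfl⟩
  · intro y hy
    rw [hp]
    rcases htot y (h3.le (h2.le hy)) z hzY with h4 | h4
    · exact h4
    · exact absurd (Z0.2 y hy z h4) hz0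
  · intro y hy
    rw [hp] at hy
    exact Z1.2 z hz1 y hy

section
variable (S : SerialData R) (j i : Fin S.n)

/-- the elements of `f R e` -/
def MM : Set R := {x | S.e j * x = x ∧ x * S.e i = x}

lemma ee : S.e i * S.e i = S.e i := S.coi.idem i

variable {S j i}

lemma relL_refl {x : R} (hx : x ∈ MM S j i) : relL (S.e j) x x :=
  ⟨1, by rw [mul_one, hx.1]⟩

lemma relB_refl {x : R} (hx : x ∈ MM S j i) : relB (S.e j) (S.e i) x x :=
  ⟨1, 1, by rw [mul_one, mul_one, hx.1, hx.2]⟩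

lemma relB_of_relL {x y : R} (hy : y ∈ MM S j i) (h : relL (S.e j) x y) :
    relB (S.e j) (S.e i) x y := by
  obtain ⟨t, rfl⟩ := h
  refine ⟨t, 1, ?_⟩
  rw [mul_one, mul_assoc _ y, hy.2]

lemma relL_tot {x y : R} (hx : x ∈ MM S j i) (hy : y ∈ MM S j i) :
    relL (S.e j) x y ∨ relL (S.e j) y x := by
  rcases S.left i x y hx.2 hy.2 with ⟨r, hr⟩ | ⟨r, hr⟩
  · left
    refine ⟨r, ?_⟩
    rw [mul_assoc, ← hr, hx.1]
  · right
    refine ⟨r, ?_⟩
    rw [mul_assoc, ← hr, hy.1]

lemma relB_tot {x y : R} (hx : x ∈ MM S j i) (hy : y ∈ MM S j i) :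
    relB (S.e j) (S.e i) x y ∨ relB (S.e j) (S.e i) y x :=
  (relL_tot hx hy).imp (relB_of_relL hy) (relB_of_relL hx)

lemma mem_of_relL {x y : R} (hy : y ∈ MM S j i) (h : relL (S.e j) x y) : x ∈ MM S j i := by
  obtain ⟨t, rfl⟩ := h
  constructor
  · rw [← mul_assoc, ← mul_assoc, ee]
  · rw [mul_assoc, hy.2]

lemma mem_of_relB {x y : R} (h : relB (S.e j) (S.e i) x y) : x ∈ MM S j i := by
  obtain ⟨t, s, rfl⟩ := h
  constructor
  · simp only [← mul_assoc, ee]
  · rw [mul_assoc, ee]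

lemma pL_split {X : Lo (relL (S.e j))} {w : R} (hw : w ∈ MM S j i) (h : Bad X (pL (S.e j) w)) :
    ∃ z, relL (S.e j) z w ∧ z ∉ X.1 ∧ Bad X (pL (S.e j) z) ∧ Bad (pL (S.e j) z) (pL (S.e j) w) :=
  lo_split (p := pL (S.e j)) (Y := pL (S.e j) w) (fun _ => rfl)
    (fun _ hz _ hy => relL_tot (mem_of_relL hw hz) (mem_of_relL hw hy)) h

lemma pB_split {X Y : Lo (relB (S.e j) (S.e i))} (hY : Y.1 ⊆ MM S j i) (h : Bad X Y) :
    ∃ z ∈ Y.1, z ∉ X.1 ∧ Bad X (pB (S.e j) (S.e i) z) ∧
      Bad (pB (S.e j) (S.e i) z) Y :=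
  lo_split (p := pB (S.e j) (S.e i)) (fun _ => rfl)
    (fun _ hz _ hy => relB_tot (hY hz) (hY hy)) h

/-- `M1` -/
lemma relL_or {z z' : R} (hz : z ∈ MM S j i) (h : relB (S.e j) (S.e i) z' z) :
    relL (S.e j) z' z ∨ relB (S.e j) (S.e i) z z' := by
  obtain ⟨t, s, rfl⟩ := h
  have hzs : z * s * S.e i ∈ MM S j i := by
    constructor
    · rw [← mul_assoc, ← mul_assoc, hz.1]
    · rw [mul_assoc, ee]
  rcases relL_tot hzs hz with ⟨r, hr⟩ | ⟨r, hr⟩
  · left
    refine ⟨t * S.e j * r, ?_⟩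
    calc S.e j * t * z * s * S.e i = S.e j * t * (z * s * S.e i) := by simp only [mul_assoc]
      _ = _ := by rw [hr]; simp only [mul_assoc]
  · rcases S.left j (S.e j * t * S.e j) (S.e j * r * S.e j) (by rw [mul_assoc, ee])
      (by rw [mul_assoc, ee]) with ⟨q, hq⟩ | ⟨q, hq⟩
    · left
      refine ⟨q, ?_⟩
      calc S.e j * t * z * s * S.e i
          = S.e j * ((S.e j * t * S.e j) * (z * s * S.e i)) := by
            simp only [← mul_assoc, ee]
            rw [mul_assoc (S.e j * t) (S.e j) z, hz.1]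
        _ = S.e j * q * (S.e j * r * (S.e j * z * s * S.e i)) := by
            rw [hq]; simp only [mul_assoc]
        _ = S.e j * q * z := by
            rw [hz.1]
            rw [← hr]
    · right
      refine ⟨q, 1, ?_⟩
      symm
      calc S.e j * q * (S.e j * t * z * s * S.e i) * 1 * S.e i
          = S.e j * (q * (S.e j * t * (S.e j * z) * s * (S.e i * S.e i))) := by
            rw [hz.1]; simp only [mul_one, mul_assoc]
        _ = S.e j * ((q * (S.e j * t * S.e j)) * (z * s * S.e i)) := by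
            rw [ee]; simp only [mul_assoc]
        _ = S.e j * r * (S.e j * z * s * S.e i) := by
            rw [← hq]; simp only [← mul_assoc, ee]
        _ = z := by rw [hz.1]; exact hr.symm

/-- `M2` -/
lemma right_or {z z' : R} (hz : z ∈ MM S j i) (h : relB (S.e j) (S.e i) z' z) :
    (∃ s, z' = z * s * S.e i) ∨ relB (S.e j) (S.e i) z z' := by
  obtain ⟨t, s, rfl⟩ := h
  rcases S.right j (S.e j * t * z) z (by simp only [← mul_assoc, ee]) hz.1 with
    ⟨r, hr⟩ | ⟨r, hr⟩
  · left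
    exact ⟨r * s, by rw [hr]; simp only [mul_assoc]⟩
  · rcases S.right i (S.e i * s * S.e i) (S.e i * r * S.e i) (by simp only [← mul_assoc, ee])
      (by simp only [← mul_assoc, ee]) with ⟨q, hq⟩ | ⟨q, hq⟩
    · left
      refine ⟨q, ?_⟩
      calc S.e j * t * z * s * S.e i
          = (S.e j * t * (z * S.e i)) * s * (S.e i * S.e i) := by rw [hz.2, ee]
        _ = (S.e j * t * z) * (S.e i * s * S.e i) * S.e i := by simp only [mul_assoc]
        _ = (S.e j * t * (z * S.e i)) * r * S.e i * q * S.e i := by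
            rw [hq]; simp only [mul_assoc]
        _ = z * q * S.e i := by rw [hz.2, ← hr, hz.2]
    · right
      refine ⟨1, q, ?_⟩
      symm
      calc S.e j * 1 * (S.e j * t * z * s * S.e i) * q * S.e i
          = (S.e j * S.e j) * t * (z * S.e i) * s * S.e i * q * S.e i := by
            rw [hz.2]; simp only [mul_one, mul_assoc]
        _ = (S.e j * t * z) * ((S.e i * s * S.e i) * q) * S.e i := by
            rw [ee]; simp only [mul_assoc]
        _ = (S.e j * t * (z * S.e i)) * r * (S.e i * S.e i) := by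
            rw [← hq]; simp only [mul_assoc]
        _ = z := by rw [hz.2, ee, ← hr, hz.2]

/-- transfer of a bad interval of sub-bimodules to one-sided submodules -/
def DS (S : SerialData R) (j i : Fin S.n) (d a : R) (ha : a ∈ MM S i i)
    (Z : Lo (relB (S.e j) (S.e i))) : Lo (relL (S.e j)) :=
  ⟨{y | relL (S.e j) y d ∧ y * a ∈ Z.1}, by
    rintro x ⟨hx1, hx2⟩ y hy
    refine ⟨relL_trans hy hx1, ?_⟩
    obtain ⟨t, rfl⟩ := hy
    refine Z.2 _ hx2 _ ⟨t, 1, ?_⟩
    rw [mul_one, mul_assoc _ (x * a), mul_assoc x, ha.2]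
    simp only [mul_assoc]⟩

lemma bad_DS {d a : R} (hd : d ∈ MM S j i) (ha : a ∈ MM S i i)
    {Z0 : Lo (relB (S.e j) (S.e i))} (h : Bad Z0 (pB (S.e j) (S.e i) (d * a))) :
    Bad (DS S j i d a ha Z0) (pL (S.e j) d) := by
  have hda : d * a ∈ MM S j i := ⟨by rw [← mul_assoc, hd.1], by rw [mul_assoc, ha.2]⟩
  have htop : DS S j i d a ha (pB (S.e j) (S.e i) (d * a)) = pL (S.e j) d := by
    apply Subtype.ext
    ext y
    constructor
    · exact fun hy => hy.1
    · intro hy
      refine ⟨hy, ?_⟩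
      obtain ⟨t, rfl⟩ := hy
      exact relB_of_relL hda ⟨t, by simp only [mul_assoc]⟩
  rw [← htop]
  refine Bad.map (DS S j i d a ha) ?_ ?_ h
  · intro x y _ hxy _ z hz
    exact ⟨hz.1, hxy hz.2⟩
  · intro Z Z' hZ0 hZ hZ' he
    refine le_antisymm hZ ?_
    intro z' hz'
    rcases relL_or hda (hZ' hz') with ⟨t, ht⟩ | hr
    · have h1 : S.e j * t * d ∈ (DS S j i d a ha Z').1 :=
        ⟨⟨t, rfl⟩, by rw [mul_assoc, ← ht]; exact hz'⟩
      rw [← he] at h1
      have h2 := h1.2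
      rw [mul_assoc, ← ht] at h2
      exact h2
    · have h1 : d ∈ (DS S j i d a ha Z').1 := ⟨relL_refl hd, Z'.2 z' hz' _ hr⟩
      rw [← he] at h1
      exact Z.2 _ h1.2 _ (hZ' hz')

variable (S j i)

/-- A box: `a` and `a'` in `e R e`, `d` and `d'` in `f R e`, with the two intervals bad. -/
structure IsBox (a a' d d' : R) : Prop where
  ha : a ∈ MM S i i
  ha' : a' ∈ MM S i i
  hd : d ∈ MM S j i
  hd' : d' ∈ MM S j i
  haa : ∃ s, a' = a * s
  hdd : ∃ t, d' = t * d
  badB : Bad (pB (S.e j) (S.e i) (d * a')) (pB (S.e j) (S.e i) (d * a))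
  badL : Bad (pL (S.e j) d') (pL (S.e j) d)

variable {S j i}

lemma mul_mem {d a : R} (hd : d ∈ MM S j i) (ha : a ∈ MM S i i) : d * a ∈ MM S j i :=
  ⟨by rw [← mul_assoc, hd.1], by rw [mul_assoc, ha.2]⟩

lemma pL_le {x y : R} (h : relL (S.e j) x y) : pL (S.e j) x ≤ pL (S.e j) y :=
  fun _ hz => relL_trans hz h

lemma pB_le {x y : R} (h : relB (S.e j) (S.e i) x y) :
    pB (S.e j) (S.e i) x ≤ pB (S.e j) (S.e i) y :=
  fun _ hz => relB_trans hz h

/-- Splitting a box. -/
theorem IsBox.split {a a' d d' : R} (h : IsBox S j i a a' d d') :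
    ∃ a1 d1, IsBox S j i a a1 d d1 ∧ IsBox S j i a1 a' d1 d' := by
  have hda := mul_mem h.hd h.ha
  have hsub : (pB (S.e j) (S.e i) (d * a)).1 ⊆ MM S j i := fun x hx => mem_of_relB hx
  obtain ⟨z0, hz0, hz0', hb1, hb2⟩ := pB_split hsub h.badB
  obtain ⟨z, hz, hz', hb3, hb4⟩ := pB_split hsub hb2
  obtain ⟨s, hs⟩ : ∃ s, z = d * a * s * S.e i := by
    rcases right_or hda hz with h1 | h1
    · exact h1
    · exact absurd (pB_le h1) hb4.not_ge
  set a1 := a * s * S.e i with ha1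
  have ha1m : a1 ∈ MM S i i := by
    constructor
    · rw [ha1, ← mul_assoc, ← mul_assoc, h.ha.1]
    · rw [ha1, mul_assoc, ee]
  have hza : z = d * a1 := by rw [hs, ha1]; simp only [mul_assoc]
  have hzm : z ∈ MM S j i := by rw [hza]; exact mul_mem h.hd ha1m
  have hz0m : z0 ∈ MM S j i := hsub hz0
  -- the one-sided part
  rw [hza] at hb3
  have hbD := bad_DS h.hd ha1m hb3
  set D := DS S j i d a1 ha1m (pB (S.e j) (S.e i) z0) with hD
  let D' : Lo (relL (S.e j)) := ⟨D.1 ∪ (pL (S.e j) d').1, by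
    rintro x (hx | hx) y hy
    · exact Or.inl (D.2 x hx y hy)
    · exact Or.inr ((pL (S.e j) d').2 x hx y hy)⟩
  have hdd' : relL (S.e j) d' d := by
    obtain ⟨t, ht⟩ := h.hdd
    exact ⟨t, by rw [mul_assoc, ← ht, h.hd'.1]⟩
  have hbD' : Bad D' (pL (S.e j) d) := by
    by_cases hc : ∃ y ∈ D.1, relL (S.e j) d' y
    · obtain ⟨y, hy, hy'⟩ := hc
      refine hbD.mono ?_ le_rfl
      rintro x (hx | hx)
      · exact hx
      · exact D.2 y hy x (relL_trans hx hy')
    · refine h.badL.mono ?_ le_rfl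
      rintro x (hx | hx)
      · rcases relL_tot (mem_of_relL h.hd hx.1) h.hd' with h1 | h1
        · exact h1
        · exact absurd ⟨x, hx, h1⟩ hc
      · exact hx
  obtain ⟨d1, hd1, hd1', hb5, hb6⟩ := pL_split h.hd hbD'
  have hd1m : d1 ∈ MM S j i := mem_of_relL h.hd hd1
  have hd1D : ¬ relB (S.e j) (S.e i) (d1 * a1) z0 := fun hc => hd1' (Or.inl ⟨hd1, hc⟩)
  have hd1d : ¬ relL (S.e j) d1 d' := fun hc => hd1' (Or.inr hc)
  refine ⟨a1, d1, ⟨h.ha, ha1m, h.hd, hd1m, ⟨s * S.e i, by rw [ha1, mul_assoc]⟩, ?_, ?_, hb6⟩,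
    ⟨ha1m, h.ha', hd1m, h.hd', ?_, ?_, ?_, ?_⟩⟩
  · obtain ⟨t, ht⟩ := hd1
    exact ⟨S.e j * t, ht⟩
  · rw [← hza]; exact hb4
  · rcases S.right i a' a1 h.ha'.1 ha1m.1 with h1 | ⟨r, hr⟩
    · exact h1
    · exfalso
      apply hz'
      have h1 : relB (S.e j) (S.e i) z (d * a') := by
        refine ⟨1, r, ?_⟩
        rw [mul_one, ← mul_assoc, h.hd.1, mul_assoc d, ← hr, ← hza, hzm.2]
      exact hb1.le h1
  · rcases S.left i d' d1 h.hd'.2 hd1m.2 with h1 | ⟨r, hr⟩
    · exact h1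
    · exfalso
      apply hd1d
      exact ⟨r, by rw [mul_assoc, ← hr, hd1m.1]⟩
  · refine hb1.mono ?_ ?_
    · apply pB_le
      obtain ⟨t, ht⟩ := hd1
      refine relB_of_relL (mul_mem h.hd h.ha') ⟨t, ?_⟩
      rw [ht]; simp only [mul_assoc]
    · apply pB_le
      rcases relB_tot hz0m (mul_mem hd1m ha1m) with h1 | h1
      · exact h1
      · exact absurd h1 hd1D
  · refine hb5.mono ?_ le_rfl
    intro x hx
    exact Or.inr hx

/-- A box is realised nontrivially. -/
theorem IsBox.nontriv {a a' d d' : R} (h : IsBox S j i a a' d d') :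
    ¬ ∃ y r, d * a = d * a' * y + r * (d' * a) := by
  rintro ⟨y, r, hyr⟩
  have hda := mul_mem h.hd h.ha
  have hda' := mul_mem h.hd h.ha'
  have hd'a := mul_mem h.hd' h.ha
  have hne : ¬ relB (S.e j) (S.e i) (d * a) (d * a') := fun hc => h.badB.not_ge (pB_le hc)
  set x1 := d * a' * y * S.e i with hx1
  set x2 := S.e j * r * (d' * a) with hx2
  have hx1m : x1 ∈ MM S j i := by
    constructor
    · rw [hx1, ← mul_assoc, ← mul_assoc, hda'.1]
    · rw [hx1, mul_assoc, ee]
  have hx2m : x2 ∈ MM S j i := by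
    constructor
    · rw [hx2]; simp only [← mul_assoc, ee]
    · rw [hx2, mul_assoc, hd'a.2]
  have hsum : d * a = x1 + x2 := by
    calc d * a = S.e j * (d * a) * S.e i := by rw [hda.1, hda.2]
      _ = S.e j * (d * a') * y * S.e i + S.e j * r * ((d' * a) * S.e i) := by
          rw [hyr, mul_add, add_mul]; simp only [mul_assoc]
      _ = x1 + x2 := by rw [hda'.1, hd'a.2]
  rcases relL_tot hx2m hx1m with ⟨t, ht⟩ | ⟨t, ht⟩
  · apply hne
    refine ⟨1 + S.e j * t, y, ?_⟩
    calc d * a = S.e j * (x1 + x2) := by rw [← hsum, hda.1]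
      _ = S.e j * ((1 + S.e j * t) * x1) := by rw [ht, add_mul, one_mul]
      _ = _ := by rw [hx1]; simp only [mul_assoc]
  · -- `d a = c d a`
    obtain ⟨t', ht'⟩ := h.hdd
    set c := (1 + S.e j * t) * S.e j * r * S.e j * t' * S.e j with hc
    have hd'2 : d' = S.e j * t' * S.e j * d := by
      rw [mul_assoc _ (S.e j) d, h.hd.1, mul_assoc, ← ht', h.hd'.1]
    have hcd : d * a = c * (d * a) := by
      calc d * a = (1 + S.e j * t) * x2 := by rw [hsum, ht, add_mul, one_mul, add_comm]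
        _ = (1 + S.e j * t) * S.e j * r * (d' * a) := by rw [hx2]; simp only [mul_assoc]
        _ = (1 + S.e j * t) * S.e j * r * (S.e j * t' * S.e j * d * a) := by rw [← hd'2]
        _ = _ := by rw [hc]; simp only [mul_assoc]
    have hcf : c * S.e j = c := by rw [hc, mul_assoc, ee]
    rcases S.left j c (S.e j - c) hcf (by rw [sub_mul, ee, hcf]) with ⟨q, hq⟩ | ⟨q, hq⟩
    · -- `f = (q + 1) (f - c)`
      have hf : S.e j = (q + 1) * (S.e j - c) := by
        rw [add_mul, one_mul, ← hq]; abel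
      have h0 : d * a = 0 := by
        calc d * a = S.e j * (d * a) := hda.1.symm
          _ = (q + 1) * ((S.e j - c) * (d * a)) := by
              conv_lhs => rw [hf]
              rw [mul_assoc]
          _ = 0 := by rw [sub_mul, hda.1, ← hcd, sub_self, mul_zero]
      apply hne
      exact ⟨0, 0, by rw [h0]; simp⟩
    · have hf : S.e j = (q + 1) * c := by
        rw [add_mul, one_mul, ← hq]; abel
      have h1 : relL (S.e j) d d' := by
        refine ⟨(q + 1) * ((1 + S.e j * t) * S.e j * r), ?_⟩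
        calc d = S.e j * (S.e j * d) := by rw [h.hd.1, h.hd.1]
          _ = S.e j * ((q + 1) * c * d) := by rw [← hf]
          _ = S.e j * ((q + 1) * ((1 + S.e j * t) * S.e j * r)) *
                (S.e j * t' * S.e j * d) := by
              rw [hc]; simp only [mul_assoc]
          _ = _ := by rw [← hd'2]
      exact h.badL.not_ge (pL_le h1)

end

end Pool.Agent.Lib_helper29.SD
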