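import Pool.Agent.Lib_helper29.SD3

set_option autoImplicit false

/-!
The first box and the tree of boxes.
-/

namespace Pool.Agent.Lib_helper29.SD

universe u

variable {R : Type u} [Ring R]

/-- If the lattice of two-sided ideals of a serial ring has no Krull dimension, there is a
box. -/
theorem exists_box (S : SerialData R) (h : Bad (⊥ : TwoSidedIdeal R) ⊤) :
    ∃ (j i : Fin S.n) (a a' d d' : R), IsBox S j i a a' d d' := by
  let L : Fin S.n × Fin S.n → Type u := fun q => Lo (relB (S.e q.1) (S.e q.2))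
  let Φ : TwoSidedIdeal R → ∀ q, L q := fun I q => ⟨{x | x ∈ I ∧ x ∈ MM S q.1 q.2}, by
    rintro x ⟨hx, _⟩ y hy
    refine ⟨?_, mem_of_relB hy⟩
    obtain ⟨t, s, rfl⟩ := hy
    exact I.mul_mem_right _ _ (I.mul_mem_right _ _ (I.mul_mem_left _ _ hx))⟩
  have hb : Bad (Φ ⊥) (Φ ⊤) := by
    refine Bad.map Φ ?_ ?_ h
    · intro I J _ hIJ _ q x hx
      exact ⟨hIJ hx.1, hx.2⟩
    · intro I J _ hIJ _ he
      refine le_antisymm hIJ ?_
      intro x hx
      have h1 : x = ∑ k, ∑ l, S.e k * x * S.e l := by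
        simp_rw [← Finset.mul_sum]
        rw [← Finset.sum_mul, ← Finset.sum_mul, S.coi.complete, one_mul, mul_one]
      rw [h1]
      refine sum_mem fun k _ => sum_mem fun l _ => ?_
      have h2 : S.e k * x * S.e l ∈ (Φ J (k, l)).1 := by
        refine ⟨J.mul_mem_right _ _ (J.mul_mem_left _ _ hx), ?_, ?_⟩
        · rw [← mul_assoc, ← mul_assoc, ee]
        · rw [mul_assoc, ee]
      rw [← he] at h2
      exact h2.1
  obtain ⟨⟨j, i⟩, hji⟩ := hb.pi
  have hbot : Φ ⊥ (j, i) = pB (S.e j) (S.e i) (0 : R) := by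
    apply Subtype.ext
    ext x
    constructor
    · rintro ⟨hx, _⟩
      have : x = 0 := (TwoSidedIdeal.mem_bot R).mp hx
      exact ⟨0, 0, by rw [this]; simp⟩
    · rintro ⟨t, s, rfl⟩
      refine ⟨?_, ?_⟩
      · simp
      · simp [MM]
  obtain ⟨z, hz, _, hz1, _⟩ := pB_split (Y := Φ ⊤ (j, i)) (fun x hx => hx.2) hji
  have hzm : z ∈ MM S j i := hz.2
  have hei : S.e i ∈ MM S i i := ⟨ee S i, ee S i⟩
  have h0i : (0 : R) ∈ MM S i i := ⟨mul_zero _, zero_mul _⟩
  have h0j : (0 : R) ∈ MM S j i := ⟨mul_zero _, zero_mul _⟩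
  rw [hbot] at hz1
  have hb1 : Bad (pB (S.e j) (S.e i) (0 : R)) (pB (S.e j) (S.e i) (z * S.e i)) := by
    rw [hzm.2]; exact hz1
  refine ⟨j, i, S.e i, 0, z, 0, hei, h0i, hzm, h0j, ⟨0, by rw [mul_zero]⟩,
    ⟨0, by rw [zero_mul]⟩, ?_, ?_⟩
  · rw [mul_zero]; exact hb1
  · refine (bad_DS hzm hei hb1).mono ?_ le_rfl
    rintro x ⟨t, rfl⟩
    refine ⟨⟨0, by simp⟩, 0, 0, by simp⟩

section
variable (S : SerialData R) (j i : Fin S.n)

/-- boxes -/
structure BoxT : Type u where
  a : R
  a' : R
  d : R
  d' : R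
  isBox : IsBox S j i a a' d d'

variable {S j i}

/-- first splitting element of a box -/
noncomputable def BoxT.a1 (B : BoxT S j i) : R := B.isBox.split.choose

/-- second splitting element of a box -/
noncomputable def BoxT.d1 (B : BoxT S j i) : R := B.isBox.split.choose_spec.choose

/-- the two children of a box -/
noncomputable def BoxT.child (B : BoxT S j i) : Bool → BoxT S j i
  | true => ⟨B.a, B.a1, B.d, B.d1, B.isBox.split.choose_spec.choose_spec.1⟩
  | false => ⟨B.a1, B.a', B.d1, B.d', B.isBox.split.choose_spec.choose_spec.2⟩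

/-- descendants of a box -/
noncomputable def BoxT.desc (B : BoxT S j i) : List Bool → BoxT S j i
  | [] => B
  | b :: w => (B.child b).desc w

lemma BoxT.desc_append (B : BoxT S j i) (w w' : List Bool) :
    B.desc (w ++ w') = (B.desc w).desc w' := by
  induction w generalizing B with
  | nil => rfl
  | cons b w ih => exact ih _

lemma BoxT.a1_eq (B : BoxT S j i) : ∃ s, B.a1 = B.a * s := (B.child true).isBox.haa

lemma BoxT.a'_eq (B : BoxT S j i) : ∃ s, B.a' = B.a1 * s := (B.child false).isBox.haa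

lemma BoxT.d1_eq (B : BoxT S j i) : ∃ t, B.d1 = t * B.d := (B.child true).isBox.hdd

lemma BoxT.d'_eq (B : BoxT S j i) : ∃ t, B.d' = t * B.d1 := (B.child false).isBox.hdd

lemma BoxT.desc_a (B : BoxT S j i) (w : List Bool) : ∃ s, (B.desc w).a = B.a * s := by
  induction w generalizing B with
  | nil => exact ⟨1, (mul_one _).symm⟩
  | cons b w ih =>
    obtain ⟨s, hs⟩ := ih (B.child b)
    cases b with
    | true => exact ⟨s, hs⟩
    | false =>
      obtain ⟨s', hs'⟩ := B.a1_eq
      refine ⟨s' * s, ?_⟩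
      rw [← mul_assoc, ← hs']
      exact hs

lemma BoxT.desc_a' (B : BoxT S j i) (w : List Bool) : ∃ s, B.a' = (B.desc w).a' * s := by
  induction w generalizing B with
  | nil => exact ⟨1, (mul_one _).symm⟩
  | cons b w ih =>
    obtain ⟨s, hs⟩ := ih (B.child b)
    cases b with
    | true =>
      obtain ⟨s', hs'⟩ := B.a'_eq
      refine ⟨s * s', ?_⟩
      rw [hs', ← mul_assoc]
      congr 1
    | false => exact ⟨s, hs⟩

lemma BoxT.desc_d (B : BoxT S j i) (w : List Bool) : ∃ t, (B.desc w).d = t * B.d := by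
  induction w generalizing B with
  | nil => exact ⟨1, (one_mul _).symm⟩
  | cons b w ih =>
    obtain ⟨t, ht⟩ := ih (B.child b)
    cases b with
    | true => exact ⟨t, ht⟩
    | false =>
      obtain ⟨t', ht'⟩ := B.d1_eq
      refine ⟨t * t', ?_⟩
      rw [mul_assoc, ← ht']
      exact ht

lemma BoxT.desc_d' (B : BoxT S j i) (w : List Bool) : ∃ t, B.d' = t * (B.desc w).d' := by
  induction w generalizing B with
  | nil => exact ⟨1, (one_mul _).symm⟩
  | cons b w ih =>
    obtain ⟨t, ht⟩ := ih (B.child b)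
    cases b with
    | true =>
      obtain ⟨t', ht'⟩ := B.d'_eq
      refine ⟨t' * t, ?_⟩
      rw [ht', mul_assoc]
      congr 1
    | false => exact ⟨t, ht⟩

/-- A point of the box at depth `w` satisfies all requirements of smaller depth. -/
theorem BoxT.sat {N : Type*} [AddCommGroup N] [Module R N] (w : List Bool) :
    ∀ (B : BoxT S j i) (x : N), (∃ z : N, x = (B.desc w).a • z) → (B.desc w).d' • x = 0 →
      ∀ r : List Bool, r.length < w.length →
        ∃ y : N, ((B.desc r).d1 * (B.desc r).a1) • y = (B.desc r).d1 • x := by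
  induction w with
  | nil => intro B x _ _ r hr; simp at hr
  | cons b w ih =>
    intro B x hx hx' r hr
    obtain ⟨z, hz⟩ := hx
    -- two basic facts
    have hS : b = true → B.d1 • x = 0 := by
      rintro rfl
      obtain ⟨t, ht⟩ := (B.child true).desc_d' w
      have h1 : B.d1 = t * (B.desc (true :: w)).d' := ht
      rw [h1, mul_smul, hx', smul_zero]
    have hD : b = false → ∃ z', x = B.a1 • z' := by
      rintro rfl
      obtain ⟨s, hs⟩ := (B.child false).desc_a w
      have h1 : (B.desc (false :: w)).a = B.a1 * s := hs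
      exact ⟨s • z, by rw [hz, h1, mul_smul]⟩
    cases r with
    | nil =>
      show ∃ y : N, (B.d1 * B.a1) • y = B.d1 • x
      cases b with
      | true => exact ⟨0, by rw [hS rfl, smul_zero]⟩
      | false =>
        obtain ⟨z', hz'⟩ := hD rfl
        exact ⟨z', by rw [hz', mul_smul]⟩
    | cons c r =>
      by_cases hcb : c = b
      · subst hcb
        exact ih (B.child c) x ⟨z, hz⟩ hx' r (by simpa using hr)
      · cases b with
        | true =>
          have hc : c = false := by cases c <;> simp_all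
          subst hc
          obtain ⟨t, ht⟩ := (B.child false).desc_d r
          obtain ⟨t', ht'⟩ := (B.desc (false :: r)).d1_eq
          have h1 : (B.desc (false :: r)).d = t * B.d1 := ht
          refine ⟨0, ?_⟩
          rw [smul_zero, ht', h1, mul_smul, mul_smul, hS rfl, smul_zero, smul_zero]
        | false =>
          have hc : c = true := by cases c <;> simp_all
          subst hc
          obtain ⟨s, hs⟩ := (B.child true).desc_a' r
          obtain ⟨s', hs'⟩ := (B.desc (true :: r)).a'_eq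
          have h1 : B.a1 = (B.desc (true :: r)).a' * s := hs
          obtain ⟨z', hz'⟩ := hD rfl
          refine ⟨s' • s • z', ?_⟩
          rw [mul_smul]
          congr 1
          rw [hz', h1, hs', mul_smul, mul_smul]

/-- Consistency. -/
theorem BoxT.consistent (B : BoxT S j i) (σ : List Bool) (n : ℕ) :
    ∃ (N : Type u) (_ : AddCommGroup N) (_ : Module R N) (x : N), S.e i • x = x ∧
      (∀ r : List Bool, r.length < n →
        ∃ y : N, ((B.desc r).d1 * (B.desc r).a1) • y = (B.desc r).d1 • x) ∧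
      ¬ ∃ y : N, ((B.desc σ).d * (B.desc σ).a') • y = (B.desc σ).d • x := by
  set w := σ ++ List.replicate n true with hw
  set τ := B.desc w with hτ
  set I : Submodule R R := Submodule.span R {τ.d' * τ.a} with hI
  refine ⟨R ⧸ I, inferInstance, inferInstance, I.mkQ τ.a, ?_, ?_, ?_⟩
  · rw [← map_smul, smul_eq_mul, τ.isBox.ha.1]
  · intro r hr
    refine BoxT.sat w B (I.mkQ τ.a) ⟨I.mkQ 1, ?_⟩ ?_ r ?_
    · rw [← map_smul, smul_eq_mul, mul_one]
    · rw [← map_smul, smul_eq_mul, Submodule.mkQ_apply, Submodule.Quotient.mk_eq_zero]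
      exact Submodule.mem_span_singleton_self _
    · rw [hw, List.length_append, List.length_replicate]; omega
  · rintro ⟨y, hy⟩
    obtain ⟨t, ht⟩ := (B.desc σ).desc_d (List.replicate n true)
    obtain ⟨s, hs⟩ := (B.desc σ).desc_a' (List.replicate n true)
    rw [← BoxT.desc_append, ← hw, ← hτ] at ht hs
    obtain ⟨y0, rfl⟩ := I.mkQ_surjective y
    have h1 : I.mkQ (τ.d * τ.a) = I.mkQ (τ.d * τ.a' * (s * y0)) := by
      calc I.mkQ (τ.d * τ.a) = t • ((B.desc σ).d • I.mkQ τ.a) := by
            rw [← map_smul, ← map_smul, smul_eq_mul, smul_eq_mul, ← mul_assoc, ← ht]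
        _ = t • (((B.desc σ).d * (B.desc σ).a') • I.mkQ y0) := by rw [hy]
        _ = _ := by
            rw [← map_smul, ← map_smul, smul_eq_mul, smul_eq_mul, ht, hs]
            simp only [mul_assoc]
    have h2 : τ.d * τ.a - τ.d * τ.a' * (s * y0) ∈ I := by
      rw [← Submodule.Quotient.mk_eq_zero, ← Submodule.mkQ_apply, map_sub, h1, sub_self]
    obtain ⟨r, hr⟩ := Submodule.mem_span_singleton.mp h2
    apply τ.isBox.nontriv
    refine ⟨s * y0, r, ?_⟩
    rw [smul_eq_mul] at hr
    rw [hr]; abel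

end

end Pool.Agent.Lib_helper29.SD
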