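import Pool.Agent.Lib_helper29.SD4

set_option autoImplicit false

/-!
Positive primitive conditions, compact modules, pure injectivity.
-/

namespace Pool.Agent.Lib_helper29.SD

universe u v w

/-- Positive primitive conditions in one variable `x`: finite systems of equations
`∑ c_l y_l = v x`. -/
abbrev PP (R : Type u) [Ring R] : Type u := Finset ((ℕ →₀ R) × R)

section
variable {R : Type u} [Ring R]

/-- `x` satisfies the condition `φ`. -/
def Holds (φ : PP R) {M : Type v} [AddCommGroup M] [Module R M] (x : M) : Prop :=
  ∃ y : ℕ → M, ∀ p ∈ φ, Finsupp.linearCombination R y p.1 = p.2 • x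

/-- A finite system in arbitrary variables can be written as a condition. -/
lemma exists_pp {J : Type w} (E : Finset ((J →₀ R) × R)) : ∃ φ : PP R,
    ∀ (M : Type v) [AddCommGroup M] [Module R M] (x : M), Holds φ x ↔
      ∃ y : J → M, ∀ p ∈ E, Finsupp.linearCombination R y p.1 = p.2 • x := by
  classical
  let s : Finset J := E.biUnion fun p => p.1.support
  let g : J → ℕ := fun j => if h : j ∈ s then (s.equivFin ⟨j, h⟩ : ℕ) else 0
  have hg : ∀ j ∈ s, ∀ k ∈ s, g j = g k → j = k := by
    intro j hj k hk h
    simp only [g, dif_pos hj, dif_pos hk] at h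
    have := s.equivFin.injective (Fin.ext h)
    exact congrArg Subtype.val this
  refine ⟨E.image fun p => (Finsupp.mapDomain g p.1, p.2), ?_⟩
  intro M _ _ x
  constructor
  · rintro ⟨y, hy⟩
    refine ⟨y ∘ g, fun p hp => ?_⟩
    have := hy _ (Finset.mem_image_of_mem _ hp)
    rw [Finsupp.linearCombination_mapDomain] at this
    exact this
  · rintro ⟨y, hy⟩
    -- choose a function on the natural numbers
    let z : ℕ → M := fun k => if h : ∃ j ∈ s, g j = k then y h.choose else 0
    refine ⟨z, fun q hq => ?_⟩
    obtain ⟨p, hp, rfl⟩ := Finset.mem_image.mp hq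
    show Finsupp.linearCombination R z (Finsupp.mapDomain g p.1) = p.2 • x
    rw [Finsupp.linearCombination_mapDomain, ← hy p hp]
    rw [Finsupp.linearCombination_apply, Finsupp.linearCombination_apply]
    refine Finsupp.sum_congr fun j hj => ?_
    have hjs : j ∈ s := Finset.mem_biUnion.mpr ⟨p, hp, hj⟩
    have hex : ∃ k ∈ s, g k = g j := ⟨j, hjs, rfl⟩
    have h1 : z (g j) = y hex.choose := dif_pos hex
    show p.1 j • z (g j) = p.1 j • y j
    rw [h1, hg _ hex.choose_spec.1 _ hjs hex.choose_spec.2]

lemma Holds.map {φ : PP R} {M : Type v} {N : Type w} [AddCommGroup M] [Module R M]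
    [AddCommGroup N] [Module R N] (f : M →ₗ[R] N) {x : M} (h : Holds φ x) : Holds φ (f x) := by
  obtain ⟨y, hy⟩ := h
  refine ⟨fun k => f (y k), fun p hp => ?_⟩
  rw [← map_smul, ← hy p hp, Finsupp.apply_linearCombination]
  rfl

lemma exists_conj (φ ψ : PP R) : ∃ χ : PP R,
    ∀ (M : Type u) [AddCommGroup M] [Module R M] (x : M),
      Holds χ x ↔ Holds φ x ∧ Holds ψ x := by
  classical
  obtain ⟨χ, hχ⟩ := exists_pp.{u, u, 0} (J := ℕ ⊕ ℕ)
    ((φ.image fun p : (ℕ →₀ R) × R => (Finsupp.mapDomain Sum.inl p.1, p.2)) ∪
      (ψ.image fun p : (ℕ →₀ R) × R => (Finsupp.mapDomain Sum.inr p.1, p.2)))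
  refine ⟨χ, fun M _ _ x => ?_⟩
  rw [hχ]
  constructor
  · rintro ⟨y, hy⟩
    constructor
    · refine ⟨y ∘ Sum.inl, fun p hp => ?_⟩
      have := hy _ (Finset.mem_union_left _ (Finset.mem_image_of_mem _ hp))
      rw [Finsupp.linearCombination_mapDomain] at this
      exact this
    · refine ⟨y ∘ Sum.inr, fun p hp => ?_⟩
      have := hy _ (Finset.mem_union_right _ (Finset.mem_image_of_mem _ hp))
      rw [Finsupp.linearCombination_mapDomain] at this
      exact this
  · rintro ⟨⟨y, hy⟩, z, hz⟩
    refine ⟨Sum.elim y z, fun q hq => ?_⟩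
    rcases Finset.mem_union.mp hq with hq | hq
    · obtain ⟨p, hp, rfl⟩ := Finset.mem_image.mp hq
      show Finsupp.linearCombination R _ (Finsupp.mapDomain Sum.inl p.1) = p.2 • x
      rw [Finsupp.linearCombination_mapDomain, ← hy p hp]
      rfl
    · obtain ⟨p, hp, rfl⟩ := Finset.mem_image.mp hq
      show Finsupp.linearCombination R _ (Finsupp.mapDomain Sum.inr p.1) = p.2 • x
      rw [Finsupp.linearCombination_mapDomain, ← hz p hp]
      rfl

/-- The condition `d x ∈ d a M`. -/
noncomputable def TH (a d : R) : PP R := {(Finsupp.single 0 (d * a), d)}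

lemma holds_TH {a d : R} {M : Type v} [AddCommGroup M] [Module R M] {x : M} :
    Holds (TH a d) x ↔ ∃ y : M, (d * a) • y = d • x := by
  constructor
  · rintro ⟨y, hy⟩
    refine ⟨y 0, ?_⟩
    have := hy _ (Finset.mem_singleton_self _)
    rw [Finsupp.linearCombination_single] at this
    exact this
  · rintro ⟨y, hy⟩
    refine ⟨fun _ => y, fun p hp => ?_⟩
    rw [Finset.mem_singleton.mp hp, Finsupp.linearCombination_single]
    exact hy

/-- The condition `e x = x`. -/
def EX (e : R) : PP R := {(0, 1 - e)}

lemma holds_EX {e : R} {M : Type v} [AddCommGroup M] [Module R M] {x : M} :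
    Holds (EX e) x ↔ e • x = x := by
  constructor
  · rintro ⟨y, hy⟩
    have := hy _ (Finset.mem_singleton_self _)
    rw [map_zero, sub_smul, one_smul] at this
    exact (sub_eq_zero.mp this.symm).symm
  · intro h
    refine ⟨fun _ => 0, fun p hp => ?_⟩
    rw [Finset.mem_singleton.mp hp, map_zero, sub_smul, one_smul, h, sub_self]

end

section compact
variable {R : Type u} [Ring R] {P : Type u} [AddCommGroup P] [Module R P] [TopologicalSpace P]
  [CompactSpace P] [T2Space P] [IsTopologicalAddGroup P] [ContinuousConstSMul R P]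

omit [CompactSpace P] [T2Space P] in
lemma continuous_lc {J : Type v} (c : J →₀ R) :
    Continuous fun y : J → P => Finsupp.linearCombination R y c := by
  simp only [Finsupp.linearCombination_apply, Finsupp.sum]
  exact continuous_finsetSum _ fun j _ => (continuous_apply j).const_smul _

/-- Finitely solvable systems over a compact module are solvable. -/
lemma solve {J : Type v} (E : Set ((J →₀ R) × P))
    (h : ∀ E0 : Finset ((J →₀ R) × P), (↑E0 : Set _) ⊆ E →
      ∃ y : J → P, ∀ q ∈ E0, Finsupp.linearCombination R y q.1 = q.2) :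
    ∃ y : J → P, ∀ q ∈ E, Finsupp.linearCombination R y q.1 = q.2 := by
  classical
  have hcl : ∀ q : E, IsClosed {y : J → P | Finsupp.linearCombination R y q.1.1 = q.1.2} :=
    fun q => isClosed_eq (continuous_lc q.1.1) continuous_const
  have := CompactSpace.iInter_nonempty hcl (by
    intro s
    obtain ⟨y, hy⟩ := h (s.image Subtype.val) (by
      intro q hq
      obtain ⟨q', _, rfl⟩ := Finset.mem_image.mp (Finset.mem_coe.mp hq)
      exact q'.2)
    refine ⟨y, ?_⟩
    simp only [Set.mem_iInter]
    intro q hq
    exact hy q.1 (Finset.mem_image_of_mem _ hq))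
  obtain ⟨y, hy⟩ := this
  simp only [Set.mem_iInter] at hy
  exact ⟨y, fun q hq => hy ⟨q, hq⟩⟩

/-- Homomorphisms realising inclusions of types. -/
theorem exists_hom {M : Type u} [AddCommGroup M] [Module R M] (x : M) (y : P)
    (h : ∀ φ : PP R, Holds φ x → Holds φ y) : ∃ g : M →ₗ[R] P, g x = y := by
  classical
  -- equations
  let Eq : Set ((M →₀ R) × R) :=
    {q | Finsupp.linearCombination R (id : M → M) q.1 = q.2 • x}
  let E : Set ((M →₀ R) × P) := (fun q : (M →₀ R) × R => (q.1, q.2 • y)) '' Eq
  obtain ⟨z, hz⟩ := solve E (by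
    intro E0 hE0
    obtain ⟨E1, hE1, rfl⟩ : ∃ E1 : Finset ((M →₀ R) × R), (↑E1 : Set _) ⊆ Eq ∧
        E1.image (fun q : (M →₀ R) × R => (q.1, q.2 • y)) = E0 :=
      Finset.subset_set_image_iff.mp hE0
    obtain ⟨φ, hφ⟩ := exists_pp.{u, u, u} E1
    have h1 : Holds φ x := (hφ M x).mpr ⟨id, fun p hp => hE1 hp⟩
    obtain ⟨z, hz⟩ := (hφ P y).mp (h φ h1)
    refine ⟨z, fun q hq => ?_⟩
    obtain ⟨p, hp, rfl⟩ := Finset.mem_image.mp hq
    exact hz p hp)
  have hz' : ∀ q ∈ Eq, Finsupp.linearCombination R z q.1 = q.2 • y :=
    fun q hq => hz _ ⟨q, hq, rfl⟩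
  refine ⟨{ toFun := z, map_add' := ?_, map_smul' := ?_ }, ?_⟩
  · intro m m'
    have := hz' (Finsupp.single (m + m') 1 - Finsupp.single m 1 - Finsupp.single m' 1, 0) (by
      show Finsupp.linearCombination R id _ = (0 : R) • x
      simp)
    simp only [map_sub, Finsupp.linearCombination_single, one_smul, zero_smul] at this
    rw [sub_sub, sub_eq_zero] at this
    exact this
  · intro r m
    have := hz' (Finsupp.single (r • m) 1 - Finsupp.single m r, 0) (by
      show Finsupp.linearCombination R id _ = (0 : R) • x
      simp)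
    simp only [map_sub, Finsupp.linearCombination_single, one_smul, zero_smul] at this
    rw [sub_eq_zero] at this
    exact this
  · have := hz' (Finsupp.single x 1, 1) (by
      show Finsupp.linearCombination R id _ = (1 : R) • x
      simp)
    simpa using this

/-- Pure embeddings and systems in arbitrary variables. -/
lemma pure_solve {A B : Type u} [AddCommGroup A] [AddCommGroup B] [Module R A] [Module R B]
    {i : A →ₗ[R] B} (hi : IsPureEmbedding i) {J : Type v} (E : Finset ((J →₀ R) × A))
    (h : ∃ y : J → B, ∀ q ∈ E, Finsupp.linearCombination R y q.1 = i q.2) :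
    ∃ y : J → A, ∀ q ∈ E, Finsupp.linearCombination R y q.1 = q.2 := by
  classical
  obtain ⟨y, hy⟩ := h
  let s : Finset J := E.biUnion fun p => p.1.support
  let eE := E.equivFin
  let es := s.equivFin
  have key : ∀ {M : Type u} [AddCommGroup M] [Module R M] (y : J → M) (q : (J →₀ R) × A),
      q ∈ E → Finsupp.linearCombination R y q.1 =
        ∑ l : Fin s.card, q.1 (es.symm l) • y (es.symm l) := by
    intro M _ _ y q hq
    rw [Finsupp.linearCombination_apply, Finsupp.sum]
    rw [Finset.sum_subset (s₂ := s) (Finset.subset_biUnion_of_mem (fun p => p.1.support) hq)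
      (fun j _ hj => by rw [Finsupp.notMem_support_iff.mp hj, zero_smul])]
    rw [← Finset.sum_coe_sort s (fun j => q.1 j • y j)]
    exact (Equiv.sum_comp es.symm (fun j : s => q.1 j • y j)).symm
  obtain ⟨z, hz⟩ := hi.2 E.card s.card (fun k l => (eE.symm k).1.1 (es.symm l))
    (fun k => (eE.symm k).1.2) ⟨fun l => y (es.symm l), fun k => by
      rw [← hy _ (eE.symm k).2, key y _ (eE.symm k).2]⟩
  let z' : J → A := fun j => if hj : j ∈ s then z (es ⟨j, hj⟩) else 0
  refine ⟨z', fun q hq => ?_⟩
  rw [key z' q hq]
  have h1 := hz (eE ⟨q, hq⟩)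
  simp only [Equiv.symm_apply_apply] at h1
  rw [← h1]
  refine Finset.sum_congr rfl fun l _ => ?_
  congr 1
  show (if hj : ((es.symm l : s) : J) ∈ s then z (es ⟨_, hj⟩) else 0) = z l
  rw [dif_pos (es.symm l).2]
  congr 1
  exact es.apply_symm_apply l

/-- A direct summand of a compact module is pure injective. -/
theorem pureInjective_range (ε : P →ₗ[R] P) (hε : ∀ x, ε (ε x) = ε x) :
    PureInjective R (LinearMap.range ε) := by
  classical
  intro A B _ _ _ _ i hi f
  let Eq : Set ((B →₀ R) × A) :=
    {q | Finsupp.linearCombination R (id : B → B) q.1 = i q.2}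
  let F : A → P := fun a => (f a : P)
  let E : Set ((B →₀ R) × P) := (fun q : (B →₀ R) × A => (q.1, F q.2)) '' Eq
  obtain ⟨z, hz⟩ := solve E (by
    intro E0 hE0
    obtain ⟨E1, hE1, rfl⟩ : ∃ E1 : Finset ((B →₀ R) × A), (↑E1 : Set _) ⊆ Eq ∧
        E1.image (fun q : (B →₀ R) × A => (q.1, F q.2)) = E0 :=
      Finset.subset_set_image_iff.mp hE0
    obtain ⟨z, hz⟩ := pure_solve hi E1 ⟨id, fun q hq => hE1 hq⟩
    refine ⟨fun b => F (z b), fun q hq => ?_⟩
    obtain ⟨p, hp, rfl⟩ := Finset.mem_image.mp hq
    show Finsupp.linearCombination R (fun b => F (z b)) p.1 = F p.2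
    have h1 := Finsupp.apply_linearCombination R ((LinearMap.range ε).subtype ∘ₗ f) z p.1
    rw [hz p hp] at h1
    exact h1.symm)
  have hz' : ∀ q ∈ Eq, Finsupp.linearCombination R z q.1 = F q.2 :=
    fun q hq => hz _ ⟨q, hq, rfl⟩
  let g : B →ₗ[R] P := { toFun := z, map_add' := by
                            intro m m'
                            have := hz' (Finsupp.single (m + m') 1 - Finsupp.single m 1 -
                              Finsupp.single m' 1, 0) (by
                              show Finsupp.linearCombination R id _ = i 0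
                              simp)
                            simp only [map_sub, Finsupp.linearCombination_single, one_smul]
                              at this
                            have h0 : F 0 = 0 := by simp [F]
                            rw [h0, sub_sub, sub_eq_zero] at this
                            exact this
                         , map_smul' := by
                            intro r m
                            have := hz' (Finsupp.single (r • m) 1 - Finsupp.single m r, 0) (by
                              show Finsupp.linearCombination R id _ = i 0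
                              simp)
                            simp only [map_sub, Finsupp.linearCombination_single, one_smul]
                              at this
                            have h0 : F 0 = 0 := by simp [F]
                            rw [h0, sub_eq_zero] at this
                            exact this }
  refine ⟨ε.rangeRestrict ∘ₗ g, fun a => ?_⟩
  apply Subtype.ext
  show ε (z (i a)) = (f a : P)
  have h1 := hz' (Finsupp.single (i a) 1, a) (by
    show Finsupp.linearCombination R id _ = i a
    simp)
  simp only [Finsupp.linearCombination_single, one_smul] at h1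
  rw [h1]
  obtain ⟨p, hp⟩ := (f a).2
  show ε (f a : P) = (f a : P)
  rw [← hp, hε]

end compact

end Pool.Agent.Lib_helper29.SD
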