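import Pool.Agent.Lib_helper29.SD5

set_option autoImplicit false

/-!
The double character dual as a compact module.
-/

namespace Pool.Agent.Lib_helper29.SD

universe u v w

/-- Characters with values in the circle separate points. -/
lemma exists_char {A : Type v} [AddCommGroup A] {a : A} (ha : a ≠ 0) :
    ∃ c : A →+ UnitAddCircle, c a ≠ 0 := by
  obtain ⟨c, hc⟩ := CharacterModule.exists_character_apply_ne_zero_of_ne_zero ha
  let ι : AddCircle (1 : ℚ) →+ UnitAddCircle :=
    QuotientAddGroup.map (AddSubgroup.zmultiples (1 : ℚ)) (AddSubgroup.zmultiples (1 : ℝ))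
      (Rat.castHom ℝ).toAddMonoidHom (by
        rintro x ⟨n, rfl⟩
        exact ⟨n, by simp⟩)
  have hι : ∀ x, ι x = 0 → x = 0 := by
    intro x
    induction x using QuotientAddGroup.induction_on with
    | H q =>
      intro h
      have h1 : ((q : ℝ) : UnitAddCircle) = 0 := h
      rw [QuotientAddGroup.eq_zero_iff] at h1 ⊢
      obtain ⟨n, hn⟩ := h1
      refine ⟨n, ?_⟩
      have hn' : (n : ℝ) = (q : ℝ) := by simpa using hn
      show n • (1 : ℚ) = q
      have : (n : ℚ) = q := by exact_mod_cast hn'
      simpa using this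
  exact ⟨ι.comp c, fun h => hc (hι _ h)⟩

/-- The double dual. -/
def DDs (M : Type u) [AddCommGroup M] : AddSubgroup ((M →+ UnitAddCircle) → UnitAddCircle) where
  carrier := {F | ∀ a b, F (a + b) = F a + F b}
  zero_mem' := fun a b => by simp
  add_mem' := by
    intro F G hF hG a b
    show F (a + b) + G (a + b) = F a + G a + (F b + G b)
    rw [hF, hG]; abel
  neg_mem' := by
    intro F hF a b
    show -F (a + b) = -F a + -F b
    rw [hF]; abel

/-- The double dual as a type. -/
abbrev DD (M : Type u) [AddCommGroup M] : Type u := DDs M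

section
variable (M : Type u) [AddCommGroup M]

instance : CompactSpace (DD M) := by
  have : IsClosed (DDs M : Set ((M →+ UnitAddCircle) → UnitAddCircle)) := by
    have h1 : (DDs M : Set ((M →+ UnitAddCircle) → UnitAddCircle)) =
        ⋂ a, ⋂ b, {F | F (a + b) = F a + F b} := by
      ext F
      simp only [Set.mem_iInter]
      exact Iff.rfl
    rw [h1]
    refine isClosed_iInter fun a => isClosed_iInter fun b => ?_
    exact isClosed_eq (continuous_apply _)
      (Continuous.add (f := fun F : (M →+ UnitAddCircle) → UnitAddCircle => F a)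
        (g := fun F => F b) (continuous_apply _) (continuous_apply _))
  exact isCompact_iff_compactSpace.mp this.isCompact

variable {M}

lemma DD.ext {F G : DD M} (h : ∀ χ, F.1 χ = G.1 χ) : F = G := Subtype.ext (funext h)

lemma DD.add_apply (F G : DD M) (χ : M →+ UnitAddCircle) : (F + G).1 χ = F.1 χ + G.1 χ := rfl

lemma DD.zero_apply (χ : M →+ UnitAddCircle) : (0 : DD M).1 χ = 0 := rfl

lemma DD.map_add (F : DD M) (a b : M →+ UnitAddCircle) : F.1 (a + b) = F.1 a + F.1 b := F.2 a b

/-- an element of the double dual as an additive map -/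
def DD.hom (F : DD M) : (M →+ UnitAddCircle) →+ UnitAddCircle :=
  AddMonoidHom.mk' F.1 F.2

variable {R : Type u} [Ring R] [Module R M]

/-- multiplication by `r` -/
def mulHom (M : Type u) [AddCommGroup M] [Module R M] (r : R) : M →+ M :=
  DistribSMul.toAddMonoidHom M r

instance : Module R (DD M) where
  smul r F := ⟨fun χ => F.1 (χ.comp (mulHom M r)), fun a b => by
    show F.1 ((a + b).comp (mulHom M r)) =
      F.1 (a.comp (mulHom M r)) + F.1 (b.comp (mulHom M r))
    rw [AddMonoidHom.add_comp]
    exact F.2 _ _⟩
  one_smul F := DD.ext fun χ => by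
    refine congrArg F.1 (AddMonoidHom.ext fun m => ?_)
    show χ ((1 : R) • m) = χ m
    rw [one_smul]
  mul_smul r s F := DD.ext fun χ => by
    refine congrArg F.1 (AddMonoidHom.ext fun m => ?_)
    show χ ((r * s) • m) = χ (r • s • m)
    rw [mul_smul]
  smul_zero r := rfl
  smul_add r F G := rfl
  add_smul r s F := DD.ext fun χ => by
    show F.1 (χ.comp (mulHom M (r + s))) =
      F.1 (χ.comp (mulHom M r)) + F.1 (χ.comp (mulHom M s))
    rw [← F.2]
    refine congrArg F.1 (AddMonoidHom.ext fun m => ?_)
    show χ ((r + s) • m) = χ (r • m) + χ (s • m)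
    rw [add_smul, map_add]
  zero_smul F := DD.ext fun χ => by
    show F.1 (χ.comp (mulHom M (0 : R))) = 0
    have h0 : χ.comp (mulHom M (0 : R)) = 0 := by
      ext m
      show χ ((0 : R) • m) = 0
      rw [zero_smul, map_zero]
    rw [h0]
    exact F.hom.map_zero

lemma DD.smul_apply (r : R) (F : DD M) (χ : M →+ UnitAddCircle) :
    (r • F).1 χ = F.1 (χ.comp (mulHom M r)) := rfl

instance : ContinuousConstSMul R (DD M) where
  continuous_const_smul r := by
    refine Continuous.subtype_mk (f := fun F : DD M =>
      fun χ : M →+ UnitAddCircle => F.1 (χ.comp (mulHom M r))) ?_ _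
    exact continuous_pi fun χ => (continuous_apply _).comp continuous_subtype_val

/-- the canonical map -/
def ev : M →ₗ[R] DD M where
  toFun m := ⟨fun χ => χ m, fun _ _ => rfl⟩
  map_add' m n := DD.ext fun χ => map_add χ m n
  map_smul' _ _ := DD.ext fun _ => rfl

lemma ev_apply (m : M) (χ : M →+ UnitAddCircle) : (ev (R := R) m).1 χ = χ m := rfl

lemma DD.sum_apply {ι : Type*} (s : Finset ι) (F : ι → DD M) (χ : M →+ UnitAddCircle) :
    (∑ k ∈ s, F k).1 χ = ∑ k ∈ s, (F k).1 χ := by
  classical
  induction s using Finset.induction_on with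
  | empty => rfl
  | insert a s ha ih => rw [Finset.sum_insert ha, Finset.sum_insert ha, DD.add_apply, ih]

/-- The canonical map to the double dual is pure. -/
theorem holds_of_ev {φ : PP R} {x : M} (h : Holds φ (ev (R := R) x)) : Holds φ x := by
  classical
  obtain ⟨Y, hY⟩ := h
  by_contra hcon
  -- the subgroup of solvable right hand sides
  let L : (ℕ → M) →+ (φ → M) :=
    { toFun := fun y q => Finsupp.linearCombination R y q.1.1
      map_zero' := by
        funext q
        show Finsupp.linearCombination R (0 : ℕ → M) q.1.1 = 0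
        rw [Finsupp.linearCombination_apply]
        simp
      map_add' := by
        intro y z
        funext q
        show Finsupp.linearCombination R (y + z) q.1.1 =
          Finsupp.linearCombination R y q.1.1 + Finsupp.linearCombination R z q.1.1
        simp only [Finsupp.linearCombination_apply, Finsupp.sum, Pi.add_apply, smul_add,
          Finset.sum_add_distrib] }
  let v : φ → M := fun q => q.1.2 • x
  have hv : v ∉ L.range := by
    rintro ⟨y, hy⟩
    exact hcon ⟨y, fun p hp => congrFun hy ⟨p, hp⟩⟩
  obtain ⟨c, hc⟩ := exists_char (A := (φ → M) ⧸ L.range) (a := QuotientAddGroup.mk v) (by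
    intro h0
    exact hv ((QuotientAddGroup.eq_zero_iff v).mp h0))
  let χ : (φ → M) →+ UnitAddCircle := c.comp (QuotientAddGroup.mk' L.range)
  have hχ0 : ∀ y, χ (L y) = 0 := by
    intro y
    show c (QuotientAddGroup.mk' L.range (L y)) = 0
    have h1 : QuotientAddGroup.mk' L.range (L y) = 0 :=
      (QuotientAddGroup.eq_zero_iff (L y)).mpr (AddMonoidHom.mem_range.mpr ⟨y, rfl⟩)
    rw [h1, map_zero]
  have hχv : χ v ≠ 0 := hc
  let χq : φ → (M →+ UnitAddCircle) := fun q => χ.comp (AddMonoidHom.single (fun _ => M) q)
  have hdec : ∀ m : φ → M, χ m = ∑ q, χq q (m q) := by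
    intro m
    conv_lhs => rw [← Finset.univ_sum_single m]
    rw [map_sum]
    rfl
  -- common support
  let s : Finset ℕ := φ.biUnion fun p => p.1.support
  have hlc : ∀ {N : Type u} [AddCommGroup N] [Module R N] (y : ℕ → N) (q : φ),
      Finsupp.linearCombination R y q.1.1 = ∑ l ∈ s, q.1.1 l • y l := by
    intro N _ _ y q
    rw [Finsupp.linearCombination_apply, Finsupp.sum]
    exact Finset.sum_subset (Finset.subset_biUnion_of_mem (fun p : (ℕ →₀ R) × R => p.1.support)
      q.2) (fun j _ hj => by rw [Finsupp.notMem_support_iff.mp hj, zero_smul])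
  have hcol : ∀ l, ∑ q : φ, (χq q).comp (mulHom M (q.1.1 l)) = 0 := by
    intro l
    ext m
    rw [AddMonoidHom.finsetSum_apply, AddMonoidHom.zero_apply]
    have h1 := hχ0 (Pi.single l m)
    rw [hdec] at h1
    rw [← h1]
    refine Finset.sum_congr rfl fun q _ => ?_
    show χq q (q.1.1 l • m) = χq q (L (Pi.single l m) q)
    congr 1
    show q.1.1 l • m = Finsupp.linearCombination R (Pi.single l m) q.1.1
    rw [Finsupp.linearCombination_apply, Finsupp.sum]
    by_cases hl : l ∈ q.1.1.support
    · rw [Finset.sum_eq_single l]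
      · rw [Pi.single_eq_same]
      · intro k _ hk
        rw [Pi.single_eq_of_ne hk, smul_zero]
      · intro h; exact absurd hl h
    · rw [Finset.sum_eq_zero, Finsupp.notMem_support_iff.mp hl, zero_smul]
      intro k hk
      have : k ≠ l := fun h => hl (h ▸ hk)
      rw [Pi.single_eq_of_ne this, smul_zero]
  apply hχv
  calc χ v = ∑ q, χq q (v q) := hdec v
    _ = ∑ q : φ, (Finsupp.linearCombination R Y q.1.1).1 (χq q) := by
        refine Finset.sum_congr rfl fun q _ => ?_
        rw [hY _ q.2]
        rfl
    _ = ∑ q : φ, ∑ l ∈ s, (Y l).1 ((χq q).comp (mulHom M (q.1.1 l))) := by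
        refine Finset.sum_congr rfl fun q _ => ?_
        rw [hlc Y q, DD.sum_apply]
        rfl
    _ = ∑ l ∈ s, ∑ q : φ, (Y l).1 ((χq q).comp (mulHom M (q.1.1 l))) := Finset.sum_comm
    _ = ∑ l ∈ s, (Y l).1 (∑ q : φ, (χq q).comp (mulHom M (q.1.1 l))) := by
        refine Finset.sum_congr rfl fun l _ => ?_
        exact (map_sum (Y l).hom _ _).symm
    _ = 0 := by
        refine Finset.sum_eq_zero fun l _ => ?_
        rw [hcol l]
        exact (Y l).hom.map_zero

end

section reduced
variable {R : Type u} [Ring R] {I : Type u} (F : Filter I) (M : I → Type u)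
  [∀ i, AddCommGroup (M i)] [∀ i, Module R (M i)]

/-- functions which vanish eventually -/
def NF : Submodule R (∀ i, M i) where
  carrier := {f | ∀ᶠ i in F, f i = 0}
  zero_mem' := Filter.Eventually.of_forall fun _ => rfl
  add_mem' := by
    intro f g hf hg
    filter_upwards [hf, hg] with i hi hj
    show f i + g i = 0
    rw [hi, hj, add_zero]
  smul_mem' := by
    intro r f hf
    filter_upwards [hf] with i hi
    show r • f i = 0
    rw [hi, smul_zero]

lemma lc_pi {J : Type v} (y : J → ∀ i, M i) (c : J →₀ R) (i : I) :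
    Finsupp.linearCombination R y c i = Finsupp.linearCombination R (fun l => y l i) c := by
  rw [Finsupp.linearCombination_apply, Finsupp.linearCombination_apply, Finsupp.sum,
    Finsupp.sum, Finset.sum_apply]
  rfl

/-- Conditions in reduced products. -/
theorem holds_reduced (φ : PP R) (x : ∀ i, M i) :
    Holds φ ((NF (R := R) F M).mkQ x) ↔ ∀ᶠ i in F, Holds φ (x i) := by
  classical
  constructor
  · rintro ⟨y, hy⟩
    choose Y hY using fun l => (NF (R := R) F M).mkQ_surjective (y l)
    have h1 : ∀ p ∈ φ, ∀ᶠ i in F,
        Finsupp.linearCombination R (fun l => Y l i) p.1 = p.2 • x i := by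
      intro p hp
      have h2 := hy p hp
      have h3 : (NF (R := R) F M).mkQ (Finsupp.linearCombination R Y p.1 - p.2 • x) = 0 := by
        rw [map_sub, map_smul, ← h2, Finsupp.apply_linearCombination]
        have : (⇑(NF (R := R) F M).mkQ ∘ Y) = y := funext hY
        rw [this, sub_self]
      have h4 : Finsupp.linearCombination R Y p.1 - p.2 • x ∈ NF (R := R) F M := by
        rwa [Submodule.mkQ_apply, Submodule.Quotient.mk_eq_zero] at h3
      filter_upwards [h4] with i hi
      have h5 : Finsupp.linearCombination R Y p.1 i - p.2 • x i = 0 := hi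
      rw [lc_pi] at h5
      exact sub_eq_zero.mp h5
    have h2 := (Filter.eventually_all_finset φ).mpr h1
    filter_upwards [h2] with i hi
    exact ⟨fun l => Y l i, hi⟩
  · intro h
    let y : ℕ → ∀ i, M i := fun l i => if hi : Holds φ (x i) then hi.choose l else 0
    refine ⟨fun l => (NF (R := R) F M).mkQ (y l), fun p hp => ?_⟩
    have h1 : Finsupp.linearCombination R y p.1 - p.2 • x ∈ NF (R := R) F M := by
      show ∀ᶠ i in F, Finsupp.linearCombination R y p.1 i - p.2 • x i = 0
      filter_upwards [h] with i hi
      rw [lc_pi, sub_eq_zero]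
      have : (fun l => y l i) = hi.choose := by
        funext l
        exact congrFun (dif_pos hi : (if hi : Holds φ (x i) then hi.choose else 0) = _) l ▸ by
          simp [y, hi]
      rw [this]
      exact hi.choose_spec p hp
    have h2 : (NF (R := R) F M).mkQ (Finsupp.linearCombination R y p.1 - p.2 • x) = 0 := by
      rwa [Submodule.mkQ_apply, Submodule.Quotient.mk_eq_zero]
    rw [map_sub, map_smul, sub_eq_zero, Finsupp.apply_linearCombination] at h2
    exact h2

end reduced

end Pool.Agent.Lib_helper29.SD
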