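import Pool.Agent.Lib_helper29.SD6

set_option autoImplicit false

/-!
Elimination of quantifiers over serial rings.
-/

namespace Pool.Agent.Lib_helper29.SD

universe u v w

section
variable {R : Type u} [Ring R] (S : SerialData R) {N : Type u} [AddCommGroup N] [Module R N]
variable {κ : Type} [Fintype κ] [DecidableEq κ] (σ : κ → Fin S.n) (i0 : Fin S.n)

/-- solution sets -/
def Sol (w g : κ → R) (L : List (κ → R)) (x : N) : Prop :=
  ∃ t : κ → N, (∀ k, S.e (σ k) • t k = t k) ∧ (∀ k, w k • t k = 0) ∧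
    (∀ u ∈ L, ∑ k, u k • t k = 0) ∧ x = ∑ k, g k • t k

/-- homogeneous equations -/
def HomR (u : κ → R) : Prop := ∃ l, ∀ k, S.e l * u k = u k ∧ u k * S.e (σ k) = u k

/-- homogeneous constraints -/
def HomW (w : κ → R) : Prop := ∀ k, (∃ l, S.e l * w k = w k) ∧ w k * S.e (σ k) = w k

/-- homogeneous coefficients -/
def HomG (g : κ → R) : Prop := ∀ k, S.e i0 * g k = g k ∧ g k * S.e (σ k) = g k

omit [Fintype κ] [DecidableEq κ] in
variable {S σ} in
lemma key_sum [Fintype κ] [DecidableEq κ] {Y : κ → R} {n : κ} (hY : Y n = 0) {t t' : κ → N}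
    (h1 : ∀ k, k ≠ n → t' k = t k) (h2 : t' n = t n + ∑ k, Y k • t k) (v : κ → R) :
    ∑ k, (v k - v n * Y k) • t' k = ∑ k, v k • t k := by
  have ht' : ∀ k, t' k = t k + (if k = n then ∑ k, Y k • t k else 0) := by
    intro k
    by_cases hk : k = n
    · subst hk; rw [if_pos rfl, h2]
    · rw [if_neg hk, h1 k hk, add_zero]
  have h3 : ∀ v : κ → R, ∑ k, v k • t' k = ∑ k, v k • t k + v n • ∑ k, Y k • t k := by
    intro v
    have : ∀ k, v k • t' k = v k • t k + (if k = n then v n • ∑ k, Y k • t k else 0) := by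
      intro k
      rw [ht' k, smul_add]
      congr 1
      by_cases hk : k = n
      · subst hk; rw [if_pos rfl, if_pos rfl]
      · rw [if_neg hk, if_neg hk, smul_zero]
    rw [Finset.sum_congr rfl fun k _ => this k, Finset.sum_add_distrib,
      Finset.sum_ite_eq' Finset.univ n, if_pos (Finset.mem_univ n)]
  have h4 := h3 v
  have h5 := h3 Y
  rw [hY, zero_smul, add_zero] at h5
  simp only [sub_smul, Finset.sum_sub_distrib, mul_smul]
  rw [← Finset.smul_sum, h4, h5]
  abel

/-- One step of the elimination. -/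
lemma elim_step (u w g : κ → R) (L : List (κ → R)) (n : κ) (Y : κ → R)
    (hYn : Y n = 0) (hY2 : ∀ k, k ≠ n → (¬ ∃ r, u k = r * w k) → u n * Y k = u k)
    (hY3 : ∀ k, (∃ r, u k = r * w k) → Y k = 0)
    (hY4 : ∀ k, S.e (σ n) * Y k = Y k) (hW : ∃ r, w n = r * u n) (x : N) :
    Sol S σ w g (u :: L) x ↔ Sol S σ (Function.update w n (u n)) (fun k => g k - g n * Y k)
      ((fun k => w n * Y k) :: L.map (fun v k => v k - v n * Y k)) x := by
  have hc : ∀ t : κ → N, (∀ k, w k • t k = 0) →
      ∑ k, u k • t k = u n • (t n + ∑ k, Y k • t k) := by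
    intro t ht
    have h1 : u n • ∑ k, Y k • t k = ∑ k, (if k = n then 0 else u k • t k) := by
      rw [Finset.smul_sum]
      refine Finset.sum_congr rfl fun k _ => ?_
      by_cases hk : k = n
      · subst hk; rw [if_pos rfl, hYn, zero_smul, smul_zero]
      · rw [if_neg hk]
        by_cases hb : ∃ r, u k = r * w k
        · rw [hY3 k hb, zero_smul, smul_zero]
          obtain ⟨r, hr⟩ := hb
          rw [hr, mul_smul, ht k, smul_zero]
        · rw [← mul_smul, hY2 k hk hb]
    have h2 : ∀ k, u k • t k = (if k = n then u n • t n else 0) +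
        (if k = n then 0 else u k • t k) := by
      intro k
      by_cases hk : k = n
      · subst hk; rw [if_pos rfl, if_pos rfl, add_zero]
      · rw [if_neg hk, if_neg hk, zero_add]
    rw [smul_add, h1, Finset.sum_congr rfl fun k _ => h2 k, Finset.sum_add_distrib,
      Finset.sum_ite_eq' Finset.univ n, if_pos (Finset.mem_univ n)]
  have heY : ∀ t : κ → N, S.e (σ n) • ∑ k, Y k • t k = ∑ k, Y k • t k := by
    intro t
    rw [Finset.smul_sum]
    refine Finset.sum_congr rfl fun k _ => ?_
    rw [← mul_smul, hY4]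
  obtain ⟨r, hr⟩ := hW
  constructor
  · rintro ⟨t, ht1, ht2, ht3, rfl⟩
    set t' : κ → N := Function.update t n (t n + ∑ k, Y k • t k) with ht'
    have h1 : ∀ k, k ≠ n → t' k = t k := fun k hk => Function.update_of_ne hk _ _
    have h2 : t' n = t n + ∑ k, Y k • t k := Function.update_self _ _ _
    have hun : u n • t' n = 0 := by
      rw [h2, ← hc t ht2]
      exact ht3 u List.mem_cons_self
    refine ⟨t', ?_, ?_, ?_, ?_⟩
    · intro k
      by_cases hk : k = n
      · subst hk
        rw [h2, smul_add, ht1, heY]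
      · rw [h1 k hk, ht1]
    · intro k
      by_cases hk : k = n
      · subst hk
        rw [Function.update_self]; exact hun
      · rw [Function.update_of_ne hk, h1 k hk, ht2]
    · intro v hv
      rcases List.mem_cons.mp hv with rfl | hv
      · have h3 : ∑ k, Y k • t' k = ∑ k, Y k • t k := by
          have := key_sum hYn h1 h2 Y
          simpa [hYn] using this
        calc ∑ k, (w n * Y k) • t' k = w n • ∑ k, Y k • t' k := by
              rw [Finset.smul_sum]
              exact Finset.sum_congr rfl fun k _ => by rw [mul_smul]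
          _ = w n • (t' n - t n) := by rw [h3, h2]; congr 1; abel
          _ = 0 := by rw [smul_sub, ht2, hr, mul_smul, hun, smul_zero, sub_zero]
      · obtain ⟨v', hv', rfl⟩ := List.mem_map.mp hv
        rw [key_sum hYn h1 h2 v']
        exact ht3 v' (List.mem_cons_of_mem _ hv')
    · exact (key_sum hYn h1 h2 g).symm
  · rintro ⟨t', ht1, ht2, ht3, hx⟩
    set t : κ → N := Function.update t' n (t' n - ∑ k, Y k • t' k) with ht
    have h1 : ∀ k, k ≠ n → t' k = t k := fun k hk => (Function.update_of_ne hk _ _).symm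
    have htn : t n = t' n - ∑ k, Y k • t' k := Function.update_self _ _ _
    have hYY : ∑ k, Y k • t k = ∑ k, Y k • t' k := by
      refine Finset.sum_congr rfl fun k _ => ?_
      by_cases hk : k = n
      · subst hk; rw [hYn, zero_smul, zero_smul]
      · rw [h1 k hk]
    have h2 : t' n = t n + ∑ k, Y k • t k := by rw [htn, hYY]; abel
    have hun : u n • t' n = 0 := by
      have := ht2 n
      rwa [Function.update_self] at this
    have hw : ∀ k, w k • t k = 0 := by
      intro k
      by_cases hk : k = n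
      · subst hk
        have h3 := ht3 _ List.mem_cons_self
        have h4 : ∑ l, (w k * Y l) • t' l = w k • ∑ l, Y l • t' l := by
          rw [Finset.smul_sum]
          exact Finset.sum_congr rfl fun l _ => by rw [mul_smul]
        rw [htn, smul_sub, ← h4, h3, hr, mul_smul, hun, smul_zero, sub_zero]
      · have := ht2 k
        rwa [Function.update_of_ne hk, h1 k hk] at this
    refine ⟨t, ?_, hw, ?_, ?_⟩
    · intro k
      by_cases hk : k = n
      · subst hk
        rw [htn, smul_sub, ht1, heY]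
      · rw [← h1 k hk, ht1]
    · intro v hv
      rcases List.mem_cons.mp hv with rfl | hv
      · rw [hc t hw, ← h2]; exact hun
      · rw [← key_sum hYn h1 h2 v]
        exact ht3 _ (List.mem_cons_of_mem _ (List.mem_map.mpr ⟨v, hv, rfl⟩))
    · rw [hx, key_sum hYn h1 h2 g]

open Classical in
lemma elim_one (p : ℕ) : ∀ (u w g : κ → R) (L : List (κ → R)), HomR S σ u → HomW S σ w →
    HomG S σ i0 g → (∀ v ∈ L, HomR S σ v) →
    (Finset.univ.filter fun k => ¬ ∃ r, u k = r * w k).card ≤ p →
    ∃ (w' g' : κ → R) (L' : List (κ → R)), L'.length = L.length ∧ HomW S σ w' ∧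
      HomG S σ i0 g' ∧ (∀ v ∈ L', HomR S σ v) ∧
      ∀ x : N, Sol S σ w g (u :: L) x ↔ Sol S σ w' g' L' x := by
  induction p with
  | zero =>
    intro u w g L hu hw hg hL hp
    have h0 : ∀ k, ∃ r, u k = r * w k := by
      intro k
      by_contra hk
      have : k ∈ (Finset.univ.filter fun k => ¬ ∃ r, u k = r * w k) :=
        Finset.mem_filter.mpr ⟨Finset.mem_univ k, hk⟩
      have := Finset.card_pos.mpr ⟨k, this⟩
      omega
    refine ⟨w, g, L, rfl, hw, hg, hL, fun x => ?_⟩
    constructor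
    · rintro ⟨t, h1, h2, h3, h4⟩
      exact ⟨t, h1, h2, fun v hv => h3 v (List.mem_cons_of_mem _ hv), h4⟩
    · rintro ⟨t, h1, h2, h3, h4⟩
      refine ⟨t, h1, h2, fun v hv => ?_, h4⟩
      rcases List.mem_cons.mp hv with rfl | hv
      · refine Finset.sum_eq_zero fun k _ => ?_
        obtain ⟨r, hr⟩ := h0 k
        rw [hr, mul_smul, h2 k, smul_zero]
      · exact h3 v hv
  | succ p ih =>
    intro u w g L hu hw hg hL hp
    by_cases hne : (Finset.univ.filter fun k => ¬ ∃ r, u k = r * w k).Nonempty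
    swap
    · refine ih u w g L hu hw hg hL ?_
      rw [Finset.not_nonempty_iff_eq_empty.mp hne]
      simp
    obtain ⟨l, hl⟩ := id hu
    obtain ⟨n, hn, hn'⟩ := exists_greatest (fun k m : κ => ∃ y, u k = u m * y)
      (fun k => ⟨1, (mul_one _).symm⟩)
      (by
        rintro a b c ⟨y, hy⟩ ⟨z, hz⟩
        exact ⟨z * y, by rw [hy, hz, mul_assoc]⟩)
      _ (fun a _ b _ => S.right l (u a) (u b) (hl a).1 (hl b).1) hne
    have hbn : ¬ ∃ r, u n = r * w n := (Finset.mem_filter.mp hn).2
    have hW : ∃ r, w n = r * u n := by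
      rcases S.left (σ n) (w n) (u n) (hw n).2 (hl n).2 with h | h
      · exact h
      · exact absurd h hbn
    have hex : ∀ k, ∃ y, (k ≠ n → (¬ ∃ r, u k = r * w k) → u n * y = u k) ∧
        (k = n → y = 0) ∧ ((∃ r, u k = r * w k) → y = 0) ∧ S.e (σ n) * y = y ∧
        y * S.e (σ k) = y := by
      intro k
      by_cases hk : k = n
      · exact ⟨0, fun h => absurd hk h, fun _ => rfl, fun _ => rfl, mul_zero _, zero_mul _⟩
      by_cases hb : ∃ r, u k = r * w k
      · exact ⟨0, fun _ h => absurd hb h, fun _ => rfl, fun _ => rfl, mul_zero _, zero_mul _⟩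
      · obtain ⟨y, hy⟩ := hn' k (Finset.mem_filter.mpr ⟨Finset.mem_univ k, hb⟩)
        refine ⟨S.e (σ n) * y * S.e (σ k), fun _ _ => ?_, fun h => absurd h hk,
          fun h => absurd h hb, ?_, ?_⟩
        · rw [← mul_assoc, ← mul_assoc, (hl n).2, ← hy, (hl k).2]
        · rw [← mul_assoc, ← mul_assoc, ee]
        · rw [mul_assoc, ee]
    choose Y hY2 hYn hY3 hY4 hY5 using hex
    have hstep := fun x : N => elim_step S σ u w g L n Y (hYn n rfl) hY2 hY3 hY4 hW x
    obtain ⟨w', g', L', h1, h2, h3, h4, h5⟩ := ih (fun k => w n * Y k)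
      (Function.update w n (u n)) (fun k => g k - g n * Y k)
      (L.map (fun v k => v k - v n * Y k)) (by
        obtain ⟨l', hl'⟩ := (hw n).1
        exact ⟨l', fun k => ⟨by rw [← mul_assoc, hl'], by rw [mul_assoc, hY5]⟩⟩) (by
        intro k
        by_cases hk : k = n
        · subst hk
          rw [Function.update_self]
          exact ⟨⟨l, (hl k).1⟩, (hl k).2⟩
        · rw [Function.update_of_ne hk]
          exact hw k) (by
        intro k
        constructor
        · show S.e i0 * (g k - g n * Y k) = _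
          rw [mul_sub, (hg k).1, ← mul_assoc, (hg n).1]
        · show (g k - g n * Y k) * _ = _
          rw [sub_mul, (hg k).2, mul_assoc, hY5]) (by
        intro v hv
        obtain ⟨v', hv', rfl⟩ := List.mem_map.mp hv
        obtain ⟨l', hl'⟩ := hL v' hv'
        refine ⟨l', fun k => ⟨?_, ?_⟩⟩
        · show S.e l' * (v' k - v' n * Y k) = _
          rw [mul_sub, (hl' k).1, ← mul_assoc, (hl' n).1]
        · show (v' k - v' n * Y k) * _ = _
          rw [sub_mul, (hl' k).2, mul_assoc, hY5]) (by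
        refine le_trans (Finset.card_le_card (t := (Finset.univ.filter fun k =>
          ¬ ∃ r, u k = r * w k).erase n) ?_) ?_
        · intro k hk
          have hk' := (Finset.mem_filter.mp hk).2
          refine Finset.mem_erase.mpr ⟨?_, Finset.mem_filter.mpr ⟨Finset.mem_univ k, ?_⟩⟩
          · rintro rfl
            exact hk' ⟨0, by rw [hYn k rfl, mul_zero, zero_mul]⟩
          · intro hb
            exact hk' ⟨0, by rw [hY3 k hb, mul_zero, zero_mul]⟩
        · rw [Finset.card_erase_of_mem hn]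
          omega)
    exact ⟨w', g', L', by rw [h1, List.length_map], h2, h3, h4,
      fun x => (hstep x).trans (h5 x)⟩

lemma elim_all (m : ℕ) : ∀ (w g : κ → R) (L : List (κ → R)), L.length = m → HomW S σ w →
    HomG S σ i0 g → (∀ v ∈ L, HomR S σ v) →
    ∃ (w' g' : κ → R), HomW S σ w' ∧ HomG S σ i0 g' ∧
      ∀ x : N, Sol S σ w g L x ↔ Sol S σ w' g' [] x := by
  classical
  induction m with
  | zero =>
    intro w g L hm hw hg hL
    rw [List.length_eq_zero_iff] at hm
    subst hm
    exact ⟨w, g, hw, hg, fun x => Iff.rfl⟩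
  | succ m ih =>
    intro w g L hm hw hg hL
    cases L with
    | nil => simp at hm
    | cons u L =>
      obtain ⟨w', g', L', h1, h2, h3, h4, h5⟩ := elim_one (N := N) S σ i0 _ u w g L
        (hL u List.mem_cons_self) hw hg (fun v hv => hL v (List.mem_cons_of_mem _ hv)) le_rfl
      obtain ⟨w'', g'', h6, h7, h8⟩ := ih w' g' L' (by
        rw [h1]; simpa using hm) h2 h3 h4
      exact ⟨w'', g'', h6, h7, fun x => (h5 x).trans (h8 x)⟩

end

section
variable {R : Type u} [Ring R] (S : SerialData R) {N : Type u} [AddCommGroup N] [Module R N]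
variable (i0 : Fin S.n)

/-- Structure of conditions over serial rings. -/
theorem pp_structure (φ : PP R) : ∃ (κ : Type) (_ : Fintype κ) (G s : κ → R),
    (∀ k, S.e i0 * G k = G k ∧ s k * S.e i0 = s k) ∧
    ∀ x : N, (S.e i0 • x = x ∧ Holds φ x) ↔
      ∃ z : κ → N, x = ∑ k, z k ∧ ∀ k, (∃ t : N, z k = G k • t) ∧ s k • z k = 0 := by
  classical
  let s : Finset ℕ := φ.biUnion fun p => p.1.support
  let κ : Type := Option (s × Fin S.n)
  let σ : κ → Fin S.n := fun k => k.elim i0 Prod.snd
  let U : ((ℕ →₀ R) × R) × Fin S.n → κ → R := fun q k =>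
    k.elim (-(S.e q.2 * q.1.2 * S.e i0)) fun ji => S.e q.2 * q.1.1 (ji.1 : ℕ) * S.e ji.2
  let L0 : List (κ → R) := ((φ ×ˢ (Finset.univ : Finset (Fin S.n))).toList).map U
  let w0 : κ → R := fun _ => 0
  let g0 : κ → R := fun k => k.elim (S.e i0) fun _ => 0
  have hlc : ∀ (y : ℕ → N) (q : (ℕ →₀ R) × R), q ∈ φ →
      Finsupp.linearCombination R y q.1 = ∑ l : s, q.1 (l : ℕ) • y l := by
    intro y q hq
    rw [Finsupp.linearCombination_apply, Finsupp.sum]
    rw [Finset.sum_coe_sort s (fun l : ℕ => q.1 l • y l)]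
    exact Finset.sum_subset (Finset.subset_biUnion_of_mem (fun p : (ℕ →₀ R) × R => p.1.support)
      hq) (fun j _ hj => by rw [Finsupp.notMem_support_iff.mp hj, zero_smul])
  have hone : ∀ x : N, ∑ l, S.e l • x = x := by
    intro x
    rw [← Finset.sum_smul, S.coi.complete, one_smul]
  have h0 : ∀ x : N, (S.e i0 • x = x ∧ Holds φ x) ↔ Sol S σ w0 g0 L0 x := by
    intro x
    constructor
    · rintro ⟨hx, y, hy⟩
      refine ⟨fun k => k.elim x fun ji => S.e ji.2 • y ji.1, ?_, ?_, ?_, ?_⟩
      · rintro (_ | ⟨j, i⟩)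
        · exact hx
        · show S.e i • S.e i • y j = S.e i • y j
          rw [← mul_smul, ee]
      · intro k
        exact zero_smul _ _
      · intro v hv
        obtain ⟨q, hq, rfl⟩ := List.mem_map.mp hv
        have hq' : q.1 ∈ φ := by
          have := Finset.mem_toList.mp hq
          exact (Finset.mem_product.mp this).1
        rw [Fintype.sum_option, Fintype.sum_prod_type]
        show (-(S.e q.2 * q.1.2 * S.e i0)) • x +
          ∑ j : s, ∑ i, (S.e q.2 * q.1.1 (j : ℕ) * S.e i) • S.e i • y j = 0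
        have h1 : ∀ j : s, ∑ i, (S.e q.2 * q.1.1 (j : ℕ) * S.e i) • S.e i • y (j : ℕ) =
            S.e q.2 • q.1.1 (j : ℕ) • y j := by
          intro j
          have : ∀ i, (S.e q.2 * q.1.1 (j : ℕ) * S.e i) • S.e i • y (j : ℕ) =
              (S.e q.2 * q.1.1 (j : ℕ)) • (S.e i • y (j : ℕ)) := by
            intro i
            rw [mul_smul _ (S.e i), ← mul_smul (S.e i) (S.e i), ee]
          rw [Finset.sum_congr rfl fun i _ => this i, ← Finset.smul_sum, hone, mul_smul]
        rw [Finset.sum_congr rfl fun j _ => h1 j, ← Finset.smul_sum, ← hlc y q.1 hq',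
          hy q.1 hq', neg_smul, mul_smul, mul_smul, hx, neg_add_cancel]
      · rw [Fintype.sum_option]
        show x = S.e i0 • x + ∑ ji : s × Fin S.n, (0 : R) • S.e ji.2 • y ji.1
        simp [hx]
    · rintro ⟨t, ht1, _, ht3, hx⟩
      have hx' : x = t none := by
        rw [hx, Fintype.sum_option]
        show S.e i0 • t none + ∑ ji : s × Fin S.n, (0 : R) • t (some ji) = t none
        have := ht1 none
        simp only [zero_smul, Finset.sum_const_zero, add_zero]
        exact this
      have hxx : S.e i0 • x = x := by rw [hx']; exact ht1 none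
      refine ⟨hxx, fun j => if h : j ∈ s then ∑ i, t (some (⟨j, h⟩, i)) else 0, ?_⟩
      intro q hq
      rw [hlc _ q hq]
      have h1 : ∀ l : s, (if h : (l : ℕ) ∈ s then ∑ i, t (some (⟨l, h⟩, i)) else 0) =
          ∑ i, t (some (l, i)) := by
        intro l
        rw [dif_pos l.2]
      rw [Finset.sum_congr rfl fun l _ => by rw [h1 l]]
      rw [← sub_eq_zero]
      set D := ∑ l : s, q.1 (l : ℕ) • ∑ i, t (some (l, i)) - q.2 • x with hD
      rw [← hone D]
      refine Finset.sum_eq_zero fun l _ => ?_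
      have h2 := ht3 (U (q, l)) (List.mem_map.mpr ⟨(q, l), by
        rw [Finset.mem_toList]
        exact Finset.mem_product.mpr ⟨hq, Finset.mem_univ _⟩, rfl⟩)
      rw [Fintype.sum_option, Fintype.sum_prod_type] at h2
      have h3 : (-(S.e l * q.2 * S.e i0)) • t none +
          ∑ j : s, ∑ i, (S.e l * q.1 (j : ℕ) * S.e i) • t (some (j, i)) = 0 := h2
      have h4 : ∀ j : s, ∑ i, (S.e l * q.1 (j : ℕ) * S.e i) • t (some (j, i)) =
          S.e l • q.1 (j : ℕ) • ∑ i, t (some (j, i)) := by
        intro j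
        rw [← mul_smul, Finset.smul_sum]
        refine Finset.sum_congr rfl fun i _ => ?_
        rw [mul_smul _ (S.e i)]
        congr 1
        exact ht1 (some (j, i))
      rw [Finset.sum_congr rfl fun j _ => h4 j, ← Finset.smul_sum, ← hx', neg_smul, mul_smul,
        mul_smul, hxx] at h3
      rw [hD, smul_sub]
      rw [neg_add_eq_sub] at h3
      exact h3
  obtain ⟨w, g, hw, hg, hwg⟩ := elim_all (N := N) S σ i0 _ w0 g0 L0 rfl
    (fun k => ⟨⟨i0, mul_zero _⟩, zero_mul _⟩)
    (by
      rintro (_ | ji)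
      · exact ⟨ee S i0, ee S i0⟩
      · exact ⟨mul_zero _, zero_mul _⟩)
    (by
      intro v hv
      obtain ⟨q, _, rfl⟩ := List.mem_map.mp hv
      refine ⟨q.2, ?_⟩
      rintro (_ | ⟨j, i⟩)
      · constructor
        · show S.e q.2 * -(S.e q.2 * q.1.2 * S.e i0) = -(S.e q.2 * q.1.2 * S.e i0)
          rw [mul_neg, ← mul_assoc, ← mul_assoc, ee]
        · show -(S.e q.2 * q.1.2 * S.e i0) * S.e i0 = -(S.e q.2 * q.1.2 * S.e i0)
          rw [neg_mul, mul_assoc, ee]
      · constructor
        · show S.e q.2 * (S.e q.2 * q.1.1 (j : ℕ) * S.e i) = S.e q.2 * q.1.1 (j : ℕ) * S.e i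
          rw [← mul_assoc, ← mul_assoc, ee]
        · show (S.e q.2 * q.1.1 (j : ℕ) * S.e i) * S.e i = S.e q.2 * q.1.1 (j : ℕ) * S.e i
          rw [mul_assoc, ee])
  have hex : ∀ k, ∃ G s : R, S.e i0 * G = G ∧ s * S.e i0 = s ∧ ∀ z : N,
      (∃ t, S.e (σ k) • t = t ∧ w k • t = 0 ∧ z = g k • t) ↔
        ((∃ t : N, z = G • t) ∧ s • z = 0) := by
    intro k
    rcases S.left (σ k) (w k) (g k) (hw k).2 (hg k).2 with ⟨r, hr⟩ | ⟨r, hr⟩
    · refine ⟨g k, r * S.e i0, (hg k).1, by rw [mul_assoc, ee], fun z => ?_⟩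
      constructor
      · rintro ⟨t, _, ht2, rfl⟩
        refine ⟨⟨t, rfl⟩, ?_⟩
        rw [← mul_smul, mul_assoc, (hg k).1, ← hr, ht2]
      · rintro ⟨⟨t, rfl⟩, hz⟩
        have h1 : g k • S.e (σ k) • t = g k • t := by rw [← mul_smul, (hg k).2]
        refine ⟨S.e (σ k) • t, by rw [← mul_smul, ee], ?_, h1.symm⟩
        rw [← mul_smul, mul_assoc, (hg k).1, ← hr] at hz
        rw [← mul_smul, (hw k).2, hz]
    · refine ⟨0, 0, mul_zero _, zero_mul _, fun z => ?_⟩
      constructor
      · rintro ⟨t, _, ht2, rfl⟩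
        rw [hr, mul_smul, ht2, smul_zero]
        exact ⟨⟨0, (zero_smul _ _).symm⟩, zero_smul _ _⟩
      · rintro ⟨⟨t, ht⟩, _⟩
        refine ⟨0, smul_zero _, smul_zero _, ?_⟩
        rw [ht, zero_smul, smul_zero]
  choose G s' hG hs' hGs using hex
  refine ⟨κ, inferInstance, G, s', fun k => ⟨hG k, hs' k⟩, fun x => ?_⟩
  rw [h0, hwg]
  constructor
  · rintro ⟨t, ht1, ht2, _, hx⟩
    exact ⟨fun k => g k • t k, hx, fun k => (hGs k _).mp ⟨t k, ht1 k, ht2 k, rfl⟩⟩
  · rintro ⟨z, hx, hz⟩
    choose t ht1 ht2 ht3 using fun k => (hGs k _).mpr (hz k)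
    refine ⟨t, ht1, ht2, fun v hv => absurd hv List.not_mem_nil, ?_⟩
    rw [hx]
    exact Finset.sum_congr rfl fun k _ => ht3 k

/-- Distributivity. -/
theorem distrib (φ : PP R) {j : Fin S.n} {a d : R} (ha : a ∈ MM S i0 i0) (hd : d ∈ MM S j i0)
    {x : N} (hx : S.e i0 • x = x) (hφ : Holds φ x) (hTH : ∃ y : N, (d * a) • y = d • x) :
    ∃ b : N, Holds φ b ∧ (∃ y : N, b = a • y) ∧ d • (x - b) = 0 := by
  classical
  obtain ⟨κ, _, G, s, hGs, hst⟩ := pp_structure (N := N) S i0 φ
  obtain ⟨z, hxz, hz⟩ := (hst x).mp ⟨hx, hφ⟩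
  obtain ⟨y, hy⟩ := hTH
  by_cases h3 : ∃ k, (¬ ∃ r, G k = a * r) ∧ (¬ ∃ r, d = r * s k)
  · -- take `b = a y`
    have hcard : (Finset.univ.filter fun k => (¬ ∃ r, G k = a * r) ∧
        (¬ ∃ r, d = r * s k)).Nonempty := by
      obtain ⟨k, hk⟩ := h3
      exact ⟨k, Finset.mem_filter.mpr ⟨Finset.mem_univ k, hk⟩⟩
    obtain ⟨m, hm, hm'⟩ := exists_greatest (fun k l : κ => ∃ r, s l = r * s k)
      (fun k => ⟨1, (one_mul _).symm⟩)
      (by
        rintro a b c ⟨r, hr⟩ ⟨q, hq⟩
        exact ⟨q * r, by rw [hq, hr, mul_assoc]⟩)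
      _ (fun a _ b _ => (S.left i0 (s b) (s a) (hGs b).2 (hGs a).2)) hcard
    obtain ⟨hm1, hm2⟩ := (Finset.mem_filter.mp hm).2
    obtain ⟨r1, hr1⟩ : ∃ r, a = G m * r := by
      rcases S.right i0 a (G m) ha.1 (hGs m).1 with h | h
      · exact h
      · exact absurd h hm1
    obtain ⟨r2, hr2⟩ : ∃ r, s m = r * d := by
      rcases S.left i0 (s m) d (hGs m).2 hd.2 with h | h
      · exact h
      · exact absurd h hm2
    -- the three parts
    set X1 := ∑ k ∈ Finset.univ.filter (fun k => ∃ r, G k = a * r), z k with hX1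
    have hX1a : ∃ y1 : N, X1 = a • y1 := by
      have : ∀ k ∈ Finset.univ.filter (fun k => ∃ r, G k = a * r), ∃ y1 : N, z k = a • y1 := by
        intro k hk
        obtain ⟨r, hr⟩ := (Finset.mem_filter.mp hk).2
        obtain ⟨t, ht⟩ := (hz k).1
        exact ⟨r • t, by rw [ht, hr, mul_smul]⟩
      choose! y1 hy1 using this
      exact ⟨∑ k ∈ Finset.univ.filter (fun k => ∃ r, G k = a * r), y1 k, by
        rw [Finset.smul_sum]; exact Finset.sum_congr rfl hy1⟩
    have hsx : s m • (x - X1) = 0 := by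
      have h1 : x - X1 = ∑ k ∈ Finset.univ.filter (fun k => ¬ ∃ r, G k = a * r), z k := by
        rw [hxz, hX1, ← Finset.sum_filter_add_sum_filter_not Finset.univ
          (fun k => ∃ r, G k = a * r) z]
        abel
      rw [h1, Finset.smul_sum]
      refine Finset.sum_eq_zero fun k hk => ?_
      have hk1 := (Finset.mem_filter.mp hk).2
      by_cases hk2 : ∃ r, d = r * s k
      · obtain ⟨r, hr⟩ := hk2
        rw [hr2, hr, mul_smul, mul_smul, (hz k).2, smul_zero, smul_zero]
      · obtain ⟨r, hr⟩ := hm' k (Finset.mem_filter.mpr ⟨Finset.mem_univ k, hk1, hk2⟩)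
        rw [hr, mul_smul, (hz k).2, smul_zero]
    have hsy : s m • (x - a • y) = 0 := by
      rw [hr2, mul_smul, smul_sub, ← mul_smul d a, hy, sub_self, smul_zero]
    obtain ⟨y1, hy1⟩ := hX1a
    refine ⟨a • y, ?_, ⟨y, rfl⟩, by rw [smul_sub, ← mul_smul, hy, sub_self]⟩
    refine ((hst (a • y)).mpr ⟨fun k => (if (∃ r, G k = a * r) then z k else 0) +
      (if k = m then a • y - X1 else 0), ?_, ?_⟩).2
    · rw [Finset.sum_add_distrib, ← Finset.sum_filter, ← hX1, Finset.sum_ite_eq'
        Finset.univ m, if_pos (Finset.mem_univ m)]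
      abel
    · intro k
      beta_reduce
      by_cases hk : k = m
      · subst hk
        rw [if_neg hm1, if_pos rfl, zero_add]
        refine ⟨⟨r1 • (y - y1), ?_⟩, ?_⟩
        · rw [← mul_smul, ← hr1, smul_sub, hy1]
        · have : a • y - X1 = (x - X1) - (x - a • y) := by abel
          rw [this, smul_sub, hsx, hsy, sub_zero]
      · rw [if_neg hk, add_zero]
        by_cases hk1 : ∃ r, G k = a * r
        · rw [if_pos hk1]; exact hz k
        · rw [if_neg hk1]
          exact ⟨⟨0, (smul_zero _).symm⟩, smul_zero _⟩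
  · push Not at h3
    refine ⟨∑ k, (if (∃ r, G k = a * r) then z k else 0), ?_, ?_, ?_⟩
    · refine ((hst _).mpr ⟨fun k => (if (∃ r, G k = a * r) then z k else 0), rfl, ?_⟩).2
      intro k
      beta_reduce
      by_cases hk1 : ∃ r, G k = a * r
      · rw [if_pos hk1]; exact hz k
      · rw [if_neg hk1]
        exact ⟨⟨0, (smul_zero _).symm⟩, smul_zero _⟩
    · have : ∀ k, ∃ y1 : N, (if (∃ r, G k = a * r) then z k else 0) = a • y1 := by
        intro k
        by_cases hk1 : ∃ r, G k = a * r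
        · rw [if_pos hk1]
          obtain ⟨r, hr⟩ := hk1
          obtain ⟨t, ht⟩ := (hz k).1
          exact ⟨r • t, by rw [ht, hr, mul_smul]⟩
        · rw [if_neg hk1]
          exact ⟨0, (smul_zero _).symm⟩
      choose y1 hy1 using this
      exact ⟨∑ k, y1 k, by rw [Finset.smul_sum]; exact Finset.sum_congr rfl fun k _ => hy1 k⟩
    · have h1 : x - ∑ k, (if (∃ r, G k = a * r) then z k else 0) =
          ∑ k, (if (∃ r, G k = a * r) then 0 else z k) := by
        rw [hxz, ← Finset.sum_sub_distrib]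
        refine Finset.sum_congr rfl fun k _ => ?_
        by_cases hk1 : ∃ r, G k = a * r
        · rw [if_pos hk1, if_pos hk1, sub_self]
        · rw [if_neg hk1, if_neg hk1, sub_zero]
      rw [h1, Finset.smul_sum]
      refine Finset.sum_eq_zero fun k _ => ?_
      by_cases hk1 : ∃ r, G k = a * r
      · rw [if_pos hk1, smul_zero]
      · rw [if_neg hk1]
        obtain ⟨r, hr⟩ := h3 k (fun r hr => hk1 ⟨r, hr⟩)
        rw [hr, mul_smul, (hz k).2, smul_zero]

end

end Pool.Agent.Lib_helper29.SD
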