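import Pool.Agent.Lib_helper29.SD7

set_option autoImplicit false

/-!
Maximal filters of conditions and their realisations.
-/

namespace Pool.Agent.Lib_helper29.SD

universe u v w

variable {R : Type u} [Ring R]

/-- semantic implication -/
def Le (φ ψ : PP R) : Prop :=
  ∀ (M : Type u) [AddCommGroup M] [Module R M] (x : M), Holds φ x → Holds ψ x

/-- conjunction -/
noncomputable def conj (φ ψ : PP R) : PP R := (exists_conj φ ψ).choose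

lemma holds_conj {φ ψ : PP R} {M : Type u} [AddCommGroup M] [Module R M] {x : M} :
    Holds (conj φ ψ) x ↔ Holds φ x ∧ Holds ψ x := (exists_conj φ ψ).choose_spec M x

/-- filters of conditions -/
structure IsPPFilter (p : Set (PP R)) : Prop where
  nonempty : p.Nonempty
  up : ∀ φ ∈ p, ∀ ψ, Le φ ψ → ψ ∈ p
  conj_mem : ∀ φ ∈ p, ∀ ψ ∈ p, conj φ ψ ∈ p

/-- A filter avoiding a set of conditions extends to a maximal one. -/
theorem exists_maximal_filter (p0 Θ : Set (PP R)) (h0 : IsPPFilter p0) (hd : ∀ θ ∈ Θ, θ ∉ p0) :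
    ∃ p : Set (PP R), p0 ⊆ p ∧ IsPPFilter p ∧ (∀ θ ∈ Θ, θ ∉ p) ∧
      ∀ ψ, ψ ∉ p → ∃ φ ∈ p, ∃ θ ∈ Θ, Le (conj φ ψ) θ := by
  classical
  let 𝒬 : Set (Set (PP R)) := {q | IsPPFilter q ∧ ∀ θ ∈ Θ, θ ∉ q}
  obtain ⟨p, hp0, hp⟩ := zorn_subset_nonempty 𝒬 (by
    intro c hc hch hne
    refine ⟨⋃₀ c, ⟨⟨?_, ?_, ?_⟩, ?_⟩, fun s hs => Set.subset_sUnion_of_mem hs⟩
    · obtain ⟨q, hq⟩ := hne
      obtain ⟨φ, hφ⟩ := (hc hq).1.nonempty
      exact ⟨φ, q, hq, hφ⟩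
    · rintro φ ⟨q, hq, hφ⟩ ψ hψ
      exact ⟨q, hq, (hc hq).1.up φ hφ ψ hψ⟩
    · rintro φ ⟨q, hq, hφ⟩ ψ ⟨q', hq', hψ⟩
      rcases hch.total hq hq' with h | h
      · exact ⟨q', hq', (hc hq').1.conj_mem φ (h hφ) ψ hψ⟩
      · exact ⟨q, hq, (hc hq).1.conj_mem φ hφ ψ (h hψ)⟩
    · rintro θ hθ ⟨q, hq, hθq⟩
      exact (hc hq).2 θ hθ hθq) p0 ⟨h0, hd⟩
  refine ⟨p, hp0, hp.prop.1, hp.prop.2, fun ψ hψ => ?_⟩
  by_contra hcon
  push Not at hcon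
  -- the filter generated by `p` and `ψ`
  let q : Set (PP R) := {χ | ∃ φ ∈ p, Le (conj φ ψ) χ}
  have hpq : p ⊆ q := fun φ hφ => ⟨φ, hφ, fun M _ _ x hx => (holds_conj.mp hx).1⟩
  have hq : q ∈ 𝒬 := by
    refine ⟨⟨?_, ?_, ?_⟩, ?_⟩
    · exact hp.prop.1.nonempty.mono hpq
    · rintro χ ⟨φ, hφ, h⟩ χ' h'
      exact ⟨φ, hφ, fun M _ _ x hx => h' M x (h M x hx)⟩
    · rintro χ ⟨φ, hφ, h⟩ χ' ⟨φ', hφ', h'⟩
      refine ⟨conj φ φ', hp.prop.1.conj_mem φ hφ φ' hφ', fun M _ _ x hx => ?_⟩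
      obtain ⟨h1, h2⟩ := holds_conj.mp hx
      obtain ⟨h3, h4⟩ := holds_conj.mp h1
      exact holds_conj.mpr ⟨h M x (holds_conj.mpr ⟨h3, h2⟩), h' M x (holds_conj.mpr ⟨h4, h2⟩)⟩
    · rintro θ hθ ⟨φ, hφ, h⟩
      exact hcon φ hφ θ hθ h
  have hψq : ψ ∈ q := by
    obtain ⟨φ, hφ⟩ := hp.prop.1.nonempty
    exact ⟨φ, hφ, fun M _ _ x hx => (holds_conj.mp hx).2⟩
  exact hψ (hp.le_of_ge hq hpq hψq)

/-- Every filter of conditions is the type of an element of a compact module. -/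
theorem realise (p : Set (PP R)) (hp : IsPPFilter p) :
    ∃ (M : Type u) (_ : AddCommGroup M) (_ : Module R M) (x : DD M),
      ∀ φ : PP R, Holds φ x ↔ φ ∈ p := by
  classical
  let I : Type u := {q : PP R × PP R // q.1 ∈ p ∧ q.2 ∉ p}
  have hI : ∀ i : I, ∃ (M : Type u) (_ : AddCommGroup M) (_ : Module R M) (x : M),
      Holds i.1.1 x ∧ ¬ Holds i.1.2 x := by
    intro i
    by_contra hcon
    push Not at hcon
    exact i.2.2 (hp.up _ i.2.1 _ fun M h1 h2 x hx => hcon M h1 h2 x hx)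
  choose M iA iM x hx1 hx2 using hI
  let F : Filter I :=
    { sets := {X | ∃ φ0 ∈ p, ∀ i : I, Le i.1.1 φ0 → i ∈ X}
      univ_sets := by
        obtain ⟨φ, hφ⟩ := hp.nonempty
        exact ⟨φ, hφ, fun _ _ => Set.mem_univ _⟩
      sets_of_superset := by
        rintro X Y ⟨φ0, hφ0, h⟩ hXY
        exact ⟨φ0, hφ0, fun i hi => hXY (h i hi)⟩
      inter_sets := by
        rintro X Y ⟨φ0, hφ0, h⟩ ⟨φ1, hφ1, h'⟩
        refine ⟨conj φ0 φ1, hp.conj_mem _ hφ0 _ hφ1, fun i hi => ⟨h i ?_, h' i ?_⟩⟩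
        · exact fun M _ _ x hx => (holds_conj.mp (hi M x hx)).1
        · exact fun M _ _ x hx => (holds_conj.mp (hi M x hx)).2 }
  refine ⟨_, inferInstance, inferInstance, ev (R := R) ((NF (R := R) F M).mkQ x), fun φ => ?_⟩
  have h1 : Holds φ (ev (R := R) ((NF (R := R) F M).mkQ x)) ↔
      Holds φ ((NF (R := R) F M).mkQ x) := ⟨holds_of_ev, Holds.map _⟩
  rw [h1, holds_reduced]
  constructor
  · rintro ⟨φ0, hφ0, h⟩
    by_contra hφ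
    exact hx2 ⟨(φ0, φ), hφ0, hφ⟩ (h ⟨(φ0, φ), hφ0, hφ⟩ (fun M _ _ x hx => hx))
  · intro hφ
    refine ⟨φ, hφ, fun i hi => ?_⟩
    exact hi _ _ (hx1 i)

end Pool.Agent.Lib_helper29.SD
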