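import Pool.Agent.Lib_helper29.SD8

set_option autoImplicit false

/-!
Hulls in compact modules and the splitting of their direct summands.
-/

namespace Pool.Agent.Lib_helper29.SD

universe u v w

/-- Ellis: a nonempty closed set of self-maps of a compact space closed under composition
contains an idempotent. -/
theorem ellis {P : Type u} [TopologicalSpace P] [CompactSpace P] [T2Space P] (s : Set (P → P))
    (hne : s.Nonempty) (hcl : IsClosed s) (hmul : ∀ f ∈ s, ∀ g ∈ s, f ∘ g ∈ s) :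
    ∃ m ∈ s, m ∘ m = m := by
  let _ : Semigroup (P → P) := { mul := fun f g => f ∘ g, mul_assoc := fun _ _ _ => rfl }
  exact exists_idempotent_in_compact_subsemigroup (M := P → P)
    (fun r => (continuous_pi fun z => continuous_apply (r z) :
      Continuous fun f : P → P => f ∘ r)) s hne hcl.isCompact hmul

/-- A closed semigroup of self-maps contains an idempotent `ε` such that every `g` with
`g ∘ ε = g` can be brought back to `ε`. -/
theorem hull {P : Type u} [TopologicalSpace P] [CompactSpace P] [T2Space P] (s : Set (P → P))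
    (hne : s.Nonempty) (hcl : IsClosed s) (hmul : ∀ f ∈ s, ∀ g ∈ s, f ∘ g ∈ s) :
    ∃ ε ∈ s, ε ∘ ε = ε ∧ ∀ g ∈ s, g ∘ ε = g → ∃ h ∈ s, h ∘ g = ε := by
  classical
  let 𝓛 : Set (Set (P → P)) :=
    {L | IsClosed L ∧ L.Nonempty ∧ L ⊆ s ∧ ∀ f ∈ s, ∀ g ∈ L, f ∘ g ∈ L}
  obtain ⟨L, hL⟩ : ∃ L, Minimal (· ∈ 𝓛) L := by
    refine zorn_superset _ fun c hcs hc => ?_
    rcases c.eq_empty_or_nonempty with rfl | hcn
    · exact ⟨s, ⟨hcl, hne, subset_rfl, hmul⟩, fun t ht => absurd ht (Set.notMem_empty t)⟩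
    · refine ⟨⋂₀ c, ⟨isClosed_sInter fun t ht => (hcs ht).1, ?_, ?_, ?_⟩,
        fun t ht => Set.sInter_subset_of_mem ht⟩
      · have := hcn.coe_sort
        exact IsCompact.nonempty_sInter_of_directed_nonempty_isCompact_isClosed
          (IsChain.directedOn hc.symm) (fun t ht => (hcs ht).2.1)
          (fun t ht => (hcs ht).1.isCompact) (fun t ht => (hcs ht).1)
      · obtain ⟨t, ht⟩ := hcn
        exact (Set.sInter_subset_of_mem ht).trans (hcs ht).2.2.1
      · intro f hf g hg t ht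
        exact (hcs ht).2.2.2 f hf g (hg t ht)
  obtain ⟨hL1, hL2, hL3, hL4⟩ := hL.prop
  obtain ⟨ε, hε, hεε⟩ := ellis L hL2 hL1 (fun f hf g hg => hL4 f (hL3 hf) g hg)
  refine ⟨ε, hL3 hε, hεε, fun g hg hgε => ?_⟩
  have hgL : g ∈ L := by rw [← hgε]; exact hL4 g hg ε hε
  have hcont : Continuous fun f : P → P => f ∘ g :=
    continuous_pi fun z => continuous_apply (g z)
  have h1 : (fun f : P → P => f ∘ g) '' s ∈ 𝓛 := by
    refine ⟨(hcl.isCompact.image hcont).isClosed, hne.image _, ?_, ?_⟩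
    · rintro _ ⟨f, hf, rfl⟩
      exact hmul f hf g hg
    · rintro f hf _ ⟨f', hf', rfl⟩
      exact ⟨f ∘ f', hmul f hf f' hf', rfl⟩
  have h2 : (fun f : P → P => f ∘ g) '' s ⊆ L := by
    rintro _ ⟨f, hf, rfl⟩
    exact hL4 f hf g hgL
  obtain ⟨h, hh, hhg⟩ := hL.le_of_le h1 h2 hε
  exact ⟨h, hh, hhg⟩

section
variable {R : Type u} [Ring R] {P : Type u} [AddCommGroup P] [Module R P] [TopologicalSpace P]
  [CompactSpace P] [T2Space P] [IsTopologicalAddGroup P] [ContinuousConstSMul R P]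

/-- linear self-maps -/
def Lin (R : Type u) [Ring R] {P : Type u} [AddCommGroup P] [Module R P] (f : P → P) : Prop :=
  (∀ a b, f (a + b) = f a + f b) ∧ ∀ (r : R) a, f (r • a) = r • f a

/-- the linear map -/
def Lin.toLM {f : P → P} (hf : Lin R f) : P →ₗ[R] P :=
  { toFun := f, map_add' := hf.1, map_smul' := hf.2 }

omit [CompactSpace P] in
lemma isClosed_lin : IsClosed {f : P → P | Lin R f} := by
  have h1 : {f : P → P | Lin R f} = (⋂ a, ⋂ b, {f | f (a + b) = f a + f b}) ∩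
      ⋂ r : R, ⋂ a, {f | f (r • a) = r • f a} := by
    ext f
    simp only [Set.mem_inter_iff, Set.mem_iInter]
    exact Iff.rfl
  rw [h1]
  refine IsClosed.inter (isClosed_iInter fun a => isClosed_iInter fun b => ?_)
    (isClosed_iInter fun r => isClosed_iInter fun a => ?_)
  · exact isClosed_eq (continuous_apply _)
      (Continuous.add (f := fun F : P → P => F a) (g := fun F : P → P => F b)
        (continuous_apply _) (continuous_apply _))
  · exact isClosed_eq (continuous_apply _)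
      (Continuous.const_smul (g := fun F : P → P => F a) (continuous_apply _) r)

omit [IsTopologicalAddGroup P] in
lemma isClosed_range_smul (r : R) : IsClosed {z : P | ∃ y, r • y = z} := by
  have h1 : {z : P | ∃ y, r • y = z} = (fun y : P => r • y) '' Set.univ := by
    ext z
    simp
  rw [h1]
  exact (isCompact_univ.image (continuous_const_smul r)).isClosed

lemma isClosed_holds (φ : PP R) : IsClosed {b : P | Holds φ b} := by
  have h1 : {b : P | Holds φ b} = Prod.fst ''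
      (⋂ q : φ, {z : P × (ℕ → P) | Finsupp.linearCombination R z.2 q.1.1 = q.1.2 • z.1}) := by
    ext b
    constructor
    · rintro ⟨y, hy⟩
      refine ⟨(b, y), ?_, rfl⟩
      simp only [Set.mem_iInter]
      exact fun q => hy q.1 q.2
    · rintro ⟨⟨b', y⟩, hz, rfl⟩
      simp only [Set.mem_iInter] at hz
      exact ⟨y, fun q hq => hz ⟨q, hq⟩⟩
  rw [h1]
  refine (IsClosed.isCompact ?_ |>.image continuous_fst).isClosed
  refine isClosed_iInter fun q => ?_
  exact isClosed_eq ((continuous_lc q.1.1).comp continuous_snd)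
    (continuous_fst.const_smul _)

/-- Splitting of the direct summands. -/
theorem main_split (S : SerialData R) {j i : Fin S.n} (B : BoxT S j i) (p : Set (PP R))
    (hmax : ∀ ψ, ψ ∉ p → ∃ φ ∈ p, ∃ σ : List Bool,
      Le (conj φ ψ) (TH (B.desc σ).a' (B.desc σ).d))
    (hΘ : ∀ σ : List Bool, TH (B.desc σ).a' (B.desc σ).d ∉ p)
    (hbase : ∀ r : List Bool, TH (B.desc r).a1 (B.desc r).d1 ∈ p)
    (hEX : EX (S.e i) ∈ p) (x : P) (hx : ∀ φ : PP R, Holds φ x ↔ φ ∈ p) :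
    ∃ ε : P →ₗ[R] P, (∀ z, ε (ε z) = ε z) ∧ ε x = x ∧ x ≠ 0 ∧
      ∀ e1 e2 : P →ₗ[R] P, (∀ z, e1 (e1 z) = e1 z) → (∀ z, e2 (e2 z) = e2 z) →
        (∀ z, e1 (e2 z) = 0) → (∀ z, e2 (e1 z) = 0) → (∀ z, e1 z + e2 z = ε z) →
        (∃ z, e1 z ≠ 0) → ∃ g : P →ₗ[R] P, (∀ z, g (g z) = g z) ∧ (∀ z, e1 (g z) = g z) ∧
          (∀ z, g (e1 z) = g z) ∧ (∃ z, g z ≠ 0) ∧ ∃ z, g z ≠ e1 z := by
  classical
  obtain ⟨ε0, ⟨hε1, hε2⟩, hε3, hε4⟩ := hull {f : P → P | Lin R f ∧ f x = x}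
    ⟨id, ⟨fun _ _ => rfl, fun _ _ => rfl⟩, rfl⟩
    (isClosed_lin.inter (isClosed_eq (continuous_apply x) continuous_const))
    (by
      rintro f ⟨hf1, hf2⟩ g ⟨hg1, hg2⟩
      refine ⟨⟨fun a b => ?_, fun r a => ?_⟩, ?_⟩
      · show f (g (a + b)) = f (g a) + f (g b)
        rw [hg1.1, hf1.1]
      · show f (g (r • a)) = r • f (g a)
        rw [hg1.2, hf1.2]
      · show f (g x) = x
        rw [hg2, hf2])
  have hx0 : x ≠ 0 := by
    rintro rfl
    refine hΘ [] ((hx _).mp (holds_TH.mpr ⟨0, by rw [smul_zero, smul_zero]⟩))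
  refine ⟨hε1.toLM, fun z => congrFun hε3 z, hε2, hx0, ?_⟩
  intro e1 e2 h11 h22 h12 h21 hsum hne
  have hεz : ∀ z, e1 z + e2 z = ε0 z := hsum
  set x1 := e1 x with hx1
  set x2 := e2 x with hx2
  have hx12 : x1 + x2 = x := by rw [hx1, hx2, hεz, hε2]
  have he11 : e1 x1 = x1 := h11 x
  -- Step 1
  obtain ⟨ψ, hψ2, hψ1⟩ : ∃ ψ : PP R, Holds ψ x2 ∧ ¬ Holds ψ x1 := by
    by_contra hcon
    push Not at hcon
    obtain ⟨h, hh⟩ := exists_hom x2 x1 hcon
    let g : P →ₗ[R] P := (e1 ∘ₗ h ∘ₗ e2) + e2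
    have hg : ∀ z, g z = e1 (h (e2 z)) + e2 z := fun z => rfl
    have hgx : g x = x := by rw [hg, ← hx2, hh, he11, hx12]
    have he2ε : ∀ z, e2 (ε0 z) = e2 z := by
      intro z
      rw [← hεz, map_add, h21, h22, zero_add]
    obtain ⟨k, ⟨hk1, _⟩, hk3⟩ := hε4 g ⟨⟨map_add g, map_smul g⟩, hgx⟩ (by
      funext z
      show g (ε0 z) = g z
      rw [hg, hg, he2ε])
    obtain ⟨z, hz⟩ := hne
    apply hz
    have h1 : ε0 (e1 z) = e1 z := by rw [← hεz, h11, h21, add_zero]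
    have h2 : g (e1 z) = 0 := by rw [hg, h21, map_zero, map_zero, add_zero]
    have h3 : k (g (e1 z)) = ε0 (e1 z) := congrFun hk3 (e1 z)
    rw [← h1, ← h3, h2]
    have := hk1.1 0 0
    rw [add_zero] at this
    simpa using this
  -- Step 2
  have hψp : ψ ∉ p := fun h => hψ1 (((hx ψ).mpr h).map e1)
  obtain ⟨φ, hφ, σ, hσ⟩ := hmax ψ hψp
  have hθ2 : Holds (TH (B.desc σ).a' (B.desc σ).d) x2 :=
    hσ P x2 (holds_conj.mpr ⟨((hx φ).mpr hφ).map e2, hψ2⟩)
  obtain ⟨y2, hy2⟩ := holds_TH.mp hθ2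
  -- Step 3
  set B' := B.desc σ with hB'
  have hS : B.desc (σ ++ [true]) = B'.child true := by rw [BoxT.desc_append]; rfl
  have hD : B.desc (σ ++ [false]) = B'.child false := by rw [BoxT.desc_append]; rfl
  have hnS : ¬ Holds (TH B'.a1 B'.d) x := by
    intro h
    have := hΘ (σ ++ [true])
    rw [hS] at this
    exact this ((hx _).mp h)
  have hnD : ¬ Holds (TH B'.a' B'.d1) x := by
    intro h
    have := hΘ (σ ++ [false])
    rw [hD] at this
    exact this ((hx _).mp h)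
  have hadd : ∀ {a d : R} {u v : P}, Holds (TH a d) u → Holds (TH a d) v →
      Holds (TH a d) (u + v) := by
    intro a d u v hu hv
    obtain ⟨y, hy⟩ := holds_TH.mp hu
    obtain ⟨z, hz⟩ := holds_TH.mp hv
    exact holds_TH.mpr ⟨y + z, by rw [smul_add, smul_add, hy, hz]⟩
  have hS2 : Holds (TH B'.a1 B'.d) x2 := by
    obtain ⟨s, hs⟩ := B'.a'_eq
    refine holds_TH.mpr ⟨s • y2, ?_⟩
    rw [← mul_smul, mul_assoc, ← hs, hy2]
  have hD2 : Holds (TH B'.a' B'.d1) x2 := by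
    obtain ⟨t, ht⟩ := B'.d1_eq
    refine holds_TH.mpr ⟨y2, ?_⟩
    rw [ht, mul_assoc, mul_smul, hy2, mul_smul]
  have hnS1 : ¬ Holds (TH B'.a1 B'.d) x1 := fun h => hnS (by rw [← hx12]; exact hadd h hS2)
  have hnD1 : ¬ Holds (TH B'.a' B'.d1) x1 := fun h => hnD (by rw [← hx12]; exact hadd h hD2)
  -- Step 4
  have hTH1 : Holds (TH B'.a1 B'.d1) x1 := ((hx _).mpr (hbase σ)).map e1
  have hEX1 : S.e i • x1 = x1 := holds_EX.mp (((hx _).mpr hEX).map e1)
  have ha1 : B'.a1 ∈ MM S i i := (B'.child true).isBox.ha'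
  have hd1 : B'.d1 ∈ MM S j i := (B'.child true).isBox.hd'
  obtain ⟨b, hb⟩ : ∃ b : P, ∀ φ : {φ : PP R // Holds φ x1},
      b ∈ {b : P | Holds φ.1 b ∧ (∃ y, b = B'.a1 • y) ∧ B'.d1 • (x1 - b) = 0} := by
    have hne : Nonempty {φ : PP R // Holds φ x1} := ⟨⟨_, hTH1⟩⟩
    have hclos : ∀ φ : {φ : PP R // Holds φ x1},
        IsClosed {b : P | Holds φ.1 b ∧ (∃ y, b = B'.a1 • y) ∧ B'.d1 • (x1 - b) = 0} := by
      intro φ
      refine (isClosed_holds φ.1).inter (IsClosed.inter ?_ ?_)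
      · have h1 : IsClosed {b : P | ∃ y, b = B'.a1 • y} := by
          simpa only [eq_comm] using isClosed_range_smul (P := P) B'.a1
        exact h1
      · exact isClosed_eq ((continuous_const.sub continuous_id).const_smul _) continuous_const
    have := IsCompact.nonempty_iInter_of_directed_nonempty_isCompact_isClosed
      (fun φ : {φ : PP R // Holds φ x1} =>
        {b : P | Holds φ.1 b ∧ (∃ y, b = B'.a1 • y) ∧ B'.d1 • (x1 - b) = 0})
      (by
        intro φ ψ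
        refine ⟨⟨conj φ.1 ψ.1, holds_conj.mpr ⟨φ.2, ψ.2⟩⟩, ?_, ?_⟩
        · rintro b ⟨hb1, hb2⟩
          exact ⟨(holds_conj.mp hb1).1, hb2⟩
        · rintro b ⟨hb1, hb2⟩
          exact ⟨(holds_conj.mp hb1).2, hb2⟩)
      (fun φ => distrib S i φ.1 ha1 hd1 hEX1 φ.2 (holds_TH.mp hTH1))
      (fun φ => (hclos φ).isCompact) hclos
    obtain ⟨b, hb⟩ := this
    rw [Set.mem_iInter] at hb
    exact ⟨b, hb⟩
  obtain ⟨g0, hg0⟩ := exists_hom x1 b (fun φ hφ => (hb ⟨φ, hφ⟩).1)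
  obtain ⟨_, ⟨y1, hy1⟩, hb3⟩ := hb ⟨_, hTH1⟩
  -- Step 5
  obtain ⟨m, ⟨⟨hm1, hm2⟩, hm3, hm4⟩, hmm⟩ := ellis
    {f : P → P | (Lin R f ∧ ∀ a, f (e1 a) = f a) ∧ (∃ y, (B'.d * B'.a1) • y = B'.d • f x1) ∧
      ∃ y, (B'.d1 * B'.a') • y = B'.d1 • (x1 - f x1)}
    ⟨g0 ∘ₗ e1, ⟨⟨map_add _, map_smul _⟩, fun a => by
        show g0 (e1 (e1 a)) = g0 (e1 a)
        rw [h11]⟩, ⟨y1, by
        show (B'.d * B'.a1) • y1 = B'.d • g0 (e1 x1)
        rw [he11, hg0, hy1, mul_smul]⟩, ⟨0, by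
        show (B'.d1 * B'.a') • (0 : P) = B'.d1 • (x1 - g0 (e1 x1))
        rw [he11, hg0, hb3, smul_zero]⟩⟩
    (by
      refine IsClosed.inter (isClosed_lin.inter ?_) (IsClosed.inter ?_ ?_)
      · have : {f : P → P | ∀ a, f (e1 a) = f a} = ⋂ a, {f : P → P | f (e1 a) = f a} := by
          ext f
          simp only [Set.mem_iInter]
          exact Iff.rfl
        have h2 : IsClosed {f : P → P | ∀ a, f (e1 a) = f a} := by
          rw [this]
          exact isClosed_iInter fun a =>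
            isClosed_eq (continuous_apply (e1 a)) (continuous_apply a)
        exact h2
      · exact (isClosed_range_smul (P := P) (B'.d * B'.a1)).preimage
          (Continuous.const_smul (g := fun F : P → P => F x1) (continuous_apply x1) B'.d)
      · exact (isClosed_range_smul (P := P) (B'.d1 * B'.a')).preimage
          (Continuous.const_smul (g := fun F : P → P => x1 - F x1)
            (continuous_const.sub (continuous_apply x1)) B'.d1))
    (by
      rintro f ⟨⟨hf1, hf2⟩, ⟨yf, hf3⟩, zf, hf4⟩ g ⟨⟨hg1, hg2⟩, ⟨yg, hg3⟩, zg, hg4⟩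
      refine ⟨⟨⟨fun a b => ?_, fun r a => ?_⟩, fun a => ?_⟩, ⟨f yg, ?_⟩, zf + f zg, ?_⟩
      · show f (g (a + b)) = f (g a) + f (g b)
        rw [hg1.1, hf1.1]
      · show f (g (r • a)) = r • f (g a)
        rw [hg1.2, hf1.2]
      · show f (g (e1 a)) = f (g a)
        rw [hg2]
      · show (B'.d * B'.a1) • f yg = B'.d • f (g x1)
        rw [← hf1.2, ← hf1.2, hg3]
      · show (B'.d1 * B'.a') • (zf + f zg) = B'.d1 • (x1 - f (g x1))
        have h1 : f (x1 - g x1) = f x1 - f (g x1) := map_sub hf1.toLM _ _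
        have h2 : x1 - f (g x1) = (x1 - f x1) + f (x1 - g x1) := by rw [h1]; abel
        rw [h2, smul_add, smul_add, hf4, ← hf1.2, hg4, hf1.2])
  have hmm' : ∀ a, m (m a) = m a := fun a => congrFun hmm a
  refine ⟨e1 ∘ₗ hm1.toLM, ?_, ?_, ?_, ?_, ?_⟩
  · intro z
    show e1 (m (e1 (m z))) = e1 (m z)
    rw [hm2, hmm']
  · intro z
    exact h11 _
  · intro z
    show e1 (m (e1 z)) = e1 (m z)
    rw [hm2]
  · by_contra hcon
    push Not at hcon
    apply hnD1
    have h1 : Holds (TH B'.a' B'.d1) (e1 (x1 - m x1)) := (holds_TH.mpr hm4).map e1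
    have h2 : e1 (m x1) = 0 := hcon x1
    rwa [map_sub, h2, sub_zero, he11] at h1
  · by_contra hcon
    push Not at hcon
    apply hnS1
    have h1 : Holds (TH B'.a1 B'.d) (e1 (m x1)) := (holds_TH.mpr hm3).map e1
    have h2 : e1 (m x1) = e1 x1 := hcon x1
    rwa [h2, he11] at h1

end

end Pool.Agent.Lib_helper29.SD
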