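import Mathlib

/-! Elementary depth theory for ideals in a Noetherian ring: `W J n I` says that there is a
weakly regular sequence of length `n` with entries in `J` on `R ⧸ I`. -/

namespace Pool.Agent.Lib_helper29.SR

section Basic
variable {R : Type*} [CommRing R]

/-- `a` is a non-zero-divisor modulo `I` -/
def Reg (I : Ideal R) (a : R) : Prop := ∀ x, a * x ∈ I → x ∈ I

/-- the socle of `R ⧸ I` with respect to `J` is zero -/
def Soc (J I : Ideal R) : Prop := ∀ x, (∀ c ∈ J, c * x ∈ I) → x ∈ I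

/-- there is a weakly regular sequence of length `n` in `J` on `R ⧸ I` -/
def W (J : Ideal R) : ℕ → Ideal R → Prop
  | 0, _ => True
  | n + 1, I => ∃ a ∈ J, Reg I a ∧ W J n (I ⊔ Ideal.span {a})

theorem mem_sup_span {I : Ideal R} {a x : R} :
    x ∈ I ⊔ Ideal.span {a} ↔ ∃ i ∈ I, ∃ y, x = i + a * y := by
  rw [Submodule.mem_sup]
  constructor
  · rintro ⟨i, hi, z, hz, rfl⟩
    obtain ⟨y, rfl⟩ := Ideal.mem_span_singleton'.1 hz
    exact ⟨i, hi, y, by ring⟩
  · rintro ⟨i, hi, y, rfl⟩
    exact ⟨i, hi, a * y, Ideal.mul_mem_right _ _ (Ideal.mem_span_singleton_self a), rfl⟩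

theorem mem_sup_left' {I : Ideal R} {a x : R} (h : x ∈ I) : x ∈ I ⊔ Ideal.span {a} :=
  (le_sup_left : I ≤ _) h

theorem mul_mem_sup {I : Ideal R} {a : R} (y : R) : a * y ∈ I ⊔ Ideal.span {a} :=
  mem_sup_span.2 ⟨0, I.zero_mem, y, by ring⟩

theorem sup_swap (I : Ideal R) (a b : R) :
    I ⊔ Ideal.span {a} ⊔ Ideal.span {b} = I ⊔ Ideal.span {b} ⊔ Ideal.span {a} := by
  rw [sup_assoc, sup_comm (Ideal.span {a}), ← sup_assoc]

theorem reg_swap {I : Ideal R} {a c : R} (ha : Reg I a) (hc : Reg (I ⊔ Ideal.span {a}) c) :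
    Reg (I ⊔ Ideal.span {c}) a := by
  intro x hx
  obtain ⟨i, hi, y, hy⟩ := mem_sup_span.1 hx
  have h1 : c * y ∈ I ⊔ Ideal.span {a} := by
    have : c * y = -i + a * x := by rw [hy]; ring
    rw [this]
    exact mem_sup_span.2 ⟨-i, I.neg_mem hi, x, rfl⟩
  obtain ⟨i', hi', y', rfl⟩ := mem_sup_span.1 (hc y h1)
  have h2 : a * (x - c * y') ∈ I := by
    have : a * (x - c * y') = i + c * i' := by
      have : a * (x - c * y') = a * x - a * c * y' := by ring
      rw [this, hy]; ring
    rw [this]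
    exact I.add_mem hi (I.mul_mem_left _ hi')
  exact mem_sup_span.2 ⟨x - c * y', ha _ h2, y', by ring⟩

theorem soc_of_reg {J I : Ideal R} {a : R} (haJ : a ∈ J) (ha : Reg I a) : Soc J I :=
  fun x hx => ha x (hx a haJ)

theorem soc_of_W {J I : Ideal R} {n : ℕ} (h : W J (n + 1) I) : Soc J I := by
  obtain ⟨a, haJ, ha, _⟩ := h
  exact soc_of_reg haJ ha

theorem soc_exchange {J I : Ideal R} {a b : R} (haJ : a ∈ J) (ha : Reg I a) (hb : Reg I b)
    (h : Soc J (I ⊔ Ideal.span {a})) : Soc J (I ⊔ Ideal.span {b}) := by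
  intro x hx
  obtain ⟨i, hi, y, hy⟩ := mem_sup_span.1 (hx a haJ)
  have hyI : y ∈ I ⊔ Ideal.span {a} := by
    refine h y (fun c hc => ?_)
    obtain ⟨i', hi', z, hz⟩ := mem_sup_span.1 (hx c hc)
    have h1 : b * (c * y - a * z) ∈ I := by
      have : b * (c * y - a * z) = a * i' - c * i := by
        linear_combination (a) * hz - c * hy
      rw [this]
      exact I.sub_mem (I.mul_mem_left _ hi') (I.mul_mem_left _ hi)
    exact mem_sup_span.2 ⟨c * y - a * z, hb _ h1, z, by ring⟩
  obtain ⟨i', hi', y', rfl⟩ := mem_sup_span.1 hyI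
  have h2 : a * (x - b * y') ∈ I := by
    have : a * (x - b * y') = i + b * i' := by
      linear_combination hy
    rw [this]
    exact I.add_mem hi (I.mul_mem_left _ hi')
  exact mem_sup_span.2 ⟨x - b * y', ha _ h2, y', by ring⟩

/-- prime avoidance: a common non-zero-divisor -/
theorem exists_reg [IsNoetherianRing R] (J : Ideal R) (s : Finset (Ideal R))
    (h : ∀ I ∈ s, Soc J I) : ∃ a ∈ J, ∀ I ∈ s, Reg I a := by
  by_contra hcon
  push Not at hcon
  have hfin : (⋃ I ∈ (s : Set (Ideal R)), associatedPrimes R (R ⧸ I)).Finite :=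
    Set.Finite.biUnion s.finite_toSet (fun I _ => associatedPrimes.finite R (R ⧸ I))
  have hsub : (J : Set R) ⊆ ⋃ P ∈ (⋃ I ∈ (s : Set (Ideal R)), associatedPrimes R (R ⧸ I)),
      ((id P : Ideal R) : Set R) := by
    intro a ha
    obtain ⟨I, hI, hreg⟩ := hcon a ha
    unfold Reg at hreg
    push Not at hreg
    obtain ⟨x, hx1, hx2⟩ := hreg
    have hz : a ∈ { r : R | ∃ x : R ⧸ I, x ≠ 0 ∧ r • x = 0 } := by
      refine ⟨Ideal.Quotient.mk I x, ?_, ?_⟩
      · rwa [Ne, Ideal.Quotient.eq_zero_iff_mem]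
      · rw [Algebra.smul_def, Ideal.Quotient.algebraMap_eq, ← map_mul,
          Ideal.Quotient.eq_zero_iff_mem]
        exact hx1
    rw [← biUnion_associatedPrimes_eq_zero_divisors] at hz
    obtain ⟨P, hP, haP⟩ := Set.mem_iUnion₂.1 hz
    exact Set.mem_iUnion₂.2 ⟨P, Set.mem_iUnion₂.2 ⟨I, hI, hP⟩, haP⟩
  rw [Ideal.subset_union_prime_finite hfin (f := id) 0 0
    (fun P hP _ _ => by
      obtain ⟨I, _, hP'⟩ := Set.mem_iUnion₂.1 hP
      exact IsAssociatedPrime.isPrime hP')] at hsub
  obtain ⟨P, hP, hJP⟩ := hsub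
  obtain ⟨I, hI, hP'⟩ := Set.mem_iUnion₂.1 hP
  rw [AssociatedPrimes.mem_iff, isAssociatedPrime_iff] at hP'
  obtain ⟨hprime, x, hx⟩ := hP'
  obtain ⟨y, rfl⟩ := Ideal.Quotient.mk_surjective x
  have hmem : ∀ r, r ∈ P ↔ r * y ∈ I := by
    intro r
    rw [hx, Submodule.mem_colon_singleton, Submodule.mem_bot, Algebra.smul_def,
      Ideal.Quotient.algebraMap_eq, ← map_mul, Ideal.Quotient.eq_zero_iff_mem]
  have hy : y ∈ I := h I hI y (fun c hc => (hmem c).1 (hJP hc))
  exact hprime.ne_top ((Ideal.eq_top_iff_one P).2 ((hmem 1).2 (by rwa [one_mul])))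

variable [IsNoetherianRing R]

theorem W_exchange (J : Ideal R) : ∀ (n : ℕ) (I : Ideal R) (a b : R), a ∈ J → b ∈ J →
    Reg I a → Reg I b → W J n (I ⊔ Ideal.span {a}) → W J n (I ⊔ Ideal.span {b}) := by
  intro n
  induction n with
  | zero => intros; trivial
  | succ n ih =>
    intro I a b haJ hbJ ha hb hW
    have h1 : Soc J (I ⊔ Ideal.span {a}) := soc_of_W hW
    have h2 : Soc J (I ⊔ Ideal.span {b}) := soc_exchange haJ ha hb h1
    classical
    obtain ⟨c, hcJ, hc⟩ := exists_reg J {I ⊔ Ideal.span {a}, I ⊔ Ideal.span {b}} (by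
      intro K hK
      simp only [Finset.mem_insert, Finset.mem_singleton] at hK
      rcases hK with rfl | rfl
      · exact h1
      · exact h2)
    have hca := hc (I ⊔ Ideal.span {a}) (by simp)
    have hcb := hc (I ⊔ Ideal.span {b}) (by simp)
    obtain ⟨a', ha'J, ha', hW'⟩ := hW
    have h3 : W J n (I ⊔ Ideal.span {a} ⊔ Ideal.span {c}) :=
      ih _ a' c ha'J hcJ ha' hca hW'
    rw [sup_swap] at h3
    have h4 := ih _ a b haJ hbJ (reg_swap ha hca) (reg_swap hb hcb) h3
    rw [sup_swap] at h4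
    exact ⟨c, hcJ, hcb, h4⟩

theorem W_quot {J I : Ideal R} {n : ℕ} {b : R} (h : W J (n + 1) I) (hbJ : b ∈ J)
    (hb : Reg I b) : W J n (I ⊔ Ideal.span {b}) := by
  obtain ⟨a, haJ, ha, hW⟩ := h
  exact W_exchange J n I a b haJ hbJ ha hb hW

/-- the depth lemma -/
theorem W_colon (J : Ideal R) : ∀ (n : ℕ) (I K : Ideal R) (a : R), (∀ x, x ∈ K ↔ a * x ∈ I) →
    W J n I → W J (n + 1) K → W J n (I ⊔ Ideal.span {a}) := by
  intro n
  induction n with
  | zero => intros; trivial
  | succ n ih =>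
    intro I K a hK hI hKW
    have hIK : I ≤ K := fun x hx => (hK x).2 (I.mul_mem_left _ hx)
    have sI : Soc J I := soc_of_W hI
    have sK : Soc J K := soc_of_W hKW
    classical
    have sIa : Soc J (I ⊔ Ideal.span {a}) := by
      obtain ⟨b, hbJ, hb⟩ := exists_reg J {I, K} (by
        intro K' hK'
        simp only [Finset.mem_insert, Finset.mem_singleton] at hK'
        rcases hK' with rfl | rfl
        · exact sI
        · exact sK)
      have hbI := hb I (by simp)
      have hbK := hb K (by simp)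
      have hW1 : W J (n + 1) (K ⊔ Ideal.span {b}) := W_quot hKW hbJ hbK
      have sKb := soc_of_W hW1
      intro x hx
      obtain ⟨i, hi, y, hy⟩ := mem_sup_span.1 (hx b hbJ)
      have hyK : y ∈ K ⊔ Ideal.span {b} := by
        refine sKb y (fun c hc => ?_)
        obtain ⟨i', hi', z, hz⟩ := mem_sup_span.1 (hx c hc)
        have h1 : a * (c * y - b * z) ∈ I := by
          have : a * (c * y - b * z) = b * i' - c * i := by
            linear_combination b * hz - c * hy
          rw [this]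
          exact I.sub_mem (I.mul_mem_left _ hi') (I.mul_mem_left _ hi)
        exact mem_sup_span.2 ⟨c * y - b * z, (hK _).2 h1, z, by ring⟩
      obtain ⟨j, hj, y', rfl⟩ := mem_sup_span.1 hyK
      have h2 : b * (x - a * y') ∈ I := by
        have : b * (x - a * y') = i + a * j := by linear_combination hy
        rw [this]
        exact I.add_mem hi ((hK j).1 hj)
      exact mem_sup_span.2 ⟨x - a * y', hbI _ h2, y', by ring⟩
    obtain ⟨b, hbJ, hb⟩ := exists_reg J {I, K, I ⊔ Ideal.span {a}} (by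
      intro K' hK'
      simp only [Finset.mem_insert, Finset.mem_singleton] at hK'
      rcases hK' with rfl | rfl | rfl
      · exact sI
      · exact sK
      · exact sIa)
    have hbI := hb I (by simp)
    have hbK := hb K (by simp)
    have hbIa := hb (I ⊔ Ideal.span {a}) (by simp)
    have hK' : ∀ x, x ∈ K ⊔ Ideal.span {b} ↔ a * x ∈ I ⊔ Ideal.span {b} := by
      intro x
      constructor
      · intro hx
        obtain ⟨j, hj, y, rfl⟩ := mem_sup_span.1 hx
        exact mem_sup_span.2 ⟨a * j, (hK j).1 hj, a * y, by ring⟩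
      · intro hx
        obtain ⟨i, hi, y, hy⟩ := mem_sup_span.1 hx
        have h1 : b * y ∈ I ⊔ Ideal.span {a} :=
          mem_sup_span.2 ⟨-i, I.neg_mem hi, x, by linear_combination -hy⟩
        obtain ⟨i', hi', y', rfl⟩ := mem_sup_span.1 (hbIa y h1)
        have h2 : a * (x - b * y') ∈ I := by
          have : a * (x - b * y') = i + b * i' := by linear_combination hy
          rw [this]
          exact I.add_mem hi (I.mul_mem_left _ hi')
        exact mem_sup_span.2 ⟨x - b * y', (hK _).2 h2, y', by ring⟩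
    have h3 : W J n (I ⊔ Ideal.span {b} ⊔ Ideal.span {a}) :=
      ih _ _ a hK' (W_quot hI hbJ hbI) (W_quot hKW hbJ hbK)
    rw [sup_swap] at h3
    exact ⟨b, hbJ, hbIa, h3⟩

end Basic

end Pool.Agent.Lib_helper29.SR
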