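import Pool.Agent.Lib_helper29.SR1

/-! Local version of `W` at a prime ideal `P`, and transfer lemmas. -/

namespace Pool.Agent.Lib_helper29.SR

section Local
variable {S : Type*} [CommRing S]

/-- `a` is a non-zero-divisor modulo `I` after localisation at `P` -/
def LReg (P I : Ideal S) (a : S) : Prop := ∀ x, a * x ∈ I → ∃ s, s ∉ P ∧ s * x ∈ I

/-- there is a weakly regular sequence of length `n` on `(S ⧸ I)_P` with entries in `P` -/
def WS (P : Ideal S) : ℕ → Ideal S → Prop
  | 0, _ => True
  | n + 1, I => ∃ a ∈ P, LReg P I a ∧ WS P n (I ⊔ Ideal.span {a})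

theorem map_sup_span {T : Type*} [CommRing T] (f : S →+* T) (I : Ideal S) (a : S) :
    (I ⊔ Ideal.span {a}).map f = I.map f ⊔ Ideal.span {f a} := by
  rw [Ideal.map_sup, Ideal.map_span, Set.image_singleton]

theorem WS_iff (P : Ideal S) [P.IsPrime] (n : ℕ) : ∀ (I : Ideal S),
    WS P n I ↔ W (P.map (algebraMap S (Localization.AtPrime P))) n
      (I.map (algebraMap S (Localization.AtPrime P))) := by
  have key : ∀ (I : Ideal S) (x : S), algebraMap S (Localization.AtPrime P) x ∈
      I.map (algebraMap S (Localization.AtPrime P)) ↔ ∃ s, s ∉ P ∧ s * x ∈ I := by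
    intro I x
    rw [IsLocalization.algebraMap_mem_map_algebraMap_iff P.primeCompl]
    rfl
  have hunit : ∀ s, s ∉ P → IsUnit (algebraMap S (Localization.AtPrime P) s) := fun s hs =>
    IsLocalization.map_units (Localization.AtPrime P) (⟨s, hs⟩ : P.primeCompl)
  induction n with
  | zero => intro I; exact Iff.rfl
  | succ n ih =>
    intro I
    constructor
    · rintro ⟨a, haP, ha, hW⟩
      refine ⟨algebraMap S _ a, Ideal.mem_map_of_mem _ haP, ?_, ?_⟩
      · intro x hx
        obtain ⟨⟨y, s⟩, hys⟩ := IsLocalization.surj P.primeCompl x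
        simp only at hys
        have h1 : algebraMap S (Localization.AtPrime P) (a * y) ∈
            I.map (algebraMap S (Localization.AtPrime P)) := by
          rw [map_mul, ← hys, ← mul_assoc]
          exact Ideal.mul_mem_right _ _ hx
        obtain ⟨t, htP, ht⟩ := (key I _).1 h1
        obtain ⟨u, huP, hu⟩ := ha (t * y) (by rw [mul_left_comm]; exact ht)
        have h2 : algebraMap S (Localization.AtPrime P) y ∈
            I.map (algebraMap S (Localization.AtPrime P)) := by
          refine (key I _).2 ⟨u * t, ?_, by rw [mul_assoc]; exact hu⟩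
          intro hut
          rcases Ideal.IsPrime.mem_or_mem ‹P.IsPrime› hut with h | h
          · exact huP h
          · exact htP h
        rw [← hys] at h2
        exact (Ideal.mul_unit_mem_iff_mem _ (hunit s s.2)).1 h2
      · rw [← map_sup_span]
        exact (ih _).1 hW
    · rintro ⟨b, hbP, hb, hW⟩
      rw [IsLocalization.mem_map_algebraMap_iff P.primeCompl] at hbP
      obtain ⟨⟨⟨a, haP⟩, s⟩, hs⟩ := hbP
      simp only at hs
      refine ⟨a, haP, ?_, ?_⟩
      · intro x hx
        have h1 : b * algebraMap S (Localization.AtPrime P) (s * x) ∈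
            I.map (algebraMap S (Localization.AtPrime P)) := by
          rw [map_mul, ← mul_assoc, hs, ← map_mul]
          exact Ideal.mem_map_of_mem _ hx
        obtain ⟨t, htP, ht⟩ := (key I _).1 (hb _ h1)
        refine ⟨t * s, ?_, by rw [mul_assoc]; exact ht⟩
        intro hut
        rcases Ideal.IsPrime.mem_or_mem ‹P.IsPrime› hut with h | h
        · exact htP h
        · exact s.2 h
      · refine (ih _).2 ?_
        rw [map_sup_span, ← hs]
        rw [Ideal.span_singleton_mul_right_unit (hunit s s.2)]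
        exact hW

theorem key_map (P : Ideal S) [P.IsPrime] (I : Ideal S) (x : S) :
    algebraMap S (Localization.AtPrime P) x ∈
      I.map (algebraMap S (Localization.AtPrime P)) ↔ ∃ s, s ∉ P ∧ s * x ∈ I := by
  rw [IsLocalization.algebraMap_mem_map_algebraMap_iff P.primeCompl]
  rfl

theorem LReg_iff (P : Ideal S) [P.IsPrime] (I : Ideal S) (a : S) :
    LReg P I a ↔ Reg (I.map (algebraMap S (Localization.AtPrime P)))
      (algebraMap S (Localization.AtPrime P) a) := by
  have hunit : ∀ s, s ∉ P → IsUnit (algebraMap S (Localization.AtPrime P) s) := fun s hs =>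
    IsLocalization.map_units (Localization.AtPrime P) (⟨s, hs⟩ : P.primeCompl)
  constructor
  · intro ha x hx
    obtain ⟨⟨y, s⟩, hys⟩ := IsLocalization.surj P.primeCompl x
    simp only at hys
    have h1 : algebraMap S (Localization.AtPrime P) (a * y) ∈
        I.map (algebraMap S (Localization.AtPrime P)) := by
      rw [map_mul, ← hys, ← mul_assoc]
      exact Ideal.mul_mem_right _ _ hx
    obtain ⟨t, htP, ht⟩ := (key_map P I _).1 h1
    obtain ⟨u, huP, hu⟩ := ha (t * y) (by rw [mul_left_comm]; exact ht)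
    have h2 : algebraMap S (Localization.AtPrime P) y ∈
        I.map (algebraMap S (Localization.AtPrime P)) := by
      refine (key_map P I _).2 ⟨u * t, ?_, by rw [mul_assoc]; exact hu⟩
      intro hut
      rcases Ideal.IsPrime.mem_or_mem ‹P.IsPrime› hut with h | h
      · exact huP h
      · exact htP h
    rw [← hys] at h2
    exact (Ideal.mul_unit_mem_iff_mem _ (hunit s s.2)).1 h2
  · intro hb x hx
    refine (key_map P I x).1 (hb _ ?_)
    rw [← map_mul]
    exact Ideal.mem_map_of_mem _ hx

theorem WS_quot [IsNoetherianRing S] {P : Ideal S} [P.IsPrime] {I : Ideal S} {n : ℕ} {b : S}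
    (h : WS P (n + 1) I) (hbP : b ∈ P) (hb : LReg P I b) : WS P n (I ⊔ Ideal.span {b}) := by
  have : IsNoetherianRing (Localization.AtPrime P) :=
    IsLocalization.isNoetherianRing P.primeCompl _ inferInstance
  rw [WS_iff, map_sup_span]
  exact W_quot ((WS_iff P _ I).1 h) (Ideal.mem_map_of_mem _ hbP) ((LReg_iff P I b).1 hb)

/-- the local depth lemma -/
theorem WS_colon [IsNoetherianRing S] {P : Ideal S} [P.IsPrime] {I K : Ideal S} {n : ℕ} {a : S}
    (hK : ∀ x, x ∈ K ↔ a * x ∈ I) (hI : WS P n I) (hKW : WS P (n + 1) K) :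
    WS P n (I ⊔ Ideal.span {a}) := by
  have : IsNoetherianRing (Localization.AtPrime P) :=
    IsLocalization.isNoetherianRing P.primeCompl _ inferInstance
  have hunit : ∀ s, s ∉ P → IsUnit (algebraMap S (Localization.AtPrime P) s) := fun s hs =>
    IsLocalization.map_units (Localization.AtPrime P) (⟨s, hs⟩ : P.primeCompl)
  rw [WS_iff, map_sup_span]
  refine W_colon _ n _ _ _ ?_ ((WS_iff P _ I).1 hI) ((WS_iff P _ K).1 hKW)
  intro x
  obtain ⟨⟨y, s⟩, hys⟩ := IsLocalization.surj P.primeCompl x
  simp only at hys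
  rw [← Ideal.mul_unit_mem_iff_mem _ (hunit s s.2), hys,
    ← Ideal.mul_unit_mem_iff_mem (I.map _) (hunit s s.2), mul_assoc, hys, ← map_mul,
    key_map, key_map]
  constructor
  · rintro ⟨t, ht, htK⟩
    exact ⟨t, ht, by rw [mul_left_comm]; exact (hK _).1 htK⟩
  · rintro ⟨t, ht, htK⟩
    exact ⟨t, ht, (hK _).2 (by rw [mul_left_comm]; exact htK)⟩

/-- prime avoidance, local version: `I` has zero socle locally at `P`, hence there is a
locally regular element. -/
theorem exists_LReg [IsNoetherianRing S] {P : Ideal S} [P.IsPrime] {I : Ideal S}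
    (h : ∀ x, (∀ c ∈ P, ∃ s, s ∉ P ∧ s * (c * x) ∈ I) → ∃ s, s ∉ P ∧ s * x ∈ I) :
    ∃ a ∈ P, LReg P I a := by
  have : IsNoetherianRing (Localization.AtPrime P) :=
    IsLocalization.isNoetherianRing P.primeCompl _ inferInstance
  have hunit : ∀ s, s ∉ P → IsUnit (algebraMap S (Localization.AtPrime P) s) := fun s hs =>
    IsLocalization.map_units (Localization.AtPrime P) (⟨s, hs⟩ : P.primeCompl)
  have hs : Soc (P.map (algebraMap S (Localization.AtPrime P)))
      (I.map (algebraMap S (Localization.AtPrime P))) := by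
    intro x hx
    obtain ⟨⟨y, s⟩, hys⟩ := IsLocalization.surj P.primeCompl x
    simp only at hys
    rw [← Ideal.mul_unit_mem_iff_mem _ (hunit s s.2), hys, key_map]
    refine h y (fun c hc => ?_)
    rw [← key_map, map_mul, ← hys, ← mul_assoc]
    exact Ideal.mul_mem_right _ _ (hx _ (Ideal.mem_map_of_mem _ hc))
  classical
  obtain ⟨b, hbP, hb⟩ := exists_reg _ {I.map (algebraMap S (Localization.AtPrime P))} (by
    intro K hK
    rw [Finset.mem_singleton] at hK
    rw [hK]; exact hs)
  have hb' := hb _ (Finset.mem_singleton_self _)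
  rw [IsLocalization.mem_map_algebraMap_iff P.primeCompl] at hbP
  obtain ⟨⟨⟨a, haP⟩, s⟩, hs⟩ := hbP
  simp only at hs
  refine ⟨a, haP, ?_⟩
  intro x hx
  have h1 : b * algebraMap S (Localization.AtPrime P) (s * x) ∈
      I.map (algebraMap S (Localization.AtPrime P)) := by
    rw [map_mul, ← mul_assoc, hs, ← map_mul]
    exact Ideal.mem_map_of_mem _ hx
  obtain ⟨t, htP, ht⟩ := (key_map P I _).1 (hb' _ h1)
  refine ⟨t * s, ?_, by rw [mul_assoc]; exact ht⟩
  intro hut
  rcases Ideal.IsPrime.mem_or_mem ‹P.IsPrime› hut with h | h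
  · exact htP h
  · exact s.2 h

/-- if `I` is not contained in `P` everything holds -/
theorem WS_of_not_le {P I : Ideal S} (h : ¬ I ≤ P) : ∀ n, WS P n I := by
  intro n
  induction n generalizing I with
  | zero => trivial
  | succ n ih =>
    obtain ⟨s, hsI, hsP⟩ := Set.not_subset.1 h
    exact ⟨0, P.zero_mem, fun x _ => ⟨s, hsP, I.mul_mem_right _ hsI⟩,
      ih (fun hle => h (le_sup_left.trans hle))⟩

/-- `WS` depends only on the localisation of `I` -/
theorem WS_of_sat {P : Ideal S} [P.IsPrime] : ∀ (n : ℕ) {I K : Ideal S}, I ≤ K →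
    (∀ x ∈ K, ∃ s, s ∉ P ∧ s * x ∈ I) → WS P n I → WS P n K := by
  intro n
  induction n with
  | zero => intros; trivial
  | succ n ih =>
    rintro I K hIK hK ⟨a, haP, ha, hW⟩
    refine ⟨a, haP, ?_, ih (sup_le_sup_right hIK _) ?_ hW⟩
    · intro x hx
      obtain ⟨s, hs, hsx⟩ := hK _ hx
      obtain ⟨t, ht, htx⟩ := ha (s * x) (by rw [mul_left_comm]; exact hsx)
      refine ⟨t * s, ?_, hIK (by rw [mul_assoc]; exact htx)⟩
      intro hut
      rcases Ideal.IsPrime.mem_or_mem ‹P.IsPrime› hut with h | h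
      · exact ht h
      · exact hs h
    · intro x hx
      obtain ⟨i, hi, y, rfl⟩ := mem_sup_span.1 hx
      obtain ⟨s, hs, hsx⟩ := hK _ hi
      exact ⟨s, hs, mem_sup_span.2 ⟨_, hsx, s * y, by ring⟩⟩

theorem comap_sup_span {T : Type*} [CommRing T] {f : S →+* T} (hf : Function.Surjective f)
    (I : Ideal T) (a : S) :
    (I ⊔ Ideal.span {f a}).comap f = I.comap f ⊔ Ideal.span {a} := by
  ext x
  rw [Ideal.mem_comap, mem_sup_span, mem_sup_span]
  constructor
  · rintro ⟨i, hi, y, hy⟩
    obtain ⟨y, rfl⟩ := hf y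
    refine ⟨x - a * y, ?_, y, by ring⟩
    rw [Ideal.mem_comap, map_sub, map_mul, hy, add_sub_cancel_right]
    exact hi
  · rintro ⟨i, hi, y, rfl⟩
    exact ⟨f i, hi, f y, by rw [map_add, map_mul]⟩

theorem WS_comap {T : Type*} [CommRing T] {f : S →+* T} (hf : Function.Surjective f)
    (P : Ideal T) : ∀ (n : ℕ) (I : Ideal T), WS (P.comap f) n (I.comap f) ↔ WS P n I := by
  intro n
  induction n with
  | zero => intro I; exact Iff.rfl
  | succ n ih =>
    intro I
    constructor
    · rintro ⟨a, haP, ha, hW⟩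
      refine ⟨f a, haP, ?_, ?_⟩
      · intro x hx
        obtain ⟨x, rfl⟩ := hf x
        rw [← map_mul] at hx
        obtain ⟨s, hs, hsx⟩ := ha x hx
        exact ⟨f s, hs, by rw [← map_mul]; exact hsx⟩
      · rw [← comap_sup_span hf] at hW
        exact (ih _).1 hW
    · rintro ⟨a, haP, ha, hW⟩
      obtain ⟨a, rfl⟩ := hf a
      refine ⟨a, haP, ?_, ?_⟩
      · intro x hx
        rw [Ideal.mem_comap, map_mul] at hx
        obtain ⟨s, hs, hsx⟩ := ha (f x) hx
        obtain ⟨s, rfl⟩ := hf s
        exact ⟨s, hs, by rw [Ideal.mem_comap, map_mul]; exact hsx⟩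
      · rw [← comap_sup_span hf]
        exact (ih _).2 hW

/-- there is a chain of primes `I ≤ Q₀ < ⋯ < Q_n = P` -/
def HH (I : Ideal S) : ℕ → Ideal S → Prop
  | 0, P => I ≤ P
  | n + 1, P => ∃ Q : Ideal S, Q.IsPrime ∧ Q < P ∧ HH I n Q

theorem HH_le {I : Ideal S} {n : ℕ} : ∀ {P : Ideal S}, HH I n P → I ≤ P := by
  induction n with
  | zero => intro P h; exact h
  | succ n ih =>
    rintro P ⟨Q, _, hQP, hQ⟩
    exact (ih hQ).trans hQP.le

theorem HH_anti {I K : Ideal S} (hIK : I ≤ K) {n : ℕ} : ∀ {P : Ideal S}, HH K n P → HH I n P := by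
  induction n with
  | zero => intro P h; exact hIK.trans h
  | succ n ih =>
    rintro P ⟨Q, hQ, hQP, h⟩
    exact ⟨Q, hQ, hQP, ih h⟩

theorem comap_lt {T : Type*} [CommRing T] {f : S →+* T} (hf : Function.Surjective f)
    {P Q : Ideal T} (h : Q < P) : Q.comap f < P.comap f := by
  refine lt_of_le_not_ge (Ideal.comap_mono h.le) (fun hle => ?_)
  refine h.not_ge (fun x hx => ?_)
  obtain ⟨x, rfl⟩ := hf x
  exact hle hx

theorem HH_comap {T : Type*} [CommRing T] {f : S →+* T} (hf : Function.Surjective f)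
    (I : Ideal T) : ∀ (n : ℕ) (P : Ideal T), HH I n P → HH (I.comap f) n (P.comap f) := by
  intro n
  induction n with
  | zero => intro P h; exact Ideal.comap_mono h
  | succ n ih =>
    rintro P ⟨Q, hQ, hQP, h⟩
    exact ⟨Q.comap f, Ideal.comap_isPrime f Q, comap_lt hf hQP, ih Q h⟩

theorem HH_of_comap {T : Type*} [CommRing T] {f : S →+* T} (hf : Function.Surjective f)
    (I : Ideal T) : ∀ (n : ℕ) (P : Ideal T), HH (I.comap f) n (P.comap f) → HH I n P := by
  intro n
  induction n with
  | zero =>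
    intro P h x hx
    obtain ⟨x, rfl⟩ := hf x
    exact h hx
  | succ n ih =>
    rintro P ⟨Q, hQ, hQP, h⟩
    have hker : RingHom.ker f ≤ Q := by
      intro x hx
      refine HH_le h ?_
      rw [Ideal.mem_comap, (RingHom.mem_ker).1 hx]
      exact I.zero_mem
    have hQ' : (Q.map f).comap f = Q := by
      rw [Ideal.comap_map_of_surjective' f hf, sup_eq_left]
      exact hker
    refine ⟨Q.map f, Ideal.map_isPrime_of_surjective hf hker, ?_, ?_⟩
    · refine lt_of_le_not_ge ?_ ?_
      · rw [Ideal.map_le_iff_le_comap]; exact hQP.le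
      · intro hle
        refine hQP.not_ge ?_
        rw [← hQ']
        exact Ideal.comap_mono hle
    · refine ih _ ?_
      rw [hQ']
      exact h

end Local

end Pool.Agent.Lib_helper29.SR
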