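import Pool.Agent.Lib_helper29.SR2

/-! Descent of the local depth condition from `B[X]` to `B`. -/

namespace Pool.Agent.Lib_helper29.SR

section Poly
open Polynomial
variable {B : Type*} [CommRing B]

/-- uniform choice of a denominator -/
theorem exists_common {P J : Ideal B} [P.IsPrime] (F : Finset ℕ) (g : ℕ → B)
    (h : ∀ i ∈ F, ∃ s, s ∉ P ∧ s * g i ∈ J) : ∃ s, s ∉ P ∧ ∀ i ∈ F, s * g i ∈ J := by
  classical
  induction F using Finset.induction_on with
  | empty =>
    exact ⟨1, fun h1 => (Ideal.IsPrime.ne_top ‹P.IsPrime›) ((Ideal.eq_top_iff_one P).2 h1),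
      by simp⟩
  | insert i F hi ih =>
    obtain ⟨s, hs, hsF⟩ := ih (fun j hj => h j (Finset.mem_insert_of_mem hj))
    obtain ⟨t, ht, hti⟩ := h i (Finset.mem_insert_self _ _)
    refine ⟨s * t, ?_, ?_⟩
    · intro hut
      rcases Ideal.IsPrime.mem_or_mem ‹P.IsPrime› hut with h | h
      · exact hs h
      · exact ht h
    · intro j hj
      rcases Finset.mem_insert.1 hj with rfl | hj
      · rw [mul_assoc]; exact J.mul_mem_left _ hti
      · rw [mul_comm s t, mul_assoc]; exact J.mul_mem_left _ (hsF j hj)

theorem WS_polynomial [IsNoetherianRing B] (P : Ideal B) [P.IsPrime] : ∀ (n : ℕ) (J : Ideal B),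
    WS (P.map (C : B →+* B[X])) n (J.map (C : B →+* B[X])) → WS P n J := by
  have hprime : (P.map (C : B →+* B[X])).IsPrime :=
    Ideal.isPrime_map_C_of_isPrime
  intro n
  induction n with
  | zero => intro J _; trivial
  | succ n ih =>
    intro J hW
    have hex : ∃ a ∈ P, LReg P J a := by
      apply exists_LReg
      intro x hx
      obtain ⟨a, haP, ha, -⟩ := hW
      rw [Ideal.mem_map_C_iff] at haP
      obtain ⟨s, hs, hsF⟩ := exists_common (P := P) (J := J) a.support (fun i => a.coeff i * x)
        (fun i _ => hx _ (haP i))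
      have h1 : a * (C (s * x)) ∈ J.map (C : B →+* B[X]) := by
        rw [Ideal.mem_map_C_iff]
        intro i
        rw [coeff_mul_C]
        by_cases hi : i ∈ a.support
        · have := hsF i hi
          rw [mul_left_comm] at this
          exact this
        · rw [notMem_support_iff.1 hi, zero_mul]
          exact J.zero_mem
      obtain ⟨t, ht, htx⟩ := ha _ h1
      rw [Ideal.mem_map_C_iff] at ht htx
      push Not at ht
      obtain ⟨j, hj⟩ := ht
      refine ⟨t.coeff j * s, ?_, ?_⟩
      · intro hut
        rcases Ideal.IsPrime.mem_or_mem ‹P.IsPrime› hut with h | h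
        · exact hj h
        · exact hs h
      · have := htx j
        rw [coeff_mul_C] at this
        rw [mul_assoc]
        exact this
    obtain ⟨a, haP, ha⟩ := hex
    refine ⟨a, haP, ha, ih _ ?_⟩
    rw [map_sup_span]
    refine WS_quot hW (Ideal.mem_map_of_mem _ haP) ?_
    intro f hf
    rw [Ideal.mem_map_C_iff] at hf
    obtain ⟨s, hs, hsF⟩ := exists_common (P := P) (J := J) f.support (fun i => f.coeff i)
      (fun i _ => ha _ (by have := hf i; rwa [coeff_C_mul] at this))
    refine ⟨C s, ?_, ?_⟩
    · rw [Ideal.mem_map_C_iff]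
      push Not
      exact ⟨0, by rwa [coeff_C_zero]⟩
    · rw [Ideal.mem_map_C_iff]
      intro i
      rw [coeff_C_mul]
      by_cases hi : i ∈ f.support
      · exact hsF i hi
      · rw [notMem_support_iff.1 hi, mul_zero]
        exact J.zero_mem

theorem HH_polynomial (J : Ideal B) : ∀ (n : ℕ) (P : Ideal B), HH J n P →
    HH (J.map (C : B →+* B[X])) n (P.map (C : B →+* B[X])) := by
  intro n
  induction n with
  | zero => intro P h; exact Ideal.map_mono h
  | succ n ih =>
    rintro P ⟨Q, hQ, hQP, h⟩
    refine ⟨Q.map C, Ideal.isPrime_map_C_of_isPrime, ?_, ih Q h⟩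
    refine lt_of_le_not_ge (Ideal.map_mono hQP.le) (fun hle => hQP.not_ge ?_)
    intro x hx
    have := hle (Ideal.mem_map_of_mem C hx)
    rw [Ideal.mem_map_C_iff] at this
    have := this 0
    rwa [coeff_C_zero] at this

end Poly

end Pool.Agent.Lib_helper29.SR
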