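import Pool.Agent.Lib_helper29.SR3

/-! Stanley-Reisner ideals. -/

namespace Pool.Agent.Lib_helper29.SR

section SRI
open MvPolynomial
variable {k : Type*} [Field k] {V : Type*}

/-- the Stanley-Reisner ideal -/
noncomputable def srI (k : Type*) [Field k] {V : Type*} (D : Set (Finset V)) : Ideal (MvPolynomial V k) :=
  Ideal.span {f | ∃ τ : Finset V, τ ∉ D ∧ f = ∏ v ∈ τ, X v}

/-- the squarefree monomial -/
noncomputable def xm (k : Type*) [Field k] {V : Type*} (τ : Finset V) : MvPolynomial V k :=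
  ∏ v ∈ τ, X v

/-- exponent of the squarefree monomial -/
noncomputable def ex {V : Type*} (τ : Finset V) : V →₀ ℕ := ∑ v ∈ τ, Finsupp.single v 1

theorem ex_apply [DecidableEq V] (τ : Finset V) (v : V) : ex τ v = if v ∈ τ then 1 else 0 := by
  unfold ex
  rw [Finsupp.finsetSum_apply]
  simp [Finsupp.single_apply]

theorem xm_eq (τ : Finset V) : xm k τ = monomial (ex τ) 1 := by
  classical
  unfold xm ex
  induction τ using Finset.induction_on with
  | empty => simp
  | insert a s ha ih =>
    rw [Finset.prod_insert ha, Finset.sum_insert ha, ih, X, monomial_mul, one_mul]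

theorem ex_le_iff (τ : Finset V) (m : V →₀ ℕ) : ex τ ≤ m ↔ τ ⊆ m.support := by
  classical
  rw [Finsupp.le_def]
  constructor
  · intro h v hv
    have := h v
    rw [ex_apply, if_pos hv] at this
    rw [Finsupp.mem_support_iff]
    omega
  · intro h v
    rw [ex_apply]
    split_ifs with hv
    · have := Finsupp.mem_support_iff.1 (h hv)
      omega
    · exact Nat.zero_le _

theorem mem_srI {D : Set (Finset V)} (hD : IsLowerSet D) (f : MvPolynomial V k) :
    f ∈ srI k D ↔ ∀ m ∈ f.support, m.support ∉ D := by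
  have h1 : srI k D = Ideal.span ((fun s => monomial s (1 : k)) '' {m | ∃ τ, τ ∉ D ∧ m = ex τ}) := by
    unfold srI
    congr 1
    ext f
    constructor
    · rintro ⟨τ, hτ, rfl⟩
      exact ⟨ex τ, ⟨τ, hτ, rfl⟩, (xm_eq τ).symm⟩
    · rintro ⟨m, ⟨τ, hτ, rfl⟩, rfl⟩
      exact ⟨τ, hτ, (xm_eq τ).symm⟩
  rw [h1, mem_ideal_span_monomial_image]
  refine forall₂_congr (fun m _ => ?_)
  constructor
  · rintro ⟨_, ⟨τ, hτ, rfl⟩, hle⟩ hm
    exact hτ (hD ((ex_le_iff τ m).1 hle) hm)
  · intro hm
    exact ⟨ex m.support, ⟨m.support, hm, rfl⟩, (ex_le_iff _ m).2 (Finset.Subset.refl _)⟩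

theorem xm_mem {D : Set (Finset V)} {τ : Finset V} (h : τ ∉ D) : xm k τ ∈ srI k D :=
  Ideal.subset_span ⟨τ, h, rfl⟩

theorem srI_anti {D D' : Set (Finset V)} (h : D' ⊆ D) : srI k D ≤ srI k D' := by
  refine Ideal.span_mono ?_
  rintro f ⟨τ, hτ, rfl⟩
  exact ⟨τ, fun h' => hτ (h h'), rfl⟩

theorem support_ex_add [DecidableEq V] (σ : Finset V) (m : V →₀ ℕ) :
    (ex σ + m).support = m.support ∪ σ := by
  ext v
  rw [Finset.mem_union, Finsupp.mem_support_iff, Finsupp.mem_support_iff, Finsupp.add_apply,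
    ex_apply]
  split_ifs with h
  · simp [h]
  · simp [h]

theorem xm_mul_mem [DecidableEq V] {D : Set (Finset V)} (hD : IsLowerSet D) (σ : Finset V)
    (f : MvPolynomial V k) :
    xm k σ * f ∈ srI k D ↔ ∀ m ∈ f.support, m.support ∪ σ ∉ D := by
  rw [mem_srI hD, xm_eq]
  constructor
  · intro h m hm
    have := h (ex σ + m) (by
      rw [mem_support_iff, coeff_monomial_mul, one_mul]
      exact mem_support_iff.1 hm)
    rwa [support_ex_add] at this
  · intro h m hm
    rw [mem_support_iff, coeff_monomial_mul'] at hm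
    split_ifs at hm with hle
    · obtain ⟨m', rfl⟩ := exists_add_of_le hle
      rw [add_tsub_cancel_left, one_mul] at hm
      rw [support_ex_add]
      exact h m' (mem_support_iff.2 hm)
    · exact absurd rfl hm

/-- the star -/
def st [DecidableEq V] (D : Set (Finset V)) (σ : Finset V) : Set (Finset V) := {τ | τ ∪ σ ∈ D}

/-- remove all faces containing an element of `A` -/
def rem (D A : Set (Finset V)) : Set (Finset V) := {τ | τ ∈ D ∧ ∀ σ ∈ A, ¬ σ ⊆ τ}

theorem st_lower [DecidableEq V] {D : Set (Finset V)} (hD : IsLowerSet D) (σ : Finset V) :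
    IsLowerSet (st D σ) := by
  intro τ τ' h hτ
  exact hD (Finset.union_subset_union_left h) hτ

theorem rem_lower {D : Set (Finset V)} (hD : IsLowerSet D) (A : Set (Finset V)) :
    IsLowerSet (rem D A) := by
  intro τ τ' h hτ
  exact ⟨hD h hτ.1, fun σ hσ hle => hτ.2 σ hσ (hle.trans h)⟩

theorem colon_eq [DecidableEq V] {D : Set (Finset V)} (hD : IsLowerSet D) {A : Set (Finset V)}
    {σ : Finset V} (hind : ∀ τ ∈ A, τ ∪ σ ∉ D) (f : MvPolynomial V k) :
    f ∈ srI k (st D σ) ↔ xm k σ * f ∈ srI k (rem D A) := by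
  rw [xm_mul_mem (rem_lower hD A), mem_srI (st_lower hD σ)]
  refine forall₂_congr (fun m _ => not_congr ?_)
  constructor
  · intro h
    refine ⟨h, fun τ hτ hle => hind τ hτ (hD (Finset.union_subset hle Finset.subset_union_right) h)⟩
  · intro h
    exact h.1

theorem rem_insert_eq {D A : Set (Finset V)} (σ : Finset V) :
    srI k (rem D (insert σ A)) = srI k (rem D A) ⊔ Ideal.span {xm k σ} := by
  classical
  apply le_antisymm
  · unfold srI
    rw [Ideal.span_le]
    rintro f ⟨τ, hτ, rfl⟩
    by_cases h : τ ∈ rem D A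
    · have hστ : σ ⊆ τ := by
        by_contra hcon
        apply hτ
        refine ⟨h.1, ?_⟩
        rintro ρ (rfl | hρ)
        · exact hcon
        · exact h.2 ρ hρ
      refine (le_sup_right : _ ≤ srI k (rem D A) ⊔ Ideal.span {xm k σ}) ?_
      rw [Ideal.mem_span_singleton]
      exact Finset.prod_dvd_prod_of_subset _ _ _ hστ
    · exact (le_sup_left : _ ≤ srI k (rem D A) ⊔ Ideal.span {xm k σ}) (xm_mem h)
  · refine sup_le (srI_anti ?_) ?_
    · rintro τ ⟨h1, h2⟩
      exact ⟨h1, fun ρ hρ => h2 ρ (Set.mem_insert_of_mem _ hρ)⟩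
    · rw [Ideal.span_singleton_le_iff_mem]
      exact xm_mem (fun h => h.2 σ (Set.mem_insert _ _) (Finset.Subset.refl _))

/-- `srI` is contained in a prime iff ... -/
theorem srI_le_prime {D : Set (Finset V)} {P : Ideal (MvPolynomial V k)} [hP : P.IsPrime]
    (h : srI k D ≤ P) {τ : Finset V} (hτ : ∀ v ∈ τ, (X v : MvPolynomial V k) ∉ P) : τ ∈ D := by
  by_contra hcon
  have := h (xm_mem hcon)
  unfold xm at this
  rw [Ideal.IsPrime.prod_mem_iff] at this
  obtain ⟨v, hv, hvP⟩ := this
  exact hτ v hv hvP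

open Classical in
/-- projection killing the variables outside `F` -/
noncomputable def proj (k : Type*) [Field k] {V : Type*} (F : Finset V) :
    MvPolynomial V k →ₐ[k] MvPolynomial V k :=
  aeval (fun w => if w ∈ F then X w else 0)

/-- the monomial prime generated by the variables outside `F` -/
noncomputable def PP (k : Type*) [Field k] {V : Type*} (F : Finset V) :
    Ideal (MvPolynomial V k) := RingHom.ker (proj k F)

instance (F : Finset V) : (PP k F).IsPrime := RingHom.ker_isPrime _

theorem X_mem_PP {F : Finset V} {w : V} : (X w : MvPolynomial V k) ∈ PP k F ↔ w ∉ F := by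
  classical
  unfold PP proj
  rw [RingHom.mem_ker, aeval_X]
  split_ifs with h
  · simp [h, X_ne_zero]
  · simp [h]

theorem PP_le {F : Finset V} {Q : Ideal (MvPolynomial V k)}
    (h : ∀ w, w ∉ F → (X w : MvPolynomial V k) ∈ Q) : PP k F ≤ Q := by
  classical
  have h1 : (Ideal.Quotient.mkₐ k Q).comp (proj k F) = Ideal.Quotient.mkₐ k Q := by
    apply MvPolynomial.algHom_ext
    intro w
    unfold proj
    rw [AlgHom.comp_apply, aeval_X]
    split_ifs with hw
    · rfl
    · rw [map_zero]
      exact (Ideal.Quotient.eq_zero_iff_mem.2 (h w hw)).symm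
  intro f hf
  have h2 : proj k F f = 0 := hf
  have h3 := DFunLike.congr_fun h1 f
  rw [AlgHom.comp_apply, h2, map_zero] at h3
  exact Ideal.Quotient.eq_zero_iff_mem.1 h3.symm

theorem PP_mono {F G : Finset V} (h : F ⊆ G) : PP k G ≤ PP k F :=
  PP_le (fun w hw => X_mem_PP.2 (fun h' => hw (h h')))

theorem srI_le_PP {D : Set (Finset V)} (hD : IsLowerSet D) {F : Finset V} (hF : F ∈ D) :
    srI k D ≤ PP k F := by
  unfold srI
  rw [Ideal.span_le]
  rintro f ⟨τ, hτ, rfl⟩
  have : ¬ τ ⊆ F := fun h => hτ (hD h hF)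
  obtain ⟨v, hv, hvF⟩ := Finset.not_subset.1 this
  have h2 : (X v : MvPolynomial V k) ∈ PP k F := X_mem_PP.2 hvF
  exact Ideal.IsPrime.prod_mem_iff.2 ⟨v, hv, h2⟩

theorem proj_coeff {F : Finset V} (f : MvPolynomial V k) (m : V →₀ ℕ) (hm : m.support ⊆ F) :
    coeff m (proj k F f) = coeff m f := by
  classical
  induction f using MvPolynomial.induction_on' with
  | monomial u a =>
    unfold proj
    rw [aeval_monomial]
    by_cases hu : u.support ⊆ F
    · have : (u.prod fun i j => (if i ∈ F then (X i : MvPolynomial V k) else 0) ^ j)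
          = monomial u 1 := by
        rw [monomial_eq, C_1, one_mul]
        refine Finsupp.prod_congr (fun i hi => ?_)
        rw [if_pos (hu hi)]
      rw [this, algebraMap_eq, C_mul_monomial, mul_one]
    · obtain ⟨v, hv, hvF⟩ := Finset.not_subset.1 hu
      have h0 : (u.prod fun i j => (if i ∈ F then (X i : MvPolynomial V k) else 0) ^ j) = 0 := by
        unfold Finsupp.prod
        apply Finset.prod_eq_zero hv
        show (if v ∈ F then (X v : MvPolynomial V k) else 0) ^ (u v) = 0
        rw [if_neg hvF, zero_pow (Finsupp.mem_support_iff.1 hv)]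
      rw [h0, mul_zero, coeff_zero, coeff_monomial, if_neg]
      rintro rfl
      exact hu hm
  | add p q hp hq => rw [map_add, coeff_add, coeff_add, hp, hq]

theorem mem_srI_of_PP {D : Set (Finset V)} (hD : IsLowerSet D) {f : MvPolynomial V k}
    (h : ∀ F ∈ D, f ∈ PP k F) : f ∈ srI k D := by
  rw [mem_srI hD]
  intro m hm hmD
  have h1 : proj k m.support f = 0 := h _ hmD
  have h2 := proj_coeff (k := k) f m (Finset.Subset.refl _)
  rw [h1, coeff_zero] at h2
  exact (mem_support_iff.1 hm) h2.symm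

theorem eval_of_mem_PP {F : Finset V} {f : MvPolynomial V k} (hf : f ∈ PP k F) (p : V → k)
    (hp : ∀ v, v ∉ F → p v = 0) : eval p f = 0 := by
  have : PP k F ≤ RingHom.ker (eval p) := PP_le (fun w hw => by
    rw [RingHom.mem_ker, eval_X, hp w hw])
  exact this hf

end SRI

end Pool.Agent.Lib_helper29.SR
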