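import Pool.Agent.Lib_helper29.SR4

/-! Translations and removal of a cone variable. -/

namespace Pool.Agent.Lib_helper29.SR

/-- Serre's condition for `S ⧸ I`, in terms of primes of `S`. -/
def SS {S : Type*} [CommRing S] (I : Ideal S) (ℓ : ℕ) : Prop :=
  ∀ P : Ideal S, P.IsPrime → ∀ n ≤ ℓ, HH I n P → WS P n I

section Trans
open MvPolynomial
variable {k : Type*} [Field k] {V : Type*}

/-- translation -/
noncomputable def tr (c : V → k) : MvPolynomial V k →ₐ[k] MvPolynomial V k :=
  aeval (fun w => X w + C (c w))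

theorem tr_tr (c : V → k) (f : MvPolynomial V k) : tr (fun v => - c v) (tr c f) = f := by
  have : (tr (fun v => - c v)).comp (tr c) = AlgHom.id k (MvPolynomial V k) := by
    apply MvPolynomial.algHom_ext
    intro w
    rw [AlgHom.comp_apply, AlgHom.id_apply]
    unfold tr
    rw [aeval_X, map_add, aeval_X, aeval_C, algebraMap_eq, add_assoc, ← C_add, neg_add_cancel,
      C_0, add_zero]
  exact DFunLike.congr_fun this f

theorem tr_surj (c : V → k) : Function.Surjective (tr c) := by
  intro f
  refine ⟨tr (fun v => - c v) f, ?_⟩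
  have := tr_tr (fun v => - c v) f
  simpa using this

theorem xm_dvd {τ τ' : Finset V} (h : τ' ⊆ τ) : xm k τ' ∣ xm k τ :=
  Finset.prod_dvd_prod_of_subset _ _ _ h

theorem tr_mem [DecidableEq V] {D : Set (Finset V)} {σ : Finset V} {c : V → k}
    (hc : ∀ v, v ∉ σ → c v = 0) : srI k (st D σ) ≤ (srI k (st D σ)).comap (tr c) := by
  conv_lhs => unfold srI
  rw [Ideal.span_le]
  rintro f ⟨τ, hτ, rfl⟩
  have h1 : τ \ σ ∉ st D σ := by
    intro h
    apply hτ
    unfold st at h ⊢
    simpa using h
  have h2 : xm k (τ \ σ) ∣ tr c (∏ v ∈ τ, X v) := by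
    have : tr c (∏ v ∈ τ, X v) = ∏ v ∈ τ, (X v + C (c v)) := by
      rw [map_prod]
      refine Finset.prod_congr rfl (fun v _ => ?_)
      rw [tr, aeval_X]
    rw [this]
    have h3 : xm k (τ \ σ) = ∏ v ∈ τ \ σ, ((X v : MvPolynomial V k) + C (c v)) := by
      unfold xm
      refine Finset.prod_congr rfl (fun v hv => ?_)
      rw [hc v (Finset.mem_sdiff.1 hv).2, C_0, add_zero]
    rw [h3]
    exact Finset.prod_dvd_prod_of_subset _ _ _ Finset.sdiff_subset
  show tr c (∏ v ∈ τ, X v) ∈ srI k (st D σ)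
  exact Ideal.mem_of_dvd _ h2 (xm_mem h1)

theorem tr_comap [DecidableEq V] {D : Set (Finset V)} {σ : Finset V} {c : V → k}
    (hc : ∀ v, v ∉ σ → c v = 0) : (srI k (st D σ)).comap (tr c) = srI k (st D σ) := by
  refine le_antisymm ?_ (tr_mem hc)
  intro f hf
  have h1 := tr_mem (D := D) (k := k) (σ := σ) (c := fun v => - c v)
    (fun v hv => by simp [hc v hv]) hf
  rw [Ideal.mem_comap] at h1
  have h2 := tr_tr c f
  rw [← h2]
  exact h1

theorem st_sub [DecidableEq V] {D : Set (Finset V)} (hD : IsLowerSet D) (σ : Finset V) :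
    st D σ ⊆ D := fun _ hτ => hD Finset.subset_union_left hτ

theorem SS_st [DecidableEq V] {D : Set (Finset V)} (hD : IsLowerSet D) (σ : Finset V) {ℓ : ℕ}
    (h : SS (srI k D) ℓ) : SS (srI k (st D σ)) ℓ := by
  classical
  intro P hP n hn hH
  let c : V → k := fun w => if w ∈ σ ∧ (X w : MvPolynomial V k) ∈ P then 1 else 0
  have hc : ∀ v, v ∉ σ → c v = 0 := by
    intro v hv
    show (if _ then _ else _) = _
    rw [if_neg (fun h => hv h.1)]
  have hP' : (P.comap (tr c)).IsPrime := Ideal.comap_isPrime _ _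
  have h1 : HH ((srI k (st D σ)).comap (tr c)) n (P.comap (tr c)) :=
    HH_comap (f := (tr c : MvPolynomial V k →+* MvPolynomial V k)) (tr_surj c) _ n P hH
  rw [tr_comap hc] at h1
  have h2 : WS (P.comap (tr c)) n (srI k D) := h _ hP' n hn (HH_anti (srI_anti (st_sub hD σ)) h1)
  have hx : xm k σ ∉ P.comap (tr c) := by
    intro hmem
    unfold xm at hmem
    rw [Ideal.IsPrime.prod_mem_iff] at hmem
    obtain ⟨v, hv, hvP⟩ := hmem
    rw [Ideal.mem_comap, tr, aeval_X] at hvP
    by_cases hXP : (X v : MvPolynomial V k) ∈ P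
    · have hcv : c v = 1 := if_pos ⟨hv, hXP⟩
      rw [hcv, C_1] at hvP
      have := P.sub_mem hvP hXP
      rw [add_sub_cancel_left] at this
      exact hP.ne_top ((Ideal.eq_top_iff_one P).2 this)
    · have hcv : c v = 0 := if_neg (fun h => hXP h.2)
      rw [hcv, C_0, add_zero] at hvP
      exact hXP hvP
  have h3 : WS (P.comap (tr c)) n (srI k (st D σ)) := by
    refine WS_of_sat n (srI_anti (st_sub hD σ)) (fun f hf => ⟨xm k σ, hx, ?_⟩) h2
    rw [xm_mul_mem hD]
    exact (mem_srI (st_lower hD σ) f).1 hf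
  rw [← tr_comap (k := k) (D := D) hc] at h3
  exact (WS_comap (f := (tr c : MvPolynomial V k →+* MvPolynomial V k)) (tr_surj c) P n _).1 h3

end Trans

section Cone
open MvPolynomial
variable {k : Type*} [Field k] {V : Type*} [DecidableEq V]

/-- polynomial ring iso separating the variable `v` -/
noncomputable def sep (k : Type*) [Field k] {V : Type*} [DecidableEq V] (v : V) :
    MvPolynomial V k ≃ₐ[k] Polynomial (MvPolynomial {w : V // w ≠ v} k) :=
  (renameEquiv k (Equiv.optionSubtypeNe v).symm).trans (optionEquivLeft k {w : V // w ≠ v})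

theorem sep_X_self (v : V) : sep k v (X v) = Polynomial.X := by
  simp [sep]

theorem sep_X_ne (v w : V) (h : w ≠ v) : sep k v (X w) = Polynomial.C (X ⟨w, h⟩) := by
  simp [sep, h]

/-- inclusion of the polynomial ring without `v` -/
noncomputable def inc (k : Type*) [Field k] {V : Type*} [DecidableEq V] (v : V) :
    MvPolynomial {w : V // w ≠ v} k →ₐ[k] MvPolynomial V k := rename Subtype.val

theorem sep_inc (v : V) (b : MvPolynomial {w : V // w ≠ v} k) :
    sep k v (inc k v b) = Polynomial.C b := by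
  have : ((sep k v : MvPolynomial V k →ₐ[k] _).comp (inc k v)) = 
      (IsScalarTower.toAlgHom k (MvPolynomial {w : V // w ≠ v} k)
        (Polynomial (MvPolynomial {w : V // w ≠ v} k))) := by
    apply MvPolynomial.algHom_ext
    intro w
    simp [inc, sep_X_ne v w.1 w.2, Polynomial.algebraMap_eq]
  exact DFunLike.congr_fun this b

/-- set the variable `v` to zero -/
noncomputable def ev (k : Type*) [Field k] {V : Type*} [DecidableEq V] (v : V) :
    MvPolynomial V k →+* MvPolynomial {w : V // w ≠ v} k :=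
  (Polynomial.evalRingHom 0).comp (sep k v : MvPolynomial V k →+* _)

theorem ev_apply (v : V) (f : MvPolynomial V k) : ev k v f = (sep k v f).eval 0 := rfl

theorem ev_inc (v : V) (b : MvPolynomial {w : V // w ≠ v} k) : ev k v (inc k v b) = b := by
  rw [ev_apply, sep_inc, Polynomial.eval_C]

theorem ev_surj (v : V) : Function.Surjective (ev k v) := fun b => ⟨inc k v b, ev_inc v b⟩

theorem sub_inc_ev (v : V) (f : MvPolynomial V k) : X v ∣ f - inc k v (ev k v f) := by
  have h1 : sep k v (X v) ∣ sep k v (f - inc k v (ev k v f)) := by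
    rw [map_sub, sep_inc, sep_X_self, ev_apply, ← Polynomial.coeff_zero_eq_eval_zero]
    exact Polynomial.X_dvd_sub_C
  exact (map_dvd_iff (sep k v)).1 h1

theorem exists_inc {τ : Finset V} {v : V} (hv : v ∉ τ) :
    ∃ b, inc k v b = xm k τ := by
  have : xm k τ ∈ (inc k v).range := by
    unfold xm
    refine Subalgebra.prod_mem _ (fun w hw => ?_)
    have hwv : w ≠ v := fun h => hv (h ▸ hw)
    exact ⟨X ⟨w, hwv⟩, by simp [inc]⟩
  exact this

/-- `J₀` -/
noncomputable def J0 (k : Type*) [Field k] {V : Type*} [DecidableEq V] (D : Set (Finset V))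
    (σ : Finset V) (v : V) : Ideal (MvPolynomial {w : V // w ≠ v} k) :=
  (srI k (st D σ)).comap (inc k v)

theorem comap_sep {D : Set (Finset V)} {σ : Finset V} {v : V} (hv : v ∈ σ) :
    ((J0 k D σ v).map (Polynomial.C : MvPolynomial {w : V // w ≠ v} k →+* _)).comap
      (sep k v : MvPolynomial V k →+* Polynomial (MvPolynomial {w : V // w ≠ v} k))
      = srI k (st D σ) := by
  have h1 : srI k (st D σ) ≤
      ((J0 k D σ v).map (Polynomial.C : MvPolynomial {w : V // w ≠ v} k →+* _)).comap
      (sep k v : MvPolynomial V k →+* Polynomial (MvPolynomial {w : V // w ≠ v} k)) := by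
    conv_lhs => unfold srI
    rw [Ideal.span_le]
    rintro f ⟨τ, hτ, rfl⟩
    have h1 : τ.erase v ∉ st D σ := by
      intro h
      apply hτ
      unfold st at h ⊢
      have : τ.erase v ∪ σ = τ ∪ σ := by
        ext w
        by_cases hw : w = v
        · subst hw; simp [hv]
        · simp [hw]
      rw [Set.mem_ofPred_eq, this] at h
      exact h
    obtain ⟨b, hb⟩ := exists_inc (k := k) (Finset.notMem_erase v τ)
    have h2 : xm k (τ.erase v) ∣ xm k τ := xm_dvd (Finset.erase_subset _ _)
    refine Ideal.mem_of_dvd _ h2 ?_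
    rw [Ideal.mem_comap, ← hb]
    show sep k v (inc k v b) ∈ _
    rw [sep_inc]
    refine Ideal.mem_map_of_mem _ ?_
    unfold J0
    rw [Ideal.mem_comap, hb]
    exact xm_mem h1
  refine le_antisymm ?_ h1
  intro f hf
  rw [Ideal.mem_comap] at hf
  have h3 : (J0 k D σ v).map (Polynomial.C : MvPolynomial {w : V // w ≠ v} k →+* _) ≤
      (srI k (st D σ)).map
        (sep k v : MvPolynomial V k →+* Polynomial (MvPolynomial {w : V // w ≠ v} k)) := by
    rw [Ideal.map_le_iff_le_comap]
    intro b hb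
    rw [Ideal.mem_comap, ← sep_inc]
    exact Ideal.mem_map_of_mem
      (sep k v : MvPolynomial V k →+* Polynomial (MvPolynomial {w : V // w ≠ v} k)) hb
  have h4 := h3 hf
  have h5 : ((srI k (st D σ)).map
        (sep k v : MvPolynomial V k →+* Polynomial (MvPolynomial {w : V // w ≠ v} k))).comap
        (sep k v : MvPolynomial V k →+* Polynomial (MvPolynomial {w : V // w ≠ v} k))
        = srI k (st D σ) :=
    Ideal.comap_map_of_bijective _ (sep k v).bijective
  rw [← h5]
  exact h4

theorem comap_ev {D : Set (Finset V)} {σ : Finset V} {v : V} (hv : v ∈ σ) :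
    (J0 k D σ v).comap (ev k v) = srI k (st D σ) ⊔ Ideal.span {X v} := by
  apply le_antisymm
  · intro f hf
    obtain ⟨g, hg⟩ := sub_inc_ev (k := k) v f
    refine mem_sup_span.2 ⟨inc k v (ev k v f), hf, g, ?_⟩
    rw [← hg]; ring
  · refine sup_le ?_ ?_
    · rw [← comap_sep (k := k) hv]
      intro f hf
      rw [Ideal.mem_comap] at hf ⊢
      rw [ev_apply, ← Polynomial.coeff_zero_eq_eval_zero]
      exact (Ideal.mem_map_C_iff.1 hf) 0
    · rw [Ideal.span_singleton_le_iff_mem, Ideal.mem_comap, ev_apply, sep_X_self,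
        Polynomial.eval_X]
      exact Ideal.zero_mem _

theorem comap_ev_prime {v : V} {P : Ideal (MvPolynomial V k)} (hP : (X v : MvPolynomial V k) ∈ P) :
    (P.comap (inc k v)).comap (ev k v) = P := by
  ext f
  rw [Ideal.mem_comap, Ideal.mem_comap]
  have h1 : f - inc k v (ev k v f) ∈ P := Ideal.mem_of_dvd _ (sub_inc_ev v f) hP
  constructor
  · intro h
    have := P.add_mem h1 h
    rwa [sub_add_cancel] at this
  · intro h
    have := P.sub_mem h h1
    rwa [sub_sub_cancel] at this

theorem WS_cone [Finite V] {D : Set (Finset V)} {σ : Finset V} {v : V} (hv : v ∈ σ) {ℓ : ℕ}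
    (h : SS (srI k (st D σ)) ℓ) {P : Ideal (MvPolynomial V k)} [hP : P.IsPrime]
    (hX : (X v : MvPolynomial V k) ∈ P) {n : ℕ} (hn : n ≤ ℓ)
    (hH : HH (srI k (st D σ) ⊔ Ideal.span {X v}) n P) :
    WS P n (srI k (st D σ) ⊔ Ideal.span {X v}) := by
  have hP0 : (P.comap (inc k v)).IsPrime := Ideal.comap_isPrime _ _
  have hPP := comap_ev_prime hX
  rw [← comap_ev (k := k) hv, ← hPP] at hH ⊢
  rw [WS_comap (ev_surj v)]
  have h1 := HH_of_comap (ev_surj v) _ _ _ hH
  have h2 := HH_polynomial _ _ _ h1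
  have h3 := HH_comap (f := (sep k v : MvPolynomial V k →+* Polynomial _)) (sep k v).surjective
    _ _ _ h2
  rw [comap_sep hv] at h3
  have h4 : WS _ n (srI k (st D σ)) := h _ (Ideal.comap_isPrime _ _) n hn h3
  rw [← comap_sep (k := k) hv] at h4
  exact WS_polynomial _ n _ ((WS_comap (f := (sep k v : MvPolynomial V k →+* Polynomial _))
    (sep k v).surjective _ n _).1 h4)

end Cone

end Pool.Agent.Lib_helper29.SR
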