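import Pool.Agent.Lib_helper29.SR5

/-! Dimension exchange, purity, and the core theorem. -/

namespace Pool.Agent.Lib_helper29.SR

section Core
open MvPolynomial
variable {k : Type*} [Field k] {V : Type*}

theorem HH_exists_PP [Finite V] {D : Set (Finset V)} : ∀ (n : ℕ) (P : Ideal (MvPolynomial V k)),
    P.IsPrime → HH (srI k D) n P → ∃ G ∈ D, HH (PP k G) n P := by
  classical
  have := Fintype.ofFinite V
  intro n
  induction n with
  | zero =>
    intro P hP h
    refine ⟨Finset.univ.filter (fun w => (X w : MvPolynomial V k) ∉ P), ?_, ?_⟩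
    · exact srI_le_prime h (fun v hv => (Finset.mem_filter.1 hv).2)
    · exact PP_le (fun w hw => by
        by_contra hcon
        exact hw (Finset.mem_filter.2 ⟨Finset.mem_univ _, hcon⟩))
  | succ n ih =>
    rintro P hP ⟨Q, hQ, hQP, h⟩
    obtain ⟨G, hG, h'⟩ := ih Q hQ h
    exact ⟨G, hG, Q, hQ, hQP, h'⟩

theorem HH_swap [DecidableEq V] {n : ℕ} {P : Ideal (MvPolynomial V k)} {G : Finset V} {a b : V}
    (ha : (X a : MvPolynomial V k) ∈ P) (hb : (X b : MvPolynomial V k) ∈ P)
    (hbG : b ∉ G) (h : HH (PP k G) n P) : HH (PP k (insert b (G.erase a))) n P := by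
  have hP : P.comap (rename (Equiv.swap a b) : MvPolynomial V k →ₐ[k] MvPolynomial V k) = P := by
    have h1 : (Ideal.Quotient.mkₐ k P).comp (rename (Equiv.swap a b)) = Ideal.Quotient.mkₐ k P := by
      apply MvPolynomial.algHom_ext
      intro w
      rw [AlgHom.comp_apply, rename_X]
      have hza : Ideal.Quotient.mkₐ k P (X a) = 0 := Ideal.Quotient.eq_zero_iff_mem.2 ha
      have hzb : Ideal.Quotient.mkₐ k P (X b) = 0 := Ideal.Quotient.eq_zero_iff_mem.2 hb
      by_cases hwa : w = a
      · rw [hwa, Equiv.swap_apply_left, hza, hzb]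
      · by_cases hwb : w = b
        · rw [hwb, Equiv.swap_apply_right, hza, hzb]
        · rw [Equiv.swap_apply_of_ne_of_ne hwa hwb]
    ext f
    rw [Ideal.mem_comap]
    have h2 := DFunLike.congr_fun h1 f
    rw [AlgHom.comp_apply] at h2
    constructor
    · intro hf
      have h3 : Ideal.Quotient.mkₐ k P (rename (Equiv.swap a b) f) = 0 :=
        Ideal.Quotient.eq_zero_iff_mem.2 hf
      rw [h2] at h3
      exact Ideal.Quotient.eq_zero_iff_mem.1 h3
    · intro hf
      have h3 : Ideal.Quotient.mkₐ k P f = 0 :=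
        Ideal.Quotient.eq_zero_iff_mem.2 hf
      rw [← h2] at h3
      exact Ideal.Quotient.eq_zero_iff_mem.1 h3
  have hsurj : Function.Surjective
      (rename (Equiv.swap a b) : MvPolynomial V k →ₐ[k] MvPolynomial V k) :=
    rename_surjective _ (Equiv.swap a b).surjective
  have h1 := HH_comap (f := ((rename (Equiv.swap a b) : MvPolynomial V k →ₐ[k] MvPolynomial V k) :
    MvPolynomial V k →+* MvPolynomial V k)) hsurj (PP k G) n P h
  have h2 : P.comap ((rename (Equiv.swap a b) : MvPolynomial V k →ₐ[k] MvPolynomial V k) :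
    MvPolynomial V k →+* MvPolynomial V k) = P := hP
  rw [h2] at h1
  refine HH_anti (PP_le (fun w hw => ?_)) h1
  rw [Ideal.mem_comap]
  show rename (Equiv.swap a b) (X w) ∈ PP k G
  rw [rename_X, X_mem_PP]
  rw [Finset.mem_insert, Finset.mem_erase] at hw
  push Not at hw
  obtain ⟨hwb, hw⟩ := hw
  by_cases hwa : w = a
  · rw [hwa, Equiv.swap_apply_left]; exact hbG
  · rw [Equiv.swap_apply_of_ne_of_ne hwa hwb]; exact hw hwa

theorem HH_exchange [DecidableEq V] {n : ℕ} {P : Ideal (MvPolynomial V k)} {G' : Finset V}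
    (hG' : ∀ w, (X w : MvPolynomial V k) ∉ P → w ∈ G') : ∀ (m : ℕ) (G : Finset V),
    (G \ G').card = m → G.card ≤ G'.card → HH (PP k G) n P → HH (PP k G') n P := by
  intro m
  induction m with
  | zero =>
    intro G hm hc h
    have : G ⊆ G' := by
      rw [Finset.card_eq_zero, Finset.sdiff_eq_empty_iff_subset] at hm
      exact hm
    exact HH_anti (PP_mono this) h
  | succ m ih =>
    intro G hm hc h
    obtain ⟨a, ha⟩ : (G \ G').Nonempty := by
      rw [← Finset.card_pos]; omega
    obtain ⟨b, hb⟩ : (G' \ G).Nonempty := by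
      rw [← Finset.card_pos]
      have h1 := Finset.card_sdiff_add_card_inter G G'
      have h2 := Finset.card_sdiff_add_card_inter G' G
      rw [Finset.inter_comm] at h2
      omega
    rw [Finset.mem_sdiff] at ha hb
    have hGW : ∀ w, (X w : MvPolynomial V k) ∉ P → w ∈ G := by
      intro w hw
      by_contra hcon
      exact hw (HH_le h (X_mem_PP.2 hcon))
    have haP : (X a : MvPolynomial V k) ∈ P := by
      by_contra hcon; exact ha.2 (hG' a hcon)
    have hbP : (X b : MvPolynomial V k) ∈ P := by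
      by_contra hcon; exact hb.2 (hGW b hcon)
    have hbG : b ∉ G.erase a := fun h => hb.2 (Finset.mem_of_mem_erase h)
    have hpos : 0 < G.card := Finset.card_pos.2 ⟨a, ha.1⟩
    refine ih (insert b (G.erase a)) ?_ ?_ (HH_swap haP hbP hb.2 h)
    · have : insert b (G.erase a) \ G' = (G \ G').erase a := by
        ext w
        simp only [Finset.mem_sdiff, Finset.mem_insert, Finset.mem_erase]
        constructor
        · rintro ⟨rfl | ⟨h1, h2⟩, h3⟩
          · exact absurd hb.1 h3
          · exact ⟨h1, h2, h3⟩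
        · rintro ⟨h1, h2, h3⟩
          exact ⟨Or.inr ⟨h1, h2⟩, h3⟩
      rw [this, Finset.card_erase_of_mem (Finset.mem_sdiff.2 ha), hm]
      rfl
    · rw [Finset.card_insert_of_notMem hbG, Finset.card_erase_of_mem ha.1]
      omega

/-- reduced rings satisfy `(S_1)` -/
theorem SS_one [Finite V] {D : Set (Finset V)} (hD : IsLowerSet D) : SS (srI k D) 1 := by
  intro P hP n hn hH
  have hn' : n = 0 ∨ n = 1 := by omega
  rcases hn' with rfl | rfl
  · trivial
  obtain ⟨Q, hQ, hQP, hI⟩ := hH
  have hI' : srI k D ≤ Q := hI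
  have : ∃ a ∈ P, LReg P (srI k D) a := by
    apply exists_LReg
    intro x hx
    by_cases hxP : x ∈ P
    · obtain ⟨s, hs, hsx⟩ := hx x hxP
      refine ⟨s, hs, mem_srI_of_PP hD (fun F hF => ?_)⟩
      have h1 := srI_le_PP hD hF hsx
      rcases Ideal.IsPrime.mem_or_mem (inferInstance : (PP k F).IsPrime) h1 with h | h
      · exact Ideal.mul_mem_right _ _ h
      · rcases Ideal.IsPrime.mem_or_mem (inferInstance : (PP k F).IsPrime) h with h | h
        · exact Ideal.mul_mem_left _ _ h
        · exact Ideal.mul_mem_left _ _ h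
    · exfalso
      obtain ⟨c, hcP, hcQ⟩ := Set.not_subset.1 hQP.not_ge
      obtain ⟨s, hs, hsx⟩ := hx c hcP
      rcases hQ.mem_or_mem (hI' hsx) with h | h
      · exact hs (hQP.le h)
      · rcases hQ.mem_or_mem h with h | h
        · exact hcQ h
        · exact hxP (hQP.le h)
  obtain ⟨a, haP, ha⟩ := this
  exact ⟨a, haP, ha, trivial⟩

/-- facets -/
def Facet (D : Set (Finset V)) (F : Finset V) : Prop := F ∈ D ∧ ∀ G ∈ D, F ⊆ G → G = F

theorem exists_facet [Finite V] {D : Set (Finset V)} {τ : Finset V} (h : τ ∈ D) :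
    ∃ F, Facet D F ∧ τ ⊆ F := by
  classical
  have := Fintype.ofFinite V
  obtain ⟨F, hF, hmax⟩ := Finset.exists_max_image
    (Finset.univ.filter (fun F : Finset V => F ∈ D ∧ τ ⊆ F)) Finset.card
    ⟨τ, Finset.mem_filter.2 ⟨Finset.mem_univ _, h, Finset.Subset.refl _⟩⟩
  rw [Finset.mem_filter] at hF
  refine ⟨F, ⟨hF.2.1, fun G hG hFG => ?_⟩, hF.2.2⟩
  have := hmax G (Finset.mem_filter.2 ⟨Finset.mem_univ _, hG, hF.2.2.trans hFG⟩)
  exact (Finset.eq_of_subset_of_card_le hFG this).symm

end Core

end Pool.Agent.Lib_helper29.SR
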