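import Pool.Agent.Lib_helper29.SR6

/-! Purity of `(S_2)` complexes, and the core theorem. -/

namespace Pool.Agent.Lib_helper29.SR

section Pure
open MvPolynomial
variable {k : Type*} [Field k] {V : Type*}

theorem sum_notMem_PP [DecidableEq V] {H T : Finset V} {v : V} (hv : v ∈ H) (hvT : v ∈ T) :
    (∑ w ∈ T, (X w : MvPolynomial V k)) ∉ PP k H := by
  intro h
  have h1 := eval_of_mem_PP h (Pi.single v 1) (fun w hw => by
    rw [Pi.single_eq_of_ne]
    rintro rfl
    exact hw hv)
  rw [map_sum] at h1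
  simp only [eval_X, Pi.single_apply] at h1
  rw [Finset.sum_ite_eq', if_pos hvT] at h1
  exact one_ne_zero h1

theorem xm_notMem_PP {W : Finset V} : xm k W ∉ PP k W := by
  intro h
  unfold xm at h
  rw [Ideal.IsPrime.prod_mem_iff] at h
  obtain ⟨v, hv, h⟩ := h
  exact (X_mem_PP.1 h) hv

theorem pure [Finite V] {D : Set (Finset V)} (hD : IsLowerSet D) (h : SS (srI k D) 2) :
    ∀ F G, Facet D F → Facet D G → F.card = G.card := by
  classical
  have := Fintype.ofFinite V
  by_contra hcon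
  push Not at hcon
  obtain ⟨F0, G0, hF0, hG0, hne0⟩ := hcon
  obtain ⟨⟨F1, G1⟩, hFG1, hmax1⟩ := Finset.exists_max_image
    (Finset.univ.filter (fun q : Finset V × Finset V =>
      Facet D q.1 ∧ Facet D q.2 ∧ q.1.card ≠ q.2.card)) (fun q => (q.1 ∩ q.2).card)
    ⟨(F0, G0), Finset.mem_filter.2 ⟨Finset.mem_univ _, hF0, hG0, hne0⟩⟩
  have hmax1' : ∀ H H', Facet D H → Facet D H' → H.card ≠ H'.card →
      (H ∩ H').card ≤ (F1 ∩ G1).card := fun H H' h1 h2 h3 =>
    hmax1 (H, H') (Finset.mem_filter.2 ⟨Finset.mem_univ _, h1, h2, h3⟩)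
  obtain ⟨-, hF1, hG1, hne1⟩ := Finset.mem_filter.1 hFG1
  simp only at hF1 hG1 hne1
  -- arrange `|G| < |F|`
  obtain ⟨F, G, hF, hG, hlt, hmax⟩ : ∃ F G, Facet D F ∧ Facet D G ∧ G.card < F.card ∧
      ∀ H H', Facet D H → Facet D H' → H.card ≠ H'.card → (H ∩ H').card ≤ (F ∩ G).card := by
    rcases lt_or_gt_of_ne hne1 with h | h
    · refine ⟨G1, F1, hG1, hF1, h, ?_⟩
      rw [Finset.inter_comm]
      exact hmax1'
    · exact ⟨F1, G1, hF1, hG1, h, hmax1'⟩
  obtain ⟨W, hW⟩ : ∃ W, W = F ∩ G := ⟨_, rfl⟩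
  rw [← hW] at hmax
  have hWF : W ⊆ F := hW ▸ Finset.inter_subset_left
  have hWG : W ⊆ G := hW ▸ Finset.inter_subset_right
  have hWcard : W.card < G.card := by
    refine Finset.card_lt_card (Finset.ssubset_iff_subset_ne.2 ⟨hWG, ?_⟩)
    intro hEq
    have : G ⊆ F := hEq ▸ hWF
    have := hG.2 F hF.1 this
    rw [this] at hlt
    exact lt_irrefl _ hlt
  -- facets containing W of different sizes meet in W
  have hmeet : ∀ H H', Facet D H → Facet D H' → W ⊆ H → W ⊆ H' → H.card ≠ H'.card →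
      H ∩ H' = W := by
    intro H H' h1 h2 h3 h4 h5
    exact (Finset.eq_of_subset_of_card_le (Finset.subset_inter h3 h4) (hmax H H' h1 h2 h5)).symm
  have hWfacet : ∀ H, Facet D H → W ⊆ H → ∃ v ∈ H, v ∉ W := by
    intro H hH hWH
    by_contra hcon
    push Not at hcon
    have hHW : H = W := Finset.Subset.antisymm hcon hWH
    have hFH := hH.2 F hF.1 (hHW ▸ hWF)
    rw [hFH, hHW] at hlt
    omega
  -- the class of `F`
  obtain ⟨U, hU⟩ : ∃ U : Finset V, ∀ v, v ∈ U ↔ v ∉ W ∧ ∃ H, Facet D H ∧ W ⊆ H ∧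
      H.card = F.card ∧ v ∈ H :=
    ⟨Finset.univ.filter (fun v => v ∉ W ∧ ∃ H, Facet D H ∧ W ⊆ H ∧ H.card = F.card ∧ v ∈ H),
      fun v => by simp⟩
  have hUW : U ⊆ Finset.univ \ W := fun v hv =>
    Finset.mem_sdiff.2 ⟨Finset.mem_univ _, ((hU v).1 hv).1⟩
  -- mixed products vanish
  have hmix : ∀ v ∈ U, ∀ w, w ∉ W → w ∉ U → xm k W * (X v * X w) ∈ srI k D := by
    intro v hv w hwW hwU
    obtain ⟨hvW, H1, hH1, hWH1, hH1c, hvH1⟩ := (hU v).1 hv
    have hvw : v ≠ w := fun h => hwU (h ▸ hv)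
    have hnot : insert v (insert w W) ∉ D := by
      intro hmem
      obtain ⟨H, hH, hsub⟩ := exists_facet hmem
      have hWH : W ⊆ H := fun z hz =>
        hsub (Finset.mem_insert_of_mem (Finset.mem_insert_of_mem hz))
      have hvH : v ∈ H := hsub (Finset.mem_insert_self _ _)
      have hwH : w ∈ H := hsub (Finset.mem_insert_of_mem (Finset.mem_insert_self _ _))
      by_cases hc : H.card = F.card
      · exact hwU ((hU w).2 ⟨hwW, H, hH, hWH, hc, hwH⟩)
      · have := hmeet H1 H hH1 hH hWH1 hWH (by rw [hH1c]; exact fun h => hc h.symm)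
        exact hvW (this ▸ Finset.mem_inter.2 ⟨hvH1, hvH⟩)
    have heq : xm k (insert v (insert w W)) = xm k W * (X v * X w) := by
      unfold xm
      rw [Finset.prod_insert (by simp [hvw, hvW]), Finset.prod_insert hwW]
      ring
    rw [← heq]
    exact xm_mem hnot
  set x : MvPolynomial V k := ∑ w ∈ Finset.univ \ W, X w with hx
  set f : MvPolynomial V k := ∑ w ∈ U, X w with hf
  have hxf : x - f = ∑ w ∈ (Finset.univ \ W) \ U, X w := by
    rw [hx, hf, ← Finset.sum_sdiff hUW, add_sub_cancel_right]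
  -- x is locally regular
  have hreg : LReg (PP k W) (srI k D) x := by
    intro y hy
    refine ⟨xm k W, xm_notMem_PP, mem_srI_of_PP hD (fun F' hF' => ?_)⟩
    by_cases hWF' : W ⊆ F'
    · obtain ⟨H, hH, hsub⟩ := exists_facet hF'
      have h1 : x * y ∈ PP k H := srI_le_PP hD hH.1 hy
      rcases Ideal.IsPrime.mem_or_mem (inferInstance : (PP k H).IsPrime) h1 with h2 | h2
      · obtain ⟨v, hvH, hvW⟩ := hWfacet H hH (hWF'.trans hsub)
        exact absurd h2 (sum_notMem_PP hvH (Finset.mem_sdiff.2 ⟨Finset.mem_univ _, hvW⟩))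
      · exact Ideal.mul_mem_left _ _ (PP_mono hsub h2)
    · obtain ⟨v, hv, hvF⟩ := Finset.not_subset.1 hWF'
      refine Ideal.mul_mem_right _ _ ?_
      exact Ideal.IsPrime.prod_mem_iff.2 ⟨v, hv, X_mem_PP.2 hvF⟩
  have hxW : x ∈ PP k W := Ideal.sum_mem _ (fun w hw => X_mem_PP.2 (Finset.mem_sdiff.1 hw).2)
  -- the chain of length two
  have hcard2 : 1 < (F \ W).card := by
    have := Finset.card_sdiff_add_card_eq_card hWF
    omega
  obtain ⟨a, b, ha, hb, hab⟩ := Finset.one_lt_card_iff.1 hcard2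
  rw [Finset.mem_sdiff] at ha hb
  have hlt' : ∀ (T : Finset V) (c : V), c ∉ T → PP k (insert c T) < PP k T := by
    intro T c hc
    refine lt_of_le_not_ge (PP_mono (Finset.subset_insert _ _)) (fun hle => ?_)
    exact (X_mem_PP.1 (hle (X_mem_PP.2 hc))) (Finset.mem_insert_self _ _)
  have hchain : HH (srI k D) 2 (PP k W) := by
    refine ⟨PP k (insert a W), inferInstance, hlt' W a ha.2, PP k (insert b (insert a W)),
      inferInstance, hlt' _ b ?_, ?_⟩
    · rw [Finset.mem_insert]
      push Not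
      exact ⟨fun h => hab h.symm, hb.2⟩
    · refine srI_le_PP hD (hD ?_ hF.1)
      intro z hz
      rw [Finset.mem_insert, Finset.mem_insert] at hz
      rcases hz with rfl | rfl | hz
      · exact hb.1
      · exact ha.1
      · exact hWF hz
  have hWS := h (PP k W) inferInstance 2 le_rfl hchain
  obtain ⟨c, hcW, hc, -⟩ := WS_quot hWS hxW hreg
  -- the socle element
  have hsoc : ∀ c ∈ PP k W, c * (xm k W * f) ∈ srI k D ⊔ Ideal.span {x} := by
    have hle : PP k W ≤ Submodule.comap (LinearMap.lsmul (MvPolynomial V k) (MvPolynomial V k)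
        (xm k W * f)) (srI k D ⊔ Ideal.span {x}) := by
      refine PP_le (fun v hv => ?_)
      rw [Submodule.mem_comap, LinearMap.lsmul_apply, smul_eq_mul]
      by_cases hvU : v ∈ U
      · have h1 : xm k W * f * X v = x * (xm k W * X v) - xm k W * (X v * (x - f)) := by ring
        rw [h1]
        refine Ideal.sub_mem _ (mul_mem_sup _) (mem_sup_left' ?_)
        rw [hxf, Finset.mul_sum, Finset.mul_sum]
        refine Ideal.sum_mem _ (fun w hw => ?_)
        rw [Finset.mem_sdiff, Finset.mem_sdiff] at hw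
        exact hmix v hvU w hw.1.2 hw.2
      · have h1 : xm k W * f * X v = ∑ w ∈ U, xm k W * (X w * X v) := by
          rw [hf, Finset.mul_sum, Finset.sum_mul]
          exact Finset.sum_congr rfl (fun w _ => by ring)
        rw [h1]
        exact mem_sup_left' (Ideal.sum_mem _ (fun w hw => hmix w hw v hv hvU))
    intro c hc
    have := hle hc
    rw [Submodule.mem_comap, LinearMap.lsmul_apply, smul_eq_mul, mul_comm] at this
    exact this
  obtain ⟨s, hs, hsf⟩ := hc _ (hsoc c hcW)
  obtain ⟨i, hi, y, hy⟩ := mem_sup_span.1 hsf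
  have hs' : s * xm k W ∉ PP k W := by
    intro h
    rcases Ideal.IsPrime.mem_or_mem (inferInstance : (PP k W).IsPrime) h with h | h
    · exact hs h
    · exact xm_notMem_PP h
  -- modulo `PP F`
  have hA : s * xm k W - y ∈ PP k F := by
    obtain ⟨v, hvF, hvW⟩ := hWfacet F hF hWF
    have hfF : f ∉ PP k F := sum_notMem_PP hvF ((hU v).2 ⟨hvW, F, hF, hWF, rfl, hvF⟩)
    have hxfF : x - f ∈ PP k F := by
      rw [hxf]
      refine Ideal.sum_mem _ (fun w hw => X_mem_PP.2 (fun hwF => ?_))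
      rw [Finset.mem_sdiff, Finset.mem_sdiff] at hw
      exact hw.2 ((hU w).2 ⟨hw.1.2, F, hF, hWF, rfl, hwF⟩)
    have h1 : (s * xm k W - y) * f ∈ PP k F := by
      have : (s * xm k W - y) * f = i + (x - f) * y := by linear_combination hy
      rw [this]
      exact Ideal.add_mem _ (srI_le_PP hD hF.1 hi) (Ideal.mul_mem_right _ _ hxfF)
    exact (Ideal.IsPrime.mem_or_mem (inferInstance : (PP k F).IsPrime) h1).resolve_right hfF
  have hB : y ∈ PP k G := by
    obtain ⟨v, hvG, hvW⟩ := hWfacet G hG hWG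
    have hxG : x ∉ PP k G := sum_notMem_PP hvG (Finset.mem_sdiff.2 ⟨Finset.mem_univ _, hvW⟩)
    have hfG : f ∈ PP k G := by
      refine Ideal.sum_mem _ (fun w hw => X_mem_PP.2 (fun hwG => ?_))
      obtain ⟨hwW, H, hH, hWH, hHc, hwH⟩ := (hU w).1 hw
      have := hmeet H G hH hG hWH hWG (by rw [hHc]; exact hlt.ne')
      exact hwW (this ▸ Finset.mem_inter.2 ⟨hwH, hwG⟩)
    have h1 : x * y ∈ PP k G := by
      have : x * y = s * xm k W * f - i := by linear_combination -hy
      rw [this]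
      exact Ideal.sub_mem _ (Ideal.mul_mem_left _ _ hfG) (srI_le_PP hD hG.1 hi)
    exact (Ideal.IsPrime.mem_or_mem (inferInstance : (PP k G).IsPrime) h1).resolve_left hxG
  apply hs'
  have : s * xm k W = (s * xm k W - y) + y := by ring
  rw [this]
  exact Ideal.add_mem _ (PP_mono hWF hA) (PP_mono hWG hB)

theorem SS_anti {S : Type*} [CommRing S] {I : Ideal S} {ℓ ℓ' : ℕ} (h : ℓ' ≤ ℓ) (hS : SS I ℓ) :
    SS I ℓ' := fun P hP n hn hH => hS P hP n (hn.trans h) hH

/-- the core theorem -/
theorem core [Finite V] [DecidableEq V] {D : Set (Finset V)} (hD : IsLowerSet D)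
    {A : Set (Finset V)} (hAD : A ⊆ D) (hind : ∀ σ ∈ A, ∀ τ ∈ A, σ ≠ τ → σ ∪ τ ∉ D)
    (hexc : ∀ F, Facet D F → ∃ σ ∈ A, σ ⊆ F) (ℓ : ℕ) (h : SS (srI k D) ℓ) :
    SS (srI k (rem D A)) ℓ := by
  classical
  rcases Nat.lt_or_ge ℓ 2 with hℓ | hℓ
  · exact SS_anti (by omega : ℓ ≤ 1) (SS_one (rem_lower hD A))
  have hpure := pure hD (SS_anti hℓ h)
  intro P hP n hn hH
  have hremP : srI k (rem D A) ≤ P := HH_le hH
  have hremD : srI k D ≤ srI k (rem D A) := srI_anti (fun τ hτ => hτ.1)
  -- the dimension estimate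
  have hdim : ∀ σ ∈ A, srI k (st D σ) ≤ P → ∀ v ∈ σ, (X v : MvPolynomial V k) ∈ P →
      HH (srI k (st D σ) ⊔ Ideal.span {X v}) n P := by
    intro σ hσ hle v hv hvP
    have := Fintype.ofFinite V
    obtain ⟨G, hG, hHG⟩ := HH_exists_PP n P hP hH
    have hWσ : Finset.univ.filter (fun w => (X w : MvPolynomial V k) ∉ P) ∈ st D σ :=
      srI_le_prime hle (fun w hw => (Finset.mem_filter.1 hw).2)
    have hWσ' : Finset.univ.filter (fun w => (X w : MvPolynomial V k) ∉ P) ∪ σ ∈ D := hWσ
    obtain ⟨F, hF, hsub⟩ := exists_facet hWσ'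
    have hvF : v ∈ F := hsub (Finset.mem_union_right _ hv)
    have h1 : ∀ w, (X w : MvPolynomial V k) ∉ P → w ∈ F.erase v := by
      intro w hw
      refine Finset.mem_erase.2 ⟨?_, hsub (Finset.mem_union_left _ (Finset.mem_filter.2
        ⟨Finset.mem_univ _, hw⟩))⟩
      rintro rfl
      exact hw hvP
    have h2 : G.card ≤ (F.erase v).card := by
      obtain ⟨F1, hF1, hGF1⟩ := exists_facet hG.1
      obtain ⟨ρ, hρ, hρF⟩ := hexc F1 hF1
      have hlt : G.card < F1.card := by
        refine Finset.card_lt_card (Finset.ssubset_iff_subset_ne.2 ⟨hGF1, ?_⟩)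
        rintro rfl
        exact hG.2 ρ hρ hρF
      rw [Finset.card_erase_of_mem hvF, ← hpure F1 F hF1 hF]
      omega
    refine HH_anti (sup_le ?_ ?_) (HH_exchange h1 _ G rfl h2 hHG)
    · refine srI_le_PP (st_lower hD σ) ?_
      show F.erase v ∪ σ ∈ D
      refine hD ?_ hF.1
      intro w hw
      rcases Finset.mem_union.1 hw with hw | hw
      · exact Finset.mem_of_mem_erase hw
      · exact hsub (Finset.mem_union_right _ hw)
    · rw [Ideal.span_singleton_le_iff_mem]
      exact X_mem_PP.2 (Finset.notMem_erase _ _)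
  have hmain : ∀ A' : Finset (Finset V), (∀ σ ∈ A', σ ∈ A) →
      WS P n (srI k (rem D (A' : Set (Finset V)))) := by
    intro A'
    induction A' using Finset.induction_on with
    | empty =>
      intro _
      have : rem D ((∅ : Finset (Finset V)) : Set (Finset V)) = D := by
        ext τ; simp [rem]
      rw [this]
      exact h P hP n hn (HH_anti hremD hH)
    | insert σ A' hσA' ih =>
      intro hA'
      have hσ : σ ∈ A := hA' σ (Finset.mem_insert_self _ _)
      have ih' := ih (fun τ hτ => hA' τ (Finset.mem_insert_of_mem hτ))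
      rw [Finset.coe_insert, rem_insert_eq]
      refine WS_colon (K := srI k (st D σ)) (fun f => colon_eq hD ?_ f) ih' ?_
      · intro τ hτ
        refine hind τ (hA' τ (Finset.mem_insert_of_mem hτ)) σ hσ ?_
        rintro rfl
        exact hσA' hτ
      · by_cases hle : srI k (st D σ) ≤ P
        · have hxσ : xm k σ ∈ P :=
            hremP (xm_mem (fun hmem => hmem.2 σ hσ (Finset.Subset.refl _)))
          unfold xm at hxσ
          rw [Ideal.IsPrime.prod_mem_iff] at hxσ
          obtain ⟨v, hv, hvP⟩ := hxσ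
          refine ⟨X v, hvP, ?_, WS_cone hv (SS_st hD σ h) hvP hn (hdim σ hσ hle v hv hvP)⟩
          intro f hf
          refine ⟨1, fun h1 => hP.ne_top ((Ideal.eq_top_iff_one P).2 h1), ?_⟩
          rw [one_mul]
          have hXv : (X v : MvPolynomial V k) = xm k {v} := by
            unfold xm; rw [Finset.prod_singleton]
          rw [hXv, xm_mul_mem (st_lower hD σ)] at hf
          rw [mem_srI (st_lower hD σ)]
          intro m hm hmem
          refine hf m hm ?_
          show m.support ∪ {v} ∪ σ ∈ D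
          refine hD ?_ (hmem : m.support ∪ σ ∈ D)
          intro w hw
          simp only [Finset.mem_union, Finset.mem_singleton] at hw ⊢
          rcases hw with (hw | rfl) | hw
          · exact Or.inl hw
          · exact Or.inr hv
          · exact Or.inr hw
        · exact WS_of_not_le hle _
  have hfin : A.Finite := Set.toFinite A
  have := hmain hfin.toFinset (fun σ hσ => hfin.mem_toFinset.1 hσ)
  rwa [hfin.coe_toFinset] at this

end Pure

end Pool.Agent.Lib_helper29.SR
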