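import Pool.Agent.Lib_helper29.SR7

/-! Conversion between the usual form of Serre's condition and `SS`. -/

namespace Pool.Agent.Lib_helper29.SR

open RingTheory.Sequence
open scoped Pointwise

section RegSeq
variable {R : Type*} [CommRing R]

theorem isSMulRegular_iff_Reg (I : Ideal R) (r : R) : IsSMulRegular (R ⧸ I) r ↔ Reg I r := by
  rw [isSMulRegular_iff_right_eq_zero_of_smul]
  constructor
  · intro h x hx
    have := h (Ideal.Quotient.mk I x) (by
      rw [Algebra.smul_def, Ideal.Quotient.algebraMap_eq, ← map_mul]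
      exact Ideal.Quotient.eq_zero_iff_mem.2 hx)
    exact Ideal.Quotient.eq_zero_iff_mem.1 this
  · intro h x hx
    obtain ⟨x, rfl⟩ := Ideal.Quotient.mk_surjective x
    rw [Algebra.smul_def, Ideal.Quotient.algebraMap_eq, ← map_mul,
      Ideal.Quotient.eq_zero_iff_mem] at hx
    exact Ideal.Quotient.eq_zero_iff_mem.2 (h x hx)

theorem smul_top_quot (I : Ideal R) (r : R) :
    (r • (⊤ : Submodule R (R ⧸ I))) = Submodule.map I.mkQ (Ideal.span {r}) := by
  ext x
  rw [Submodule.mem_smul_pointwise_iff_exists, Submodule.mem_map]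
  constructor
  · rintro ⟨y, -, rfl⟩
    obtain ⟨y, rfl⟩ := Submodule.mkQ_surjective I y
    exact ⟨r • y, Ideal.mul_mem_right _ _ (Ideal.mem_span_singleton_self r), by rw [map_smul]⟩
  · rintro ⟨y, hy, rfl⟩
    obtain ⟨z, rfl⟩ := Ideal.mem_span_singleton'.1 hy
    exact ⟨I.mkQ z, trivial, by rw [← map_smul, smul_eq_mul, mul_comm]⟩

/-- the quotient of `R ⧸ I` by `r` -/
noncomputable def quotEquiv (I : Ideal R) (r : R) :
    QuotSMulTop r (R ⧸ I) ≃ₗ[R] R ⧸ (I ⊔ Ideal.span {r}) :=
  (Submodule.quotEquivOfEq _ _ (smul_top_quot I r)).trans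
    (Submodule.quotientQuotientEquivQuotientSup I (Ideal.span {r}))

theorem W_iff_exists (J : Ideal R) : ∀ (n : ℕ) (I : Ideal R),
    W J n I ↔ ∃ rs : List R, rs.length = n ∧ (∀ r ∈ rs, r ∈ J) ∧ IsWeaklyRegular (R ⧸ I) rs := by
  intro n
  induction n with
  | zero =>
    intro I
    exact ⟨fun _ => ⟨[], rfl, by simp, IsWeaklyRegular.nil _ _⟩, fun _ => trivial⟩
  | succ n ih =>
    intro I
    constructor
    · rintro ⟨a, haJ, ha, hW⟩
      obtain ⟨rs, hl, hJ, hreg⟩ := (ih _).1 hW
      refine ⟨a :: rs, by simp [hl], ?_, ?_⟩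
      · intro r hr
        rcases List.mem_cons.1 hr with rfl | hr
        · exact haJ
        · exact hJ r hr
      · rw [isWeaklyRegular_cons_iff]
        exact ⟨(isSMulRegular_iff_Reg I a).2 ha,
          ((quotEquiv I a).isWeaklyRegular_congr rs).2 hreg⟩
    · rintro ⟨rs, hl, hJ, hreg⟩
      match rs, hl with
      | a :: rs, hl =>
        rw [isWeaklyRegular_cons_iff] at hreg
        refine ⟨a, hJ a (List.mem_cons_self ..), (isSMulRegular_iff_Reg I a).1 hreg.1,
          (ih _).2 ⟨rs, by simpa using hl, fun r hr => hJ r (List.mem_cons_of_mem _ hr),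
            ((quotEquiv I a).isWeaklyRegular_congr rs).1 hreg.2⟩⟩

theorem W_pred {J : Ideal R} : ∀ (n : ℕ) (I : Ideal R), W J (n + 1) I → W J n I := by
  intro n
  induction n with
  | zero => intros; trivial
  | succ n ih =>
    rintro I ⟨a, haJ, ha, hW⟩
    exact ⟨a, haJ, ha, ih _ hW⟩

theorem W_le {J : Ideal R} {m n : ℕ} (h : n ≤ m) {I : Ideal R} (hW : W J m I) : W J n I := by
  induction h with
  | refl => exact hW
  | step _ ih => exact ih (W_pred _ _ hW)

end RegSeq

/-- Depth of a local ring: the supremum of the lengths of the regular sequences contained in its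
maximal ideal. -/
noncomputable def dep (R : Type*) [CommRing R] [IsLocalRing R] : ℕ∞ :=
  ⨆ rs : {rs : List R // (∀ r ∈ rs, r ∈ IsLocalRing.maximalIdeal R) ∧ IsRegular R rs},
    (rs.1.length : ℕ∞)

theorem le_dep_iff {R : Type*} [CommRing R] [IsLocalRing R] (n : ℕ) :
    (n : ℕ∞) ≤ dep R ↔ W (IsLocalRing.maximalIdeal R) n ⊥ := by
  constructor
  · intro h
    rcases Nat.eq_zero_or_pos n with rfl | hn
    · trivial
    have : ∃ rs : {rs : List R // (∀ r ∈ rs, r ∈ IsLocalRing.maximalIdeal R) ∧ IsRegular R rs},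
        n ≤ rs.1.length := by
      by_contra hcon
      push Not at hcon
      have h1 : dep R ≤ ((n - 1 : ℕ) : ℕ∞) := by
        refine iSup_le (fun rs => ?_)
        exact_mod_cast Nat.le_sub_one_of_lt (hcon rs)
      have h2 := h.trans h1
      have h3 : n ≤ n - 1 := by exact_mod_cast h2
      omega
    obtain ⟨⟨rs, hrs, hreg⟩, hle⟩ := this
    refine W_le hle ((W_iff_exists _ _ _).2 ⟨rs, rfl, hrs, ?_⟩)
    exact ((Submodule.quotEquivOfEqBot (⊥ : Ideal R) rfl).isWeaklyRegular_congr rs).2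
      hreg.toIsWeaklyRegular
  · intro h
    obtain ⟨rs, hl, hrs, hreg⟩ := (W_iff_exists _ _ _).1 h
    have h1 : IsWeaklyRegular R rs :=
      ((Submodule.quotEquivOfEqBot (⊥ : Ideal R) rfl).isWeaklyRegular_congr rs).1 hreg
    have h2 : IsRegular R rs :=
      (IsLocalRing.isRegular_iff_isWeaklyRegular_of_subset_maximalIdeal hrs).2 h1
    rw [← hl]
    exact le_iSup (fun rs : {rs : List R // (∀ r ∈ rs, r ∈ IsLocalRing.maximalIdeal R) ∧
      IsRegular R rs} => (rs.1.length : ℕ∞)) ⟨rs, hrs, h2⟩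

/-- Serre's condition `(S_ℓ)`. -/
def Serre (R : Type*) [CommRing R] (ℓ : ℕ) : Prop :=
  ∀ (p : Ideal R) [p.IsPrime], min (ℓ : WithBot ℕ∞) (ringKrullDim (Localization.AtPrime p)) ≤
    (dep (Localization.AtPrime p) : WithBot ℕ∞)

theorem le_height_iff {R : Type*} [CommRing R] : ∀ (n : ℕ) (p : Ideal R) [p.IsPrime],
    (n : ℕ∞) ≤ p.height ↔ HH (⊥ : Ideal R) n p := by
  intro n
  induction n with
  | zero => intro p _; simp [HH]
  | succ n ih =>
    intro p hp
    constructor
    · intro h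
      have h' : ((n + 1 : ℕ) : ℕ∞) ≤ Order.height (⟨p, hp⟩ : PrimeSpectrum R) := by
        rw [← PrimeSpectrum.height_eq_orderHeight]; exact h
      obtain ⟨l, hlast, hlen⟩ := Order.exists_series_of_le_height
        (⟨p, hp⟩ : PrimeSpectrum R) (n := n + 1) h'
      have h0 : l.length ≠ 0 := by omega
      refine ⟨(l.eraseLast.last).asIdeal, (l.eraseLast.last).isPrime, ?_, ?_⟩
      · have h1 : l.eraseLast.last < l.last := l.eraseLast_last_rel_last h0
        rw [hlast] at h1
        exact h1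
      · have hpr : (l.eraseLast.last).asIdeal.IsPrime := (l.eraseLast.last).isPrime
        rw [← ih, PrimeSpectrum.height_eq_orderHeight]
        have h2 := Order.length_le_height_last (p := l.eraseLast)
        have h3 : l.eraseLast.length = n := by simp [hlen]
        rw [h3] at h2
        exact h2
    · rintro ⟨Q, hQ, hQp, hH⟩
      have h1 := (ih Q).2 hH
      have h2 := Ideal.height_add_one_le_of_lt_of_isPrime hQp
      refine le_trans ?_ h2
      push_cast
      gcongr

theorem Serre_iff {S : Type*} [CommRing S] (I : Ideal S) (ℓ : ℕ) :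
    Serre (S ⧸ I) ℓ ↔ SS I ℓ := by
  have hmk := Ideal.Quotient.mk_surjective (I := I)
  have hbot : (⊥ : Ideal (S ⧸ I)).comap (Ideal.Quotient.mk I) = I := by
    rw [← RingHom.ker_eq_comap_bot, Ideal.mk_ker]
  have key : ∀ (p : Ideal (S ⧸ I)) [p.IsPrime] (n : ℕ),
      ((n : ℕ∞) ≤ dep (Localization.AtPrime p) ↔ WS (p.comap (Ideal.Quotient.mk I)) n I) ∧
      ((n : ℕ∞) ≤ p.height ↔ HH I n (p.comap (Ideal.Quotient.mk I))) := by
    intro p hp n
    constructor
    · rw [le_dep_iff, ← IsLocalization.AtPrime.map_eq_maximalIdeal p (Localization.AtPrime p)]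
      have h1 := WS_iff p n ⊥
      rw [Ideal.map_bot] at h1
      rw [← h1, ← WS_comap hmk, hbot]
    · rw [le_height_iff]
      constructor
      · intro h
        have := HH_comap hmk _ _ _ h
        rwa [hbot] at this
      · intro h
        refine HH_of_comap hmk _ _ _ ?_
        rwa [hbot]
  constructor
  · intro h P hP n hn hH
    have hle : I ≤ P := HH_le hH
    have hcomap : (P.map (Ideal.Quotient.mk I)).comap (Ideal.Quotient.mk I) = P := by
      rw [Ideal.comap_map_of_surjective' _ hmk, Ideal.mk_ker, sup_eq_left]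
      exact hle
    have hp : (P.map (Ideal.Quotient.mk I)).IsPrime :=
      Ideal.map_isPrime_of_surjective hmk (by rw [Ideal.mk_ker]; exact hle)
    obtain ⟨k1, k2⟩ := key (P.map (Ideal.Quotient.mk I)) n
    rw [hcomap] at k1 k2
    refine k1.1 ?_
    have h1 := h (P.map (Ideal.Quotient.mk I))
    rw [IsLocalization.AtPrime.ringKrullDim_eq_height (P.map (Ideal.Quotient.mk I))] at h1
    have h2 : ((n : ℕ∞) : WithBot ℕ∞) ≤ min (ℓ : WithBot ℕ∞)
        ((P.map (Ideal.Quotient.mk I)).height : WithBot ℕ∞) := by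
      refine le_min ?_ ?_
      · exact_mod_cast hn
      · exact WithBot.coe_le_coe.2 (k2.2 hH)
    exact WithBot.coe_le_coe.1 (h2.trans h1)
  · intro h p hp
    rw [IsLocalization.AtPrime.ringKrullDim_eq_height p]
    have h1 : min (ℓ : WithBot ℕ∞) (p.height : WithBot ℕ∞) =
        ((min (ℓ : ℕ∞) p.height : ℕ∞) : WithBot ℕ∞) := by
      rw [WithBot.coe_min]; rfl
    rw [h1]
    refine WithBot.coe_le_coe.2 ?_
    have hfin : min (ℓ : ℕ∞) p.height ≠ ⊤ := by
      intro h
      have := (min_eq_top.1 h).1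
      exact ENat.natCast_ne_top _ this
    obtain ⟨n, hn⟩ := ENat.ne_top_iff_exists.1 hfin
    rw [← hn]
    have hnℓ : n ≤ ℓ := by
      have : (n : ℕ∞) ≤ ℓ := hn ▸ min_le_left _ _
      exact_mod_cast this
    have hnh : (n : ℕ∞) ≤ p.height := hn ▸ min_le_right _ _
    obtain ⟨k1, k2⟩ := key p n
    exact k1.2 (h _ (Ideal.comap_isPrime _ _) n hnℓ (k2.1 hnh))

end Pool.Agent.Lib_helper29.SR
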