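import Mathlib

/-!
# Uniform exponents of degree two: the two families of norms

An integer triple is read either as the polynomial `a + b X + c X ^ 2` (with the norm `NV`)
or as a point of the dual lattice (with the norm `NP`).
-/

namespace UE

/-- An integer triple. -/
@[ext] structure Z3 where
  a : ℤ
  b : ℤ
  c : ℤ

/-- The value at `x` of the polynomial `a + b X + c X ^ 2`. -/
noncomputable def ev (P : Z3) (x : ℝ) : ℝ := P.a + P.b * x + P.c * x ^ 2

/-- The value at `x` of the derivative. -/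
noncomputable def dv (P : Z3) (x : ℝ) : ℝ := P.b + 2 * P.c * x

/-- Second coordinate of a point, relative to `x`. -/
noncomputable def yv (X : Z3) (x : ℝ) : ℝ := X.b - x * X.a

/-- Third coordinate of a point, relative to `x`. -/
noncomputable def zv (X : Z3) (x : ℝ) : ℝ := X.c - 2 * x * X.b + x ^ 2 * X.a

/-- Norm of a polynomial at the scale `R = exp r` with parameter `T = exp t`. -/
noncomputable def NV (r t x : ℝ) (P : Z3) : ℝ :=
  max (Real.exp t * |ev P x|)
    (max (Real.exp (t - r) * |dv P x|) (Real.exp (r - 2 * t) * |(P.c : ℝ)|))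

/-- Norm of a point at the scale `R = exp r` with parameter `T = exp t`. -/
noncomputable def NP (r t x : ℝ) (X : Z3) : ℝ :=
  max (Real.exp (-t) * |(X.a : ℝ)|)
    (max (Real.exp (r - t) * |yv X x|) (Real.exp (2 * t - r) * |zv X x|))

/-- Cross product. -/
def crs (P Q : Z3) : Z3 :=
  ⟨P.b * Q.c - P.c * Q.b, P.c * Q.a - P.a * Q.c, P.a * Q.b - P.b * Q.a⟩

/-- The binary form attached to the triple has no nontrivial integer zero. -/
def Irr (P : Z3) : Prop :=
  ∀ A B : ℤ, (A ≠ 0 ∨ B ≠ 0) → P.a * A ^ 2 + P.b * A * B + P.c * B ^ 2 ≠ 0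

/-- The point is not on the cone. -/
def Nz (X : Z3) : Prop := X.a * X.c - X.b ^ 2 ≠ 0

theorem exp_mul_le_iff (s u N : ℝ) : Real.exp s * u ≤ N ↔ u ≤ N * Real.exp (-s) := by
  rw [Real.exp_neg, ← div_eq_mul_inv, le_div_iff₀ (Real.exp_pos s), mul_comm]

theorem NV_le_iff (r t x N : ℝ) (P : Z3) :
    NV r t x P ≤ N ↔ |ev P x| ≤ N * Real.exp (-t) ∧ |dv P x| ≤ N * Real.exp (r - t) ∧
      |(P.c : ℝ)| ≤ N * Real.exp (2 * t - r) := by
  unfold NV
  rw [max_le_iff, max_le_iff, exp_mul_le_iff, exp_mul_le_iff, exp_mul_le_iff,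
    show -(t - r) = r - t by ring, show -(r - 2 * t) = 2 * t - r by ring]

theorem NP_le_iff (r t x N : ℝ) (X : Z3) :
    NP r t x X ≤ N ↔ |(X.a : ℝ)| ≤ N * Real.exp t ∧ |yv X x| ≤ N * Real.exp (t - r) ∧
      |zv X x| ≤ N * Real.exp (r - 2 * t) := by
  unfold NP
  rw [max_le_iff, max_le_iff, exp_mul_le_iff, exp_mul_le_iff, exp_mul_le_iff,
    show -(r - t) = t - r by ring, show -(2 * t - r) = r - 2 * t by ring, neg_neg]

theorem NV_nonneg (r t x : ℝ) (P : Z3) : 0 ≤ NV r t x P :=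
  le_trans (mul_nonneg (Real.exp_pos _).le (abs_nonneg _)) (le_max_left _ _)

theorem NP_nonneg (r t x : ℝ) (X : Z3) : 0 ≤ NP r t x X :=
  le_trans (mul_nonneg (Real.exp_pos _).le (abs_nonneg _)) (le_max_left _ _)

/-- Monotonicity helper. -/
theorem mul_exp_le {N s u : ℝ} (hN : 0 ≤ N) (h : s ≤ u) : N * Real.exp s ≤ N * Real.exp u :=
  mul_le_mul_of_nonneg_left (Real.exp_le_exp.mpr h) hN

/-- Comparison of the polynomial norms at two nearby scales and base points. -/
theorem NV_compare {r r' t t' x x' k : ℝ} (P : Z3) (hr : r ≤ r') (hrk : r' - r ≤ k)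
    (ht : t ≤ t') (htk : t' - t ≤ k) (htr' : t' ≤ r') (hx : |x - x'| ≤ Real.exp (-r)) :
    NV r t x P ≤ 3 * Real.exp (2 * k) * NV r' t' x' P := by
  have hk : 0 ≤ k := by linarith
  set N := NV r' t' x' P with hNdef
  have hN : 0 ≤ N := NV_nonneg _ _ _ _
  obtain ⟨h1, h2, h3⟩ := (NV_le_iff r' t' x' N P).mp le_rfl
  rw [NV_le_iff]
  have e1 : ev P x = ev P x' + (x - x') * dv P x' + (x - x') ^ 2 * P.c := by
    unfold ev dv; ring
  have e2 : dv P x = dv P x' + 2 * ((x - x') * P.c) := by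
    unfold dv; ring
  have b1 : |(x - x') * dv P x'| ≤ N * Real.exp (-r + (r' - t')) := by
    rw [abs_mul, Real.exp_add, ← mul_assoc, mul_comm N, mul_assoc]
    exact mul_le_mul hx h2 (abs_nonneg _) (Real.exp_pos _).le
  have b2 : |(x - x') * (P.c : ℝ)| ≤ N * Real.exp (-r + (2 * t' - r')) := by
    rw [abs_mul, Real.exp_add, ← mul_assoc, mul_comm N, mul_assoc]
    exact mul_le_mul hx h3 (abs_nonneg _) (Real.exp_pos _).le
  have b3 : |(x - x') ^ 2 * (P.c : ℝ)| ≤ N * Real.exp (-2 * r + (2 * t' - r')) := by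
    have hsq : |(x - x') ^ 2| ≤ Real.exp (-2 * r) := by
      rw [abs_pow, show (-2 * r) = -r + -r by ring, Real.exp_add, ← pow_two]
      exact pow_le_pow_left₀ (abs_nonneg _) hx 2
    rw [abs_mul, Real.exp_add, ← mul_assoc, mul_comm N, mul_assoc]
    exact mul_le_mul hsq h3 (abs_nonneg _) (Real.exp_pos _).le
  have key : ∀ s u : ℝ, s ≤ 2 * k + u → N * Real.exp s ≤ Real.exp (2 * k) * N * Real.exp u := by
    intro s u hsu
    have := mul_exp_le hN hsu
    rw [Real.exp_add] at this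
    calc N * Real.exp s ≤ N * (Real.exp (2 * k) * Real.exp u) := this
      _ = _ := by ring
  refine ⟨?_, ?_, ?_⟩
  · rw [e1]
    have c1 := key (-t') (-t) (by linarith)
    have c2 := key (-r + (r' - t')) (-t) (by linarith)
    have c3 := key (-2 * r + (2 * t' - r')) (-t) (by linarith)
    calc |ev P x' + (x - x') * dv P x' + (x - x') ^ 2 * P.c|
        ≤ |ev P x'| + |(x - x') * dv P x'| + |(x - x') ^ 2 * (P.c : ℝ)| := abs_add_three _ _ _
      _ ≤ 3 * Real.exp (2 * k) * N * Real.exp (-t) := by linarith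
  · rw [e2]
    have c1 := key (r' - t') (r - t) (by linarith)
    have c2 := key (-r + (2 * t' - r')) (r - t) (by linarith)
    calc |dv P x' + 2 * ((x - x') * P.c)|
        ≤ |dv P x'| + |2 * ((x - x') * (P.c : ℝ))| := abs_add_le _ _
      _ = |dv P x'| + 2 * |(x - x') * (P.c : ℝ)| := by rw [abs_mul 2, abs_two]
      _ ≤ 3 * Real.exp (2 * k) * N * Real.exp (r - t) := by linarith
  · have c1 := key (2 * t' - r') (2 * t - r) (by linarith)
    have h0 : 0 ≤ Real.exp (2 * k) * N * Real.exp (2 * t - r) := by positivity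
    linarith

/-- Comparison of the point norms at two nearby scales and base points. -/
theorem NP_compare {r r' t t' x x' k : ℝ} (X : Z3) (hr : r ≤ r') (hrk : r' - r ≤ k)
    (ht : t ≤ t') (htk : t' - t ≤ k) (htr : t ≤ r) (htr' : t' ≤ r')
    (hx : |x - x'| ≤ Real.exp (-r)) :
    NP r t x X ≤ 4 * Real.exp k * NP r' t' x' X := by
  have hk : 0 ≤ k := by linarith
  set N := NP r' t' x' X with hNdef
  have hN : 0 ≤ N := NP_nonneg _ _ _ _
  obtain ⟨h1, h2, h3⟩ := (NP_le_iff r' t' x' N X).mp le_rfl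
  rw [NP_le_iff]
  have e1 : yv X x = yv X x' - (x - x') * X.a := by
    unfold yv; ring
  have e2 : zv X x = zv X x' - 2 * ((x - x') * yv X x') + (x - x') ^ 2 * X.a := by
    unfold zv yv; ring
  have b1 : |(x - x') * (X.a : ℝ)| ≤ N * Real.exp (-r + t') := by
    rw [abs_mul, Real.exp_add, ← mul_assoc, mul_comm N, mul_assoc]
    exact mul_le_mul hx h1 (abs_nonneg _) (Real.exp_pos _).le
  have b2 : |(x - x') * yv X x'| ≤ N * Real.exp (-r + (t' - r')) := by
    rw [abs_mul, Real.exp_add, ← mul_assoc, mul_comm N, mul_assoc]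
    exact mul_le_mul hx h2 (abs_nonneg _) (Real.exp_pos _).le
  have b3 : |(x - x') ^ 2 * (X.a : ℝ)| ≤ N * Real.exp (-2 * r + t') := by
    have hsq : |(x - x') ^ 2| ≤ Real.exp (-2 * r) := by
      rw [abs_pow, show (-2 * r) = -r + -r by ring, Real.exp_add, ← pow_two]
      exact pow_le_pow_left₀ (abs_nonneg _) hx 2
    rw [abs_mul, Real.exp_add, ← mul_assoc, mul_comm N, mul_assoc]
    exact mul_le_mul hsq h1 (abs_nonneg _) (Real.exp_pos _).le
  have key : ∀ s u : ℝ, s ≤ k + u → N * Real.exp s ≤ Real.exp k * N * Real.exp u := by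
    intro s u hsu
    have := mul_exp_le hN hsu
    rw [Real.exp_add] at this
    calc N * Real.exp s ≤ N * (Real.exp k * Real.exp u) := this
      _ = _ := by ring
  refine ⟨?_, ?_, ?_⟩
  · have c1 := key t' t (by linarith)
    have h0 : 0 ≤ Real.exp k * N * Real.exp t := by positivity
    linarith
  · rw [e1]
    have c1 := key (t' - r') (t - r) (by linarith)
    have c2 := key (-r + t') (t - r) (by linarith)
    have h0 : 0 ≤ Real.exp k * N * Real.exp (t - r) := by positivity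
    calc |yv X x' - (x - x') * X.a|
        ≤ |yv X x'| + |(x - x') * (X.a : ℝ)| := abs_sub _ _
      _ ≤ 4 * Real.exp k * N * Real.exp (t - r) := by linarith
  · rw [e2]
    have c1 := key (r' - 2 * t') (r - 2 * t) (by linarith)
    have c2 := key (-r + (t' - r')) (r - 2 * t) (by linarith)
    have c3 := key (-2 * r + t') (r - 2 * t) (by linarith)
    have habs : |zv X x' - 2 * ((x - x') * yv X x') + (x - x') ^ 2 * X.a|
        ≤ |zv X x'| + 2 * |(x - x') * yv X x'| + |(x - x') ^ 2 * (X.a : ℝ)| := by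
      calc |zv X x' - 2 * ((x - x') * yv X x') + (x - x') ^ 2 * X.a|
          ≤ |zv X x' - 2 * ((x - x') * yv X x')| + |(x - x') ^ 2 * (X.a : ℝ)| := abs_add_le _ _
        _ ≤ |zv X x'| + |2 * ((x - x') * yv X x')| + |(x - x') ^ 2 * (X.a : ℝ)| := by
            gcongr; exact abs_sub _ _
        _ = _ := by rw [abs_mul 2, abs_two]
    linarith

theorem crs_a (P Q : Z3) (x : ℝ) : ((crs P Q).a : ℝ) = dv P x * Q.c - P.c * dv Q x := by
  simp only [crs, dv]; push_cast; ring

theorem crs_y (P Q : Z3) (x : ℝ) : yv (crs P Q) x = P.c * ev Q x - ev P x * Q.c := by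
  simp only [crs, yv, ev]; push_cast; ring

theorem crs_z (P Q : Z3) (x : ℝ) : zv (crs P Q) x = ev P x * dv Q x - dv P x * ev Q x := by
  simp only [crs, zv, ev, dv]; push_cast; ring

theorem crs_c (X Y : Z3) (x : ℝ) : ((crs X Y).c : ℝ) = X.a * yv Y x - yv X x * Y.a := by
  simp only [crs, yv]; push_cast; ring

theorem crs_dv (X Y : Z3) (x : ℝ) : dv (crs X Y) x = zv X x * Y.a - X.a * zv Y x := by
  simp only [crs, dv, zv]; push_cast; ring

theorem crs_ev (X Y : Z3) (x : ℝ) : ev (crs X Y) x = yv X x * zv Y x - zv X x * yv Y x := by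
  simp only [crs, ev, zv, yv]; push_cast; ring

theorem abs_sub_mul_le {p q p' q' a b c d s : ℝ} {M N : ℝ} (hM : 0 ≤ M) (hN : 0 ≤ N)
    (h1 : |p| ≤ M * Real.exp a) (h2 : |q| ≤ N * Real.exp b)
    (h3 : |p'| ≤ M * Real.exp c) (h4 : |q'| ≤ N * Real.exp d) (e1 : a + b = s) (e2 : c + d = s) :
    |p * q - p' * q'| ≤ 2 * M * N * Real.exp s := by
  have k1 : |p * q| ≤ M * N * Real.exp s := by
    rw [abs_mul, ← e1, Real.exp_add]
    calc |p| * |q| ≤ (M * Real.exp a) * (N * Real.exp b) :=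
          mul_le_mul h1 h2 (abs_nonneg _) (by positivity)
      _ = _ := by ring
  have k2 : |p' * q'| ≤ M * N * Real.exp s := by
    rw [abs_mul, ← e2, Real.exp_add]
    calc |p'| * |q'| ≤ (M * Real.exp c) * (N * Real.exp d) :=
          mul_le_mul h3 h4 (abs_nonneg _) (by positivity)
      _ = _ := by ring
  calc |p * q - p' * q'| ≤ |p * q| + |p' * q'| := abs_sub _ _
    _ ≤ _ := by linarith

/-- The point norm of a cross product of two polynomials. -/
theorem NP_crs_le (r t x : ℝ) (P Q : Z3) :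
    NP r t x (crs P Q) ≤ 2 * NV r t x P * NV r t x Q := by
  obtain ⟨p1, p2, p3⟩ := (NV_le_iff r t x _ P).mp le_rfl
  obtain ⟨q1, q2, q3⟩ := (NV_le_iff r t x _ Q).mp le_rfl
  have hP := NV_nonneg r t x P
  have hQ := NV_nonneg r t x Q
  rw [NP_le_iff, crs_a P Q x, crs_y, crs_z]
  refine ⟨?_, ?_, ?_⟩
  · exact abs_sub_mul_le hP hQ p2 q3 p3 q2 (by ring) (by ring)
  · exact abs_sub_mul_le hP hQ p3 q1 p1 q3 (by ring) (by ring)
  · exact abs_sub_mul_le hP hQ p1 q2 p2 q1 (by ring) (by ring)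

/-- The polynomial norm of a cross product of two points. -/
theorem NV_crs_le (r t x : ℝ) (X Y : Z3) :
    NV r t x (crs X Y) ≤ 2 * NP r t x X * NP r t x Y := by
  obtain ⟨p1, p2, p3⟩ := (NP_le_iff r t x _ X).mp le_rfl
  obtain ⟨q1, q2, q3⟩ := (NP_le_iff r t x _ Y).mp le_rfl
  have hP := NP_nonneg r t x X
  have hQ := NP_nonneg r t x Y
  rw [NV_le_iff, crs_c X Y x, crs_dv, crs_ev]
  refine ⟨?_, ?_, ?_⟩
  · exact abs_sub_mul_le hP hQ p2 q3 p3 q2 (by ring) (by ring)
  · exact abs_sub_mul_le hP hQ p3 q1 p1 q3 (by ring) (by ring)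
  · exact abs_sub_mul_le hP hQ p1 q2 p2 q1 (by ring) (by ring)

theorem Irr.c_ne {P : Z3} (h : Irr P) : P.c ≠ 0 := by
  have := h 0 1 (Or.inr one_ne_zero)
  simpa using this

theorem Irr.disc_ne {P : Z3} (h : Irr P) : P.b ^ 2 - 4 * P.a * P.c ≠ 0 := by
  intro h0
  have := h (2 * P.c) (-P.b) (Or.inl (mul_ne_zero two_ne_zero h.c_ne))
  apply this
  have : P.a * (2 * P.c) ^ 2 + P.b * (2 * P.c) * -P.b + P.c * (-P.b) ^ 2
      = -P.c * (P.b ^ 2 - 4 * P.a * P.c) := by ring
  rw [this, h0, mul_zero]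

theorem disc_eq (P : Z3) (x : ℝ) :
    ((P.b ^ 2 - 4 * P.a * P.c : ℤ) : ℝ) = dv P x ^ 2 - 4 * P.c * ev P x := by
  unfold dv ev; push_cast; ring

theorem det_eq (X : Z3) (x : ℝ) :
    ((X.a * X.c - X.b ^ 2 : ℤ) : ℝ) = X.a * zv X x - yv X x ^ 2 := by
  unfold zv yv; push_cast; ring

theorem one_le_abs_of_ne {n : ℤ} (h : n ≠ 0) : (1 : ℝ) ≤ |(n : ℝ)| := by
  rw [← Int.cast_abs]
  exact_mod_cast Int.one_le_abs h

theorem Irr.one_le {P : Z3} (h : Irr P) (x : ℝ) :
    1 ≤ |dv P x| ^ 2 + 4 * (|(P.c : ℝ)| * |ev P x|) := by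
  have h1 := one_le_abs_of_ne h.disc_ne
  rw [disc_eq P x] at h1
  calc (1 : ℝ) ≤ |dv P x ^ 2 - 4 * P.c * ev P x| := h1
    _ ≤ |dv P x ^ 2| + |4 * P.c * ev P x| := abs_sub _ _
    _ = _ := by
      rw [abs_pow, abs_mul, abs_mul, abs_of_pos (show (0 : ℝ) < 4 by norm_num)]; ring

theorem Nz.one_le {X : Z3} (h : Nz X) (x : ℝ) :
    1 ≤ |(X.a : ℝ)| * |zv X x| + |yv X x| ^ 2 := by
  have h1 := one_le_abs_of_ne (show X.a * X.c - X.b ^ 2 ≠ 0 from h)
  rw [det_eq X x] at h1
  calc (1 : ℝ) ≤ |X.a * zv X x - yv X x ^ 2| := h1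
    _ ≤ |X.a * zv X x| + |yv X x ^ 2| := abs_sub _ _
    _ = _ := by rw [abs_pow, abs_mul]

/-- Irreducible polynomials are not very short. -/
theorem Irr.NV_ge {P : Z3} (h : Irr P) {r t : ℝ} (x : ℝ) (htr : t ≤ r) :
    Real.exp (t - r) / 3 ≤ NV r t x P := by
  set N := NV r t x P with hN
  have hN0 : 0 ≤ N := NV_nonneg _ _ _ _
  obtain ⟨h1, h2, h3⟩ := (NV_le_iff r t x N P).mp le_rfl
  have h4 := h.one_le x
  have a1 : |dv P x| ^ 2 ≤ N ^ 2 * Real.exp (2 * (r - t)) := by
    have := pow_le_pow_left₀ (abs_nonneg _) h2 2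
    rw [mul_pow, ← Real.exp_nat_mul] at this
    simpa using this
  have a2 : |(P.c : ℝ)| * |ev P x| ≤ N ^ 2 * Real.exp (2 * (r - t)) := by
    calc |(P.c : ℝ)| * |ev P x| ≤ (N * Real.exp (2 * t - r)) * (N * Real.exp (-t)) :=
          mul_le_mul h3 h1 (abs_nonneg _) (by positivity)
      _ = N ^ 2 * Real.exp (2 * t - r + -t) := by rw [Real.exp_add]; ring
      _ ≤ _ := mul_exp_le (by positivity) (by linarith)
  have a3 : 1 ≤ (3 * N * Real.exp (r - t)) ^ 2 := by
    have : (3 * N * Real.exp (r - t)) ^ 2 = 9 * (N ^ 2 * Real.exp (2 * (r - t))) := by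
      rw [mul_pow, mul_pow, ← Real.exp_nat_mul]; push_cast; ring
    rw [this]
    have : 0 ≤ N ^ 2 * Real.exp (2 * (r - t)) := by positivity
    linarith
  have a4 : 1 ≤ 3 * N * Real.exp (r - t) := by
    by_contra hlt
    push Not at hlt
    have h0 : 0 ≤ 3 * N * Real.exp (r - t) := by positivity
    nlinarith
  have a5 : Real.exp (t - r) = (Real.exp (r - t))⁻¹ := by
    rw [← Real.exp_neg]; ring_nf
  rw [a5, div_le_iff₀ (by norm_num), inv_le_iff_one_le_mul₀ (Real.exp_pos _)]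
  linarith

/-- Points off the cone are not very short. -/
theorem Nz.NP_ge {X : Z3} (h : Nz X) {r t : ℝ} (x : ℝ) (htr : t ≤ r) :
    Real.exp ((t - r) / 2) / 2 ≤ NP r t x X := by
  set N := NP r t x X with hN
  have hN0 : 0 ≤ N := NP_nonneg _ _ _ _
  obtain ⟨h1, h2, h3⟩ := (NP_le_iff r t x N X).mp le_rfl
  have h4 := h.one_le x
  have a1 : |yv X x| ^ 2 ≤ N ^ 2 * Real.exp (r - t) := by
    have := pow_le_pow_left₀ (abs_nonneg _) h2 2
    rw [mul_pow, ← Real.exp_nat_mul] at this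
    refine this.trans (mul_exp_le (by positivity) ?_)
    push_cast; linarith
  have a2 : |(X.a : ℝ)| * |zv X x| ≤ N ^ 2 * Real.exp (r - t) := by
    calc |(X.a : ℝ)| * |zv X x| ≤ (N * Real.exp t) * (N * Real.exp (r - 2 * t)) :=
          mul_le_mul h1 h3 (abs_nonneg _) (by positivity)
      _ = N ^ 2 * Real.exp (t + (r - 2 * t)) := by rw [Real.exp_add]; ring
      _ ≤ _ := mul_exp_le (by positivity) (by linarith)
  have a3 : 1 ≤ (2 * N * Real.exp ((r - t) / 2)) ^ 2 := by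
    have : (2 * N * Real.exp ((r - t) / 2)) ^ 2 = 4 * (N ^ 2 * Real.exp (r - t)) := by
      rw [mul_pow, mul_pow, ← Real.exp_nat_mul]; push_cast; ring_nf
    rw [this]
    have : 0 ≤ N ^ 2 * Real.exp (r - t) := by positivity
    linarith
  have a4 : 1 ≤ 2 * N * Real.exp ((r - t) / 2) := by
    by_contra hlt
    push Not at hlt
    have h0 : 0 ≤ 2 * N * Real.exp ((r - t) / 2) := by positivity
    nlinarith
  have a5 : Real.exp ((t - r) / 2) = (Real.exp ((r - t) / 2))⁻¹ := by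
    rw [← Real.exp_neg]; ring_nf
  rw [a5, div_le_iff₀ (by norm_num), inv_le_iff_one_le_mul₀ (Real.exp_pos _)]
  linarith

theorem Irr.NV_pos {P : Z3} (h : Irr P) {r t : ℝ} (x : ℝ) (htr : t ≤ r) : 0 < NV r t x P :=
  lt_of_lt_of_le (by positivity) (h.NV_ge x htr)

theorem Nz.NP_pos {X : Z3} (h : Nz X) {r t : ℝ} (x : ℝ) (htr : t ≤ r) : 0 < NP r t x X :=
  lt_of_lt_of_le (by positivity) (h.NP_ge x htr)

/-- A cross product of two non-proportional polynomials, one of which is irreducible, is off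
the cone. -/
theorem Nz_crs {P Q : Z3} (hP : Irr P) (h : crs Q P ≠ ⟨0, 0, 0⟩) : Nz (crs Q P) := by
  intro h0
  set X := crs Q P with hX
  have hdot : P.a * X.a + P.b * X.b + P.c * X.c = 0 := by
    rw [hX]; simp only [crs]; ring
  by_cases ha : X.a = 0
  · have hb : X.b = 0 := by
      have : X.b ^ 2 = 0 := by rw [ha] at h0; linarith
      exact pow_eq_zero_iff (two_ne_zero) |>.mp this
    have hc : X.c ≠ 0 := by
      intro hc
      apply h
      ext <;> simp [ha, hb, hc]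
    rw [ha, hb] at hdot
    have : P.c = 0 := by
      have : P.c * X.c = 0 := by linarith
      exact (mul_eq_zero.mp this).resolve_right hc
    exact hP.c_ne this
  · apply hP X.a X.b (Or.inl ha)
    have h1 : X.b ^ 2 = X.a * X.c := by linarith
    calc P.a * X.a ^ 2 + P.b * X.a * X.b + P.c * X.b ^ 2
        = X.a * (P.a * X.a + P.b * X.b + P.c * X.c) := by rw [h1]; ring
      _ = 0 := by rw [hdot, mul_zero]

end UE
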