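import Pool.Agent.Lib_helper29.UE9

/-!
# The classes of real numbers, and their counting bound
-/

namespace UE

open Filter Topology

/-- Bounded real numbers with good uniform approximation (exponent `w`, from height `H₀` on) and
with lower bounds (exponent `v`) for their distances to rational numbers. -/
def Cls (w H₀ M₀ c v : ℝ) : Set ℝ :=
  {x | |x| ≤ M₀ ∧ (∀ H, H₀ ≤ H → ∃ P : Z3, P ≠ ⟨0, 0, 0⟩ ∧ |(P.a : ℝ)| ≤ H ∧ |(P.b : ℝ)| ≤ H ∧
    |(P.c : ℝ)| ≤ H ∧ |ev P x| ≤ H ^ (-w)) ∧ Dio c v x}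

theorem NV_pos_of_ne {r t x : ℝ} {Q : Z3} (hQ : Q ≠ ⟨0, 0, 0⟩) : 0 < NV r t x Q := by
  rcases (NV_nonneg r t x Q).lt_or_eq with h | h
  · exact h
  · exfalso
    obtain ⟨k1, k2, k3⟩ := (NV_le_iff r t x 0 Q).mp h.symm.le
    simp only [zero_mul] at k1 k2 k3
    have e3 : (Q.c : ℝ) = 0 := abs_eq_zero.mp (le_antisymm k3 (abs_nonneg _))
    have e2 : dv Q x = 0 := abs_eq_zero.mp (le_antisymm k2 (abs_nonneg _))
    have e1 : ev Q x = 0 := abs_eq_zero.mp (le_antisymm k1 (abs_nonneg _))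
    have e2' : (Q.b : ℝ) = 0 := by
      unfold dv at e2; rw [e3] at e2; linarith
    have e1' : (Q.a : ℝ) = 0 := by
      unfold ev at e1; rw [e3, e2'] at e1; linarith
    apply hQ
    ext
    · exact_mod_cast e1'
    · exact_mod_cast e2'
    · exact_mod_cast e3

theorem cls_edge {w H₀ M₀ c v e : ℝ} (hw : 2 < w) (hM : 0 ≤ M₀) (hc : 0 < c) (hc1 : c ≤ 1)
    (hv : 1 ≤ v) (hv2 : v ≤ 2) (he : 1 / 2 ≤ e) (he1 : e ≤ 1) :
    ∃ r₀ : ℝ, 0 ≤ r₀ ∧ ∀ r, r₀ ≤ r → ∀ x ∈ Cls w H₀ M₀ c v,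
      Real.exp (-(1 + e) * Real.log (1 + 2 * M₀)) *
        Real.exp ((1 + e) * ((w - 2) / (3 * (w + 1))) * r) ≤ MW e r x := by
  set ε := (w - 2) / (3 * (w + 1)) with hε
  have hε0 : 0 < ε := by rw [hε]; apply div_pos <;> linarith
  have ev1 : ∀ᶠ r : ℝ in atTop, H₀ ≤ Real.exp (r / (w + 1)) := by
    have h1 : Tendsto (fun r : ℝ => Real.exp (1 / (w + 1) * r + 0)) atTop atTop :=
      Real.tendsto_exp_atTop.comp (tendsto_lin _ (by positivity))
    filter_upwards [h1.eventually_ge_atTop H₀] with r hr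
    refine hr.trans (le_of_eq ?_)
    congr 1; ring
  have ev2 : ∀ᶠ r : ℝ in atTop, (1 + 2 * M₀) * Real.exp (-ε * r) < c := by
    have h1 : Tendsto (fun r : ℝ => Real.exp (ε * r + 0)) atTop atTop :=
      Real.tendsto_exp_atTop.comp (tendsto_lin _ hε0)
    filter_upwards [h1.eventually_gt_atTop ((1 + 2 * M₀) / c)] with r hr
    rw [div_lt_iff₀ hc, add_zero] at hr
    rw [neg_mul, Real.exp_neg, ← div_eq_mul_inv, div_lt_iff₀ (Real.exp_pos _)]
    linarith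
  obtain ⟨r₀, hr₀⟩ := eventually_atTop.mp ((eventually_ge_atTop (0 : ℝ)).and (ev1.and ev2))
  refine ⟨r₀, (hr₀ r₀ le_rfl).1, ?_⟩
  intro r hr x hx
  obtain ⟨g0, g1, g2⟩ := hr₀ r hr
  obtain ⟨hxM, happ, hdio⟩ := hx
  obtain ⟨P, hP0, ha, hb, hcP, hev⟩ := happ _ g1
  set H := Real.exp (r / (w + 1)) with hH
  have hHpos : 0 < H := Real.exp_pos _
  have hHw : H ^ (-w) = Real.exp (-(w * r / (w + 1))) := by
    rw [hH, ← Real.exp_mul]; congr 1; ring
  have hw1 : w + 1 ≠ 0 := by linarith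
  have hlogc : Real.log c ≤ 0 := Real.log_nonpos hc.le hc1
  -- the norm at the edge
  have hN : NV r (2 * r / 3) x P ≤ (1 + 2 * M₀) * Real.exp (-ε * r) := by
    rw [NV_le_iff]
    refine ⟨?_, ?_, ?_⟩
    · rw [mul_assoc, ← Real.exp_add]
      have e1 : -ε * r + -(2 * r / 3) = -(w * r / (w + 1)) := by
        rw [hε]; field_simp; ring
      rw [e1, ← hHw]
      refine hev.trans ?_
      have : 0 < H ^ (-w) := Real.rpow_pos_of_pos hHpos _
      nlinarith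
    · rw [mul_assoc, ← Real.exp_add]
      have e1 : -ε * r + (r - 2 * r / 3) = r / (w + 1) := by
        rw [hε]; field_simp; ring
      rw [e1, ← hH]
      unfold dv
      calc |(P.b : ℝ) + 2 * P.c * x| ≤ |(P.b : ℝ)| + |2 * P.c * x| := abs_add_le _ _
        _ = |(P.b : ℝ)| + 2 * (|(P.c : ℝ)| * |x|) := by
            rw [abs_mul, abs_mul, abs_two]; ring
        _ ≤ H + 2 * (H * M₀) := by
            gcongr
        _ = _ := by ring
    · rw [mul_assoc, ← Real.exp_add]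
      have e1 : -ε * r + (2 * (2 * r / 3) - r) = r / (w + 1) := by
        rw [hε]; field_simp; ring
      rw [e1, ← hH]
      refine hcP.trans ?_
      nlinarith
  have hNpos : 0 < NV r (2 * r / 3) x P := NV_pos_of_ne hP0
  have hirr : Irr P := by
    by_contra hnirr
    have h1 := red_bound hc hc1 (show 0 ≤ v by linarith) hdio (le_refl (2 * r / 3)) g0 hP0 hnirr
    have h2 : Real.log (NV r (2 * r / 3) x P) < Real.log c :=
      Real.log_lt_log hNpos (lt_of_le_of_lt hN g2)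
    have h3 : (1 + v) * Real.log (NV r (2 * r / 3) x P) < (1 + v) * Real.log c :=
      mul_lt_mul_of_pos_left h2 (by linarith)
    have h4 : (1 + v) * Real.log c ≤ 2 * Real.log c := by nlinarith
    have h5 : 0 ≤ (2 - v) * r := mul_nonneg (by linarith) g0
    nlinarith
  have hlogN : Real.log (NV r (2 * r / 3) x P) ≤ Real.log (1 + 2 * M₀) + -ε * r := by
    have := Real.log_le_log hNpos hN
    rwa [Real.log_mul (by positivity) (Real.exp_pos _).ne', Real.log_exp] at this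
  refine le_trans ?_ (wV_le_MW he he1 g0 (le_refl (2 * r / 3)) (by linarith) hirr)
  unfold wV
  rw [← Real.exp_add]
  apply Real.exp_le_exp.mpr
  have h6 : (1 + e) * Real.log (NV r (2 * r / 3) x P)
      ≤ (1 + e) * (Real.log (1 + 2 * M₀) + -ε * r) :=
    mul_le_mul_of_nonneg_left hlogN (by linarith)
  nlinarith

theorem cls_count {w H₀ M₀ c v : ℝ} (hw : 2 < w) (hM : 0 ≤ M₀) (hc : 0 < c) (hc1 : c ≤ 1)
    (hv : 1 ≤ v) (hv2 : v ≤ 2) {η : ℝ} (hη : 0 < η) :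
    ∃ C r₁ : ℝ, 0 < C ∧ 0 < r₁ ∧ ∀ r, r₁ ≤ r → ∀ E : Finset ℝ,
      (∀ x ∈ E, x ∈ Cls w H₀ M₀ c v) → Sep (Real.exp (-r)) E →
      (E.card : ℝ) ≤ C * Real.exp ((3 * (1 + v) / ((3 + v) * (w + 1)) + η) * r) := by
  have h3v : 0 < 3 + v := by linarith
  set e := 2 * v / (3 + v) with he
  have hev : e * (3 + v) = 2 * v := by rw [he]; field_simp
  have he0 : 1 / 2 ≤ e := by rw [he, le_div_iff₀ h3v]; linarith
  have he1 : e ≤ 4 / 5 := by rw [he, div_le_iff₀ h3v]; linarith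
  obtain ⟨r₀, hr₀, hedge⟩ := cls_edge (H₀ := H₀) hw hM hc hc1 hv hv2 he0 (by linarith : e ≤ 1)
  set ε := (w - 2) / (3 * (w + 1)) with hε
  have hε0 : 0 < ε := by rw [hε]; apply div_pos <;> linarith
  have hε1 : ε ≤ 1 / 3 := by
    rw [hε, div_le_iff₀ (by linarith)]; linarith
  obtain ⟨C, r₁, hC, hr₁, hcount⟩ := count_bound he0 he1 (S := Cls w H₀ M₀ c v) (M₀ := M₀)
    (r₀ := r₀) (C₀ := Real.exp (1 - Real.log c))
    (c₁ := Real.exp (-(1 + e) * Real.log (1 + 2 * M₀))) (ε₁ := (1 + e) * ε) hM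
    (fun x hx => hx.1)
    (fun r hr x hx => red_of_dio hc hc1 hv hv2 hx.2.2 (hr₀.trans hr) hev)
    (Real.exp_pos _) (by positivity) (by nlinarith) hedge hη
  refine ⟨C, r₁, hC, hr₁, ?_⟩
  intro r hr E hE hsep
  have h1 := hcount r hr E hE hsep
  have h2 : (1 + e) / 3 - (1 + e) * ε = 3 * (1 + v) / ((3 + v) * (w + 1)) := by
    have hw1 : w + 1 ≠ 0 := by linarith
    have h3v' : 3 + v ≠ 0 := h3v.ne'
    rw [he, hε]
    field_simp
    ring
  rwa [h2] at h1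

end UE
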