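import Pool.Agent.Lib_helper29.UE10

/-!
# Hausdorff dimension from coverings by finitely many balls at each scale
-/

namespace UE

open Filter Topology MeasureTheory Metric
open scoped ENNReal NNReal

theorem ediam_closedBall_real (q ρ : ℝ) : ediam (closedBall q ρ) ≤ ENNReal.ofReal (2 * ρ) := by
  rw [Real.closedBall_eq_Icc, Real.ediam_Icc]
  apply ENNReal.ofReal_le_ofReal
  linarith

/-- If every point of `A` lies, for infinitely many `j`, within `ρ j` of the finite set `F j`, and
`∑ |F j| (ρ j) ^ s` converges, then `dimH A ≤ s`. -/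
theorem dimH_le_of_cover {A : Set ℝ} {s : ℝ} (hs : 0 < s) (F : ℕ → Finset ℝ) (ρ : ℕ → ℝ)
    (hρ : ∀ j, 0 < ρ j) (hanti : Antitone ρ) (hρ0 : Tendsto ρ atTop (𝓝 0))
    (hA : ∀ x ∈ A, ∀ J, ∃ j ≥ J, ∃ q ∈ F j, |x - q| ≤ ρ j)
    (hsum : Summable fun j => ((F j).card : ℝ) * (ρ j) ^ s) :
    dimH A ≤ ENNReal.ofReal s := by
  have key : μH[s] A ≤ 0 := by
    have h1 := Measure.hausdorffMeasure_le_liminf_tsum (X := ℝ) (β := ℕ)
      (ι := fun n => Σ j : ℕ, ↥(F (j + n))) s A (l := atTop)
      (fun n => ENNReal.ofReal (2 * ρ n)) (by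
        have : Tendsto (fun n => 2 * ρ n) atTop (𝓝 (2 * 0)) := hρ0.const_mul 2
        rw [mul_zero] at this
        have h2 := (ENNReal.continuous_ofReal.tendsto 0).comp this
        rw [ENNReal.ofReal_zero] at h2
        exact h2)
      (fun n i => closedBall (i.2 : ℝ) (ρ (i.1 + n)))
      (by
        filter_upwards with n i
        refine (ediam_closedBall_real _ _).trans (ENNReal.ofReal_le_ofReal ?_)
        have : ρ (i.1 + n) ≤ ρ n := hanti (by omega)
        linarith)
      (by
        filter_upwards with n x hx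
        obtain ⟨j, hj, q, hq, hxq⟩ := hA x hx n
        rw [Set.mem_iUnion]
        obtain ⟨k, rfl⟩ : ∃ k, j = k + n := ⟨j - n, by omega⟩
        refine ⟨⟨k, ⟨q, hq⟩⟩, ?_⟩
        rw [mem_closedBall, Real.dist_eq]
        exact hxq)
    refine h1.trans ?_
    set g : ℕ → ℝ≥0∞ := fun j => ENNReal.ofReal (2 ^ s) * ENNReal.ofReal (((F j).card : ℝ) * (ρ j) ^ s)
      with hg
    have hgsum : ∑' j, g j ≠ ∞ := by
      rw [hg, ENNReal.tsum_mul_left]
      refine ENNReal.mul_ne_top ENNReal.ofReal_ne_top ?_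
      exact hsum.tsum_ofReal_ne_top
    have h2 : ∀ n, ∑' i : (Σ j : ℕ, ↥(F (j + n))), ediam (closedBall (i.2 : ℝ) (ρ (i.1 + n))) ^ s
        ≤ ∑' j, g (j + n) := by
      intro n
      rw [ENNReal.tsum_sigma']
      apply ENNReal.tsum_le_tsum
      intro j
      calc ∑' q : ↥(F (j + n)), ediam (closedBall (q : ℝ) (ρ (j + n))) ^ s
          ≤ ∑' q : ↥(F (j + n)), ENNReal.ofReal (2 * ρ (j + n)) ^ s := by
            apply ENNReal.tsum_le_tsum
            intro q
            exact ENNReal.rpow_le_rpow (ediam_closedBall_real _ _) hs.le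
        _ = ((F (j + n)).card : ℝ≥0∞) * ENNReal.ofReal (2 * ρ (j + n)) ^ s := by
            rw [tsum_fintype, Finset.sum_const, Finset.card_univ, Fintype.card_coe, nsmul_eq_mul]
        _ = g (j + n) := by
            rw [hg]
            simp only
            rw [ENNReal.ofReal_rpow_of_pos (by have := hρ (j + n); positivity),
              Real.mul_rpow (by norm_num) (hρ _).le,
              ENNReal.ofReal_mul (by positivity), ENNReal.ofReal_mul (by positivity),
              ENNReal.ofReal_natCast]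
            ring
    have h3 : Tendsto (fun n => ∑' j, g (j + n)) atTop (𝓝 0) := ENNReal.tendsto_sum_nat_add g hgsum
    calc liminf (fun n => ∑' i : (Σ j : ℕ, ↥(F (j + n))),
          ediam (closedBall (i.2 : ℝ) (ρ (i.1 + n))) ^ s) atTop
        ≤ liminf (fun n => ∑' j, g (j + n)) atTop := liminf_le_liminf (Eventually.of_forall h2)
      _ = 0 := h3.liminf_eq
  have h0 : μH[((⟨s, hs.le⟩ : ℝ≥0) : ℝ)] A ≠ ∞ := by
    have : μH[((⟨s, hs.le⟩ : ℝ≥0) : ℝ)] A = 0 := le_antisymm key bot_le
    rw [this]; exact ENNReal.zero_ne_top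
  have := dimH_le_of_hausdorffMeasure_ne_top h0
  refine this.trans (le_of_eq ?_)
  rw [ENNReal.ofReal, Real.toNNReal_of_nonneg hs.le]
  rfl

/-- A set with bounded separated subsets has a finite net. -/
theorem exists_finite_net {A : Set ℝ} {ρ N : ℝ} (hρ : 0 < ρ)
    (h : ∀ E : Finset ℝ, (∀ x ∈ E, x ∈ A) → Sep ρ E → (E.card : ℝ) ≤ N) :
    ∃ E : Finset ℝ, (E.card : ℝ) ≤ N ∧ ∀ x ∈ A, ∃ q ∈ E, |x - q| ≤ ρ := by
  classical
  by_contra hcon
  push Not at hcon
  have key : ∀ n : ℕ, ∃ E : Finset ℝ, (∀ x ∈ E, x ∈ A) ∧ Sep ρ E ∧ E.card = n := by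
    intro n
    induction n with
    | zero => exact ⟨∅, by simp, by intro x hx; simp at hx, rfl⟩
    | succ n ih =>
      obtain ⟨E, hEA, hE, hcard⟩ := ih
      obtain ⟨x, hx, hxE⟩ := hcon E (h E hEA hE)
      have hxn : x ∉ E := by
        intro hx'
        have := hxE x hx'
        rw [sub_self, abs_zero] at this
        linarith
      refine ⟨insert x E, ?_, ?_, ?_⟩
      · intro y hy
        rcases Finset.mem_insert.mp hy with rfl | hy
        · exact hx
        · exact hEA y hy
      · intro y hy z hz hyz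
        rcases Finset.mem_insert.mp hy with hya | hy'
        · rcases Finset.mem_insert.mp hz with hza | hz'
          · exact absurd (hya.trans hza.symm) hyz
          · rw [hya]; exact (hxE z hz').le
        · rcases Finset.mem_insert.mp hz with hza | hz'
          · rw [hza, abs_sub_comm]; exact (hxE y hy').le
          · exact hE y hy' z hz' hyz
      · rw [Finset.card_insert_of_notMem hxn, hcard]
  obtain ⟨n, hn⟩ := exists_nat_gt N
  obtain ⟨E, hEA, hE, hcard⟩ := key n
  have := h E hEA hE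
  rw [hcard] at this
  linarith

/-- Separated subsets of `A` have at most `C exp ((κ + η) r)` elements, for every `η > 0`. -/
def Count (A : Set ℝ) (κ : ℝ) : Prop :=
  ∀ η : ℝ, 0 < η → ∃ C r₁ : ℝ, 0 < C ∧ ∀ r, r₁ ≤ r → ∀ E : Finset ℝ,
    (∀ x ∈ E, x ∈ A) → Sep (Real.exp (-r)) E → (E.card : ℝ) ≤ C * Real.exp ((κ + η) * r)

theorem le_ofReal_of_forall_gt {a : ℝ≥0∞} {κ : ℝ} (h : ∀ s, κ < s → a ≤ ENNReal.ofReal s) :
    a ≤ ENNReal.ofReal κ := by
  have h1 : Tendsto (fun s : ℝ => ENNReal.ofReal s) (𝓝[>] κ) (𝓝 (ENNReal.ofReal κ)) :=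
    (ENNReal.continuous_ofReal.tendsto κ).mono_left nhdsWithin_le_nhds
  refine ge_of_tendsto h1 ?_
  filter_upwards [self_mem_nhdsWithin] with s hs
  exact h s hs

/-- Summability of sequences bounded by a geometric one. -/
theorem summable_of_le_exp {f : ℕ → ℝ} {K δ : ℝ} (hδ : 0 < δ) (h0 : ∀ j, 0 ≤ f j)
    (h : ∀ j : ℕ, f j ≤ K * Real.exp (-δ * j)) : Summable f := by
  have h1 : Summable (fun j : ℕ => K * (Real.exp (-δ)) ^ j) := by
    apply Summable.mul_left
    apply summable_geometric_of_lt_one (Real.exp_pos _).le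
    rw [Real.exp_lt_one_iff]; linarith
  refine Summable.of_nonneg_of_le h0 ?_ h1
  intro j
  refine (h j).trans (le_of_eq ?_)
  rw [← Real.exp_nat_mul]
  congr 2
  ring

/-- The Hausdorff dimension is at most the box exponent. -/
theorem dimH_le_of_count {A : Set ℝ} {κ : ℝ} (hκ : 0 ≤ κ) (h : Count A κ) :
    dimH A ≤ ENNReal.ofReal κ := by
  classical
  apply le_ofReal_of_forall_gt
  intro s hs
  obtain ⟨C, r₁, hC, hcount⟩ := h ((s - κ) / 2) (by linarith)
  have hnet : ∀ j : ℕ, ∃ E : Finset ℝ, (E.card : ℝ) ≤ C * Real.exp ((κ + (s - κ) / 2) * j) ∧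
      (r₁ ≤ (j : ℝ) → ∀ x ∈ A, ∃ q ∈ E, |x - q| ≤ Real.exp (-(j : ℝ))) := by
    intro j
    by_cases hj : r₁ ≤ (j : ℝ)
    · obtain ⟨E, h1, h2⟩ := exists_finite_net (Real.exp_pos (-(j : ℝ))) (hcount j hj)
      exact ⟨E, h1, fun _ => h2⟩
    · refine ⟨∅, ?_, fun h => absurd h hj⟩
      simp only [Finset.card_empty, Nat.cast_zero]
      positivity
  choose F hF1 hF2 using hnet
  refine dimH_le_of_cover (by linarith) F (fun j => Real.exp (-(j : ℝ)))
    (fun j => Real.exp_pos _) ?_ ?_ ?_ ?_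
  · intro i j hij
    simp only
    rw [Real.exp_le_exp]
    have : (i : ℝ) ≤ (j : ℝ) := by exact_mod_cast hij
    linarith
  · exact Real.tendsto_exp_neg_atTop_nhds_zero.comp tendsto_natCast_atTop_atTop
  · intro x hx J
    obtain ⟨n, hn⟩ := exists_nat_ge r₁
    refine ⟨max J n, le_max_left _ _, ?_⟩
    have : r₁ ≤ ((max J n : ℕ) : ℝ) := hn.trans (by exact_mod_cast le_max_right _ _)
    exact hF2 _ this x hx
  · apply summable_of_le_exp (K := C) (δ := (s - κ) / 2) (by linarith)
    · intro j; positivity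
    · intro j
      calc ((F j).card : ℝ) * Real.exp (-(j : ℝ)) ^ s
          ≤ (C * Real.exp ((κ + (s - κ) / 2) * j)) * Real.exp (-(j : ℝ)) ^ s := by
            gcongr
            exact hF1 j
        _ = C * Real.exp (-((s - κ) / 2) * j) := by
            rw [← Real.exp_mul, mul_assoc, ← Real.exp_add]
            congr 2
            ring

end UE
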