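import Pool.Agent.Lib_helper29.UE11

/-!
# Hausdorff dimension of the points with very good rational approximations
-/

namespace UE

open Filter Topology MeasureTheory Metric
open scoped ENNReal NNReal

/-- The fractions with denominator at most `2 ^ (j + 1)` near `q`. -/
def Frc (j : ℕ) (q : ℝ) : Set ℝ :=
  {y | ∃ a b : ℤ, a ≠ 0 ∧ |(a : ℝ)| ≤ 2 ^ (j + 1) ∧ y = (b : ℝ) / a ∧
    |y - q| ≤ 2 * Real.exp (-(2 * j * Real.log 2))}

theorem exp_two_log (j : ℕ) : Real.exp (2 * j * Real.log 2) = ((2 : ℝ) ^ j) ^ 2 := by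
  rw [show 2 * (j : ℝ) * Real.log 2 = ((2 * j : ℕ) : ℝ) * Real.log 2 by push_cast; ring,
    Real.exp_nat_mul, Real.exp_log (by norm_num), pow_mul', ]

theorem Frc_card (j : ℕ) (q : ℝ) (G : Finset ℝ) (hG : ∀ y ∈ G, y ∈ Frc j q) : G.card ≤ 17 := by
  have hX : (0 : ℝ) < 2 ^ j := by positivity
  have hexp : Real.exp (-(2 * j * Real.log 2)) = (((2 : ℝ) ^ j) ^ 2)⁻¹ := by
    rw [Real.exp_neg, exp_two_log]
  have hsep : Sep ((4 * ((2 : ℝ) ^ j) ^ 2)⁻¹) G := by
    intro y hy z hz hyz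
    obtain ⟨a, b, ha, ha2, rfl, -⟩ := hG y hy
    obtain ⟨a', b', ha', ha2', rfl, -⟩ := hG z hz
    have haR : (a : ℝ) ≠ 0 := by exact_mod_cast ha
    have haR' : (a' : ℝ) ≠ 0 := by exact_mod_cast ha'
    have h1 : (b : ℝ) / a - (b' : ℝ) / a' = ((b * a' - a * b' : ℤ) : ℝ) / (a * a') := by
      push_cast
      rw [div_sub_div _ _ haR haR']
    have h2 : (b * a' - a * b' : ℤ) ≠ 0 := by
      intro h0
      rw [h0, Int.cast_zero, zero_div, sub_eq_zero] at h1
      exact hyz h1
    have h3 : (1 : ℝ) ≤ |((b * a' - a * b' : ℤ) : ℝ)| := by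
      rw [← Int.cast_abs]
      exact_mod_cast Int.one_le_abs h2
    have h4 : |(a : ℝ) * a'| ≤ 4 * ((2 : ℝ) ^ j) ^ 2 := by
      rw [abs_mul]
      calc |(a : ℝ)| * |(a' : ℝ)| ≤ 2 ^ (j + 1) * 2 ^ (j + 1) := by gcongr
        _ = 4 * ((2 : ℝ) ^ j) ^ 2 := by ring
    have h5 : 0 < |(a : ℝ) * a'| := abs_pos.mpr (mul_ne_zero haR haR')
    rw [h1, abs_div]
    calc (4 * ((2 : ℝ) ^ j) ^ 2)⁻¹ ≤ |(a : ℝ) * a'|⁻¹ := by
          apply inv_anti₀ h5 h4
      _ = 1 / |(a : ℝ) * a'| := by rw [one_div]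
      _ ≤ _ := by gcongr
  have h := Sep.card_le (by positivity) hsep
    (by positivity : 0 ≤ 2 * Real.exp (-(2 * j * Real.log 2))) (x₀ := q) (by
      intro y hy
      obtain ⟨a, b, -, -, -, h⟩ := hG y hy
      exact h)
  rw [hexp] at h
  have h6 : 2 * (2 * (((2 : ℝ) ^ j) ^ 2)⁻¹) / (4 * ((2 : ℝ) ^ j) ^ 2)⁻¹ + 1 = 17 := by
    field_simp
    norm_num
  rw [h6] at h
  exact_mod_cast h

theorem Frc_finite (j : ℕ) (q : ℝ) : (Frc j q).Finite := by
  by_contra h
  obtain ⟨t, ht, htc⟩ := Set.Infinite.exists_subset_card_eq (s := Frc j q) h 18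
  have := Frc_card j q t (fun y hy => ht hy)
  omega

theorem dimH_le_of_count_approx {A B : Set ℝ} {κ v : ℝ} (hκ : 0 ≤ κ) (hv : 1 ≤ v)
    (h : Count A κ) (hBA : B ⊆ A)
    (happ : ∀ x ∈ B, ∀ J : ℕ, ∃ j ≥ J, ∃ a b : ℤ, (2 : ℝ) ^ j ≤ |(a : ℝ)| ∧
      |(a : ℝ)| ≤ 2 ^ (j + 1) ∧ |(a : ℝ) * x - b| ≤ Real.exp (-v * Real.log |(a : ℝ)|)) :
    dimH B ≤ ENNReal.ofReal (2 / (1 + v) * κ) := by
  classical
  have hL : 0 < Real.log 2 := Real.log_pos (by norm_num)
  apply le_ofReal_of_forall_gt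
  intro s hs
  have h1v : 0 < 1 + v := by linarith
  have hs2 : 2 * κ < (1 + v) * s := by
    rw [div_mul_eq_mul_div, div_lt_iff₀ h1v] at hs
    linarith
  have hs0 : 0 < s := by
    by_contra hneg
    push Not at hneg
    have : (1 + v) * s ≤ 0 := mul_nonpos_of_nonneg_of_nonpos h1v.le hneg
    linarith
  set η := ((1 + v) * s - 2 * κ) / 4 with hη
  have hη0 : 0 < η := by rw [hη]; linarith
  obtain ⟨C, r₁, hC, hcount⟩ := h η hη0
  have hnet : ∀ j : ℕ, ∃ E : Finset ℝ,
      (E.card : ℝ) ≤ 17 * (C * Real.exp ((κ + η) * (2 * j * Real.log 2))) ∧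
      (r₁ ≤ 2 * j * Real.log 2 → ∀ x ∈ B, ∀ a b : ℤ, (2 : ℝ) ^ j ≤ |(a : ℝ)| →
        |(a : ℝ)| ≤ 2 ^ (j + 1) → |(a : ℝ) * x - b| ≤ Real.exp (-v * Real.log |(a : ℝ)|) →
        ∃ q ∈ E, |x - q| ≤ Real.exp (-((1 + v) * Real.log 2 * j))) := by
    intro j
    by_cases hj : r₁ ≤ 2 * j * Real.log 2
    · obtain ⟨E, h1, h2⟩ := exists_finite_net (Real.exp_pos (-(2 * j * Real.log 2)))
        (hcount _ hj)
      refine ⟨E.biUnion (fun q => (Frc_finite j q).toFinset), ?_, ?_⟩
      · have h3 : (E.biUnion (fun q => (Frc_finite j q).toFinset)).card ≤ E.card * 17 := by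
          apply Finset.card_biUnion_le_card_mul
          intro q _
          apply Frc_card j q
          intro y hy
          exact (Set.Finite.mem_toFinset _).mp hy
        calc ((E.biUnion (fun q => (Frc_finite j q).toFinset)).card : ℝ)
            ≤ ((E.card * 17 : ℕ) : ℝ) := by exact_mod_cast h3
          _ = 17 * (E.card : ℝ) := by push_cast; ring
          _ ≤ _ := by gcongr
      · intro _ x hx a b ha1 ha2 hab
        have hX : (0 : ℝ) < 2 ^ j := by positivity
        have ha0 : 0 < |(a : ℝ)| := lt_of_lt_of_le hX ha1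
        have hane : (a : ℝ) ≠ 0 := abs_pos.mp ha0
        have hlog : Real.log 2 * j ≤ Real.log |(a : ℝ)| := by
          rw [mul_comm, ← Real.log_pow]
          exact Real.log_le_log hX ha1
        have hdist : |x - (b : ℝ) / a| ≤ Real.exp (-((1 + v) * Real.log |(a : ℝ)|)) := by
          have e1 : x - (b : ℝ) / a = (a * x - b) / a := by field_simp
          rw [e1, abs_div, div_le_iff₀ ha0]
          refine hab.trans (le_of_eq ?_)
          nth_rewrite 3 [← Real.exp_log ha0]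
          rw [← Real.exp_add]
          congr 1
          ring
        have hd1 : |x - (b : ℝ) / a| ≤ Real.exp (-((1 + v) * Real.log 2 * j)) := by
          refine hdist.trans ?_
          rw [Real.exp_le_exp]
          have := mul_le_mul_of_nonneg_left hlog h1v.le
          linarith
        have hd2 : |x - (b : ℝ) / a| ≤ Real.exp (-(2 * j * Real.log 2)) := by
          refine hd1.trans ?_
          rw [Real.exp_le_exp]
          have hj0 : 0 ≤ Real.log 2 * (j : ℝ) := by positivity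
          have := mul_le_mul_of_nonneg_right hv hj0
          linarith
        obtain ⟨q, hq, hxq⟩ := h2 x (hBA hx)
        refine ⟨(b : ℝ) / a, ?_, hd1⟩
        rw [Finset.mem_biUnion]
        refine ⟨q, hq, ?_⟩
        rw [Set.Finite.mem_toFinset]
        refine ⟨a, b, by exact_mod_cast hane, ha2, rfl, ?_⟩
        calc |(b : ℝ) / a - q| = |(x - q) - (x - (b : ℝ) / a)| := by congr 1; ring
          _ ≤ |x - q| + |x - (b : ℝ) / a| := abs_sub _ _
          _ ≤ _ := by linarith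
    · refine ⟨∅, ?_, fun h => absurd h hj⟩
      simp only [Finset.card_empty, Nat.cast_zero]
      positivity
  choose F hF1 hF2 using hnet
  refine dimH_le_of_cover hs0 F (fun j => Real.exp (-((1 + v) * Real.log 2 * j)))
    (fun j => Real.exp_pos _) ?_ ?_ ?_ ?_
  · intro i j hij
    simp only
    rw [Real.exp_le_exp]
    have h1 : (i : ℝ) ≤ (j : ℝ) := by exact_mod_cast hij
    have h2 : 0 < (1 + v) * Real.log 2 := by positivity
    have := mul_le_mul_of_nonneg_left h1 h2.le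
    linarith
  · have h2 : 0 < (1 + v) * Real.log 2 := by positivity
    have h3 : Tendsto (fun j : ℕ => (1 + v) * Real.log 2 * (j : ℝ)) atTop atTop :=
      tendsto_natCast_atTop_atTop.const_mul_atTop h2
    exact Real.tendsto_exp_neg_atTop_nhds_zero.comp h3
  · intro x hx J
    obtain ⟨n, hn⟩ := exists_nat_ge (r₁ / (2 * Real.log 2))
    obtain ⟨j, hj, a, b, h1, h2, h3⟩ := happ x hx (max J n)
    refine ⟨j, (le_max_left _ _).trans hj, ?_⟩
    apply hF2 j _ x hx a b h1 h2 h3
    have : (n : ℝ) ≤ (j : ℝ) := by exact_mod_cast (le_max_right _ _).trans hj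
    have h4 := hn.trans this
    rw [div_le_iff₀ (by positivity)] at h4
    linarith
  · apply summable_of_le_exp (K := 17 * C) (δ := ((1 + v) * s - 2 * κ) / 2 * Real.log 2)
      (by apply mul_pos _ hL; linarith)
    · intro j; positivity
    · intro j
      calc ((F j).card : ℝ) * Real.exp (-((1 + v) * Real.log 2 * j)) ^ s
          ≤ (17 * (C * Real.exp ((κ + η) * (2 * j * Real.log 2)))) *
              Real.exp (-((1 + v) * Real.log 2 * j)) ^ s := by
            gcongr
            exact hF1 j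
        _ = 17 * C * Real.exp (-(((1 + v) * s - 2 * κ) / 2 * Real.log 2) * j) := by
            rw [← Real.exp_mul, ← mul_assoc, mul_assoc (17 * C), ← Real.exp_add]
            congr 2
            rw [hη]
            ring

end UE
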