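import Pool.Agent.Lib_helper29.UE12

/-!
# The dimension of the set of real numbers with good uniform quadratic approximation
-/

namespace UE

open Filter Topology MeasureTheory Metric
open scoped ENNReal NNReal

theorem cls_Count {w H₀ M₀ c v : ℝ} (hw : 2 < w) (hM : 0 ≤ M₀) (hc : 0 < c) (hc1 : c ≤ 1)
    (hv : 1 ≤ v) (hv2 : v ≤ 2) :
    Count (Cls w H₀ M₀ c v) (3 * (1 + v) / ((3 + v) * (w + 1))) := by
  intro η hη
  obtain ⟨C, r₁, hC, -, h⟩ := cls_count (H₀ := H₀) hw hM hc hc1 hv hv2 hη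
  exact ⟨C, r₁, hC, h⟩

theorem Dio.mono {c c' v x : ℝ} (h : Dio c v x) (hc : c' ≤ c) : Dio c' v x := by
  intro A B hA
  refine le_trans ?_ (h A B hA)
  exact mul_le_mul_of_nonneg_right hc (Real.exp_pos _).le

/-- Bounded real numbers with good uniform approximation and not too well approximable by
rational numbers. -/
def Gd (w H₀ M₀ : ℝ) : Set ℝ :=
  {x | |x| ≤ M₀ ∧ (∀ H, H₀ ≤ H → ∃ P : Z3, P ≠ ⟨0, 0, 0⟩ ∧ |(P.a : ℝ)| ≤ H ∧ |(P.b : ℝ)| ≤ H ∧
    |(P.c : ℝ)| ≤ H ∧ |ev P x| ≤ H ^ (-w)) ∧ ∃ c : ℝ, 0 < c ∧ Dio c 2 x}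

/-- The points of a class with infinitely many very good rational approximations. -/
def Clb (w H₀ M₀ c v' v : ℝ) : Set ℝ :=
  {x | x ∈ Cls w H₀ M₀ c v' ∧ ∀ c' : ℝ, 0 < c' → ¬ Dio c' v x}

theorem clb_approx {w H₀ M₀ c v' v : ℝ} (hc : 0 < c) (hv : 0 ≤ v) (hv' : 0 ≤ v') :
    ∀ x ∈ Clb w H₀ M₀ c v' v, ∀ J : ℕ, ∃ j ≥ J, ∃ a b : ℤ, (2 : ℝ) ^ j ≤ |(a : ℝ)| ∧
      |(a : ℝ)| ≤ 2 ^ (j + 1) ∧ |(a : ℝ) * x - b| ≤ Real.exp (-v * Real.log |(a : ℝ)|) := by
  intro x hx J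
  obtain ⟨⟨-, -, hdio⟩, hbad⟩ := hx
  set c' := min 1 (c * Real.exp (-v' * (J * Real.log 2))) with hc'
  have hc'0 : 0 < c' := lt_min one_pos (mul_pos hc (Real.exp_pos _))
  have hnd := hbad c' hc'0
  unfold Dio at hnd
  push Not at hnd
  obtain ⟨A, B, hA, hAB⟩ := hnd
  have hA1 : (1 : ℝ) ≤ |(A : ℝ)| := by
    rw [← Int.cast_abs]; exact_mod_cast Int.one_le_abs hA
  have hlog0 : 0 ≤ Real.log |(A : ℝ)| := Real.log_nonneg hA1
  have hbig : (2 : ℝ) ^ J ≤ |(A : ℝ)| := by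
    by_contra hlt
    push Not at hlt
    have h1 := hdio A B hA
    have h2 : Real.log |(A : ℝ)| ≤ J * Real.log 2 := by
      rw [← Real.log_pow]
      exact Real.log_le_log (by linarith) hlt.le
    have h3 : c * Real.exp (-v' * (J * Real.log 2)) ≤ c * Real.exp (-v' * Real.log |(A : ℝ)|) := by
      apply mul_le_mul_of_nonneg_left _ hc.le
      rw [Real.exp_le_exp]
      have := mul_le_mul_of_nonneg_left h2 hv'
      linarith
    have h4 : c' * Real.exp (-v * Real.log |(A : ℝ)|) ≤ c' * 1 := by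
      apply mul_le_mul_of_nonneg_left _ hc'0.le
      rw [Real.exp_le_one_iff]
      have := mul_nonneg hv hlog0
      linarith
    have h5 : c' ≤ c * Real.exp (-v' * (J * Real.log 2)) := min_le_right _ _
    linarith
  have hnat : (A.natAbs : ℝ) = |(A : ℝ)| := by
    rw [Nat.cast_natAbs, Int.cast_abs]
  have hn0 : A.natAbs ≠ 0 := Int.natAbs_ne_zero.mpr hA
  refine ⟨Nat.log 2 A.natAbs, ?_, A, B, ?_, ?_, ?_⟩
  · have h1 : 2 ^ J ≤ A.natAbs := by
      have : ((2 ^ J : ℕ) : ℝ) ≤ (A.natAbs : ℝ) := by rw [hnat]; push_cast; exact hbig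
      exact_mod_cast this
    exact Nat.le_log_of_pow_le (by norm_num) h1
  · rw [← hnat]
    exact_mod_cast Nat.pow_log_le_self 2 hn0
  · rw [← hnat]
    exact_mod_cast (Nat.lt_pow_succ_log_self (by norm_num) A.natAbs).le
  · refine hAB.le.trans ?_
    have : c' ≤ 1 := min_le_left _ _
    calc c' * Real.exp (-v * Real.log |(A : ℝ)|) ≤ 1 * Real.exp (-v * Real.log |(A : ℝ)|) :=
          mul_le_mul_of_nonneg_right this (Real.exp_pos _).le
      _ = _ := one_mul _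

theorem dimH_Clb {w H₀ M₀ c v' v : ℝ} (hw : 2 < w) (hM : 0 ≤ M₀) (hc : 0 < c) (hc1 : c ≤ 1)
    (hv : 1 ≤ v) (hvv : v ≤ v') (hv2 : v' ≤ 2) :
    dimH (Clb w H₀ M₀ c v' v) ≤
      ENNReal.ofReal (2 / (1 + v) * (3 * (1 + v') / ((3 + v') * (w + 1)))) := by
  apply dimH_le_of_count_approx (A := Cls w H₀ M₀ c v')
  · have : 0 < 3 + v' := by linarith
    have : 0 < w + 1 := by linarith
    have : 0 < 1 + v' := by linarith
    positivity
  · exact hv
  · exact cls_Count hw hM hc hc1 (hv.trans hvv) hv2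
  · exact fun x hx => hx.1
  · exact clb_approx hc (by linarith) (by linarith)

theorem dimH_Cls {w H₀ M₀ c : ℝ} (hw : 2 < w) (hM : 0 ≤ M₀) (hc : 0 < c) (hc1 : c ≤ 1) :
    dimH (Cls w H₀ M₀ c 1) ≤ ENNReal.ofReal (3 / (2 * (w + 1))) := by
  have h := dimH_le_of_count (A := Cls w H₀ M₀ c 1) (κ := 3 * (1 + 1) / ((3 + 1) * (w + 1)))
    (by have : 0 < w + 1 := by linarith
        positivity)
    (cls_Count hw hM hc hc1 le_rfl (by norm_num))
  refine h.trans (le_of_eq ?_)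
  congr 1
  have : w + 1 ≠ 0 := by linarith
  field_simp
  norm_num

theorem dimH_Gd {w H₀ M₀ : ℝ} (hw : 2 < w) (hM : 0 ≤ M₀) :
    dimH (Gd w H₀ M₀) ≤ ENNReal.ofReal (3 / (2 * (w + 1))) := by
  classical
  have hw1 : 0 < w + 1 := by linarith
  apply le_ofReal_of_forall_gt
  intro s hs
  have hs' : 0 < 3 / (2 * (w + 1)) := by positivity
  obtain ⟨N₀, hN₀⟩ := exists_nat_gt (3 / (2 * (w + 1)) / (s - 3 / (2 * (w + 1))))
  set N := N₀ + 1 with hN
  have hNpos : (0 : ℝ) < N := by positivity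
  have hNs : 3 / (2 * (w + 1)) * (1 + 1 / (2 * N)) ≤ s := by
    have h1 : 3 / (2 * (w + 1)) / (s - 3 / (2 * (w + 1))) < N := by
      refine hN₀.trans ?_
      rw [hN]; push_cast; linarith
    rw [div_lt_iff₀ (by linarith)] at h1
    have h2 : 3 / (2 * (w + 1)) * (1 / (2 * N)) ≤ s - 3 / (2 * (w + 1)) := by
      rw [mul_one_div, div_le_iff₀ (by positivity)]
      nlinarith
    linarith
  have hcover : Gd w H₀ M₀ ⊆ ⋃ n : ℕ, (Cls w H₀ M₀ (1 / ((n : ℝ) + 1)) 1 ∪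
      ⋃ i : Fin N, Clb w H₀ M₀ (1 / ((n : ℝ) + 1)) (1 + ((i : ℕ) + 1 : ℝ) / N)
        (1 + ((i : ℕ) : ℝ) / N)) := by
    intro x hx
    obtain ⟨hx1, hx2, c₂, hc₂, hx3⟩ := hx
    have hex : ∃ i : ℕ, ∃ c : ℝ, 0 < c ∧ Dio c (1 + (i : ℝ) / N) x := by
      refine ⟨N, c₂, hc₂, ?_⟩
      rw [div_self hNpos.ne']
      norm_num
      exact hx3
    set i₀ := Nat.find hex with hi₀
    obtain ⟨c, hc, hdio⟩ := Nat.find_spec hex
    rw [← hi₀] at hdio
    have hi₀N : i₀ ≤ N := by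
      apply Nat.find_min' hex
      refine ⟨c₂, hc₂, ?_⟩
      rw [div_self hNpos.ne']
      norm_num
      exact hx3
    obtain ⟨n, hn⟩ := exists_nat_one_div_lt hc
    rw [Set.mem_iUnion]
    refine ⟨n, ?_⟩
    rcases Nat.eq_zero_or_pos i₀ with h0 | h0
    · left
      refine ⟨hx1, hx2, ?_⟩
      rw [h0] at hdio
      simp only [Nat.cast_zero, zero_div, add_zero] at hdio
      exact hdio.mono hn.le
    · right
      rw [Set.mem_iUnion]
      have hpred : i₀ = (i₀ - 1) + 1 := by omega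
      refine ⟨⟨i₀ - 1, by omega⟩, ⟨hx1, hx2, ?_⟩, ?_⟩
      · simp only
        have e1 : ((i₀ - 1 : ℕ) : ℝ) + 1 = (i₀ : ℝ) := by
          exact_mod_cast hpred.symm
        rw [e1]
        exact hdio.mono hn.le
      · intro c' hc' hd'
        simp only at hd'
        have := Nat.find_min hex (m := i₀ - 1) (by omega)
        exact this ⟨c', hc', hd'⟩
  refine (dimH_mono hcover).trans ?_
  rw [dimH_iUnion]
  apply iSup_le
  intro n
  have hn0 : (0 : ℝ) < 1 / ((n : ℝ) + 1) := by positivity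
  have hn1 : 1 / ((n : ℝ) + 1) ≤ 1 := by
    rw [div_le_one (by positivity)]
    have : (0 : ℝ) ≤ n := Nat.cast_nonneg n
    linarith
  rw [dimH_union]
  apply max_le
  · exact (dimH_Cls hw hM hn0 hn1).trans (ENNReal.ofReal_le_ofReal hs.le)
  · rw [dimH_iUnion]
    apply iSup_le
    intro i
    have hi : ((i : ℕ) : ℝ) + 1 ≤ N := by exact_mod_cast i.2
    have hi0 : (0 : ℝ) ≤ ((i : ℕ) : ℝ) := Nat.cast_nonneg _
    have hv1 : (1 : ℝ) ≤ 1 + ((i : ℕ) : ℝ) / N := by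
      have : 0 ≤ ((i : ℕ) : ℝ) / N := by positivity
      linarith
    have hvv : 1 + ((i : ℕ) : ℝ) / N ≤ 1 + (((i : ℕ) : ℝ) + 1) / N := by
      gcongr
      linarith
    have hv2 : 1 + (((i : ℕ) : ℝ) + 1) / N ≤ 2 := by
      have : (((i : ℕ) : ℝ) + 1) / N ≤ 1 := by
        rw [div_le_one hNpos]; exact hi
      linarith
    refine (dimH_Clb hw hM hn0 hn1 hv1 hvv hv2).trans (ENNReal.ofReal_le_ofReal ?_)
    refine le_trans ?_ hNs
    set v := 1 + ((i : ℕ) : ℝ) / N with hv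
    have hv'eq : 1 + (((i : ℕ) : ℝ) + 1) / N = v + 1 / N := by
      rw [hv]; field_simp; ring
    rw [hv'eq]
    have hN1 : 0 < 1 / (N : ℝ) := by positivity
    have h1 : 0 < 1 + v := by linarith
    have h2 : 0 < 3 + (v + 1 / N) := by linarith
    have h3 : 2 / (1 + v) * (3 * (1 + (v + 1 / N)) / ((3 + (v + 1 / N)) * (w + 1)))
        = 3 / (2 * (w + 1)) * ((1 + 1 / N / (1 + v)) * (4 / (3 + (v + 1 / N)))) := by
      field_simp
      ring
    rw [h3]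
    apply mul_le_mul_of_nonneg_left _ hs'.le
    have h4 : 4 / (3 + (v + 1 / N)) ≤ 1 := by
      rw [div_le_one h2]; linarith
    have h5 : 1 + 1 / (N : ℝ) / (1 + v) ≤ 1 + 1 / (2 * N) := by
      have : 1 / (N : ℝ) / (1 + v) ≤ 1 / (N : ℝ) / 2 := by
        apply div_le_div_of_nonneg_left hN1.le (by norm_num) (by linarith)
      have e : 1 / (N : ℝ) / 2 = 1 / (2 * N) := by field_simp
      linarith
    have h6 : 0 ≤ 1 + 1 / (N : ℝ) / (1 + v) := by positivity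
    calc (1 + 1 / (N : ℝ) / (1 + v)) * (4 / (3 + (v + 1 / N)))
        ≤ (1 + 1 / (N : ℝ) / (1 + v)) * 1 := mul_le_mul_of_nonneg_left h4 h6
      _ ≤ _ := by linarith

end UE
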