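import Pool.Agent.Lib_helper29.UE13

/-!
# Numbers with good uniform quadratic approximation are not too close to rational numbers
-/

namespace UE

open Filter Topology

theorem exists_dist_pos {x : ℝ} (hx : Irrational x) (n : ℕ) :
    ∃ m : ℝ, 0 < m ∧ ∀ A B : ℤ, A ≠ 0 → A.natAbs ≤ n → m ≤ |(A : ℝ) * x - B| := by
  induction n with
  | zero =>
    refine ⟨1, one_pos, fun A B hA hn => ?_⟩
    exfalso
    apply hA
    exact Int.natAbs_eq_zero.mp (Nat.le_zero.mp hn)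
  | succ n ih =>
    obtain ⟨m, hm, h⟩ := ih
    set y : ℝ := ((n + 1 : ℕ) : ℝ) * x with hy
    have hyirr : Irrational y := hx.natCast_mul (Nat.succ_ne_zero n)
    have hr : 0 < |y - round y| := by
      rw [abs_pos, sub_ne_zero]
      exact (Irrational.ne_int hyirr _)
    refine ⟨min m |y - round y|, lt_min hm hr, ?_⟩
    intro A B hA hn
    rcases Nat.lt_or_ge n A.natAbs with h1 | h1
    · have h2 : A.natAbs = n + 1 := by omega
      refine (min_le_right _ _).trans ?_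
      rcases Int.natAbs_eq A with h3 | h3
      · rw [h3, h2]
        have := round_le y B
        rw [hy] at this ⊢
        exact_mod_cast this
      · rw [h3, h2]
        have h4 := round_le y (-B)
        have e : ((-((n + 1 : ℕ) : ℤ) : ℤ) : ℝ) * x - B = -(y - ((-B : ℤ) : ℝ)) := by
          rw [hy]; push_cast; ring
        rw [e, abs_neg]
        exact h4
    · exact (min_le_left _ _).trans (h A B hA h1)

theorem dio_two_coprime {w H₀ x : ℝ} (hw : 2 < w)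
    (happ : ∀ H, H₀ ≤ H → ∃ P : Z3, P ≠ ⟨0, 0, 0⟩ ∧ |(P.a : ℝ)| ≤ H ∧ |(P.b : ℝ)| ≤ H ∧
      |(P.c : ℝ)| ≤ H ∧ |ev P x| ≤ H ^ (-w)) :
    ∃ A₀ : ℕ, ∀ A B : ℤ, IsCoprime A B → A₀ ≤ A.natAbs →
      1 / (2 * |x| + 3) * (((A : ℝ)) ^ 2)⁻¹ ≤ |(A : ℝ) * x - B| := by
  have ev1 : ∀ᶠ z : ℝ in atTop, 16 * z ^ (-(w - 2)) ≤ 1 / 4 := by
    have h1 := (tendsto_rpow_neg_atTop (by linarith : 0 < w - 2)).const_mul 16
    rw [mul_zero] at h1
    exact (h1.eventually_le_const (by norm_num : (0 : ℝ) < 1 / 4))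
  obtain ⟨z₀, hz₀⟩ := eventually_atTop.mp
    (ev1.and ((eventually_ge_atTop (1 : ℝ)).and (eventually_ge_atTop H₀)))
  obtain ⟨A₀, hA₀⟩ := exists_nat_ge (4 * z₀)
  refine ⟨A₀, ?_⟩
  intro A B hcop hA
  have hnat : (A.natAbs : ℝ) = |(A : ℝ)| := by
    rw [Nat.cast_natAbs, Int.cast_abs]
  set H := |(A : ℝ)| / 4 with hH
  have hHz : z₀ ≤ H := by
    have : (A₀ : ℝ) ≤ (A.natAbs : ℝ) := by exact_mod_cast hA
    rw [hnat] at this
    rw [hH]; linarith
  obtain ⟨g1, g2, g3⟩ := hz₀ H hHz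
  have hH0 : 0 < H := by linarith
  have hAabs : 0 < |(A : ℝ)| := by rw [hH] at hH0; linarith
  have hAne : (A : ℝ) ≠ 0 := abs_pos.mp hAabs
  have hAneZ : A ≠ 0 := by exact_mod_cast hAne
  by_contra hcon
  push Not at hcon
  set K := 2 * |x| + 3 with hK
  have hK0 : 3 ≤ K := by have := abs_nonneg x; linarith
  have hKpos : 0 < K := by linarith
  have hA4 : |(A : ℝ)| = 4 * H := by rw [hH]; ring
  have hsq : (A : ℝ) ^ 2 = |(A : ℝ)| ^ 2 := (sq_abs _).symm
  have hA1 : 1 ≤ |(A : ℝ)| := by linarith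
  obtain ⟨P, hP, ha, hb, hc, hev⟩ := happ H g3
  set D : ℤ := P.a * A ^ 2 + P.b * A * B + P.c * B ^ 2 with hD
  -- the integer `D` is zero
  have hdist : |x - (B : ℝ) / A| ≤ 1 := by
    have e1 : x - (B : ℝ) / A = (A * x - B) / A := by field_simp
    rw [e1, abs_div, div_le_one hAabs]
    refine hcon.le.trans ?_
    have h1 : ((A : ℝ) ^ 2)⁻¹ ≤ 1 := by
      rw [hsq]
      exact inv_le_one_of_one_le₀ (one_le_pow₀ hA1)
    have h2 : 1 / K ≤ 1 := by rw [div_le_one hKpos]; linarith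
    have h3 : 1 / K * ((A : ℝ) ^ 2)⁻¹ ≤ 1 * 1 := by gcongr
    linarith
  have hBA : |(B : ℝ) / A + x| ≤ 2 * |x| + 1 := by
    have e : (B : ℝ) / A + x = -(x - (B : ℝ) / A) + 2 * x := by ring
    rw [e]
    refine (abs_add_le _ _).trans ?_
    rw [abs_neg, abs_mul, abs_two]
    linarith
  have hslope : |(P.b : ℝ) + P.c * ((B : ℝ) / A + x)| ≤ H * K := by
    refine (abs_add_le _ _).trans ?_
    rw [abs_mul]
    have h1 : |(P.c : ℝ)| * |(B : ℝ) / A + x| ≤ H * (2 * |x| + 1) := by gcongr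
    have h2 : 0 ≤ H * 1 := by linarith
    calc |(P.b : ℝ)| + |(P.c : ℝ)| * |(B : ℝ) / A + x| ≤ H + H * (2 * |x| + 1) := by linarith
      _ ≤ H * K := by rw [hK]; linarith
  have hDeq : (D : ℝ) = A ^ 2 * ev P x - A * (A * x - B) * (P.b + P.c * ((B : ℝ) / A + x)) := by
    rw [hD]
    unfold ev
    push_cast
    field_simp
    ring
  have hterm1 : |(A : ℝ) ^ 2 * ev P x| ≤ 1 / 4 := by
    rw [abs_mul, abs_pow, hA4]
    calc (4 * H) ^ 2 * |ev P x| ≤ (4 * H) ^ 2 * H ^ (-w) := by gcongr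
      _ = 16 * (H ^ (2 : ℝ) * H ^ (-w)) := by
          rw [Real.rpow_two]; ring
      _ = 16 * H ^ (-(w - 2)) := by
          rw [← Real.rpow_add hH0]; congr 2; ring
      _ ≤ 1 / 4 := g1
  have hterm2 : |(A : ℝ) * (A * x - B) * (P.b + P.c * ((B : ℝ) / A + x))| ≤ 1 / 4 := by
    rw [abs_mul, abs_mul]
    calc |(A : ℝ)| * |(A : ℝ) * x - B| * |(P.b : ℝ) + P.c * ((B : ℝ) / A + x)|
        ≤ |(A : ℝ)| * (1 / K * ((A : ℝ) ^ 2)⁻¹) * (H * K) := by
          gcongr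
      _ = 1 / 4 := by
          rw [hsq, hA4]
          field_simp
  have hDlt : |(D : ℝ)| < 1 := by
    rw [hDeq]
    refine (abs_sub _ _).trans_lt ?_
    linarith
  have hD0 : D = 0 := by
    rw [← Int.cast_abs] at hDlt
    have : |D| < 1 := by exact_mod_cast hDlt
    exact Int.abs_lt_one_iff.mp this
  -- divisibility
  have hsmall : ∀ k : ℤ, |(k : ℝ)| ≤ H → A ∣ k → k = 0 := by
    intro k hk hdvd
    by_contra hk0
    have h1 := Int.natAbs_le_of_dvd_ne_zero hdvd hk0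
    have h2 : (A.natAbs : ℝ) ≤ (k.natAbs : ℝ) := by exact_mod_cast h1
    rw [hnat, Nat.cast_natAbs, Int.cast_abs] at h2
    linarith
  have hc0 : P.c = 0 := by
    apply hsmall _ hc
    have h1 : A ∣ P.c * B ^ 2 := by
      refine ⟨-(P.a * A + P.b * B), ?_⟩
      have : P.a * A ^ 2 + P.b * A * B + P.c * B ^ 2 = 0 := by rw [← hD]; exact hD0
      linear_combination this
    exact (hcop.pow_right (n := 2)).dvd_of_dvd_mul_right h1
  have hlin : P.a * A + P.b * B = 0 := by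
    have h1 : A * (P.a * A + P.b * B) = 0 := by
      have : P.a * A ^ 2 + P.b * A * B + P.c * B ^ 2 = 0 := by rw [← hD]; exact hD0
      rw [hc0] at this
      linear_combination this
    exact (mul_eq_zero.mp h1).resolve_left hAneZ
  have hb0 : P.b = 0 := by
    apply hsmall _ hb
    have h1 : A ∣ P.b * B := ⟨-P.a, by linear_combination hlin⟩
    exact hcop.dvd_of_dvd_mul_right h1
  have ha0 : P.a = 0 := by
    rw [hb0, zero_mul, add_zero] at hlin
    exact (mul_eq_zero.mp hlin).resolve_right hAneZ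
  apply hP
  ext
  · exact ha0
  · exact hb0
  · exact hc0

/-- Good uniform quadratic approximation implies a lower bound for the distance to rational
numbers. -/
theorem dio_two {w H₀ x : ℝ} (hw : 2 < w) (hx : Irrational x)
    (happ : ∀ H, H₀ ≤ H → ∃ P : Z3, P ≠ ⟨0, 0, 0⟩ ∧ |(P.a : ℝ)| ≤ H ∧ |(P.b : ℝ)| ≤ H ∧
      |(P.c : ℝ)| ≤ H ∧ |ev P x| ≤ H ^ (-w)) :
    ∃ c : ℝ, 0 < c ∧ Dio c 2 x := by
  obtain ⟨A₀, hA₀⟩ := dio_two_coprime hw happ
  obtain ⟨m, hm, hmin⟩ := exists_dist_pos hx A₀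
  have hK0 : 0 < 2 * |x| + 3 := by have := abs_nonneg x; linarith
  set c := min (1 / (2 * |x| + 3)) m with hc
  have hc0 : 0 < c := lt_min (by positivity) hm
  have hcop : ∀ A B : ℤ, A ≠ 0 → IsCoprime A B → c * (((A : ℝ)) ^ 2)⁻¹ ≤ |(A : ℝ) * x - B| := by
    intro A B hA h
    have hA1 : (1 : ℝ) ≤ |(A : ℝ)| := by
      rw [← Int.cast_abs]; exact_mod_cast Int.one_le_abs hA
    have h0 : 0 ≤ ((A : ℝ) ^ 2)⁻¹ := by positivity
    rcases le_total A₀ A.natAbs with h1 | h1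
    · refine le_trans ?_ (hA₀ A B h h1)
      exact mul_le_mul_of_nonneg_right (min_le_left _ _) h0
    · refine le_trans ?_ (hmin A B hA h1)
      have h2 : ((A : ℝ) ^ 2)⁻¹ ≤ 1 := by
        rw [← sq_abs]
        exact inv_le_one_of_one_le₀ (one_le_pow₀ hA1)
      calc c * ((A : ℝ) ^ 2)⁻¹ ≤ m * 1 := by
            apply mul_le_mul (min_le_right _ _) h2 h0 hm.le
        _ = m := mul_one m
  refine ⟨c, hc0, ?_⟩
  intro A B hA
  have hAR : (A : ℝ) ≠ 0 := by exact_mod_cast hA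
  have hAabs : 0 < |(A : ℝ)| := abs_pos.mpr hAR
  have hexp : Real.exp (-2 * Real.log |(A : ℝ)|) = ((A : ℝ) ^ 2)⁻¹ := by
    rw [neg_mul, Real.exp_neg, ← sq_abs, ← Real.log_rpow hAabs, Real.exp_log (by positivity),
      Real.rpow_two]
  rw [hexp]
  set g := Int.gcd A B with hg
  have hgpos : 0 < g := Int.gcd_pos_of_ne_zero_left B hA
  obtain ⟨A', hA'⟩ := Int.gcd_dvd_left (a := A) (b := B)
  obtain ⟨B', hB'⟩ := Int.gcd_dvd_right (a := A) (b := B)
  rw [← hg] at hA' hB'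
  have hA'0 : A' ≠ 0 := by
    rintro rfl
    rw [mul_zero] at hA'
    exact hA hA'
  have hcop' : IsCoprime A' B' := by
    rw [Int.isCoprime_iff_gcd_eq_one]
    have h1 : Int.gcd A B = g * Int.gcd A' B' := by
      conv_lhs => rw [hA', hB']
      rw [Int.gcd_mul_left]
      simp
    rw [← hg] at h1
    have h2 : g * 1 = g * Int.gcd A' B' := by rw [mul_one]; exact h1
    exact (Nat.eq_of_mul_eq_mul_left hgpos h2).symm
  have h1 := hcop A' B' hA'0 hcop'
  have hg1 : (1 : ℝ) ≤ (g : ℝ) := by exact_mod_cast hgpos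
  have hAr : (A : ℝ) = (g : ℝ) * A' := by
    rw [hA']; push_cast; ring
  have hBr : (B : ℝ) = (g : ℝ) * B' := by
    rw [hB']; push_cast; ring
  have hA'R : (A' : ℝ) ≠ 0 := by exact_mod_cast hA'0
  have hA'pos : 0 < |(A' : ℝ)| := abs_pos.mpr hA'R
  calc c * ((A : ℝ) ^ 2)⁻¹ ≤ c * ((A' : ℝ) ^ 2)⁻¹ := by
        apply mul_le_mul_of_nonneg_left _ hc0.le
        apply inv_anti₀ (by positivity)
        rw [hAr, mul_pow]
        have : 1 ≤ (g : ℝ) ^ 2 := one_le_pow₀ hg1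
        have h3 : 0 ≤ (A' : ℝ) ^ 2 := by positivity
        nlinarith
    _ ≤ |(A' : ℝ) * x - B'| := h1
    _ ≤ (g : ℝ) * |(A' : ℝ) * x - B'| := by
        have := abs_nonneg ((A' : ℝ) * x - B')
        nlinarith
    _ = |(A : ℝ) * x - B| := by
        rw [hAr, hBr]
        rw [show (g : ℝ) * A' * x - g * B' = g * (A' * x - B') by ring, abs_mul, Nat.abs_cast]

end UE
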