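import Pool.Agent.Lib_helper29.UE1

/-!
# Weights attached to the norms, and their explicit form
-/

namespace UE

/-- Weight of a polynomial. -/
noncomputable def wV (e r t x : ℝ) (P : Z3) : ℝ :=
  Real.exp (-(1 + e) * Real.log (NV r t x P) - (2 * e - 1) * (t - 2 * r / 3))

/-- Weight of a point. -/
noncomputable def wP (e r t x : ℝ) (X : Z3) : ℝ :=
  Real.exp (-(2 - e) * Real.log (NP r t x X) - (2 * e - 1) * (t - 2 * r / 3))

theorem wV_pos (e r t x : ℝ) (P : Z3) : 0 < wV e r t x P := Real.exp_pos _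
theorem wP_pos (e r t x : ℝ) (P : Z3) : 0 < wP e r t x P := Real.exp_pos _

theorem log_NV_ge {r t x u s : ℝ} {P : Z3} (hu : 0 < u) (h : Real.exp s * u ≤ NV r t x P) :
    s + Real.log u ≤ Real.log (NV r t x P) := by
  have := Real.log_le_log (by positivity) h
  rwa [Real.log_mul (Real.exp_pos _).ne' hu.ne', Real.log_exp] at this

theorem log_NP_ge {r t x u s : ℝ} {P : Z3} (hu : 0 < u) (h : Real.exp s * u ≤ NP r t x P) :
    s + Real.log u ≤ Real.log (NP r t x P) := by
  have := Real.log_le_log (by positivity) h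
  rwa [Real.log_mul (Real.exp_pos _).ne' hu.ne', Real.log_exp] at this

theorem NV_ge_ev {r t x u : ℝ} {P : Z3} (h : u ≤ |ev P x|) : Real.exp t * u ≤ NV r t x P :=
  le_trans (mul_le_mul_of_nonneg_left h (Real.exp_pos _).le) (le_max_left _ _)

theorem NV_ge_dv {r t x u : ℝ} {P : Z3} (h : u ≤ Real.exp (-r) * |dv P x|) :
    Real.exp t * u ≤ NV r t x P := by
  refine le_trans (mul_le_mul_of_nonneg_left h (Real.exp_pos _).le) ?_
  rw [← mul_assoc, ← Real.exp_add]
  exact le_trans (le_max_left _ _) (le_max_right _ _)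

theorem NV_ge_c {r t x u : ℝ} {P : Z3} (h : u ≤ |(P.c : ℝ)|) :
    Real.exp (r - 2 * t) * u ≤ NV r t x P :=
  le_trans (mul_le_mul_of_nonneg_left h (Real.exp_pos _).le)
    (le_trans (le_max_right _ _) (le_max_right _ _))

theorem NP_ge_y {r t x u : ℝ} {P : Z3} (h : u ≤ |yv P x|) :
    Real.exp (r - t) * u ≤ NP r t x P :=
  le_trans (mul_le_mul_of_nonneg_left h (Real.exp_pos _).le)
    (le_trans (le_max_left _ _) (le_max_right _ _))

theorem NP_ge_a {r t x u : ℝ} {P : Z3} (h : u ≤ Real.exp (-r) * |(P.a : ℝ)|) :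
    Real.exp (r - t) * u ≤ NP r t x P := by
  refine le_trans (mul_le_mul_of_nonneg_left h (Real.exp_pos _).le) ?_
  rw [← mul_assoc, ← Real.exp_add, show r - t + -r = -t by ring]
  exact le_max_left _ _

theorem NP_ge_z {r t x u : ℝ} {P : Z3} (h : u ≤ |zv P x|) :
    Real.exp (2 * t - r) * u ≤ NP r t x P :=
  le_trans (mul_le_mul_of_nonneg_left h (Real.exp_pos _).le)
    (le_trans (le_max_right _ _) (le_max_right _ _))

/-- The combined first size of a polynomial at scale `r`. -/
noncomputable def uV (r x : ℝ) (P : Z3) : ℝ := max |ev P x| (Real.exp (-r) * |dv P x|)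

/-- The combined first size of a point at scale `r`. -/
noncomputable def uP (r x : ℝ) (X : Z3) : ℝ := max |yv X x| (Real.exp (-r) * |(X.a : ℝ)|)

theorem NV_ge_uV (r t x : ℝ) (P : Z3) : Real.exp t * uV r x P ≤ NV r t x P := by
  rcases le_total |ev P x| (Real.exp (-r) * |dv P x|) with h | h
  · exact NV_ge_dv (by rw [uV, max_eq_right h])
  · exact NV_ge_ev (by rw [uV, max_eq_left h])

theorem NP_ge_uP (r t x : ℝ) (P : Z3) : Real.exp (r - t) * uP r x P ≤ NP r t x P := by
  rcases le_total |yv P x| (Real.exp (-r) * |(P.a : ℝ)|) with h | h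
  · exact NP_ge_a (by rw [uP, max_eq_right h])
  · exact NP_ge_y (by rw [uP, max_eq_left h])

theorem NV_eq_uV (r t x : ℝ) (P : Z3) :
    NV r t x P = max (Real.exp t * uV r x P) (Real.exp (r - 2 * t) * |(P.c : ℝ)|) := by
  unfold NV uV
  rw [mul_max_of_nonneg _ _ (Real.exp_pos t).le, ← mul_assoc, ← Real.exp_add, ← sub_eq_add_neg,
    max_assoc]

theorem NP_eq_uP (r t x : ℝ) (X : Z3) :
    NP r t x X = max (Real.exp (r - t) * uP r x X) (Real.exp (2 * t - r) * |zv X x|) := by
  unfold NP uP
  rw [mul_max_of_nonneg _ _ (Real.exp_pos _).le, ← mul_assoc, ← Real.exp_add,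
    show r - t + -r = -t by ring,
    max_comm (Real.exp (r - t) * |yv X x|) (Real.exp (-t) * |(X.a : ℝ)|), max_assoc]

/-- Upper bound for the weight of a polynomial. -/
theorem wV_le {e r t x u : ℝ} {P : Z3} (he : 1 / 2 ≤ e) (ht : 2 * r / 3 ≤ t) (hu : 0 < u)
    (h1 : u ≤ uV r x P) (hc : P.c ≠ 0) :
    wV e r t x P ≤ Real.exp (-(2 - e) / 3 * r - Real.log u
      - e * max (r + Real.log u) (Real.log |(P.c : ℝ)|)) := by
  unfold wV
  have hc' : 0 < |(P.c : ℝ)| := abs_pos.mpr (by exact_mod_cast hc)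
  have n1 := log_NV_ge hu (le_trans (mul_le_mul_of_nonneg_left h1 (Real.exp_pos t).le)
    (NV_ge_uV r t x P))
  have n2 := log_NV_ge hc' (NV_ge_c (r := r) (t := t) (x := x) (P := P) le_rfl)
  apply Real.exp_le_exp.mpr
  rcases le_total (r + Real.log u) (Real.log |(P.c : ℝ)|) with hcase | hcase
  · rw [max_eq_right hcase]
    have k2 : e * (r - 2 * t + Real.log |(P.c : ℝ)|) ≤ e * Real.log (NV r t x P) :=
      mul_le_mul_of_nonneg_left n2 (by linarith)
    nlinarith
  · rw [max_eq_left hcase]
    have k2 : (1 + e) * (t + Real.log u) ≤ (1 + e) * Real.log (NV r t x P) :=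
      mul_le_mul_of_nonneg_left n1 (by linarith)
    have k3 : 0 ≤ (2 * e - 1) * (t - 2 * r / 3) := mul_nonneg (by linarith) (by linarith)
    have k4 : 0 ≤ (1 + e) * (t - 2 * r / 3) := mul_nonneg (by linarith) (by linarith)
    nlinarith

/-- Upper bound for the weight of a point. -/
theorem wP_le {e r t x u z : ℝ} {X : Z3} (he : 1 / 2 ≤ e) (he1 : e ≤ 1) (ht : 2 * r / 3 ≤ t)
    (hu : 0 < u) (hz : 0 < z) (h1 : u ≤ uP r x X) (h2 : z ≤ |zv X x|) :
    wP e r t x X ≤ Real.exp (-(2 - e) / 3 * r - (1 - e) * Real.log z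
      - max (Real.log z) (Real.log u)) := by
  unfold wP
  have n1 := log_NP_ge hu (le_trans (mul_le_mul_of_nonneg_left h1 (Real.exp_pos _).le)
    (NP_ge_uP r t x X))
  have n2 := log_NP_ge hz (NP_ge_z (r := r) (t := t) (x := x) (P := X) h2)
  apply Real.exp_le_exp.mpr
  rcases le_total (Real.log z) (Real.log u) with hcase | hcase
  · rw [max_eq_right hcase]
    have k2 : (1 - e) * (2 * t - r + Real.log z) ≤ (1 - e) * Real.log (NP r t x X) :=
      mul_le_mul_of_nonneg_left n2 (by linarith)
    nlinarith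
  · rw [max_eq_left hcase]
    have k2 : (2 - e) * (2 * t - r + Real.log z) ≤ (2 - e) * Real.log (NP r t x X) :=
      mul_le_mul_of_nonneg_left n2 (by linarith)
    have k3 : 0 ≤ (2 * e - 1) * (t - 2 * r / 3) := mul_nonneg (by linarith) (by linarith)
    have k4 : 0 ≤ (2 - e) * (t - 2 * r / 3) := mul_nonneg (by linarith) (by linarith)
    nlinarith

/-- The upper bound for the weight of a polynomial is attained. -/
theorem wV_attained {e r x : ℝ} {P : Z3} (hr : 0 ≤ r) (hu : 0 < uV r x P)
    (hc : P.c ≠ 0) (hcu : Real.log |(P.c : ℝ)| ≤ 2 * r + Real.log (uV r x P)) :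
    ∃ t, 2 * r / 3 ≤ t ∧ t ≤ r ∧ Real.exp (-(2 - e) / 3 * r - Real.log (uV r x P)
      - e * max (r + Real.log (uV r x P)) (Real.log |(P.c : ℝ)|)) ≤ wV e r t x P := by
  have hc' : 0 < |(P.c : ℝ)| := abs_pos.mpr (by exact_mod_cast hc)
  set u := uV r x P with hudef
  rcases le_total (r + Real.log u) (Real.log |(P.c : ℝ)|) with hcase | hcase
  · refine ⟨(r + Real.log |(P.c : ℝ)| - Real.log u) / 3, by linarith, by linarith, ?_⟩
    rw [max_eq_right hcase]
    set t := (r + Real.log |(P.c : ℝ)| - Real.log u) / 3 with htdef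
    have hN : Real.log (NV r t x P) = t + Real.log u := by
      have h1 : Real.exp t * u = Real.exp (t + Real.log u) := by
        rw [Real.exp_add, Real.exp_log hu]
      have h2 : Real.exp (r - 2 * t) * |(P.c : ℝ)| = Real.exp (t + Real.log u) := by
        conv_lhs => rw [← Real.exp_log hc', ← Real.exp_add]
        congr 1
        rw [htdef]; ring
      rw [NV_eq_uV, ← hudef, h1, h2, max_self, Real.log_exp]
    unfold wV
    rw [hN]
    apply Real.exp_le_exp.mpr
    rw [htdef]
    apply le_of_eq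
    ring
  · refine ⟨2 * r / 3, le_rfl, by linarith, ?_⟩
    rw [max_eq_left hcase]
    have hN : Real.log (NV r (2 * r / 3) x P) = 2 * r / 3 + Real.log u := by
      have h1 : Real.exp (2 * r / 3) * u = Real.exp (2 * r / 3 + Real.log u) := by
        rw [Real.exp_add, Real.exp_log hu]
      have h2 : Real.exp (r - 2 * (2 * r / 3)) * |(P.c : ℝ)| ≤ Real.exp (2 * r / 3 + Real.log u) := by
        conv_lhs => rw [← Real.exp_log hc', ← Real.exp_add]
        apply Real.exp_le_exp.mpr
        linarith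
      rw [NV_eq_uV, ← hudef, h1, max_eq_left h2, Real.log_exp]
    unfold wV
    rw [hN]
    apply Real.exp_le_exp.mpr
    apply le_of_eq
    ring

/-- The upper bound for the weight of a point is attained. -/
theorem wP_attained {e r x : ℝ} {X : Z3} (hr : 0 ≤ r)
    (hu : 0 < uP r x X) (hz : 0 < |zv X x|)
    (hcu : Real.log (uP r x X) - Real.log |zv X x| ≤ r) :
    ∃ t, 2 * r / 3 ≤ t ∧ t ≤ r ∧ Real.exp (-(2 - e) / 3 * r - (1 - e) * Real.log |zv X x|
      - max (Real.log |zv X x|) (Real.log (uP r x X))) ≤ wP e r t x X := by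
  set u := uP r x X with hudef
  set z := |zv X x| with hzdef
  rcases le_total (Real.log z) (Real.log u) with hcase | hcase
  · refine ⟨(2 * r + Real.log u - Real.log z) / 3, by linarith, by linarith, ?_⟩
    rw [max_eq_right hcase]
    set t := (2 * r + Real.log u - Real.log z) / 3 with htdef
    have hN : Real.log (NP r t x X) = r - t + Real.log u := by
      have h1 : Real.exp (r - t) * u = Real.exp (r - t + Real.log u) := by
        rw [Real.exp_add _ (Real.log u), Real.exp_log hu]
      have h2 : Real.exp (2 * t - r) * z = Real.exp (r - t + Real.log u) := by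
        conv_lhs => rw [← Real.exp_log hz, ← Real.exp_add]
        congr 1
        rw [htdef]; ring
      rw [NP_eq_uP, ← hudef, ← hzdef, h1, h2, max_self, Real.log_exp]
    unfold wP
    rw [hN]
    apply Real.exp_le_exp.mpr
    rw [htdef]
    apply le_of_eq
    ring
  · refine ⟨2 * r / 3, le_rfl, by linarith, ?_⟩
    rw [max_eq_left hcase]
    have hN : Real.log (NP r (2 * r / 3) x X) = 2 * (2 * r / 3) - r + Real.log z := by
      have h1 : Real.exp (2 * (2 * r / 3) - r) * z
          = Real.exp (2 * (2 * r / 3) - r + Real.log z) := by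
        rw [Real.exp_add _ (Real.log z), Real.exp_log hz]
      have h2 : Real.exp (r - 2 * r / 3) * u ≤ Real.exp (2 * (2 * r / 3) - r + Real.log z) := by
        conv_lhs => rw [← Real.exp_log hu, ← Real.exp_add]
        apply Real.exp_le_exp.mpr
        linarith
      rw [NP_eq_uP, ← hudef, ← hzdef, h1, max_eq_right h2, Real.log_exp]
    unfold wP
    rw [hN]
    apply Real.exp_le_exp.mpr
    apply le_of_eq
    ring

end UE
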