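import Pool.Agent.Lib_helper29.UE2

/-!
# Separated finite sets and reciprocal sums
-/

namespace UE

/-- A finite set of reals with pairwise distances at least `ρ`. -/
def Sep (ρ : ℝ) (E : Finset ℝ) : Prop := ∀ x ∈ E, ∀ y ∈ E, x ≠ y → ρ ≤ |x - y|

theorem Sep.mono {ρ ρ' : ℝ} {E : Finset ℝ} (h : Sep ρ E) (hρ : ρ' ≤ ρ) : Sep ρ' E :=
  fun x hx y hy hxy => hρ.trans (h x hx y hy hxy)

theorem Sep.subset {ρ : ℝ} {E F : Finset ℝ} (h : Sep ρ E) (hF : F ⊆ E) : Sep ρ F :=
  fun x hx y hy hxy => h x (hF hx) y (hF hy) hxy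

theorem abs_sub_lt_of_floor_eq {a b s : ℝ} (hs : 0 < s) (ha : 0 ≤ a) (hb : 0 ≤ b)
    (h : ⌊a / s⌋₊ = ⌊b / s⌋₊) : |a - b| < s := by
  have h1 := Nat.floor_le (show 0 ≤ a / s by positivity)
  have h2 := Nat.lt_floor_add_one (a / s)
  have h3 := Nat.floor_le (show 0 ≤ b / s by positivity)
  have h4 := Nat.lt_floor_add_one (b / s)
  rw [h] at h1 h2
  rw [le_div_iff₀ hs] at h1 h3
  rw [div_lt_iff₀ hs] at h2 h4
  rw [abs_lt]
  constructor <;> nlinarith

theorem Sep.card_le {ρ x₀ L : ℝ} {E : Finset ℝ} (hρ : 0 < ρ) (hE : Sep ρ E) (hL0 : 0 ≤ L)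
    (hL : ∀ x ∈ E, |x - x₀| ≤ L) : (E.card : ℝ) ≤ 2 * L / ρ + 1 := by
  have hb : ∀ x ∈ E, 0 ≤ x - (x₀ - L) ∧ x - (x₀ - L) ≤ 2 * L := by
    intro x hx
    have := abs_le.mp (hL x hx)
    constructor <;> linarith
  have hinj : Set.InjOn (fun x : ℝ => ⌊(x - (x₀ - L)) / ρ⌋₊) (E : Set ℝ) := by
    intro x hx y hy hxy
    by_contra hne
    have := abs_sub_lt_of_floor_eq hρ (hb x hx).1 (hb y hy).1 hxy
    have h2 := hE x hx y hy hne
    rw [show x - (x₀ - L) - (y - (x₀ - L)) = x - y by ring] at this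
    linarith
  have hsub : E.image (fun x : ℝ => ⌊(x - (x₀ - L)) / ρ⌋₊) ⊆ Finset.range (⌊2 * L / ρ⌋₊ + 1) := by
    intro n hn
    obtain ⟨x, hx, rfl⟩ := Finset.mem_image.mp hn
    rw [Finset.mem_range, Nat.lt_succ_iff]
    exact Nat.floor_le_floor (div_le_div_of_nonneg_right (hb x hx).2 hρ.le)
  have h1 := Finset.card_le_card hsub
  rw [Finset.card_image_of_injOn hinj, Finset.card_range] at h1
  have h2 : ((⌊2 * L / ρ⌋₊ : ℕ) : ℝ) ≤ 2 * L / ρ := Nat.floor_le (by positivity)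
  have h3 : (E.card : ℝ) ≤ (⌊2 * L / ρ⌋₊ : ℝ) + 1 := by exact_mod_cast h1
  linarith

theorem sum_range_max (K : ℕ) :
    ∑ j ∈ Finset.range (K + 1), (max 1 (j : ℝ))⁻¹ = 1 + (harmonic K : ℝ) := by
  rw [Finset.sum_range_succ', harmonic]
  push_cast
  rw [add_comm]
  congr 1
  · norm_num
  · apply Finset.sum_congr rfl
    intro j _
    rw [max_eq_right (by linarith [(Nat.cast_nonneg j : (0 : ℝ) ≤ j)])]

theorem sum_inv_nonneg {E : Finset ℝ} {f : ℝ → ℝ} {s : ℝ} (hs : 0 < s)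
    (hf : ∀ x ∈ E, 0 ≤ f x) (hsep : ∀ x ∈ E, ∀ y ∈ E, x ≠ y → s ≤ |f x - f y|) {K : ℕ}
    (hK : ∀ x ∈ E, f x < (K + 1) * s) :
    ∑ x ∈ E, (max (f x) s)⁻¹ ≤ s⁻¹ * (1 + (harmonic K : ℝ)) := by
  have hinj : Set.InjOn (fun x : ℝ => ⌊f x / s⌋₊) (E : Set ℝ) := by
    intro x hx y hy hxy
    by_contra hne
    have := abs_sub_lt_of_floor_eq hs (hf x hx) (hf y hy) hxy
    linarith [hsep x hx y hy hne]
  have hterm : ∀ x ∈ E, (max (f x) s)⁻¹ ≤ s⁻¹ * (max 1 ((⌊f x / s⌋₊ : ℕ) : ℝ))⁻¹ := by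
    intro x hx
    rw [← mul_inv]
    apply inv_anti₀ (by positivity)
    have h1 := Nat.floor_le (show 0 ≤ f x / s from div_nonneg (hf x hx) hs.le)
    rw [le_div_iff₀ hs] at h1
    rw [mul_max_of_nonneg _ _ hs.le]
    apply max_le
    · rw [mul_one]; exact le_max_right _ _
    · rw [mul_comm]; exact h1.trans (le_max_left _ _)
  calc ∑ x ∈ E, (max (f x) s)⁻¹
      ≤ ∑ x ∈ E, s⁻¹ * (max 1 ((⌊f x / s⌋₊ : ℕ) : ℝ))⁻¹ := Finset.sum_le_sum hterm
    _ = ∑ j ∈ E.image (fun x : ℝ => ⌊f x / s⌋₊), s⁻¹ * (max 1 (j : ℝ))⁻¹ := by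
        rw [Finset.sum_image hinj]
    _ ≤ ∑ j ∈ Finset.range (K + 1), s⁻¹ * (max 1 (j : ℝ))⁻¹ := by
        apply Finset.sum_le_sum_of_subset_of_nonneg
        · intro n hn
          obtain ⟨x, hx, rfl⟩ := Finset.mem_image.mp hn
          rw [Finset.mem_range]
          have h1 := hK x hx
          rw [← div_lt_iff₀ hs] at h1
          rw [Nat.floor_lt (div_nonneg (hf x hx) hs.le)]
          exact_mod_cast h1
        · intro i _ _
          positivity
    _ = s⁻¹ * (1 + (harmonic K : ℝ)) := by rw [← Finset.mul_sum, sum_range_max]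

theorem sum_inv_abs {E : Finset ℝ} {f : ℝ → ℝ} {s : ℝ} (hs : 0 < s)
    (hsep : ∀ x ∈ E, ∀ y ∈ E, x ≠ y → s ≤ |f x - f y|) {K : ℕ}
    (hK : ∀ x ∈ E, |f x| < (K + 1) * s) :
    ∑ x ∈ E, (max |f x| s)⁻¹ ≤ 2 * s⁻¹ * (1 + (harmonic K : ℝ)) := by
  classical
  rw [← Finset.sum_filter_add_sum_filter_not E (fun x => 0 ≤ f x)]
  have h1 : ∑ x ∈ E.filter (fun x => 0 ≤ f x), (max |f x| s)⁻¹ ≤ s⁻¹ * (1 + (harmonic K : ℝ)) := by
    refine le_trans (le_of_eq ?_) (sum_inv_nonneg (E := E.filter (fun x => 0 ≤ f x)) (f := f) hs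
      (fun x hx => (Finset.mem_filter.mp hx).2)
      (fun x hx y hy => hsep x (Finset.mem_filter.mp hx).1 y (Finset.mem_filter.mp hy).1)
      (K := K) ?_)
    · apply Finset.sum_congr rfl
      intro x hx
      rw [abs_of_nonneg (Finset.mem_filter.mp hx).2]
    · intro x hx
      exact lt_of_le_of_lt (le_abs_self _) (hK x (Finset.mem_filter.mp hx).1)
  have h2 : ∑ x ∈ E.filter (fun x => ¬ 0 ≤ f x), (max |f x| s)⁻¹
      ≤ s⁻¹ * (1 + (harmonic K : ℝ)) := by
    refine le_trans (le_of_eq ?_) (sum_inv_nonneg (E := E.filter (fun x => ¬ 0 ≤ f x))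
      (f := fun x => - f x) hs
      (fun x hx => by have := (Finset.mem_filter.mp hx).2; linarith)
      (fun x hx y hy hxy => ?_) (K := K) ?_)
    · apply Finset.sum_congr rfl
      intro x hx
      have := (Finset.mem_filter.mp hx).2
      rw [abs_of_neg (by linarith)]
    · rw [show - f x - - f y = -(f x - f y) by ring, abs_neg]
      exact hsep x (Finset.mem_filter.mp hx).1 y (Finset.mem_filter.mp hy).1 hxy
    · intro x hx
      exact lt_of_le_of_lt (neg_le_abs _) (hK x (Finset.mem_filter.mp hx).1)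
  linarith

/-- The basic sum over a separated subset of a short interval. -/
theorem sum_basic {E : Finset ℝ} {f : ℝ → ℝ} {r r' x₀ a : ℝ} (hrr : r ≤ r') (ha : 0 < a)
    (hE : Sep (Real.exp (-r')) E) (hEx : ∀ x ∈ E, |x - x₀| ≤ Real.exp (-r))
    (hlow : ∀ x y, |x - x₀| ≤ Real.exp (-r) → |y - x₀| ≤ Real.exp (-r) →
      a * |x - y| ≤ |f x - f y|)
    (hup : ∀ x y, |x - x₀| ≤ Real.exp (-r) → |y - x₀| ≤ Real.exp (-r) →
      |f x - f y| ≤ 2 * a * |x - y|) :
    ∑ x ∈ E, (max |f x| (Real.exp (-r') * a))⁻¹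
      ≤ 8 * (4 + (r' - r)) * Real.exp (r' - r) * (max |f x₀| (Real.exp (-r) * a))⁻¹ := by
  have hx₀ : |x₀ - x₀| ≤ Real.exp (-r) := by simpa using (Real.exp_pos (-r)).le
  have hexp : (1 : ℝ) ≤ Real.exp (r' - r) := Real.one_le_exp (by linarith)
  have hpos : 0 < Real.exp (-r) * a := by positivity
  have hpos' : 0 < Real.exp (-r') * a := by positivity
  have hU : 0 < max |f x₀| (Real.exp (-r) * a) := lt_of_lt_of_le hpos (le_max_right _ _)
  rcases le_total (4 * (Real.exp (-r) * a)) |f x₀| with hc | hc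
  · -- far from the zero
    have hUeq : max |f x₀| (Real.exp (-r) * a) = |f x₀| := max_eq_left (by linarith)
    rw [hUeq] at hU ⊢
    have hterm : ∀ x ∈ E, (max |f x| (Real.exp (-r') * a))⁻¹ ≤ 2 * |f x₀|⁻¹ := by
      intro x hx
      have h1 := hup x x₀ (hEx x hx) hx₀
      have h2 : |f x - f x₀| ≤ 2 * a * Real.exp (-r) :=
        h1.trans (mul_le_mul_of_nonneg_left (hEx x hx) (by positivity))
      have h3 : |f x₀| ≤ |f x| + |f x - f x₀| := by
        have := abs_sub_abs_le_abs_sub (f x₀) (f x)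
        rw [abs_sub_comm (f x₀)] at this
        linarith
      have h4 : |f x₀| / 2 ≤ max |f x| (Real.exp (-r') * a) :=
        le_trans (by linarith) (le_max_left _ _)
      calc (max |f x| (Real.exp (-r') * a))⁻¹ ≤ (|f x₀| / 2)⁻¹ := inv_anti₀ (by positivity) h4
        _ = 2 * |f x₀|⁻¹ := by rw [inv_div]; ring
    have hcard : (E.card : ℝ) ≤ 3 * Real.exp (r' - r) := by
      have := hE.card_le (Real.exp_pos _) (Real.exp_pos _).le hEx
      rw [mul_div_assoc, ← Real.exp_sub, show -r - -r' = r' - r by ring] at this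
      linarith
    calc ∑ x ∈ E, (max |f x| (Real.exp (-r') * a))⁻¹
        ≤ ∑ _x ∈ E, 2 * |f x₀|⁻¹ := Finset.sum_le_sum hterm
      _ = E.card * (2 * |f x₀|⁻¹) := by rw [Finset.sum_const, nsmul_eq_mul]
      _ ≤ (3 * Real.exp (r' - r)) * (2 * |f x₀|⁻¹) :=
          mul_le_mul_of_nonneg_right hcard (by positivity)
      _ = 6 * Real.exp (r' - r) * |f x₀|⁻¹ := by ring
      _ ≤ 8 * (4 + (r' - r)) * Real.exp (r' - r) * |f x₀|⁻¹ := by
          apply mul_le_mul_of_nonneg_right _ (by positivity)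
          apply mul_le_mul_of_nonneg_right _ (by positivity)
          linarith
  · -- close to the zero
    set s := Real.exp (-r') * a with hs
    set K := ⌊6 * Real.exp (r' - r)⌋₊ with hKdef
    have hsK : 6 * (Real.exp (-r) * a) = 6 * Real.exp (r' - r) * s := by
      rw [hs, show -r = (r' - r) + -r' by ring, Real.exp_add]; ring
    have hK : ∀ x ∈ E, |f x| < (K + 1) * s := by
      intro x hx
      have h1 := hup x x₀ (hEx x hx) hx₀
      have h2 : |f x - f x₀| ≤ 2 * a * Real.exp (-r) :=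
        h1.trans (mul_le_mul_of_nonneg_left (hEx x hx) (by positivity))
      have h3 : |f x| ≤ |f x₀| + |f x - f x₀| := by
        have := abs_sub_abs_le_abs_sub (f x) (f x₀)
        linarith
      have h4 : |f x| ≤ 6 * (Real.exp (-r) * a) := by linarith
      rw [hsK] at h4
      refine lt_of_le_of_lt h4 ?_
      apply mul_lt_mul_of_pos_right _ hpos'
      exact Nat.lt_floor_add_one _
    have hsep : ∀ x ∈ E, ∀ y ∈ E, x ≠ y → s ≤ |f x - f y| := by
      intro x hx y hy hxy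
      have h1 := hlow x y (hEx x hx) (hEx y hy)
      have h2 := hE x hx y hy hxy
      calc s = a * Real.exp (-r') := by rw [hs]; ring
        _ ≤ a * |x - y| := mul_le_mul_of_nonneg_left h2 ha.le
        _ ≤ _ := h1
    have h1 := sum_inv_abs hpos' hsep hK
    have hK1 : 1 ≤ K := by
      rw [hKdef]
      apply Nat.le_floor
      push_cast; linarith
    have hlogK : Real.log K ≤ 2 + (r' - r) := by
      have hKle : (K : ℝ) ≤ 6 * Real.exp (r' - r) := Nat.floor_le (by positivity)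
      have h6 : Real.log 6 ≤ 2 := by
        rw [Real.log_le_iff_le_exp (by norm_num)]
        have := Real.quadratic_le_exp_of_nonneg (show (0 : ℝ) ≤ 2 by norm_num)
        have h7 : (6 : ℝ) ≤ Real.exp 2 := by
          have e1 : (2.7 : ℝ) < Real.exp 1 := by
            have := Real.exp_one_gt_d9; linarith
          have : Real.exp 2 = Real.exp 1 * Real.exp 1 := by rw [← Real.exp_add]; norm_num
          rw [this]; nlinarith
        exact h7
      calc Real.log K ≤ Real.log (6 * Real.exp (r' - r)) :=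
            Real.log_le_log (by exact_mod_cast hK1) hKle
        _ = Real.log 6 + (r' - r) := by
            rw [Real.log_mul (by norm_num) (Real.exp_pos _).ne', Real.log_exp]
        _ ≤ _ := by linarith
    have hharm : (harmonic K : ℝ) ≤ 1 + Real.log K := harmonic_le_one_add_log K
    have hs_inv : s⁻¹ ≤ 4 * Real.exp (r' - r) * (max |f x₀| (Real.exp (-r) * a))⁻¹ := by
      have hUle : max |f x₀| (Real.exp (-r) * a) ≤ 4 * (Real.exp (-r) * a) :=
        max_le hc (by linarith)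
      have h5 : 4 * (Real.exp (-r) * a) = 4 * Real.exp (r' - r) * s := by
        rw [hs, show -r = (r' - r) + -r' by ring, Real.exp_add]; ring
      rw [h5] at hUle
      rw [← div_eq_mul_inv, le_div_iff₀ hU, inv_mul_le_iff₀ hpos']
      linarith
    calc ∑ x ∈ E, (max |f x| s)⁻¹ ≤ 2 * s⁻¹ * (1 + (harmonic K : ℝ)) := h1
      _ ≤ 2 * s⁻¹ * (4 + (r' - r)) := by
          apply mul_le_mul_of_nonneg_left _ (by positivity)
          linarith
      _ ≤ 2 * (4 * Real.exp (r' - r) * (max |f x₀| (Real.exp (-r) * a))⁻¹) * (4 + (r' - r)) := by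
          apply mul_le_mul_of_nonneg_right _ (by linarith)
          linarith
      _ = _ := by ring

/-- Lower bound used together with `sum_basic`. -/
theorem size_basic {f : ℝ → ℝ} {r r' x₀ x a : ℝ} (hrr : r ≤ r') (ha : 0 < a)
    (hx : |x - x₀| ≤ Real.exp (-r))
    (hup : |f x - f x₀| ≤ 2 * a * |x - x₀|) :
    Real.exp r * max |f x₀| (Real.exp (-r) * a) ≤
      4 * (Real.exp r' * max |f x| (Real.exp (-r') * a)) := by
  have e1 : Real.exp r * (Real.exp (-r) * a) = a := by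
    rw [← mul_assoc, ← Real.exp_add]; simp
  have e2 : Real.exp r' * (Real.exp (-r') * a) = a := by
    rw [← mul_assoc, ← Real.exp_add]; simp
  rw [mul_max_of_nonneg _ _ (Real.exp_pos r).le, mul_max_of_nonneg _ _ (Real.exp_pos r').le, e1, e2]
  have hm := le_max_right (Real.exp r' * |f x|) a
  have hm' := le_max_left (Real.exp r' * |f x|) a
  apply max_le
  · have h2 : |f x - f x₀| ≤ 2 * a * Real.exp (-r) :=
      hup.trans (mul_le_mul_of_nonneg_left hx (by positivity))
    have h3 : |f x₀| ≤ |f x| + |f x - f x₀| := by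
      have := abs_sub_abs_le_abs_sub (f x₀) (f x)
      rw [abs_sub_comm (f x₀)] at this
      linarith
    have h4 : Real.exp r * |f x₀| ≤ Real.exp r * |f x| + 2 * a := by
      have := mul_le_mul_of_nonneg_left (h3.trans (add_le_add_right h2 _)) (Real.exp_pos r).le
      have e3 : Real.exp r * (2 * a * Real.exp (-r)) = 2 * a := by
        calc Real.exp r * (2 * a * Real.exp (-r)) = 2 * (Real.exp r * (Real.exp (-r) * a)) := by ring
          _ = 2 * a := by rw [e1]
      linarith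
    have h5 : Real.exp r * |f x| ≤ Real.exp r' * |f x| :=
      mul_le_mul_of_nonneg_right (Real.exp_le_exp.mpr hrr) (abs_nonneg _)
    have h6 : 0 ≤ Real.exp r' * |f x| := by positivity
    linarith
  · linarith

end UE
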