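import Pool.Agent.Lib_helper29.UE3

/-!
# The sums of the weights of one fixed object
-/

namespace UE

/-- Sum of the weights of a fixed irreducible polynomial at the finer scale. -/
theorem obj_V {e : ℝ} (he : 1 / 2 ≤ e) (he1 : e ≤ 1) {r r' t₀ x₀ : ℝ} {P : Z3} (hP : Irr P)
    (hr : 0 ≤ r) (hrr : r ≤ r') (ht₀' : t₀ ≤ r)
    (hN : NV r t₀ x₀ P ≤ 1 / 10) {E : Finset ℝ} (hE : Sep (Real.exp (-r')) E)
    (hEx : ∀ x ∈ E, |x - x₀| ≤ Real.exp (-r)) {τ : ℝ → ℝ} (hτ : ∀ x ∈ E, 2 * r' / 3 ≤ τ x) :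
    ∃ t, 2 * r / 3 ≤ t ∧ t ≤ r ∧ ∑ x ∈ E, wV e r' (τ x) x P
      ≤ 100 * (4 + (r' - r)) * Real.exp ((1 + e) / 3 * (r' - r)) * wV e r t x₀ P := by
  obtain ⟨h1, h2, h3⟩ := (NV_le_iff r t₀ x₀ _ P).mp hN
  set T := |dv P x₀| with hT
  have hc0 : 0 < |(P.c : ℝ)| := abs_pos.mpr (by exact_mod_cast hP.c_ne)
  have er : 0 < Real.exp (-r) := Real.exp_pos _
  -- smallness facts
  have hce : |(P.c : ℝ)| * |ev P x₀| ≤ 1 / 100 := by
    calc |(P.c : ℝ)| * |ev P x₀| ≤ (1 / 10 * Real.exp (2 * t₀ - r)) * (1 / 10 * Real.exp (-t₀)) :=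
          mul_le_mul h3 h1 (abs_nonneg _) (by positivity)
      _ = 1 / 100 * Real.exp (2 * t₀ - r + -t₀) := by rw [Real.exp_add]; ring
      _ ≤ 1 / 100 * Real.exp 0 := mul_exp_le (by norm_num) (by linarith)
      _ = 1 / 100 := by simp
  have hT1 : 0.97 ≤ T := by
    have := hP.one_le x₀
    rw [← hT] at this
    have hT0 : 0 ≤ T := abs_nonneg _
    nlinarith
  have hcr : |(P.c : ℝ)| * Real.exp (-r) ≤ 1 / 10 := by
    calc |(P.c : ℝ)| * Real.exp (-r) ≤ (1 / 10 * Real.exp (2 * t₀ - r)) * Real.exp (-r) :=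
          mul_le_mul_of_nonneg_right h3 er.le
      _ = 1 / 10 * Real.exp (2 * t₀ - r + -r) := by rw [Real.exp_add]; ring
      _ ≤ 1 / 10 * Real.exp 0 := mul_exp_le (by norm_num) (by linarith)
      _ = 1 / 10 := by simp
  set a := 3 / 4 * T with ha
  have hapos : 0 < a := by rw [ha]; linarith
  -- slopes
  have hslope : ∀ x y, |x - x₀| ≤ Real.exp (-r) → |y - x₀| ≤ Real.exp (-r) →
      a ≤ |P.b + P.c * (x + y)| ∧ |P.b + P.c * (x + y)| ≤ 2 * a := by
    intro x y hx hy
    have e1 : (P.b : ℝ) + P.c * (x + y) = dv P x₀ + P.c * ((x - x₀) + (y - x₀)) := by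
      unfold dv; ring
    have e2 : |(P.c : ℝ) * ((x - x₀) + (y - x₀))| ≤ 1 / 5 := by
      rw [abs_mul]
      calc |(P.c : ℝ)| * |(x - x₀) + (y - x₀)| ≤ |(P.c : ℝ)| * (Real.exp (-r) + Real.exp (-r)) :=
            mul_le_mul_of_nonneg_left ((abs_add_le _ _).trans (add_le_add hx hy)) (abs_nonneg _)
        _ ≤ 1 / 5 := by linarith
    rw [e1]
    constructor
    · have := abs_sub_abs_le_abs_sub (dv P x₀) (-(P.c * ((x - x₀) + (y - x₀))))
      rw [abs_neg, sub_neg_eq_add] at this
      linarith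
    · have := abs_add_le (dv P x₀) (P.c * ((x - x₀) + (y - x₀)))
      linarith
  have hdiff : ∀ x y, |ev P x - ev P y| = |P.b + P.c * (x + y)| * |x - y| := by
    intro x y
    rw [← abs_mul]
    congr 1
    unfold ev; ring
  have hlow : ∀ x y, |x - x₀| ≤ Real.exp (-r) → |y - x₀| ≤ Real.exp (-r) →
      a * |x - y| ≤ |ev P x - ev P y| := by
    intro x y hx hy
    rw [hdiff]
    exact mul_le_mul_of_nonneg_right (hslope x y hx hy).1 (abs_nonneg _)
  have hup : ∀ x y, |x - x₀| ≤ Real.exp (-r) → |y - x₀| ≤ Real.exp (-r) →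
      |ev P x - ev P y| ≤ 2 * a * |x - y| := by
    intro x y hx hy
    rw [hdiff]
    exact mul_le_mul_of_nonneg_right (hslope x y hx hy).2 (abs_nonneg _)
  have hx₀ : |x₀ - x₀| ≤ Real.exp (-r) := by simpa using er.le
  -- the size at the coarse scale
  set U := max |ev P x₀| (Real.exp (-r) * a) with hU
  have hUpos : 0 < U := lt_of_lt_of_le (by positivity) (le_max_right _ _)
  set u := uV r x₀ P with hu
  have hupos : 0 < u := by
    rw [hu, uV]
    refine lt_of_lt_of_le ?_ (le_max_right _ _)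
    have : 0 < |dv P x₀| := by rw [← hT]; linarith
    positivity
  have huU : u ≤ 4 / 3 * U := by
    rw [hu, uV, ← hT]
    apply max_le
    · have := le_max_left |ev P x₀| (Real.exp (-r) * a)
      rw [← hU] at this
      have h0 := abs_nonneg (ev P x₀)
      linarith
    · have := le_max_right |ev P x₀| (Real.exp (-r) * a)
      rw [← hU] at this
      rw [ha] at this
      linarith
  have hlogcu : Real.log |(P.c : ℝ)| ≤ 2 * r + Real.log u := by
    have hle : |(P.c : ℝ)| ≤ Real.exp (2 * r) * u := by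
      have k1 : Real.exp (-r) * T ≤ u := by rw [hu, uV, ← hT]; exact le_max_right _ _
      have k2 : Real.exp (2 * r) * (Real.exp (-r) * T) = Real.exp r * T := by
        rw [← mul_assoc, ← Real.exp_add]; congr 2; ring
      have k3 : |(P.c : ℝ)| ≤ 1 / 10 * Real.exp r := by
        have : |(P.c : ℝ)| = |(P.c : ℝ)| * Real.exp (-r) * Real.exp r := by
          rw [mul_assoc, ← Real.exp_add]; simp
        rw [this]
        exact mul_le_mul_of_nonneg_right hcr (Real.exp_pos r).le
      have k4 : Real.exp (2 * r) * (Real.exp (-r) * T) ≤ Real.exp (2 * r) * u :=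
        mul_le_mul_of_nonneg_left k1 (Real.exp_pos _).le
      rw [k2] at k4
      have k5 : 0 < Real.exp r := Real.exp_pos r
      nlinarith
    have := Real.log_le_log hc0 hle
    rwa [Real.log_mul (Real.exp_pos _).ne' hupos.ne', Real.log_exp] at this
  obtain ⟨t, ht1, ht2, hatt⟩ := wV_attained (e := e) hr hupos hP.c_ne hlogcu
  refine ⟨t, ht1, ht2, ?_⟩
  set m := max (r + Real.log u) (Real.log |(P.c : ℝ)|) with hm
  -- pointwise bound
  have hpt : ∀ x ∈ E, wV e r' (τ x) x P
      ≤ Real.exp (-(2 - e) / 3 * r' + 2 - e * m) * (max |ev P x| (Real.exp (-r') * a))⁻¹ := by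
    intro x hx
    set v := max |ev P x| (Real.exp (-r') * a) with hv
    have hvpos : 0 < v := lt_of_lt_of_le (by positivity) (le_max_right _ _)
    have hdvx : a ≤ |dv P x| := by
      have := (hslope x x (hEx x hx) (hEx x hx)).1
      have e1 : (P.b : ℝ) + P.c * (x + x) = dv P x := by unfold dv; ring
      rwa [e1] at this
    have hvu : v ≤ uV r' x P := by
      rw [hv, uV]
      exact max_le_max le_rfl (mul_le_mul_of_nonneg_left hdvx (Real.exp_pos _).le)
    have h5 := wV_le (e := e) he (hτ x hx) hvpos hvu hP.c_ne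
    have hmm : m - 2 ≤ max (r' + Real.log v) (Real.log |(P.c : ℝ)|) := by
      rw [hm]
      have hsz := size_basic (f := ev P) hrr hapos (hEx x hx) (hup x x₀ (hEx x hx) hx₀)
      rw [← hU, ← hv] at hsz
      have hsz2 : Real.exp r * u ≤ 6 * (Real.exp r' * v) := by
        have : Real.exp r * u ≤ Real.exp r * (4 / 3 * U) :=
          mul_le_mul_of_nonneg_left huU (Real.exp_pos r).le
        linarith [mul_pos (Real.exp_pos r') hvpos]
      have hlog : r + Real.log u ≤ Real.log 6 + (r' + Real.log v) := by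
        have := Real.log_le_log (by positivity) hsz2
        rw [Real.log_mul (Real.exp_pos _).ne' hupos.ne', Real.log_exp,
          Real.log_mul (by norm_num) (by positivity),
          Real.log_mul (Real.exp_pos _).ne' hvpos.ne', Real.log_exp] at this
        exact this
      have h6 : Real.log 6 ≤ 2 := by
        rw [Real.log_le_iff_le_exp (by norm_num)]
        have e1 : (2.7 : ℝ) < Real.exp 1 := by
          have := Real.exp_one_gt_d9; linarith
        have : Real.exp 2 = Real.exp 1 * Real.exp 1 := by rw [← Real.exp_add]; norm_num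
        rw [this]; nlinarith
      rw [sub_le_iff_le_add]
      apply max_le
      · have := le_max_left (r' + Real.log v) (Real.log |(P.c : ℝ)|)
        linarith
      · have := le_max_right (r' + Real.log v) (Real.log |(P.c : ℝ)|)
        linarith
    calc wV e r' (τ x) x P ≤ _ := h5
      _ ≤ Real.exp (-(2 - e) / 3 * r' + 2 - e * m - Real.log v) := by
          apply Real.exp_le_exp.mpr
          have : e * (m - 2) ≤ e * max (r' + Real.log v) (Real.log |(P.c : ℝ)|) :=
            mul_le_mul_of_nonneg_left hmm (by linarith)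
          nlinarith
      _ = Real.exp (-(2 - e) / 3 * r' + 2 - e * m) * v⁻¹ := by
          rw [Real.exp_sub, Real.exp_log hvpos, div_eq_mul_inv]
  have hsum := sum_basic hrr hapos hE hEx hlow hup
  rw [← hU] at hsum
  have hUinv : U⁻¹ ≤ 4 / 3 * Real.exp (-Real.log u) := by
    rw [Real.exp_neg, Real.exp_log hupos, ← div_eq_mul_inv, le_div_iff₀ hupos,
      inv_mul_le_iff₀ hUpos]
    linarith
  have hexp2 : Real.exp 2 ≤ 7.4 := by
    have e1 : Real.exp 1 < 2.7182818286 := Real.exp_one_lt_d9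
    have : Real.exp 2 = Real.exp 1 * Real.exp 1 := by rw [← Real.exp_add]; norm_num
    have e0 := Real.exp_pos 1
    rw [this]; nlinarith
  have hr4 : 0 ≤ 4 + (r' - r) := by linarith
  calc ∑ x ∈ E, wV e r' (τ x) x P
      ≤ ∑ x ∈ E, Real.exp (-(2 - e) / 3 * r' + 2 - e * m)
          * (max |ev P x| (Real.exp (-r') * a))⁻¹ := Finset.sum_le_sum hpt
    _ = Real.exp (-(2 - e) / 3 * r' + 2 - e * m)
          * ∑ x ∈ E, (max |ev P x| (Real.exp (-r') * a))⁻¹ := by rw [Finset.mul_sum]
    _ ≤ Real.exp (-(2 - e) / 3 * r' + 2 - e * m)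
          * (8 * (4 + (r' - r)) * Real.exp (r' - r) * U⁻¹) :=
        mul_le_mul_of_nonneg_left hsum (Real.exp_pos _).le
    _ ≤ Real.exp (-(2 - e) / 3 * r' + 2 - e * m)
          * (8 * (4 + (r' - r)) * Real.exp (r' - r) * (4 / 3 * Real.exp (-Real.log u))) := by
        apply mul_le_mul_of_nonneg_left _ (Real.exp_pos _).le
        apply mul_le_mul_of_nonneg_left hUinv (by positivity)
    _ = (32 / 3 * Real.exp 2) * (4 + (r' - r)) * (Real.exp ((1 + e) / 3 * (r' - r))
          * Real.exp (-(2 - e) / 3 * r - Real.log u - e * m)) := by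
        have k1 : Real.exp (-(2 - e) / 3 * r' + 2 - e * m) * Real.exp (r' - r)
            * Real.exp (-Real.log u) = Real.exp 2 * (Real.exp ((1 + e) / 3 * (r' - r))
            * Real.exp (-(2 - e) / 3 * r - Real.log u - e * m)) := by
          rw [← Real.exp_add, ← Real.exp_add, ← Real.exp_add, ← Real.exp_add]
          congr 1; ring
        calc _ = 32 / 3 * (4 + (r' - r)) * (Real.exp (-(2 - e) / 3 * r' + 2 - e * m)
            * Real.exp (r' - r) * Real.exp (-Real.log u)) := by ring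
          _ = _ := by rw [k1]; ring
    _ ≤ 100 * (4 + (r' - r)) * (Real.exp ((1 + e) / 3 * (r' - r))
          * Real.exp (-(2 - e) / 3 * r - Real.log u - e * m)) := by
        apply mul_le_mul_of_nonneg_right _ (by positivity)
        apply mul_le_mul_of_nonneg_right _ hr4
        linarith
    _ ≤ 100 * (4 + (r' - r)) * (Real.exp ((1 + e) / 3 * (r' - r)) * wV e r t x₀ P) := by
        apply mul_le_mul_of_nonneg_left _ (by positivity)
        exact mul_le_mul_of_nonneg_left hatt (Real.exp_pos _).le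
    _ = _ := by ring

/-- Sum of the weights of a fixed point at the finer scale. -/
theorem obj_P {e : ℝ} (he : 1 / 2 ≤ e) (he1 : e ≤ 1) {r r' t₀ x₀ : ℝ} {X : Z3} (hX : Nz X)
    (hr : 0 ≤ r) (hrr : r ≤ r') (ht₀' : t₀ ≤ r)
    (hN : NP r t₀ x₀ X ≤ 1 / 10) {E : Finset ℝ} (hE : Sep (Real.exp (-r')) E)
    (hEx : ∀ x ∈ E, |x - x₀| ≤ Real.exp (-r)) {τ : ℝ → ℝ} (hτ : ∀ x ∈ E, 2 * r' / 3 ≤ τ x) :
    ∃ t, 2 * r / 3 ≤ t ∧ t ≤ r ∧ ∑ x ∈ E, wP e r' (τ x) x X
      ≤ 100 * (4 + (r' - r)) * Real.exp ((1 + e) / 3 * (r' - r)) * wP e r t x₀ X := by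
  obtain ⟨h1, h2, h3⟩ := (NP_le_iff r t₀ x₀ _ X).mp hN
  have er : 0 < Real.exp (-r) := Real.exp_pos _
  set a := |(X.a : ℝ)| with ha
  set y₀ := |yv X x₀| with hy₀
  set z₀ := |zv X x₀| with hz₀
  have hy1 : y₀ ≤ 1 / 10 := by
    calc y₀ ≤ 1 / 10 * Real.exp (t₀ - r) := h2
      _ ≤ 1 / 10 * Real.exp 0 := mul_exp_le (by norm_num) (by linarith)
      _ = 1 / 10 := by simp
  have haz : 0.99 ≤ a * z₀ := by
    have := hX.one_le x₀
    rw [← ha, ← hy₀, ← hz₀] at this
    have h0 : 0 ≤ y₀ := abs_nonneg _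
    nlinarith
  have hapos : 0 < a := by
    rcases (abs_nonneg (X.a : ℝ)).lt_or_eq with h | h
    · exact h
    · rw [← ha] at h; rw [← h] at haz; norm_num at haz
  have hzpos : 0 < z₀ := by
    rcases (abs_nonneg (zv X x₀)).lt_or_eq with h | h
    · exact h
    · rw [← hz₀] at h; rw [← h] at haz; norm_num at haz
  have hz9 : 9.9 * Real.exp (-t₀) ≤ z₀ := by
    have k1 : 0.99 ≤ (1 / 10 * Real.exp t₀) * z₀ :=
      haz.trans (mul_le_mul_of_nonneg_right h1 hzpos.le)
    have k2 : Real.exp (-t₀) * Real.exp t₀ = 1 := by rw [← Real.exp_add]; simp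
    have k3 : 0 < Real.exp (-t₀) := Real.exp_pos _
    have k4 := mul_le_mul_of_nonneg_left k1 k3.le
    have k5 : Real.exp (-t₀) * (1 / 10 * Real.exp t₀ * z₀) = z₀ / 10 := by
      calc Real.exp (-t₀) * (1 / 10 * Real.exp t₀ * z₀)
          = 1 / 10 * (Real.exp (-t₀) * Real.exp t₀) * z₀ := by ring
        _ = z₀ / 10 := by rw [k2]; ring
    linarith
  -- stability of the last coordinate
  have hzst : ∀ x, |x - x₀| ≤ Real.exp (-r) → z₀ / 2 ≤ |zv X x| := by
    intro x hx
    have e2 : zv X x = zv X x₀ - (2 * ((x - x₀) * yv X x₀) - (x - x₀) ^ 2 * X.a) := by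
      unfold zv yv; ring
    have b1 : |(x - x₀) * yv X x₀| ≤ 1 / 10 * Real.exp (-t₀) := by
      rw [abs_mul]
      calc |x - x₀| * |yv X x₀| ≤ Real.exp (-r) * (1 / 10 * Real.exp (t₀ - r)) :=
            mul_le_mul hx h2 (abs_nonneg _) er.le
        _ = 1 / 10 * Real.exp (-r + (t₀ - r)) := by rw [Real.exp_add]; ring
        _ ≤ _ := mul_exp_le (by norm_num) (by linarith)
    have b2 : |(x - x₀) ^ 2 * (X.a : ℝ)| ≤ 1 / 10 * Real.exp (-t₀) := by
      have hsq : |(x - x₀) ^ 2| ≤ Real.exp (-2 * r) := by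
        rw [abs_pow, show (-2 * r) = -r + -r by ring, Real.exp_add, ← pow_two]
        exact pow_le_pow_left₀ (abs_nonneg _) hx 2
      rw [abs_mul]
      calc |(x - x₀) ^ 2| * |(X.a : ℝ)| ≤ Real.exp (-2 * r) * (1 / 10 * Real.exp t₀) :=
            mul_le_mul hsq h1 (abs_nonneg _) (Real.exp_pos _).le
        _ = 1 / 10 * Real.exp (-2 * r + t₀) := by rw [Real.exp_add]; ring
        _ ≤ _ := mul_exp_le (by norm_num) (by linarith)
    have b3 : |2 * ((x - x₀) * yv X x₀) - (x - x₀) ^ 2 * X.a| ≤ 3 / 10 * Real.exp (-t₀) := by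
      calc |2 * ((x - x₀) * yv X x₀) - (x - x₀) ^ 2 * X.a|
          ≤ |2 * ((x - x₀) * yv X x₀)| + |(x - x₀) ^ 2 * (X.a : ℝ)| := abs_sub _ _
        _ ≤ _ := by rw [abs_mul 2, abs_two]; linarith
    rw [e2]
    have := abs_sub_abs_le_abs_sub (zv X x₀) (2 * ((x - x₀) * yv X x₀) - (x - x₀) ^ 2 * X.a)
    rw [← hz₀] at this
    have k3 : 0 < Real.exp (-t₀) := Real.exp_pos _
    linarith
  have hdiff : ∀ x y, |yv X x - yv X y| = a * |x - y| := by
    intro x y
    rw [ha, ← abs_mul, ← abs_neg]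
    congr 1
    unfold yv; ring
  have hlow : ∀ x y, |x - x₀| ≤ Real.exp (-r) → |y - x₀| ≤ Real.exp (-r) →
      a * |x - y| ≤ |yv X x - yv X y| := fun x y _ _ => (hdiff x y).ge
  have hup : ∀ x y, |x - x₀| ≤ Real.exp (-r) → |y - x₀| ≤ Real.exp (-r) →
      |yv X x - yv X y| ≤ 2 * a * |x - y| := by
    intro x y _ _
    rw [hdiff]
    exact mul_le_mul_of_nonneg_right (by linarith) (abs_nonneg _)
  set U := uP r x₀ X with hU
  have hUeq : U = max |yv X x₀| (Real.exp (-r) * a) := rfl
  have hUpos : 0 < U := by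
    rw [hUeq]; exact lt_of_lt_of_le (by positivity) (le_max_right _ _)
  have hUz : Real.log U - Real.log z₀ ≤ r := by
    have k1 : U ≤ 1 / 10 := by
      rw [hUeq]
      apply max_le hy1
      calc Real.exp (-r) * a ≤ Real.exp (-r) * (1 / 10 * Real.exp t₀) :=
            mul_le_mul_of_nonneg_left h1 er.le
        _ = 1 / 10 * Real.exp (-r + t₀) := by rw [Real.exp_add]; ring
        _ ≤ 1 / 10 * Real.exp 0 := mul_exp_le (by norm_num) (by linarith)
        _ = 1 / 10 := by simp
    have k2 : 1 ≤ Real.exp r * z₀ := by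
      have : Real.exp r * (9.9 * Real.exp (-t₀)) ≤ Real.exp r * z₀ :=
        mul_le_mul_of_nonneg_left hz9 (Real.exp_pos r).le
      have k3 : Real.exp r * (9.9 * Real.exp (-t₀)) = 9.9 * Real.exp (r + -t₀) := by
        rw [Real.exp_add]; ring
      have k4 : 1 ≤ Real.exp (r + -t₀) := Real.one_le_exp (by linarith)
      linarith
    have k5 : U ≤ Real.exp r * z₀ := by linarith
    have := Real.log_le_log hUpos k5
    rw [Real.log_mul (Real.exp_pos _).ne' hzpos.ne', Real.log_exp] at this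
    linarith
  obtain ⟨t, ht1, ht2, hatt⟩ := wP_attained (e := e) (x := x₀) (X := X) hr hUpos hzpos hUz
  refine ⟨t, ht1, ht2, ?_⟩
  rw [← hU, ← hz₀] at hatt
  set m := max (Real.log z₀) (Real.log U) with hm
  have hlog2 : Real.log 2 ≤ 1 := by
    have := Real.log_two_lt_d9; linarith
  have hlz : Real.log (z₀ / 2) = Real.log z₀ - Real.log 2 :=
    Real.log_div hzpos.ne' (by norm_num)
  have hlog20 : 0 ≤ Real.log 2 := Real.log_nonneg (by norm_num)
  -- pointwise bound
  have hpt : ∀ x ∈ E, wP e r' (τ x) x X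
      ≤ Real.exp (-(2 - e) / 3 * r' - (1 - e) * Real.log z₀ + 1) *
        Real.exp (-max (Real.log (z₀ / 2)) (Real.log (uP r' x X))) := by
    intro x hx
    have hvpos : 0 < uP r' x X := by
      rw [uP, ← ha]; exact lt_of_lt_of_le (by positivity) (le_max_right _ _)
    have h5 := wP_le (e := e) he he1 (hτ x hx) hvpos (half_pos hzpos) le_rfl
      (hzst x (hEx x hx))
    refine h5.trans ?_
    rw [← Real.exp_add]
    apply Real.exp_le_exp.mpr
    rw [hlz]
    nlinarith
  have hsum : ∑ x ∈ E, Real.exp (-max (Real.log (z₀ / 2)) (Real.log (uP r' x X)))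
      ≤ 8 * (4 + (r' - r)) * Real.exp (r' - r) * Real.exp (-m) := by
    have hexp : (1 : ℝ) ≤ Real.exp (r' - r) := Real.one_le_exp (by linarith)
    rcases le_total (Real.log U) (Real.log z₀) with hc | hc
    · rw [hm, max_eq_left hc]
      have hterm : ∀ x ∈ E, Real.exp (-max (Real.log (z₀ / 2)) (Real.log (uP r' x X)))
          ≤ 2 * Real.exp (-Real.log z₀) := by
        intro x _
        have h6 : Real.exp (-max (Real.log (z₀ / 2)) (Real.log (uP r' x X)))
            ≤ Real.exp (-Real.log (z₀ / 2)) := by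
          apply Real.exp_le_exp.mpr
          have := le_max_left (Real.log (z₀ / 2)) (Real.log (uP r' x X))
          linarith
        refine h6.trans (le_of_eq ?_)
        rw [hlz, neg_sub, Real.exp_sub, Real.exp_log (by norm_num), Real.exp_neg, div_eq_mul_inv]
      have hcard : (E.card : ℝ) ≤ 3 * Real.exp (r' - r) := by
        have := hE.card_le (Real.exp_pos _) (Real.exp_pos _).le hEx
        rw [mul_div_assoc, ← Real.exp_sub, show -r - -r' = r' - r by ring] at this
        linarith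
      calc ∑ x ∈ E, Real.exp (-max (Real.log (z₀ / 2)) (Real.log (uP r' x X)))
          ≤ ∑ _x ∈ E, 2 * Real.exp (-Real.log z₀) := Finset.sum_le_sum hterm
        _ = E.card * (2 * Real.exp (-Real.log z₀)) := by rw [Finset.sum_const, nsmul_eq_mul]
        _ ≤ (3 * Real.exp (r' - r)) * (2 * Real.exp (-Real.log z₀)) :=
            mul_le_mul_of_nonneg_right hcard (by positivity)
        _ = 6 * Real.exp (r' - r) * Real.exp (-Real.log z₀) := by ring
        _ ≤ 8 * (4 + (r' - r)) * Real.exp (r' - r) * Real.exp (-Real.log z₀) := by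
            apply mul_le_mul_of_nonneg_right _ (by positivity)
            apply mul_le_mul_of_nonneg_right _ (by positivity)
            linarith
    · rw [hm, max_eq_right hc]
      have hterm : ∀ x ∈ E, Real.exp (-max (Real.log (z₀ / 2)) (Real.log (uP r' x X)))
          ≤ (max |yv X x| (Real.exp (-r') * a))⁻¹ := by
        intro x _
        have hvpos : 0 < uP r' x X := by
          rw [uP, ← ha]; exact lt_of_lt_of_le (by positivity) (le_max_right _ _)
        have h6 : Real.exp (-max (Real.log (z₀ / 2)) (Real.log (uP r' x X)))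
            ≤ Real.exp (-Real.log (uP r' x X)) := by
          apply Real.exp_le_exp.mpr
          have := le_max_right (Real.log (z₀ / 2)) (Real.log (uP r' x X))
          linarith
        refine h6.trans (le_of_eq ?_)
        rw [Real.exp_neg, Real.exp_log hvpos, uP, ← ha]
      have hb := sum_basic hrr hapos hE hEx hlow hup
      rw [← hUeq] at hb
      calc ∑ x ∈ E, Real.exp (-max (Real.log (z₀ / 2)) (Real.log (uP r' x X)))
          ≤ ∑ x ∈ E, (max |yv X x| (Real.exp (-r') * a))⁻¹ := Finset.sum_le_sum hterm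
        _ ≤ _ := hb
        _ = _ := by rw [Real.exp_neg (Real.log U), Real.exp_log hUpos]
  have hexp1 : Real.exp 1 ≤ 2.72 := by
    have e1 : Real.exp 1 < 2.7182818286 := Real.exp_one_lt_d9
    linarith
  have hr4 : 0 ≤ 4 + (r' - r) := by linarith
  calc ∑ x ∈ E, wP e r' (τ x) x X
      ≤ ∑ x ∈ E, Real.exp (-(2 - e) / 3 * r' - (1 - e) * Real.log z₀ + 1) *
        Real.exp (-max (Real.log (z₀ / 2)) (Real.log (uP r' x X))) := Finset.sum_le_sum hpt
    _ = Real.exp (-(2 - e) / 3 * r' - (1 - e) * Real.log z₀ + 1) *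
        ∑ x ∈ E, Real.exp (-max (Real.log (z₀ / 2)) (Real.log (uP r' x X))) := by
        rw [Finset.mul_sum]
    _ ≤ Real.exp (-(2 - e) / 3 * r' - (1 - e) * Real.log z₀ + 1) *
        (8 * (4 + (r' - r)) * Real.exp (r' - r) * Real.exp (-m)) :=
        mul_le_mul_of_nonneg_left hsum (Real.exp_pos _).le
    _ = (8 * Real.exp 1) * (4 + (r' - r)) * (Real.exp ((1 + e) / 3 * (r' - r))
          * Real.exp (-(2 - e) / 3 * r - (1 - e) * Real.log z₀ - m)) := by
        have k1 : Real.exp (-(2 - e) / 3 * r' - (1 - e) * Real.log z₀ + 1) * Real.exp (r' - r)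
            * Real.exp (-m) = Real.exp 1 * (Real.exp ((1 + e) / 3 * (r' - r))
            * Real.exp (-(2 - e) / 3 * r - (1 - e) * Real.log z₀ - m)) := by
          rw [← Real.exp_add, ← Real.exp_add, ← Real.exp_add, ← Real.exp_add]
          congr 1; ring
        calc _ = 8 * (4 + (r' - r)) * (Real.exp (-(2 - e) / 3 * r' - (1 - e) * Real.log z₀ + 1)
            * Real.exp (r' - r) * Real.exp (-m)) := by ring
          _ = _ := by rw [k1]; ring
    _ ≤ 100 * (4 + (r' - r)) * (Real.exp ((1 + e) / 3 * (r' - r))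
          * Real.exp (-(2 - e) / 3 * r - (1 - e) * Real.log z₀ - m)) := by
        apply mul_le_mul_of_nonneg_right _ (by positivity)
        apply mul_le_mul_of_nonneg_right _ hr4
        linarith
    _ ≤ 100 * (4 + (r' - r)) * (Real.exp ((1 + e) / 3 * (r' - r)) * wP e r t x₀ X) := by
        apply mul_le_mul_of_nonneg_left _ (by positivity)
        exact mul_le_mul_of_nonneg_left hatt (Real.exp_pos _).le
    _ = _ := by ring

end UE
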