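import Pool.Agent.Lib_helper29.UE4

/-!
# The largest weight, and the sums over one class of objects
-/

namespace UE

/-- The set of all weights at the point `x` and scale `r`. -/
def Wset (e r x : ℝ) : Set ℝ :=
  {w | ∃ t, 2 * r / 3 ≤ t ∧ t ≤ r ∧
    ((∃ P, Irr P ∧ w = wV e r t x P) ∨ (∃ X, Nz X ∧ w = wP e r t x X))}

/-- The largest weight. -/
noncomputable def MW (e r x : ℝ) : ℝ := sSup (Wset e r x)

theorem log_three_le : Real.log 3 ≤ 1.2 := by
  have h := Real.log_two_lt_d9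
  -- `3 ^ 2 = 8 * (9 / 8)`
  have h6 : 2 * Real.log 3 = 3 * Real.log 2 + Real.log (9 / 8) := by
    rw [← Real.log_rpow (by norm_num), ← Real.log_rpow (by norm_num),
      ← Real.log_mul (by norm_num) (by norm_num)]
    norm_num
  have h7 : Real.log (9 / 8) ≤ 9 / 8 - 1 := Real.log_le_sub_one_of_pos (by norm_num)
  linarith

theorem Wset_le {e r x w : ℝ} (he : 1 / 2 ≤ e) (he1 : e ≤ 1) (hr : 0 ≤ r)
    (hw : w ∈ Wset e r x) : w ≤ Real.exp (r + 4) := by
  obtain ⟨t, ht, htr, h⟩ := hw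
  have hG : 0 ≤ (2 * e - 1) * (t - 2 * r / 3) := mul_nonneg (by linarith) (by linarith)
  rcases h with ⟨P, hP, rfl⟩ | ⟨X, hX, rfl⟩
  · unfold wV
    apply Real.exp_le_exp.mpr
    have h1 := hP.NV_ge x htr
    have h2 : (t - r) - Real.log 3 ≤ Real.log (NV r t x P) := by
      have := Real.log_le_log (by positivity) h1
      rwa [Real.log_div (Real.exp_pos _).ne' (by norm_num), Real.log_exp] at this
    have h3 := log_three_le
    have h4 : (1 + e) * ((t - r) - Real.log 3) ≤ (1 + e) * Real.log (NV r t x P) :=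
      mul_le_mul_of_nonneg_left h2 (by linarith)
    have h5 : 0 ≤ Real.log 3 := Real.log_nonneg (by norm_num)
    nlinarith
  · unfold wP
    apply Real.exp_le_exp.mpr
    have h1 := hX.NP_ge x htr
    have h2 : (t - r) / 2 - Real.log 2 ≤ Real.log (NP r t x X) := by
      have := Real.log_le_log (by positivity) h1
      rwa [Real.log_div (Real.exp_pos _).ne' (by norm_num), Real.log_exp] at this
    have h3 := Real.log_two_lt_d9
    have h4 : (2 - e) * ((t - r) / 2 - Real.log 2) ≤ (2 - e) * Real.log (NP r t x X) :=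
      mul_le_mul_of_nonneg_left h2 (by linarith)
    have h5 : 0 ≤ Real.log 2 := Real.log_nonneg (by norm_num)
    nlinarith

theorem Wset_bdd {e r : ℝ} (x : ℝ) (he : 1 / 2 ≤ e) (he1 : e ≤ 1) (hr : 0 ≤ r) :
    BddAbove (Wset e r x) := ⟨_, fun _ hw => Wset_le he he1 hr hw⟩

theorem MW_nonneg (e r x : ℝ) : 0 ≤ MW e r x := by
  apply Real.sSup_nonneg
  rintro w ⟨t, _, _, ⟨P, _, rfl⟩ | ⟨X, _, rfl⟩⟩
  · exact (wV_pos _ _ _ _ _).le
  · exact (wP_pos _ _ _ _ _).le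

theorem MW_le {e r x : ℝ} (he : 1 / 2 ≤ e) (he1 : e ≤ 1) (hr : 0 ≤ r) :
    MW e r x ≤ Real.exp (r + 4) :=
  Real.sSup_le (fun _ hw => Wset_le he he1 hr hw) (Real.exp_pos _).le

theorem wV_le_MW {e r t x : ℝ} {P : Z3} (he : 1 / 2 ≤ e) (he1 : e ≤ 1) (hr : 0 ≤ r)
    (ht : 2 * r / 3 ≤ t) (htr : t ≤ r) (hP : Irr P) : wV e r t x P ≤ MW e r x :=
  le_csSup (Wset_bdd x he he1 hr) ⟨t, ht, htr, Or.inl ⟨P, hP, rfl⟩⟩

theorem wP_le_MW {e r t x : ℝ} {P : Z3} (he : 1 / 2 ≤ e) (he1 : e ≤ 1) (hr : 0 ≤ r)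
    (ht : 2 * r / 3 ≤ t) (htr : t ≤ r) (hP : Nz P) : wP e r t x P ≤ MW e r x :=
  le_csSup (Wset_bdd x he he1 hr) ⟨t, ht, htr, Or.inr ⟨P, hP, rfl⟩⟩

theorem MW_near {e r x : ℝ} (hpos : 0 < MW e r x) : ∃ w ∈ Wset e r x, MW e r x ≤ 2 * w := by
  have hne : (Wset e r x).Nonempty := by
    by_contra h
    rw [Set.not_nonempty_iff_eq_empty] at h
    rw [MW, h, Real.sSup_empty] at hpos
    exact lt_irrefl _ hpos
  obtain ⟨w, hw, hlt⟩ := exists_lt_of_lt_csSup hne (show MW e r x / 2 < sSup (Wset e r x) by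
    change MW e r x / 2 < MW e r x; linarith)
  exact ⟨w, hw, by linarith⟩

/-! ### Transfer between scales -/

theorem wV_transfer {e r r' t t' x x' k : ℝ} {P : Z3} (he : 1 / 2 ≤ e) (he1 : e ≤ 1)
    (hP : Irr P) (hr : r ≤ r') (hrk : r' - r ≤ k) (ht : t ≤ t') (htk : t' - t ≤ k)
    (htr : t ≤ r) (htr' : t' ≤ r') (hx : |x - x'| ≤ Real.exp (-r)) :
    wV e r' t' x' P ≤ Real.exp (3 + 5 * k) * wV e r t x P := by
  unfold wV
  rw [← Real.exp_add]
  apply Real.exp_le_exp.mpr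
  have h1 := NV_compare P hr hrk ht htk htr' hx
  have hp := hP.NV_pos x htr
  have hp' := hP.NV_pos x' htr'
  have h2 := Real.log_le_log hp h1
  rw [Real.log_mul (by positivity) hp'.ne', Real.log_mul (by norm_num) (Real.exp_pos _).ne',
    Real.log_exp] at h2
  have h3 := log_three_le
  have h4 : (1 + e) * Real.log (NV r t x P)
      ≤ (1 + e) * (Real.log 3 + 2 * k + Real.log (NV r' t' x' P)) :=
    mul_le_mul_of_nonneg_left h2 (by linarith)
  have hk : 0 ≤ k := by linarith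
  have h5 : (1 + e) * (Real.log 3 + 2 * k) ≤ 2 * (1.2 + 2 * k) := by
    have : 0 ≤ Real.log 3 := Real.log_nonneg (by norm_num)
    nlinarith
  have h6 : (2 * e - 1) * (t - 2 * r / 3 - (t' - 2 * r' / 3)) ≤ 2 / 3 * k := by
    have h7 : t - 2 * r / 3 - (t' - 2 * r' / 3) ≤ 2 / 3 * k := by linarith
    calc (2 * e - 1) * (t - 2 * r / 3 - (t' - 2 * r' / 3)) ≤ (2 * e - 1) * (2 / 3 * k) :=
          mul_le_mul_of_nonneg_left h7 (by linarith)
      _ ≤ 1 * (2 / 3 * k) := mul_le_mul_of_nonneg_right (by linarith) (by linarith)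
      _ = 2 / 3 * k := one_mul _
  nlinarith

theorem wP_transfer {e r r' t t' x x' k : ℝ} {X : Z3} (he : 1 / 2 ≤ e) (he1 : e ≤ 1)
    (hX : Nz X) (hr : r ≤ r') (hrk : r' - r ≤ k) (ht : t ≤ t') (htk : t' - t ≤ k)
    (htr : t ≤ r) (htr' : t' ≤ r') (hx : |x - x'| ≤ Real.exp (-r)) :
    wP e r' t' x' X ≤ Real.exp (3 + 5 * k) * wP e r t x X := by
  unfold wP
  rw [← Real.exp_add]
  apply Real.exp_le_exp.mpr
  have h1 := NP_compare X hr hrk ht htk htr htr' hx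
  have hp := hX.NP_pos x htr
  have hp' := hX.NP_pos x' htr'
  have h2 := Real.log_le_log hp h1
  rw [Real.log_mul (by positivity) hp'.ne', Real.log_mul (by norm_num) (Real.exp_pos _).ne',
    Real.log_exp] at h2
  have h3 : Real.log 4 ≤ 1.4 := by
    have := Real.log_two_lt_d9
    have h : Real.log 4 = 2 * Real.log 2 := by
      rw [show (4 : ℝ) = 2 * 2 by norm_num, Real.log_mul (by norm_num) (by norm_num)]; ring
    linarith
  have h4 : (2 - e) * Real.log (NP r t x X)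
      ≤ (2 - e) * (Real.log 4 + k + Real.log (NP r' t' x' X)) :=
    mul_le_mul_of_nonneg_left h2 (by linarith)
  have hk : 0 ≤ k := by linarith
  have h5 : (2 - e) * (Real.log 4 + k) ≤ 2 * (1.4 + k) := by
    have : 0 ≤ Real.log 4 := Real.log_nonneg (by norm_num)
    nlinarith
  have h6 : (2 * e - 1) * (t - 2 * r / 3 - (t' - 2 * r' / 3)) ≤ 2 / 3 * k := by
    have h7 : t - 2 * r / 3 - (t' - 2 * r' / 3) ≤ 2 / 3 * k := by linarith
    calc (2 * e - 1) * (t - 2 * r / 3 - (t' - 2 * r' / 3)) ≤ (2 * e - 1) * (2 / 3 * k) :=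
          mul_le_mul_of_nonneg_left h7 (by linarith)
      _ ≤ 1 * (2 / 3 * k) := mul_le_mul_of_nonneg_right (by linarith) (by linarith)
      _ = 2 / 3 * k := one_mul _
  nlinarith

/-! ### Cross products of two short objects -/

theorem cross_V {e r t x ℓ : ℝ} {P Q : Z3} (he : 1 / 2 ≤ e) (he1 : e ≤ 4 / 5) (hr : 0 ≤ r)
    (ht : 2 * r / 3 ≤ t) (htr : t ≤ r) (hP : Irr P) (hne : crs Q P ≠ ⟨0, 0, 0⟩)
    (hle : NV r t x Q ≤ NV r t x P) (hℓ : 0 ≤ ℓ) (hw : Real.exp ℓ ≤ wV e r t x P) :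
    wV e r t x P ≤ Real.exp (2 - ℓ / 3) * MW e r x := by
  have hX := Nz_crs hP hne
  have h1 := wP_le_MW (x := x) he (by linarith) hr ht htr hX
  refine le_trans ?_ (mul_le_mul_of_nonneg_left h1 (Real.exp_pos _).le)
  have hpP := hP.NV_pos x htr
  have hpX := hX.NP_pos x htr
  set n := Real.log (NV r t x P) with hn
  have h2 : Real.log (NP r t x (crs Q P)) ≤ Real.log 2 + 2 * n := by
    have h3 : NP r t x (crs Q P) ≤ 2 * (NV r t x P * NV r t x P) := by
      calc NP r t x (crs Q P) ≤ 2 * NV r t x Q * NV r t x P := NP_crs_le _ _ _ _ _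
        _ ≤ 2 * NV r t x P * NV r t x P := by gcongr
        _ = _ := by ring
    have := Real.log_le_log hpX h3
    rw [Real.log_mul (by norm_num) (by positivity), Real.log_mul hpP.ne' hpP.ne'] at this
    linarith
  have hG : 0 ≤ (2 * e - 1) * (t - 2 * r / 3) := mul_nonneg (by linarith) (by linarith)
  unfold wV wP at *
  rw [← hn] at hw ⊢
  rw [Real.exp_le_exp] at hw
  rw [← Real.exp_add]
  apply Real.exp_le_exp.mpr
  have hl2 := Real.log_two_lt_d9
  have hl20 : 0 ≤ Real.log 2 := Real.log_nonneg (by norm_num)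
  have h5 : (2 - e) * Real.log (NP r t x (crs Q P)) ≤ (2 - e) * (Real.log 2 + 2 * n) :=
    mul_le_mul_of_nonneg_left h2 (by linarith)
  have h6 : ℓ ≤ (1 + e) * (-n) := by linarith
  have h7 : 0 ≤ -n := by
    by_contra hneg
    push Not at hneg
    nlinarith
  have h8 : (1 + e) * (-n) ≤ 9 * (1 - e) * (-n) := mul_le_mul_of_nonneg_right (by linarith) h7
  nlinarith

theorem cross_P {e r t x ℓ : ℝ} {X Y : Z3} (he : 1 / 2 ≤ e) (he1 : e ≤ 4 / 5) (hr : 0 ≤ r)
    (ht : 2 * r / 3 ≤ t) (htr : t ≤ r) (hX : Nz X) (hirr : Irr (crs Y X))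
    (hle : NP r t x Y ≤ NP r t x X) (hℓ : 0 ≤ ℓ) (hw : Real.exp ℓ ≤ wP e r t x X) :
    wP e r t x X ≤ Real.exp (2 - ℓ / 3) * MW e r x := by
  have h1 := wV_le_MW (x := x) he (by linarith) hr ht htr hirr
  refine le_trans ?_ (mul_le_mul_of_nonneg_left h1 (Real.exp_pos _).le)
  have hpP := hX.NP_pos x htr
  have hpX := hirr.NV_pos x htr
  set n := Real.log (NP r t x X) with hn
  have h2 : Real.log (NV r t x (crs Y X)) ≤ Real.log 2 + 2 * n := by
    have h3 : NV r t x (crs Y X) ≤ 2 * (NP r t x X * NP r t x X) := by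
      calc NV r t x (crs Y X) ≤ 2 * NP r t x Y * NP r t x X := NV_crs_le _ _ _ _ _
        _ ≤ 2 * NP r t x X * NP r t x X := by gcongr
        _ = _ := by ring
    have := Real.log_le_log hpX h3
    rw [Real.log_mul (by norm_num) (by positivity), Real.log_mul hpP.ne' hpP.ne'] at this
    linarith
  have hG : 0 ≤ (2 * e - 1) * (t - 2 * r / 3) := mul_nonneg (by linarith) (by linarith)
  unfold wV wP at *
  rw [← hn] at hw ⊢
  rw [Real.exp_le_exp] at hw
  rw [← Real.exp_add]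
  apply Real.exp_le_exp.mpr
  have hl2 := Real.log_two_lt_d9
  have hl20 : 0 ≤ Real.log 2 := Real.log_nonneg (by norm_num)
  have h5 : (1 + e) * Real.log (NV r t x (crs Y X)) ≤ (1 + e) * (Real.log 2 + 2 * n) :=
    mul_le_mul_of_nonneg_left h2 (by linarith)
  have h6 : ℓ ≤ (2 - e) * (-n) := by linarith
  have h7 : 0 ≤ -n := by
    by_contra hneg
    push Not at hneg
    nlinarith
  have h8 : (2 - e) * (-n) ≤ 9 * e * (-n) := mul_le_mul_of_nonneg_right (by linarith) h7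
  nlinarith

/-! ### Proportional objects -/

theorem prop_of_crs {P Q : Z3} (h : crs Q P = ⟨0, 0, 0⟩) (hQ : Q ≠ ⟨0, 0, 0⟩) :
    ∃ ρ : ℝ, (P.a : ℝ) = ρ * Q.a ∧ (P.b : ℝ) = ρ * Q.b ∧ (P.c : ℝ) = ρ * Q.c := by
  have h1 : Q.b * P.c - Q.c * P.b = 0 := congrArg Z3.a h
  have h2 : Q.c * P.a - Q.a * P.c = 0 := congrArg Z3.b h
  have h3 : Q.a * P.b - Q.b * P.a = 0 := congrArg Z3.c h
  have r1 : (Q.b : ℝ) * P.c = Q.c * P.b := by exact_mod_cast sub_eq_zero.mp h1
  have r2 : (Q.c : ℝ) * P.a = Q.a * P.c := by exact_mod_cast sub_eq_zero.mp h2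
  have r3 : (Q.a : ℝ) * P.b = Q.b * P.a := by exact_mod_cast sub_eq_zero.mp h3
  by_cases ha : Q.a = 0
  · by_cases hb : Q.b = 0
    · have hc : Q.c ≠ 0 := by
        intro hc
        apply hQ
        ext <;> simp [ha, hb, hc]
      have hc' : (Q.c : ℝ) ≠ 0 := by exact_mod_cast hc
      refine ⟨P.c / Q.c, ?_, ?_, ?_⟩
      · field_simp; linarith
      · field_simp; linarith
      · field_simp
    · have hb' : (Q.b : ℝ) ≠ 0 := by exact_mod_cast hb
      refine ⟨P.b / Q.b, ?_, ?_, ?_⟩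
      · field_simp; linarith
      · field_simp
      · field_simp; linarith
  · have ha' : (Q.a : ℝ) ≠ 0 := by exact_mod_cast ha
    refine ⟨P.a / Q.a, ?_, ?_, ?_⟩
    · field_simp
    · field_simp; linarith
    · field_simp; linarith

theorem NV_smul {P Q : Z3} {ρ : ℝ} (ha : (P.a : ℝ) = ρ * Q.a) (hb : (P.b : ℝ) = ρ * Q.b)
    (hc : (P.c : ℝ) = ρ * Q.c) (r t x : ℝ) : NV r t x P = |ρ| * NV r t x Q := by
  have e1 : ev P x = ρ * ev Q x := by unfold ev; rw [ha, hb, hc]; ring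
  have e2 : dv P x = ρ * dv Q x := by unfold dv; rw [hb, hc]; ring
  unfold NV
  rw [e1, e2, hc, abs_mul, abs_mul, abs_mul, mul_max_of_nonneg _ _ (abs_nonneg ρ),
    mul_max_of_nonneg _ _ (abs_nonneg ρ)]
  congr 1
  · ring
  · congr 1 <;> ring

theorem NP_smul {P Q : Z3} {ρ : ℝ} (ha : (P.a : ℝ) = ρ * Q.a) (hb : (P.b : ℝ) = ρ * Q.b)
    (hc : (P.c : ℝ) = ρ * Q.c) (r t x : ℝ) : NP r t x P = |ρ| * NP r t x Q := by
  have e1 : yv P x = ρ * yv Q x := by unfold yv; rw [ha, hb]; ring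
  have e2 : zv P x = ρ * zv Q x := by unfold zv; rw [ha, hb, hc]; ring
  unfold NP
  rw [e1, e2, ha, abs_mul, abs_mul, abs_mul, mul_max_of_nonneg _ _ (abs_nonneg ρ),
    mul_max_of_nonneg _ _ (abs_nonneg ρ)]
  congr 1
  · ring
  · congr 1 <;> ring

theorem wV_prop {e r t x r' t' x' : ℝ} {P Q : Z3} (he : 1 / 2 ≤ e) (hQ : Irr Q)
    (h : crs Q P = ⟨0, 0, 0⟩) (htr : t ≤ r) (htr' : t' ≤ r')
    (hle : NV r t x Q ≤ NV r t x P) : wV e r' t' x' P ≤ wV e r' t' x' Q := by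
  have hQ0 : Q ≠ ⟨0, 0, 0⟩ := by
    intro h0
    apply hQ.c_ne
    rw [h0]
  obtain ⟨ρ, ha, hb, hc⟩ := prop_of_crs h hQ0
  have h1 := NV_smul ha hb hc r t x
  have hp := hQ.NV_pos x htr
  have hρ : 1 ≤ |ρ| := by
    rw [h1] at hle
    by_contra hlt
    push Not at hlt
    nlinarith
  have h2 := NV_smul ha hb hc r' t' x'
  have hp' := hQ.NV_pos x' htr'
  have h3 : NV r' t' x' Q ≤ NV r' t' x' P := by rw [h2]; nlinarith
  unfold wV
  apply Real.exp_le_exp.mpr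
  have h4 := Real.log_le_log hp' h3
  nlinarith

theorem wP_prop {e r t x r' t' x' : ℝ} {P Q : Z3} (he1 : e ≤ 1) (hQ : Nz Q)
    (h : crs Q P = ⟨0, 0, 0⟩) (htr : t ≤ r) (htr' : t' ≤ r')
    (hle : NP r t x Q ≤ NP r t x P) : wP e r' t' x' P ≤ wP e r' t' x' Q := by
  have hQ0 : Q ≠ ⟨0, 0, 0⟩ := by
    intro h0
    apply hQ
    rw [h0]; norm_num
  obtain ⟨ρ, ha, hb, hc⟩ := prop_of_crs h hQ0
  have h1 := NP_smul ha hb hc r t x
  have hp := hQ.NP_pos x htr
  have hρ : 1 ≤ |ρ| := by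
    rw [h1] at hle
    by_contra hlt
    push Not at hlt
    nlinarith
  have h2 := NP_smul ha hb hc r' t' x'
  have hp' := hQ.NP_pos x' htr'
  have h3 : NP r' t' x' Q ≤ NP r' t' x' P := by rw [h2]; nlinarith
  unfold wP
  apply Real.exp_le_exp.mpr
  have h4 := Real.log_le_log hp' h3
  nlinarith

end UE
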