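import Pool.Agent.Lib_helper29.UE5

/-!
# Sums over one class
-/

namespace UE

theorem exp_neg_three_le : Real.exp (-3) ≤ 1 / 10 := by
  have e1 : (2.7 : ℝ) < Real.exp 1 := by
    have := Real.exp_one_gt_d9; linarith
  have e3 : Real.exp 3 = Real.exp 1 * Real.exp 1 * Real.exp 1 := by
    rw [← Real.exp_add, ← Real.exp_add]; norm_num
  have h10 : 10 ≤ Real.exp 3 := by
    rw [e3]
    have : 7 ≤ Real.exp 1 * Real.exp 1 := by nlinarith
    nlinarith
  rw [Real.exp_neg, inv_le_comm₀ (Real.exp_pos _) (by norm_num)]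
  norm_num
  exact h10

theorem small_V {e r t x ℓ : ℝ} {P : Z3} (he : 1 / 2 ≤ e) (he1 : e ≤ 1)
    (ht : 2 * r / 3 ≤ t) (htr : t ≤ r) (hP : Irr P) (hℓ : 6 ≤ ℓ)
    (hw : Real.exp ℓ ≤ wV e r t x P) : NV r t x P ≤ 1 / 10 := by
  have hG : 0 ≤ (2 * e - 1) * (t - 2 * r / 3) := mul_nonneg (by linarith) (by linarith)
  have hp := hP.NV_pos x htr
  unfold wV at hw
  rw [Real.exp_le_exp] at hw
  have h1 : 6 ≤ (1 + e) * (-Real.log (NV r t x P)) := by linarith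
  have h2 : Real.log (NV r t x P) ≤ -3 := by
    by_contra hneg
    push Not at hneg
    nlinarith
  calc NV r t x P = Real.exp (Real.log (NV r t x P)) := (Real.exp_log hp).symm
    _ ≤ Real.exp (-3) := Real.exp_le_exp.mpr h2
    _ ≤ 1 / 10 := exp_neg_three_le

theorem small_P {e r t x ℓ : ℝ} {P : Z3} (he : 1 / 2 ≤ e) (he1 : e ≤ 1)
    (ht : 2 * r / 3 ≤ t) (htr : t ≤ r) (hP : Nz P) (hℓ : 6 ≤ ℓ)
    (hw : Real.exp ℓ ≤ wP e r t x P) : NP r t x P ≤ 1 / 10 := by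
  have hG : 0 ≤ (2 * e - 1) * (t - 2 * r / 3) := mul_nonneg (by linarith) (by linarith)
  have hp := hP.NP_pos x htr
  unfold wP at hw
  rw [Real.exp_le_exp] at hw
  have h1 : 6 ≤ (2 - e) * (-Real.log (NP r t x P)) := by linarith
  have h2 : Real.log (NP r t x P) ≤ -3 := by
    by_contra hneg
    push Not at hneg
    nlinarith
  calc NP r t x P = Real.exp (Real.log (NP r t x P)) := (Real.exp_log hp).symm
    _ ≤ Real.exp (-3) := Real.exp_le_exp.mpr h2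
    _ ≤ 1 / 10 := exp_neg_three_le

theorem card_close {r r' x₀ k : ℝ} (hrr : r ≤ r') (hrk : r' - r ≤ k) {G : Finset ℝ}
    (hG : Sep (Real.exp (-r')) G) (hGx : ∀ x ∈ G, |x - x₀| ≤ Real.exp (-r)) :
    (G.card : ℝ) ≤ 3 * Real.exp k := by
  have := hG.card_le (Real.exp_pos _) (Real.exp_pos _).le hGx
  rw [mul_div_assoc, ← Real.exp_sub, show -r - -r' = r' - r by ring] at this
  have h1 : Real.exp (r' - r) ≤ Real.exp k := Real.exp_le_exp.mpr hrk
  have h2 : 1 ≤ Real.exp k := Real.one_le_exp (by linarith)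
  linarith

/-- A sum of few small terms. -/
theorem sum_small {G : Finset ℝ} {w : ℝ → ℝ} {k ℓ M : ℝ} (hk : 0 ≤ k)
    (hcard : (G.card : ℝ) ≤ 3 * Real.exp k) (hM : 0 ≤ M)
    (hw : ∀ x ∈ G, w x ≤ Real.exp (3 + 5 * k) * (Real.exp (2 - ℓ / 3) * M))
    (hℓ : 27 + 25 * k ≤ ℓ) : ∑ x ∈ G, w x ≤ M := by
  calc ∑ x ∈ G, w x ≤ ∑ _x ∈ G, Real.exp (3 + 5 * k) * (Real.exp (2 - ℓ / 3) * M) :=
        Finset.sum_le_sum hw
    _ = G.card * (Real.exp (3 + 5 * k) * (Real.exp (2 - ℓ / 3) * M)) := by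
        rw [Finset.sum_const, nsmul_eq_mul]
    _ ≤ (3 * Real.exp k) * (Real.exp (3 + 5 * k) * (Real.exp (2 - ℓ / 3) * M)) :=
        mul_le_mul_of_nonneg_right hcard (by positivity)
    _ = (3 * Real.exp (5 + 6 * k - ℓ / 3)) * M := by
        have : Real.exp (5 + 6 * k - ℓ / 3)
            = Real.exp k * Real.exp (3 + 5 * k) * Real.exp (2 - ℓ / 3) := by
          rw [← Real.exp_add, ← Real.exp_add]; congr 1; ring
        rw [this]; ring
    _ ≤ 1 * M := by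
        apply mul_le_mul_of_nonneg_right _ hM
        have h1 : Real.exp (5 + 6 * k - ℓ / 3) ≤ Real.exp (-3) :=
          Real.exp_le_exp.mpr (by linarith)
        have := exp_neg_three_le
        linarith
    _ = M := one_mul M

theorem class_V {e r r' t k ℓ x₀ : ℝ} (he : 1 / 2 ≤ e) (he1 : e ≤ 4 / 5) (hr : 0 ≤ r)
    (hrr : r ≤ r') (hrk : r' - r ≤ k) (ht : 2 * r / 3 ≤ t) (htr : t ≤ r) {G : Finset ℝ}
    (hG : Sep (Real.exp (-r')) G) (hGx : ∀ x ∈ G, |x - x₀| ≤ Real.exp (-r))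
    {τ : ℝ → ℝ} {O : ℝ → Z3} (hO : ∀ x ∈ G, Irr (O x))
    (hτ1 : ∀ x ∈ G, t ≤ τ x) (hτ2 : ∀ x ∈ G, τ x - t ≤ k) (hτ3 : ∀ x ∈ G, 2 * r' / 3 ≤ τ x)
    (hτ4 : ∀ x ∈ G, τ x ≤ r') (hw : ∀ x ∈ G, Real.exp ℓ ≤ wV e r' (τ x) x (O x))
    (hℓ : 30 * (1 + k) ≤ ℓ) :
    ∑ x ∈ G, wV e r' (τ x) x (O x)
      ≤ (100 * (4 + (r' - r)) * Real.exp ((1 + e) / 3 * (r' - r)) + 1) * MW e r x₀ := by
  classical
  have hM := MW_nonneg e r x₀
  have hk : 0 ≤ k := by linarith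
  rcases G.eq_empty_or_nonempty with hemp | hne
  · rw [hemp, Finset.sum_empty]
    have : 0 ≤ 4 + (r' - r) := by linarith
    positivity
  obtain ⟨b, hb, hbmin⟩ := Finset.exists_min_image G (fun x => NV r t x₀ (O x)) hne
  set Q := O b with hQ
  have hx0 : ∀ x ∈ G, |x₀ - x| ≤ Real.exp (-r) := fun x hx => by
    rw [abs_sub_comm]; exact hGx x hx
  have htrans : ∀ x ∈ G, wV e r' (τ x) x (O x) ≤ Real.exp (3 + 5 * k) * wV e r t x₀ (O x) :=
    fun x hx => wV_transfer he (by linarith) (hO x hx) hrr hrk (hτ1 x hx) (hτ2 x hx) htr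
      (hτ4 x hx) (hx0 x hx)
  set ℓ₁ := ℓ - (3 + 5 * k) with hℓ₁
  have hw1 : ∀ x ∈ G, Real.exp ℓ₁ ≤ wV e r t x₀ (O x) := by
    intro x hx
    have h1 := (hw x hx).trans (htrans x hx)
    rw [hℓ₁, Real.exp_sub, div_le_iff₀ (Real.exp_pos _), mul_comm]
    exact h1
  have hsmall : NV r t x₀ Q ≤ 1 / 10 :=
    small_V he (by linarith) ht htr (hO b hb) (by linarith) (hw1 b hb)
  rw [← Finset.sum_filter_add_sum_filter_not G (fun x => crs Q (O x) = ⟨0, 0, 0⟩), add_mul,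
    one_mul]
  apply add_le_add
  · set A := G.filter (fun x => crs Q (O x) = ⟨0, 0, 0⟩) with hA
    have hAG : A ⊆ G := Finset.filter_subset _ _
    obtain ⟨t', ht1', ht2', hsum⟩ := obj_V he (by linarith) (hO b hb) hr hrr htr hsmall
      (hG.subset hAG) (fun x hx => hGx x (hAG hx)) (τ := τ) (fun x hx => hτ3 x (hAG hx))
    calc ∑ x ∈ A, wV e r' (τ x) x (O x) ≤ ∑ x ∈ A, wV e r' (τ x) x Q := by
          apply Finset.sum_le_sum
          intro x hx
          exact wV_prop he (hO b hb) (Finset.mem_filter.mp hx).2 htr (hτ4 x (hAG hx))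
            (hbmin x (hAG hx))
      _ ≤ _ := hsum
      _ ≤ _ := by
          apply mul_le_mul_of_nonneg_left (wV_le_MW he (by linarith) hr ht1' ht2' (hO b hb))
          have : 0 ≤ 4 + (r' - r) := by linarith
          positivity
  · set A := G.filter (fun x => ¬ crs Q (O x) = ⟨0, 0, 0⟩) with hA
    have hAG : A ⊆ G := Finset.filter_subset _ _
    apply sum_small (ℓ := ℓ₁) hk _ hM _ (by linarith)
    · exact (card_close hrr hrk (hG.subset hAG) (fun x hx => hGx x (hAG hx)))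
    · intro x hx
      refine (htrans x (hAG hx)).trans ?_
      apply mul_le_mul_of_nonneg_left _ (Real.exp_pos _).le
      exact cross_V he he1 hr ht htr (hO x (hAG hx)) (Finset.mem_filter.mp hx).2
        (hbmin x (hAG hx)) (by linarith) (hw1 x (hAG hx))

theorem class_P {e r r' t k ℓ x₀ C₀ : ℝ} (he : 1 / 2 ≤ e) (he1 : e ≤ 4 / 5) (hr : 0 ≤ r)
    (hrr : r ≤ r') (hrk : r' - r ≤ k) (ht : 2 * r / 3 ≤ t) (htr : t ≤ r) {G : Finset ℝ}
    (hG : Sep (Real.exp (-r')) G) (hGx : ∀ x ∈ G, |x - x₀| ≤ Real.exp (-r))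
    {τ : ℝ → ℝ} {O : ℝ → Z3} (hO : ∀ x ∈ G, Nz (O x))
    (hτ1 : ∀ x ∈ G, t ≤ τ x) (hτ2 : ∀ x ∈ G, τ x - t ≤ k) (hτ3 : ∀ x ∈ G, 2 * r' / 3 ≤ τ x)
    (hτ4 : ∀ x ∈ G, τ x ≤ r') (hw : ∀ x ∈ G, Real.exp ℓ ≤ wP e r' (τ x) x (O x))
    (hℓ : 30 * (1 + k) ≤ ℓ) (hC : C₀ < Real.exp (ℓ - (3 + 5 * k)))
    (hred : ∀ X : Z3, Nz X → ∀ Q : Z3, Q ≠ ⟨0, 0, 0⟩ → ¬ Irr Q →
      NV r t x₀ Q ≤ 2 * NP r t x₀ X ^ 2 → wP e r t x₀ X ≤ C₀) :
    ∑ x ∈ G, wP e r' (τ x) x (O x)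
      ≤ (100 * (4 + (r' - r)) * Real.exp ((1 + e) / 3 * (r' - r)) + 1) * MW e r x₀ := by
  classical
  have hM := MW_nonneg e r x₀
  have hk : 0 ≤ k := by linarith
  rcases G.eq_empty_or_nonempty with hemp | hne
  · rw [hemp, Finset.sum_empty]
    have : 0 ≤ 4 + (r' - r) := by linarith
    positivity
  obtain ⟨b, hb, hbmin⟩ := Finset.exists_min_image G (fun x => NP r t x₀ (O x)) hne
  set Q := O b with hQ
  have hx0 : ∀ x ∈ G, |x₀ - x| ≤ Real.exp (-r) := fun x hx => by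
    rw [abs_sub_comm]; exact hGx x hx
  have htrans : ∀ x ∈ G, wP e r' (τ x) x (O x) ≤ Real.exp (3 + 5 * k) * wP e r t x₀ (O x) :=
    fun x hx => wP_transfer he (by linarith) (hO x hx) hrr hrk (hτ1 x hx) (hτ2 x hx) htr
      (hτ4 x hx) (hx0 x hx)
  set ℓ₁ := ℓ - (3 + 5 * k) with hℓ₁
  have hw1 : ∀ x ∈ G, Real.exp ℓ₁ ≤ wP e r t x₀ (O x) := by
    intro x hx
    have h1 := (hw x hx).trans (htrans x hx)
    rw [hℓ₁, Real.exp_sub, div_le_iff₀ (Real.exp_pos _), mul_comm]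
    exact h1
  have hsmall : NP r t x₀ Q ≤ 1 / 10 :=
    small_P he (by linarith) ht htr (hO b hb) (by linarith) (hw1 b hb)
  rw [← Finset.sum_filter_add_sum_filter_not G (fun x => crs Q (O x) = ⟨0, 0, 0⟩), add_mul,
    one_mul]
  apply add_le_add
  · set A := G.filter (fun x => crs Q (O x) = ⟨0, 0, 0⟩) with hA
    have hAG : A ⊆ G := Finset.filter_subset _ _
    obtain ⟨t', ht1', ht2', hsum⟩ := obj_P he (by linarith) (hO b hb) hr hrr htr hsmall
      (hG.subset hAG) (fun x hx => hGx x (hAG hx)) (τ := τ) (fun x hx => hτ3 x (hAG hx))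
    calc ∑ x ∈ A, wP e r' (τ x) x (O x) ≤ ∑ x ∈ A, wP e r' (τ x) x Q := by
          apply Finset.sum_le_sum
          intro x hx
          exact wP_prop (by linarith) (hO b hb) (Finset.mem_filter.mp hx).2 htr
            (hτ4 x (hAG hx)) (hbmin x (hAG hx))
      _ ≤ _ := hsum
      _ ≤ _ := by
          apply mul_le_mul_of_nonneg_left (wP_le_MW he (by linarith) hr ht1' ht2' (hO b hb))
          have : 0 ≤ 4 + (r' - r) := by linarith
          positivity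
  · set A := G.filter (fun x => ¬ crs Q (O x) = ⟨0, 0, 0⟩) with hA
    have hAG : A ⊆ G := Finset.filter_subset _ _
    apply sum_small (ℓ := ℓ₁) hk _ hM _ (by linarith)
    · exact (card_close hrr hrk (hG.subset hAG) (fun x hx => hGx x (hAG hx)))
    · intro x hx
      refine (htrans x (hAG hx)).trans ?_
      apply mul_le_mul_of_nonneg_left _ (Real.exp_pos _).le
      have hirr : Irr (crs Q (O x)) := by
        by_contra hnirr
        have h1 := hred (O x) (hO x (hAG hx)) (crs Q (O x)) (Finset.mem_filter.mp hx).2 hnirr (by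
          have h2 := hbmin x (hAG hx)
          have h3 := NP_nonneg r t x₀ (O x)
          calc NV r t x₀ (crs Q (O x)) ≤ 2 * NP r t x₀ Q * NP r t x₀ (O x) := NV_crs_le _ _ _ _ _
            _ ≤ 2 * NP r t x₀ (O x) * NP r t x₀ (O x) := by gcongr
            _ = 2 * NP r t x₀ (O x) ^ 2 := by ring)
        have h4 := hw1 x (hAG hx)
        linarith
      exact cross_P he he1 hr ht htr (hO x (hAG hx)) hirr
        (hbmin x (hAG hx)) (by linarith) (hw1 x (hAG hx))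

end UE
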