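import Pool.Agent.Lib_helper29.UE6

/-!
# One step of the recursion
-/

namespace UE

instance : Inhabited Z3 := ⟨⟨0, 0, 0⟩⟩

/-- The bound for the sums of the largest weights over separated subsets of `S`. -/
def Bd (e : ℝ) (S : Set ℝ) (r B : ℝ) : Prop :=
  ∀ E : Finset ℝ, (∀ x ∈ E, x ∈ S) → Sep (Real.exp (-r)) E → ∑ x ∈ E, MW e r x ≤ B

/-- Reducible cross products do not matter at the point `x` and scale `r`. -/
def Red (e r x C₀ : ℝ) : Prop :=
  ∀ t, 2 * r / 3 ≤ t → t ≤ r → ∀ X : Z3, Nz X → ∀ Q : Z3, Q ≠ ⟨0, 0, 0⟩ → ¬ Irr Q →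
    NV r t x Q ≤ 2 * NP r t x X ^ 2 → wP e r t x X ≤ C₀

theorem exists_net (E' : Finset ℝ) {ρ : ℝ} (hρ : 0 < ρ) :
    ∃ E ⊆ E', Sep ρ E ∧ ∀ x ∈ E', ∃ y ∈ E, |x - y| ≤ ρ := by
  classical
  induction E' using Finset.induction with
  | empty => exact ⟨∅, Finset.Subset.refl _, by intro x hx; simp at hx, by intro x hx; simp at hx⟩
  | insert a s _ ih =>
    obtain ⟨E, hEs, hsep, hcov⟩ := ih
    by_cases h : ∃ y ∈ E, |a - y| ≤ ρ
    · refine ⟨E, hEs.trans (Finset.subset_insert _ _), hsep, ?_⟩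
      intro x hx
      rcases Finset.mem_insert.mp hx with rfl | hx
      · exact h
      · exact hcov x hx
    · push Not at h
      refine ⟨insert a E, Finset.insert_subset_insert _ hEs, ?_, ?_⟩
      · intro x hx y hy hxy
        rcases Finset.mem_insert.mp hx with hxa | hx'
        · rcases Finset.mem_insert.mp hy with hya | hy'
          · exact absurd (hxa.trans hya.symm) hxy
          · rw [hxa]; exact (h y hy').le
        · rcases Finset.mem_insert.mp hy with hya | hy'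
          · rw [hya, abs_sub_comm]; exact (h x hx').le
          · exact hsep x hx' y hy' hxy
      · intro x hx
        rcases Finset.mem_insert.mp hx with rfl | hx
        · exact ⟨x, Finset.mem_insert_self _ _, by simpa using hρ.le⟩
        · obtain ⟨y, hy, hxy⟩ := hcov x hx
          exact ⟨y, Finset.mem_insert_of_mem hy, hxy⟩

/-- Grouping a sum by the nearest net point and by the class of the parameter. -/
theorem group_sum {e r r' k A : ℝ} {n : ℕ} (hn : 0 < n) (hr : 0 < r) (hrr : r ≤ r')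
    (hk : r' - r + r / (3 * n) ≤ k) {E F : Finset ℝ} {π τ w : ℝ → ℝ}
    (hπ : ∀ x ∈ F, π x ∈ E) (hπ' : ∀ x ∈ F, |x - π x| ≤ Real.exp (-r))
    (hτ : ∀ x ∈ F, 2 * r' / 3 ≤ τ x) (hτ' : ∀ x ∈ F, τ x ≤ r')
    (hclass : ∀ y ∈ E, ∀ t, 2 * r / 3 ≤ t → t ≤ r → ∀ G ⊆ F,
      (∀ x ∈ G, |x - y| ≤ Real.exp (-r)) → (∀ x ∈ G, t ≤ τ x) → (∀ x ∈ G, τ x - t ≤ k) →
      ∑ x ∈ G, w x ≤ A * MW e r y) :
    ∑ x ∈ F, w x ≤ (n + 1) * A * ∑ y ∈ E, MW e r y := by
  classical
  have hr' : 0 < r' := by linarith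
  have hn' : (0 : ℝ) < n := by exact_mod_cast hn
  rw [← Finset.sum_fiberwise_of_maps_to hπ w, Finset.mul_sum]
  apply Finset.sum_le_sum
  intro y hy
  set Fy := F.filter (fun x => π x = y) with hFy
  have hFyF : Fy ⊆ F := Finset.filter_subset _ _
  have hpos : ∀ x ∈ F, 0 ≤ 3 * n * (τ x / r' - 2 / 3) := by
    intro x hx
    have : 2 / 3 ≤ τ x / r' := by
      rw [le_div_iff₀ hr']; linarith [hτ x hx]
    have h0 : 0 ≤ τ x / r' - 2 / 3 := by linarith
    positivity
  have hidx : ∀ x ∈ Fy, ⌊3 * n * (τ x / r' - 2 / 3)⌋₊ ∈ Finset.range (n + 1) := by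
    intro x hx
    rw [Finset.mem_range, Nat.lt_succ_iff]
    have h1 : τ x / r' ≤ 1 := by
      rw [div_le_one hr']; exact hτ' x (hFyF hx)
    have h2 : 3 * n * (τ x / r' - 2 / 3) ≤ (n : ℝ) := by nlinarith
    calc ⌊3 * n * (τ x / r' - 2 / 3)⌋₊ ≤ ⌊(n : ℝ)⌋₊ := Nat.floor_le_floor h2
      _ = n := Nat.floor_natCast n
  rw [← Finset.sum_fiberwise_of_maps_to hidx w]
  have hbound : ∀ i ∈ Finset.range (n + 1),
      ∑ x ∈ Fy.filter (fun x => ⌊3 * n * (τ x / r' - 2 / 3)⌋₊ = i), w x ≤ A * MW e r y := by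
    intro i hi
    have hin : (i : ℝ) ≤ n := by
      have := Nat.lt_succ_iff.mp (Finset.mem_range.mp hi)
      exact_mod_cast this
    set t := (2 / 3 + i / (3 * n)) * r with ht
    have hi0 : (0 : ℝ) ≤ i / (3 * n) := by positivity
    have hi1 : (i : ℝ) / (3 * n) ≤ 1 / 3 := by
      rw [div_le_iff₀ (by positivity)]; linarith
    apply hclass y hy t
    · rw [ht]; nlinarith
    · rw [ht]; nlinarith
    · exact (Finset.filter_subset _ _).trans hFyF
    · intro x hx
      have hx1 := (Finset.mem_filter.mp hx).1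
      have hx2 := (Finset.mem_filter.mp hx1).2
      rw [← hx2]
      exact hπ' x (hFyF hx1)
    · intro x hx
      have hx1 := (Finset.mem_filter.mp hx).1
      have hfl := (Finset.mem_filter.mp hx).2
      have h1 := Nat.floor_le (hpos x (hFyF hx1))
      rw [hfl] at h1
      have h2 : 2 / 3 + i / (3 * n) ≤ τ x / r' := by
        have : (i : ℝ) / (3 * n) ≤ τ x / r' - 2 / 3 := by
          rw [div_le_iff₀ (by positivity)]; linarith
        linarith
      have h3 : 0 ≤ τ x / r' := by linarith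
      calc t = (2 / 3 + i / (3 * n)) * r := ht
        _ ≤ τ x / r' * r' := mul_le_mul h2 hrr hr.le h3
        _ = τ x := div_mul_cancel₀ _ hr'.ne'
    · intro x hx
      have hx1 := (Finset.mem_filter.mp hx).1
      have hfl := (Finset.mem_filter.mp hx).2
      have h1 := Nat.lt_floor_add_one (3 * n * (τ x / r' - 2 / 3))
      rw [hfl] at h1
      have hs1 : τ x / r' ≤ 1 := by
        rw [div_le_one hr']; exact hτ' x (hFyF hx1)
      have h2 : τ x / r' ≤ 2 / 3 + i / (3 * n) + 1 / (3 * n) := by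
        have : τ x / r' - 2 / 3 ≤ (i + 1) / (3 * n) := by
          rw [le_div_iff₀ (by positivity)]; linarith
        rw [add_div] at this
        linarith
      have h3 : τ x = τ x / r' * r' := (div_mul_cancel₀ _ hr'.ne').symm
      have h4 : τ x / r' * r ≤ t + r / (3 * n) := by
        calc τ x / r' * r ≤ (2 / 3 + i / (3 * n) + 1 / (3 * n)) * r :=
              mul_le_mul_of_nonneg_right h2 hr.le
          _ = t + r / (3 * n) := by rw [ht]; ring
      have h5 : τ x / r' * (r' - r) ≤ r' - r := by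
        calc τ x / r' * (r' - r) ≤ 1 * (r' - r) :=
              mul_le_mul_of_nonneg_right hs1 (by linarith)
          _ = r' - r := one_mul _
      have h6 : τ x = τ x / r' * (r' - r) + τ x / r' * r := by
        calc τ x = τ x / r' * r' := h3
          _ = _ := by ring
      linarith
  calc ∑ i ∈ Finset.range (n + 1),
        ∑ x ∈ Fy.filter (fun x => ⌊3 * n * (τ x / r' - 2 / 3)⌋₊ = i), w x
      ≤ ∑ _i ∈ Finset.range (n + 1), A * MW e r y := Finset.sum_le_sum hbound
    _ = (n + 1) * A * MW e r y := by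
        rw [Finset.sum_const, Finset.card_range, nsmul_eq_mul]; push_cast; ring

theorem step {e : ℝ} (he : 1 / 2 ≤ e) (he1 : e ≤ 4 / 5) {S : Set ℝ} {n : ℕ} (hn : 0 < n)
    {r r' k ℓ C₀ B : ℝ} (hr : 0 < r) (hrr : r ≤ r') (hk : r' - r + r / (3 * n) ≤ k)
    (hred : ∀ x ∈ S, Red e r x C₀) (hedge : ∀ x ∈ S, Real.exp (ℓ + 1) ≤ MW e r' x)
    (hℓ : 30 * (1 + k) ≤ ℓ) (hC : C₀ < Real.exp (ℓ - (3 + 5 * k))) (hB : Bd e S r B) :
    Bd e S r' (4 * (n + 1) *
      (100 * (4 + (r' - r)) * Real.exp ((1 + e) / 3 * (r' - r)) + 1) * B) := by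
  classical
  intro E' hE'S hE'sep
  obtain ⟨E, hEE', hEsep, hcov⟩ := exists_net E' (Real.exp_pos (-r))
  choose! π hπ using hcov
  have hrk : r' - r ≤ k := by
    have : 0 ≤ r / (3 * n) := by positivity
    linarith
  have hsumE := hB E (fun x hx => hE'S x (hEE' hx)) hEsep
  set A := 100 * (4 + (r' - r)) * Real.exp ((1 + e) / 3 * (r' - r)) + 1 with hA
  have hA0 : 0 ≤ A := by
    have : 0 ≤ 4 + (r' - r) := by linarith
    rw [hA]; positivity
  have hdata : ∀ x ∈ E', (∃ t P, 2 * r' / 3 ≤ t ∧ t ≤ r' ∧ Irr P ∧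
      MW e r' x ≤ 2 * wV e r' t x P) ∨ (∃ t X, 2 * r' / 3 ≤ t ∧ t ≤ r' ∧ Nz X ∧
      MW e r' x ≤ 2 * wP e r' t x X) := by
    intro x hx
    have hpos : 0 < MW e r' x := lt_of_lt_of_le (Real.exp_pos _) (hedge x (hE'S x hx))
    obtain ⟨w, ⟨t, ht1, ht2, hw⟩, hle⟩ := MW_near hpos
    rcases hw with ⟨P, hP, rfl⟩ | ⟨X, hX, rfl⟩
    · exact Or.inl ⟨t, P, ht1, ht2, hP, hle⟩
    · exact Or.inr ⟨t, X, ht1, ht2, hX, hle⟩
  have hhalf : Real.exp ℓ ≤ Real.exp (ℓ + 1) / 2 := by
    rw [Real.exp_add, le_div_iff₀ (by norm_num)]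
    have : (2 : ℝ) ≤ Real.exp 1 := by
      have := Real.exp_one_gt_d9; linarith
    exact mul_le_mul_of_nonneg_left this (Real.exp_pos ℓ).le
  set V : ℝ → Prop := fun x => ∃ t P, 2 * r' / 3 ≤ t ∧ t ≤ r' ∧ Irr P ∧
      MW e r' x ≤ 2 * wV e r' t x P with hV
  -- polynomials
  have hsumV : ∑ x ∈ E'.filter V, MW e r' x ≤ 2 * ((n + 1) * A * B) := by
    have hVx : ∀ x ∈ E'.filter V, V x := fun x hx => (Finset.mem_filter.mp hx).2
    choose! τ O h1 h2 h3 h4 using hVx
    have hFE : E'.filter V ⊆ E' := Finset.filter_subset _ _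
    calc ∑ x ∈ E'.filter V, MW e r' x ≤ ∑ x ∈ E'.filter V, 2 * wV e r' (τ x) x (O x) :=
          Finset.sum_le_sum h4
      _ = 2 * ∑ x ∈ E'.filter V, wV e r' (τ x) x (O x) := by rw [Finset.mul_sum]
      _ ≤ 2 * ((n + 1) * A * ∑ y ∈ E, MW e r y) := by
          apply mul_le_mul_of_nonneg_left _ (by norm_num)
          apply group_sum hn hr hrr hk (fun x hx => (hπ x (hFE hx)).1)
            (fun x hx => (hπ x (hFE hx)).2) h1 h2
          intro y _ t ht htr G hGF hG1 hG2 hG3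
          apply class_V he he1 hr.le hrr hrk ht htr (hE'sep.subset (hGF.trans hFE)) hG1
            (fun x hx => h3 x (hGF hx)) hG2 hG3 (fun x hx => h1 x (hGF hx))
            (fun x hx => h2 x (hGF hx)) _ hℓ
          intro x hx
          have h5 := h4 x (hGF hx)
          have h6 := hedge x (hE'S x (hFE (hGF hx)))
          linarith
      _ ≤ 2 * ((n + 1) * A * B) := by
          apply mul_le_mul_of_nonneg_left _ (by norm_num)
          exact mul_le_mul_of_nonneg_left hsumE (by positivity)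
  -- points
  have hsumP : ∑ x ∈ E'.filter (fun x => ¬ V x), MW e r' x ≤ 2 * ((n + 1) * A * B) := by
    have hVx : ∀ x ∈ E'.filter (fun x => ¬ V x), ∃ t X, 2 * r' / 3 ≤ t ∧ t ≤ r' ∧ Nz X ∧
        MW e r' x ≤ 2 * wP e r' t x X := fun x hx =>
      (hdata x (Finset.mem_filter.mp hx).1).resolve_left (Finset.mem_filter.mp hx).2
    choose! τ O h1 h2 h3 h4 using hVx
    have hFE : E'.filter (fun x => ¬ V x) ⊆ E' := Finset.filter_subset _ _
    calc ∑ x ∈ E'.filter (fun x => ¬ V x), MW e r' x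
        ≤ ∑ x ∈ E'.filter (fun x => ¬ V x), 2 * wP e r' (τ x) x (O x) :=
          Finset.sum_le_sum h4
      _ = 2 * ∑ x ∈ E'.filter (fun x => ¬ V x), wP e r' (τ x) x (O x) := by
          rw [Finset.mul_sum]
      _ ≤ 2 * ((n + 1) * A * ∑ y ∈ E, MW e r y) := by
          apply mul_le_mul_of_nonneg_left _ (by norm_num)
          apply group_sum hn hr hrr hk (fun x hx => (hπ x (hFE hx)).1)
            (fun x hx => (hπ x (hFE hx)).2) h1 h2
          intro y hy t ht htr G hGF hG1 hG2 hG3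
          apply class_P he he1 hr.le hrr hrk ht htr (hE'sep.subset (hGF.trans hFE)) hG1
            (fun x hx => h3 x (hGF hx)) hG2 hG3 (fun x hx => h1 x (hGF hx))
            (fun x hx => h2 x (hGF hx)) _ hℓ hC (hred y (hE'S y (hEE' hy)) t ht htr)
          intro x hx
          have h5 := h4 x (hGF hx)
          have h6 := hedge x (hE'S x (hFE (hGF hx)))
          linarith
      _ ≤ 2 * ((n + 1) * A * B) := by
          apply mul_le_mul_of_nonneg_left _ (by norm_num)
          exact mul_le_mul_of_nonneg_left hsumE (by positivity)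
  rw [← Finset.sum_filter_add_sum_filter_not E' V]
  calc _ ≤ 2 * ((n + 1) * A * B) + 2 * ((n + 1) * A * B) := add_le_add hsumV hsumP
    _ = _ := by ring

end UE
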