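import Pool.Agent.Lib_helper29.UE7

/-!
# The iteration and the counting bound
-/

namespace UE

open Filter Topology

theorem Bd.mono {e : ℝ} {S : Set ℝ} {r B B' : ℝ} (h : Bd e S r B) (hB : B ≤ B') : Bd e S r B' :=
  fun E hE hsep => (h E hE hsep).trans hB

theorem Bd_base {e : ℝ} (he : 1 / 2 ≤ e) (he1 : e ≤ 1) {S : Set ℝ} {M₀ r : ℝ} (hM0 : 0 ≤ M₀)
    (hr : 0 ≤ r) (hM₀ : ∀ x ∈ S, |x| ≤ M₀) :
    Bd e S r ((2 * M₀ / Real.exp (-r) + 1) * Real.exp (r + 4)) := by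
  intro E hE hsep
  have hcard := hsep.card_le (x₀ := 0) (Real.exp_pos _) hM0
    (fun x hx => by simpa using hM₀ x (hE x hx))
  calc ∑ x ∈ E, MW e r x ≤ ∑ _x ∈ E, Real.exp (r + 4) :=
        Finset.sum_le_sum (fun x _ => MW_le he he1 hr)
    _ = E.card * Real.exp (r + 4) := by rw [Finset.sum_const, nsmul_eq_mul]
    _ ≤ _ := mul_le_mul_of_nonneg_right hcard (Real.exp_pos _).le

theorem tendsto_lin {a : ℝ} (b : ℝ) (ha : 0 < a) :
    Tendsto (fun r : ℝ => a * r + b) atTop atTop :=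
  tendsto_atTop_add_const_right _ _ (tendsto_id.const_mul_atTop ha)

theorem ev_edge {c₁ a : ℝ} (hc₁ : 0 < c₁) (ha : 0 < a) : ∀ᶠ r : ℝ in atTop,
    Real.exp (a * r / 2 + 1) ≤ c₁ * Real.exp (a * r) := by
  have h1 : Tendsto (fun r : ℝ => Real.exp (a / 2 * r + (-1))) atTop atTop :=
    Real.tendsto_exp_atTop.comp (tendsto_lin _ (by positivity))
  filter_upwards [h1.eventually_ge_atTop (1 / c₁)] with r hr
  have h2 : Real.exp (a * r) = Real.exp (a / 2 * r + (-1)) * Real.exp (a * r / 2 + 1) := by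
    rw [← Real.exp_add]; congr 1; ring
  rw [div_le_iff₀ hc₁] at hr
  have h4 := Real.exp_pos (a * r / 2 + 1)
  calc Real.exp (a * r / 2 + 1) = 1 * Real.exp (a * r / 2 + 1) := (one_mul _).symm
    _ ≤ (Real.exp (a / 2 * r + (-1)) * c₁) * Real.exp (a * r / 2 + 1) :=
        mul_le_mul_of_nonneg_right hr h4.le
    _ = _ := by rw [h2]; ring

theorem ev_growth {n D b δ : ℝ} (hn : 0 ≤ n) (hD : 0 ≤ D) (hb : 0 < b) (hδ : 0 < δ) :
    ∀ᶠ r : ℝ in atTop, 4 * (n + 1) * (100 * (4 + δ * r) * Real.exp (D * (δ * r)) + 1)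
        ≤ Real.exp ((D + b) * (δ * r)) := by
  have h1 : Tendsto (fun y : ℝ => Real.exp y / y ^ 1) atTop atTop :=
    Real.tendsto_exp_div_pow_atTop 1
  have h2 : Tendsto (fun r : ℝ => b * (δ * r)) atTop atTop := by
    have := tendsto_lin (a := b * δ) 0 (by positivity)
    refine this.congr (fun r => by ring)
  have h3 := (h1.comp h2).eventually_ge_atTop (4 * (n + 1) * 501 / b)
  have h4 := (tendsto_lin (a := δ) 0 hδ).eventually_ge_atTop 1
  filter_upwards [h3, h4] with r h5 h6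
  simp only [Function.comp_apply, pow_one, add_zero] at h5 h6
  have h7 : 0 < δ * r := by linarith
  rw [le_div_iff₀ (by positivity)] at h5
  have h8 : 4 * (n + 1) * 501 * (δ * r) ≤ Real.exp (b * (δ * r)) := by
    refine le_trans (le_of_eq ?_) h5
    field_simp
  have h9 : (1 : ℝ) ≤ Real.exp (D * (δ * r)) := Real.one_le_exp (by positivity)
  calc 4 * (n + 1) * (100 * (4 + δ * r) * Real.exp (D * (δ * r)) + 1)
      ≤ 4 * (n + 1) * (501 * (δ * r) * Real.exp (D * (δ * r))) := by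
        apply mul_le_mul_of_nonneg_left _ (by positivity)
        have k1 : 100 * (4 + δ * r) ≤ 500 * (δ * r) := by linarith
        have k2 := mul_le_mul_of_nonneg_right k1 (Real.exp_pos (D * (δ * r))).le
        have k3 : 1 ≤ δ * r * Real.exp (D * (δ * r)) := by nlinarith
        linarith
    _ = 4 * (n + 1) * 501 * (δ * r) * Real.exp (D * (δ * r)) := by ring
    _ ≤ Real.exp (b * (δ * r)) * Real.exp (D * (δ * r)) :=
        mul_le_mul_of_nonneg_right h8 (Real.exp_pos _).le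
    _ = Real.exp ((D + b) * (δ * r)) := by rw [← Real.exp_add]; congr 1; ring

theorem step_ev {e : ℝ} (he : 1 / 2 ≤ e) (he1 : e ≤ 4 / 5) {S : Set ℝ}
    {r₀ C₀ c₁ ε₁ : ℝ}
    (hred : ∀ r, r₀ ≤ r → ∀ x ∈ S, Red e r x C₀) (hc₁ : 0 < c₁) (hε : 0 < ε₁)
    (hedge : ∀ r, r₀ ≤ r → ∀ x ∈ S, c₁ * Real.exp (ε₁ * r) ≤ MW e r x) {η₁ : ℝ} (hη : 0 < η₁) :
    ∃ δ r₁ : ℝ, 0 < δ ∧ δ ≤ η₁ / 8 ∧ r₀ ≤ r₁ ∧ 1 ≤ r₁ ∧ ∀ r, r₁ ≤ r → ∀ B, 0 ≤ B →
      Bd e S r B →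
      Bd e S ((1 + δ) * r) (Real.exp (((1 + e) / 3 + η₁ / 4) * (δ * r)) * B) := by
  set D := (1 + e) / 3 with hD
  have hD0 : 0 < D := by rw [hD]; linarith
  set κ := ε₁ / 200 with hκ
  have hκ0 : 0 < κ := by rw [hκ]; positivity
  set δ := min (κ / 2) (η₁ / 8) with hδ
  have hδ0 : 0 < δ := lt_min (by positivity) (by positivity)
  have hδκ : δ ≤ κ / 2 := min_le_left _ _
  have hδη : δ ≤ η₁ / 8 := min_le_right _ _
  obtain ⟨n, hn⟩ := exists_nat_gt (1 / κ)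
  have hn0 : 0 < n := by
    have : (0 : ℝ) < n := lt_trans (by positivity) hn
    exact_mod_cast this
  have hn1 : (1 : ℝ) / (3 * n) ≤ κ / 2 := by
    have hn' : (0 : ℝ) < n := by exact_mod_cast hn0
    rw [div_lt_iff₀ hκ0] at hn
    rw [div_le_iff₀ (by positivity)]
    nlinarith
  have hεδ : ε₁ ≤ ε₁ * (1 + δ) := by nlinarith
  have ev2 := ev_edge hc₁ (show 0 < ε₁ * (1 + δ) by positivity)
  have ev3 : ∀ᶠ r : ℝ in atTop, 30 * (1 + κ * r) ≤ ε₁ * (1 + δ) * r / 2 := by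
    have hpos : 0 < ε₁ * (1 + δ) / 2 - 30 * κ := by rw [hκ]; linarith
    filter_upwards [(tendsto_lin (-30) hpos).eventually_ge_atTop 0] with r hr
    linarith
  have ev4 : ∀ᶠ r : ℝ in atTop, C₀ < Real.exp (ε₁ * (1 + δ) * r / 2 - (3 + 5 * (κ * r))) := by
    have hpos : 0 < ε₁ * (1 + δ) / 2 - 5 * κ := by rw [hκ]; linarith
    have h1 : Tendsto (fun r : ℝ => Real.exp ((ε₁ * (1 + δ) / 2 - 5 * κ) * r + (-3))) atTop atTop :=
      Real.tendsto_exp_atTop.comp (tendsto_lin _ hpos)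
    filter_upwards [h1.eventually_gt_atTop C₀] with r hr
    refine hr.trans_le (le_of_eq ?_)
    congr 1; ring
  have ev5 := ev_growth (n := (n : ℝ)) (D := D) (b := η₁ / 4) (δ := δ) (by positivity) hD0.le
    (by positivity) hδ0
  obtain ⟨r₁, hr₁⟩ := eventually_atTop.mp ((((eventually_ge_atTop r₀).and
    (eventually_ge_atTop (1 : ℝ))).and (ev2.and ev3)).and (ev4.and ev5))
  refine ⟨δ, r₁, hδ0, hδη, (hr₁ r₁ le_rfl).1.1.1, (hr₁ r₁ le_rfl).1.1.2, ?_⟩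
  intro r hr B hB hBd
  obtain ⟨⟨⟨g0, g1⟩, g2, g3⟩, g4, g5⟩ := hr₁ r hr
  have hrpos : 0 < r := by linarith
  have hδr : 0 < δ * r := by positivity
  have hrr : r ≤ (1 + δ) * r := by linarith
  have hk : (1 + δ) * r - r + r / (3 * n) ≤ κ * r := by
    have h1 : r / (3 * n) = 1 / (3 * n) * r := by ring
    rw [h1]
    have h2 := mul_le_mul_of_nonneg_right hn1 hrpos.le
    have h3 := mul_le_mul_of_nonneg_right hδκ hrpos.le
    linarith
  have hedge' : ∀ x ∈ S, Real.exp (ε₁ * (1 + δ) * r / 2 + 1) ≤ MW e ((1 + δ) * r) x := by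
    intro x hx
    have h1 := hedge _ (g0.trans hrr) x hx
    rw [← mul_assoc] at h1
    exact g2.trans h1
  have h1 := step he he1 (S := S) (n := n) hn0 (r := r) (r' := (1 + δ) * r) (k := κ * r)
    (ℓ := ε₁ * (1 + δ) * r / 2) (C₀ := C₀) (B := B) hrpos hrr hk
    (hred r g0) hedge' g3 g4 hBd
  refine h1.mono ?_
  apply mul_le_mul_of_nonneg_right _ hB
  have h2 : (1 + δ) * r - r = δ * r := by ring
  rw [h2, ← hD]
  exact g5

theorem count_bound {e : ℝ} (he : 1 / 2 ≤ e) (he1 : e ≤ 4 / 5) {S : Set ℝ}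
    {M₀ r₀ C₀ c₁ ε₁ : ℝ} (hM0 : 0 ≤ M₀) (hM₀ : ∀ x ∈ S, |x| ≤ M₀)
    (hred : ∀ r, r₀ ≤ r → ∀ x ∈ S, Red e r x C₀) (hc₁ : 0 < c₁) (hε : 0 < ε₁)
    (hε' : ε₁ ≤ (1 + e) / 3)
    (hedge : ∀ r, r₀ ≤ r → ∀ x ∈ S, c₁ * Real.exp (ε₁ * r) ≤ MW e r x) {η : ℝ} (hη : 0 < η) :
    ∃ C r₁ : ℝ, 0 < C ∧ 0 < r₁ ∧ ∀ r, r₁ ≤ r → ∀ E : Finset ℝ, (∀ x ∈ E, x ∈ S) →
      Sep (Real.exp (-r)) E → (E.card : ℝ) ≤ C * Real.exp (((1 + e) / 3 - ε₁ + η) * r) := by
  set η₁ := min η 1 with hη₁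
  have hη₁0 : 0 < η₁ := lt_min hη one_pos
  have hη₁1 : η₁ ≤ 1 := min_le_right _ _
  have hη₁η : η₁ ≤ η := min_le_left _ _
  obtain ⟨δ, r₁, hδ0, hδη, hr0, hr1, hstep⟩ := step_ev he he1 hred hc₁ hε hedge hη₁0
  set D := (1 + e) / 3 with hD
  have hD0 : 0 < D := by rw [hD]; linarith
  have hD1 : D ≤ 1 := by rw [hD]; linarith
  have hr1pos : 0 < r₁ := by linarith
  set B₀ := (2 * M₀ / Real.exp (-r₁) + 1) * Real.exp (r₁ + 4) with hB₀
  have hB₀pos : 0 < B₀ := by rw [hB₀]; positivity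
  have hiter : ∀ j : ℕ, Bd e S ((1 + δ) ^ j * r₁)
      (Real.exp ((D + η₁ / 4) * ((1 + δ) ^ j * r₁ - r₁)) * B₀) := by
    intro j
    induction j with
    | zero =>
      simp only [pow_zero, one_mul, sub_self, mul_zero, Real.exp_zero]
      exact Bd_base he (by linarith) hM0 hr1pos.le hM₀
    | succ j ih =>
      have hge : r₁ ≤ (1 + δ) ^ j * r₁ := by
        have : 1 ≤ (1 + δ) ^ j := one_le_pow₀ (by linarith)
        nlinarith
      have h1 := hstep _ hge _ (by positivity) ih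
      have h2 : (1 + δ) ^ (j + 1) * r₁ = (1 + δ) * ((1 + δ) ^ j * r₁) := by ring
      rw [h2]
      refine h1.mono (le_of_eq ?_)
      rw [← mul_assoc, ← Real.exp_add]
      congr 2; ring
  refine ⟨B₀ / c₁, r₁, by positivity, hr1pos, ?_⟩
  intro r hr E hES hEsep
  have hrpos : 0 < r := by linarith
  obtain ⟨j, hj1, hj2⟩ := exists_nat_pow_near (x := r / r₁) (y := 1 + δ)
    (by rw [le_div_iff₀ hr1pos]; linarith) (by linarith)
  set r' := (1 + δ) ^ (j + 1) * r₁ with hr'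
  have hrr' : r ≤ r' := by
    rw [div_lt_iff₀ hr1pos] at hj2; exact hj2.le
  have hr'le : r' ≤ (1 + δ) * r := by
    rw [le_div_iff₀ hr1pos] at hj1
    calc r' = (1 + δ) * ((1 + δ) ^ j * r₁) := by rw [hr', pow_succ]; ring
      _ ≤ (1 + δ) * r := mul_le_mul_of_nonneg_left hj1 (by linarith)
  have hr0' : r₀ ≤ r' := by linarith
  have hsep' : Sep (Real.exp (-r')) E := hEsep.mono (Real.exp_le_exp.mpr (by linarith))
  have h1 := hiter (j + 1) E hES hsep'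
  rw [← hr'] at h1
  have h2 : (E.card : ℝ) * (c₁ * Real.exp (ε₁ * r')) ≤ ∑ x ∈ E, MW e r' x := by
    rw [← nsmul_eq_mul, ← Finset.sum_const]
    exact Finset.sum_le_sum (fun x hx => hedge r' hr0' x (hES x hx))
  have h3 : (E.card : ℝ) * (c₁ * Real.exp (ε₁ * r')) ≤
      Real.exp ((D + η₁ / 4) * r') * B₀ := by
    refine (h2.trans h1).trans ?_
    apply mul_le_mul_of_nonneg_right _ hB₀pos.le
    apply Real.exp_le_exp.mpr
    exact mul_le_mul_of_nonneg_left (by linarith) (by linarith)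
  have h4 : (E.card : ℝ) ≤ B₀ / c₁ * Real.exp ((D + η₁ / 4 - ε₁) * r') := by
    have h5 : Real.exp ((D + η₁ / 4 - ε₁) * r')
        = Real.exp ((D + η₁ / 4) * r') / Real.exp (ε₁ * r') := by
      rw [← Real.exp_sub]; congr 1; ring
    rw [h5]
    have h6 : 0 < c₁ * Real.exp (ε₁ * r') := by positivity
    rw [← le_div_iff₀ h6] at h3
    refine h3.trans (le_of_eq ?_)
    field_simp
  refine h4.trans ?_
  apply mul_le_mul_of_nonneg_left _ (by positivity)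
  apply Real.exp_le_exp.mpr
  have h7 : 0 ≤ D + η₁ / 4 - ε₁ := by linarith
  have h8 : (D + η₁ / 4 - ε₁) * r' ≤ (D + η₁ / 4 - ε₁) * ((1 + δ) * r) :=
    mul_le_mul_of_nonneg_left hr'le h7
  have h9 : (D + η₁ / 4 - ε₁) * δ ≤ η₁ / 4 := by
    have h10 : D + η₁ / 4 - ε₁ ≤ 2 := by linarith
    calc (D + η₁ / 4 - ε₁) * δ ≤ 2 * (η₁ / 8) := mul_le_mul h10 hδη hδ0.le (by norm_num)
      _ = η₁ / 4 := by ring
  have h11 : (D + η₁ / 4 - ε₁) * ((1 + δ) * r)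
      = (D + η₁ / 4 - ε₁) * r + (D + η₁ / 4 - ε₁) * δ * r := by ring
  have h12 : (D + η₁ / 4 - ε₁) * δ * r ≤ η₁ / 4 * r := mul_le_mul_of_nonneg_right h9 hrpos.le
  have h13 : η₁ * r ≤ η * r := mul_le_mul_of_nonneg_right hη₁η hrpos.le
  have h14 : 0 < η₁ * r := by positivity
  linarith

end UE
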