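import Pool.Agent.Lib_helper29.UE8

/-!
# Reducible polynomials, and the counting bound for the classes
-/

namespace UE

/-- Lower bounds for the distances to rational numbers. -/
def Dio (c v x : ℝ) : Prop :=
  ∀ A B : ℤ, A ≠ 0 → c * Real.exp (-v * Real.log |(A : ℝ)|) ≤ |A * x - B|

theorem exists_factor {Q : Z3} (hQ : Q ≠ ⟨0, 0, 0⟩) (h : ¬ Irr Q) :
    ∃ A B C E : ℤ, (A ≠ 0 ∨ B ≠ 0) ∧ (C ≠ 0 ∨ E ≠ 0) ∧ Q.c = A * C ∧
      Q.b = -(A * E + B * C) ∧ Q.a = B * E := by
  unfold Irr at h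
  push Not at h
  obtain ⟨A₀, B₀, hne, hzero⟩ := h
  have hg : Int.gcd A₀ B₀ ≠ 0 := by
    intro h0
    rw [Int.gcd_eq_zero_iff] at h0
    rcases hne with h1 | h1
    · exact h1 h0.1
    · exact h1 h0.2
  obtain ⟨A, B, hcop, hA, hB⟩ := Int.exists_gcd_one (Nat.pos_of_ne_zero hg)
  set g : ℤ := (Int.gcd A₀ B₀ : ℤ) with hgdef
  have hg0 : g ≠ 0 := by rw [hgdef]; exact_mod_cast hg
  have hcop' : IsCoprime A B := Int.isCoprime_iff_gcd_eq_one.mpr hcop
  have hform : Q.a * A ^ 2 + Q.b * A * B + Q.c * B ^ 2 = 0 := by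
    have h1 : g ^ 2 * (Q.a * A ^ 2 + Q.b * A * B + Q.c * B ^ 2) = 0 := by
      rw [hA, hB] at hzero
      linarith
    exact (mul_eq_zero.mp h1).resolve_left (pow_ne_zero 2 hg0)
  by_cases hA0 : A = 0
  · have hBne : B ≠ 0 := by
      intro hB0
      rw [hA0, hB0] at hcop
      simp at hcop
    have hc : Q.c = 0 := by
      rw [hA0] at hform
      have : Q.c * B ^ 2 = 0 := by linarith
      exact (mul_eq_zero.mp this).resolve_right (pow_ne_zero 2 hBne)
    refine ⟨0, -1, Q.b, -Q.a, Or.inr (by norm_num), ?_, by rw [hc]; ring, by ring, by ring⟩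
    by_contra hcon
    push Not at hcon
    apply hQ
    ext
    · simpa using hcon.2
    · simpa using hcon.1
    · simpa using hc
  · have h1 : A ∣ Q.c * B ^ 2 := ⟨-(Q.a * A + Q.b * B), by linarith⟩
    have h2 : A ∣ Q.c := (hcop'.pow_right (n := 2)).dvd_of_dvd_mul_right h1
    obtain ⟨C, hC⟩ := h2
    have h3 : Q.a * A + B * (Q.b + C * B) = 0 := by
      have : A * (Q.a * A + B * (Q.b + C * B)) = 0 := by
        rw [hC] at hform
        linarith
      exact (mul_eq_zero.mp this).resolve_left hA0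
    have h4 : A ∣ B * (Q.b + C * B) := ⟨-Q.a, by linarith⟩
    have h5 : A ∣ Q.b + C * B := hcop'.dvd_of_dvd_mul_left h4
    obtain ⟨E', hE'⟩ := h5
    have h6 : Q.a = B * (-E') := by
      have : A * (Q.a + B * E') = 0 := by
        rw [hE'] at h3
        linarith
      have := (mul_eq_zero.mp this).resolve_left hA0
      linarith
    refine ⟨A, B, C, -E', Or.inl hA0, ?_, hC, by linarith, h6⟩
    by_contra hcon
    push Not at hcon
    apply hQ
    obtain ⟨hc1, hc2⟩ := hcon
    have hc2' : E' = 0 := by linarith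
    ext
    · simp [h6, hc2']
    · have : Q.b = A * E' - C * B := by linarith
      simp [this, hc1, hc2']
    · simp [hC, hc1]

/-- The one-sided argument, with a nonzero first leading coefficient. -/
theorem red_aux {c v x r t : ℝ} (hc : 0 < c) (hc1 : c ≤ 1) (hv : 0 ≤ v) (hx : Dio c v x)
    (ht : 2 * r / 3 ≤ t) {Q : Z3} {A B C E : ℤ} (hAB : A ≠ 0)
    (hCE : C ≠ 0 ∨ E ≠ 0) (h1 : Q.c = A * C) (h2 : Q.b = -(A * E + B * C)) (h3 : Q.a = B * E) :
    2 * Real.log c + t + v * (r - 2 * t) ≤ (1 + v) * Real.log (NV r t x Q) := by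
  have hlogc : Real.log c ≤ 0 := Real.log_nonpos hc.le hc1
  have hev : ev Q x = (A * x - B) * (C * x - E) := by
    unfold ev; rw [h1, h2, h3]; push_cast; ring
  have hA' : 0 < |(A : ℝ)| := abs_pos.mpr (by exact_mod_cast hAB)
  have hxA := hx A B hAB
  have hxApos : 0 < |A * x - B| := lt_of_lt_of_le (by positivity) hxA
  by_cases hC : C = 0
  · have hE : E ≠ 0 := hCE.resolve_left (not_not.mpr hC)
    have hE1 := one_le_abs_of_ne hE
    have hevabs : |ev Q x| = |A * x - B| * |(E : ℝ)| := by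
      rw [hev, hC, abs_mul]; congr 1; push_cast; rw [zero_mul, zero_sub, abs_neg]
    have hdv : |dv Q x| = |(A : ℝ)| * |(E : ℝ)| := by
      have : dv Q x = -(A * E) := by
        unfold dv; rw [h1, h2, hC]; push_cast; ring
      rw [this, abs_neg, abs_mul]
    have n1 : t + Real.log (c * Real.exp (-v * Real.log |(A : ℝ)|)) ≤ Real.log (NV r t x Q) := by
      apply log_NV_ge (by positivity)
      apply NV_ge_ev
      rw [hevabs]
      nlinarith
    have n2 : (t - r) + Real.log |(A : ℝ)| ≤ Real.log (NV r t x Q) := by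
      apply log_NV_ge hA'
      refine le_trans ?_ (le_trans (le_max_left _ _) (le_max_right _ _))
      apply mul_le_mul_of_nonneg_left _ (Real.exp_pos _).le
      rw [hdv]
      nlinarith
    rw [Real.log_mul hc.ne' (Real.exp_pos _).ne', Real.log_exp] at n1
    have n3 : v * ((t - r) + Real.log |(A : ℝ)|) ≤ v * Real.log (NV r t x Q) :=
      mul_le_mul_of_nonneg_left n2 hv
    have n4 : 0 ≤ v * (3 * t - 2 * r) := mul_nonneg hv (by linarith)
    nlinarith
  · have hC' : 0 < |(C : ℝ)| := abs_pos.mpr (by exact_mod_cast hC)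
    have hxC := hx C E hC
    have hcc : 0 < |(Q.c : ℝ)| := by
      rw [h1]; push_cast; rw [abs_mul]; positivity
    have hlog : Real.log |(Q.c : ℝ)| = Real.log |(A : ℝ)| + Real.log |(C : ℝ)| := by
      rw [h1]; push_cast; rw [abs_mul, Real.log_mul hA'.ne' hC'.ne']
    have hevabs : c ^ 2 * Real.exp (-v * Real.log |(Q.c : ℝ)|) ≤ |ev Q x| := by
      rw [hev, abs_mul, hlog]
      calc c ^ 2 * Real.exp (-v * (Real.log |(A : ℝ)| + Real.log |(C : ℝ)|))
          = (c * Real.exp (-v * Real.log |(A : ℝ)|)) * (c * Real.exp (-v * Real.log |(C : ℝ)|)) := by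
            rw [mul_add, Real.exp_add]; ring
        _ ≤ _ := mul_le_mul hxA hxC (by positivity) (abs_nonneg _)
    have n1 : t + Real.log (c ^ 2 * Real.exp (-v * Real.log |(Q.c : ℝ)|))
        ≤ Real.log (NV r t x Q) := log_NV_ge (by positivity) (NV_ge_ev hevabs)
    have n2 : (r - 2 * t) + Real.log |(Q.c : ℝ)| ≤ Real.log (NV r t x Q) :=
      log_NV_ge hcc (NV_ge_c le_rfl)
    rw [Real.log_mul (by positivity) (Real.exp_pos _).ne', Real.log_exp, Real.log_pow] at n1
    push_cast at n1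
    have n3 : v * ((r - 2 * t) + Real.log |(Q.c : ℝ)|) ≤ v * Real.log (NV r t x Q) :=
      mul_le_mul_of_nonneg_left n2 hv
    nlinarith

/-- Reducible polynomials are not short. -/
theorem red_bound {c v x r t : ℝ} (hc : 0 < c) (hc1 : c ≤ 1) (hv : 0 ≤ v) (hx : Dio c v x)
    (ht : 2 * r / 3 ≤ t) (hr : 0 ≤ r) {Q : Z3} (hQ : Q ≠ ⟨0, 0, 0⟩) (hirr : ¬ Irr Q) :
    2 * Real.log c + t + v * (r - 2 * t) ≤ (1 + v) * Real.log (NV r t x Q) := by
  obtain ⟨A, B, C, E, hAB, hCE, h1, h2, h3⟩ := exists_factor hQ hirr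
  by_cases hA : A = 0
  · by_cases hC : C = 0
    · have hB : B ≠ 0 := hAB.resolve_left (not_not.mpr hA)
      have hE : E ≠ 0 := hCE.resolve_left (not_not.mpr hC)
      have hBE : B * E ≠ 0 := mul_ne_zero hB hE
      have hev : |ev Q x| = |((B * E : ℤ) : ℝ)| := by
        unfold ev; rw [h1, h2, h3, hA, hC]; push_cast; ring_nf
      have h4 := one_le_abs_of_ne hBE
      have n1 : t + Real.log 1 ≤ Real.log (NV r t x Q) := by
        apply log_NV_ge one_pos
        apply NV_ge_ev
        rw [hev]; exact h4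
      rw [Real.log_one, add_zero] at n1
      have hlogc : Real.log c ≤ 0 := Real.log_nonpos hc.le hc1
      have n3 : (1 + v) * t ≤ (1 + v) * Real.log (NV r t x Q) :=
        mul_le_mul_of_nonneg_left n1 (by linarith)
      have n4 : 0 ≤ v * (3 * t - r) := mul_nonneg hv (by linarith)
      nlinarith
    · exact red_aux (A := C) (B := E) (C := A) (E := B) hc hc1 hv hx ht hC hAB
        (by rw [h1]; ring) (by rw [h2]; ring) (by rw [h3]; ring)
  · exact red_aux hc hc1 hv hx ht hA hCE h1 h2 h3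

theorem red_of_dio {c v x r e : ℝ} (hc : 0 < c) (hc1 : c ≤ 1) (hv : 1 ≤ v) (hv2 : v ≤ 2)
    (hx : Dio c v x) (hr : 0 ≤ r) (he : e * (3 + v) = 2 * v) :
    Red e r x (Real.exp (1 - Real.log c)) := by
  have hlogc : Real.log c ≤ 0 := Real.log_nonpos hc.le hc1
  have he0 : 0 < e := by
    by_contra h
    push Not at h
    nlinarith
  have he1 : e ≤ 4 / 5 := by nlinarith
  have he2 : 1 / 2 ≤ e := by nlinarith
  intro t ht htr X hX Q hQ hirr hle
  have h1 := red_bound hc hc1 (by linarith) hx ht hr hQ hirr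
  have hp := hX.NP_pos x htr
  set m := Real.log (NP r t x X) with hm
  have hnz : (t - r) / 2 - Real.log 2 ≤ m := by
    have := Real.log_le_log (by positivity) (hX.NP_ge x htr)
    rwa [Real.log_div (Real.exp_pos _).ne' (by norm_num), Real.log_exp] at this
  have hl2 := Real.log_two_lt_d9
  have hl20 : 0 < Real.log 2 := Real.log_pos (by norm_num)
  -- positivity of the norm of Q
  have hQpos : 0 < NV r t x Q := by
    rcases (NV_nonneg r t x Q).lt_or_eq with h | h
    · exact h
    · exfalso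
      obtain ⟨k1, k2, k3⟩ := (NV_le_iff r t x 0 Q).mp h.symm.le
      simp only [zero_mul] at k1 k2 k3
      have e3 : (Q.c : ℝ) = 0 := abs_eq_zero.mp (le_antisymm k3 (abs_nonneg _))
      have e2 : dv Q x = 0 := abs_eq_zero.mp (le_antisymm k2 (abs_nonneg _))
      have e1 : ev Q x = 0 := abs_eq_zero.mp (le_antisymm k1 (abs_nonneg _))
      have e2' : (Q.b : ℝ) = 0 := by
        unfold dv at e2; rw [e3] at e2; linarith
      have e1' : (Q.a : ℝ) = 0 := by
        unfold ev at e1; rw [e3, e2'] at e1; linarith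
      apply hQ
      ext
      · exact_mod_cast e1'
      · exact_mod_cast e2'
      · exact_mod_cast e3
  have hlogQ : Real.log (NV r t x Q) ≤ Real.log 2 + 2 * m := by
    have := Real.log_le_log hQpos hle
    rw [Real.log_mul (by norm_num) (by positivity), Real.log_pow] at this
    push_cast at this
    exact this
  have h2 : 2 * Real.log c + t + v * (r - 2 * t) ≤ (1 + v) * (Real.log 2 + 2 * m) :=
    h1.trans (mul_le_mul_of_nonneg_left hlogQ (by linarith))
  have h3 : (2 - v) * (t - r - 2 * Real.log 2) ≤ (2 - v) * (2 * m) :=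
    mul_le_mul_of_nonneg_left (by linarith) (by linarith)
  -- the combination
  have h4 : 2 * Real.log c - 3 * (v - 1) * (t - 2 * r / 3) - (5 - v) * Real.log 2 ≤ 6 * m := by
    nlinarith
  unfold wP
  rw [← hm]
  apply Real.exp_le_exp.mpr
  have h5 : (2 - e) * (2 * Real.log c - 3 * (v - 1) * (t - 2 * r / 3) - (5 - v) * Real.log 2)
      ≤ (2 - e) * (6 * m) := mul_le_mul_of_nonneg_left h4 (by linarith)
  have h6 : (2 - e) * (v - 1) = 4 * e - 2 := by linarith
  have h7 : (2 - e) * (3 * (v - 1) * (t - 2 * r / 3)) = 3 * (4 * e - 2) * (t - 2 * r / 3) := by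
    rw [← h6]; ring
  have h8 : (2 - e) * ((5 - v) * Real.log 2) ≤ 6 * Real.log 2 := by
    have : (2 - e) * (5 - v) ≤ 6 := by nlinarith
    nlinarith
  have h9 : (2 - e) * (2 * Real.log c) ≥ 4 * Real.log c := by nlinarith
  nlinarith

end UE
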